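import Pool.Agent.Helper654_DO.Aux831b

/-!
# Conjugation of a diagonalizable `y₀ + n` to `y₀`, for `n` of positive degree
-/

set_option autoImplicit false

open Matrix Module Filter Topology

namespace Pool.Agent.Helper654_DO.gr

variable {N : ℕ} {P : GL (Fin N) ℝ} {d : Fin N → ℝ}

theorem aeval_mem_FS {y : Mat N} (hy : y ∈ FS P d {0}) (p : Polynomial ℝ) :
    Polynomial.aeval y p ∈ FS P d {0} := by
  have hpow : ∀ k : ℕ, y ^ k ∈ FS P d {0} := by
    intro k
    induction k with
    | zero => rw [pow_zero]; exact one_mem_FS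
    | succ k ih =>
      rw [pow_succ]
      refine FS_mul (A := {0}) (B := {0}) ?_ ih hy
      intro a ha b hb
      rw [Set.mem_singleton_iff] at *
      rw [ha, hb, add_zero]
  rw [Polynomial.aeval_eq_sum_range]
  exact (FS P d {0}).sum_mem fun k _ => (FS P d {0}).smul_mem _ (hpow k)

theorem aeval_comm (y : Mat N) (p : Polynomial ℝ) :
    Polynomial.aeval y p * y = y * Polynomial.aeval y p := by
  have h1 : Polynomial.aeval y (p * Polynomial.X) = Polynomial.aeval y (Polynomial.X * p) := by
    rw [mul_comm]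
  rwa [map_mul, map_mul, Polynomial.aeval_X] at h1

theorem aeval_mul_X (y : Mat N) (q : Polynomial ℝ) :
    Polynomial.aeval y (q * Polynomial.X) = Polynomial.aeval y q * y := by
  rw [map_mul, Polynomial.aeval_X]

/-- the difference of the values of a polynomial at `y₀ + n` and `y₀` -/
theorem aeval_diff {c : ℝ} (hc : 0 < c) {y₀ n : Mat N} (hy : y₀ ∈ FS P d {0})
    (hn : n ∈ FS P d (Set.Ici c)) (p : Polynomial ℝ) :
    Polynomial.aeval (y₀ + n) p - Polynomial.aeval y₀ p ∈ FS P d (Set.Ici c) := by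
  induction p using Polynomial.induction_on with
  | C a =>
    rw [Polynomial.aeval_C, Polynomial.aeval_C, sub_self]
    exact (FS P d (Set.Ici c)).zero_mem
  | add p q hp hq =>
    rw [map_add, map_add, add_sub_add_comm]
    exact (FS P d (Set.Ici c)).add_mem hp hq
  | monomial k a h =>
    rw [pow_succ, ← mul_assoc, aeval_mul_X, aeval_mul_X]
    set A := Polynomial.aeval (y₀ + n) (Polynomial.C a * Polynomial.X ^ k)
    have hB : Polynomial.aeval y₀ (Polynomial.C a * Polynomial.X ^ k) ∈ FS P d {0} :=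
      aeval_mem_FS hy _
    set B := Polynomial.aeval y₀ (Polynomial.C a * Polynomial.X ^ k)
    have e : A * (y₀ + n) - B * y₀ = (A - B) * (y₀ + n) + B * n := by noncomm_ring
    rw [e]
    have hY : y₀ + n ∈ FS P d (Set.Ici 0) := by
      refine (FS P d _).add_mem (FS_mono ?_ hy) (FS_mono ?_ hn)
      · intro x hx
        rw [Set.mem_singleton_iff] at hx
        rw [hx]; exact Set.mem_Ici.2 le_rfl
      · intro x hx
        exact le_trans hc.le hx
    refine (FS P d _).add_mem (FS_mul (A := Set.Ici c) (B := Set.Ici 0) ?_ h hY)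
      (FS_mul (A := {0}) (B := Set.Ici c) ?_ hB hn)
    · intro a ha b hb
      rw [Set.mem_Ici] at *
      linarith
    · intro a ha b hb
      rw [Set.mem_singleton_iff] at ha
      rw [Set.mem_Ici] at *
      linarith

/-- the lowest term of this difference -/
theorem aeval_first {c : ℝ} (hc : 0 < c) {y₀ n k z : Mat N} (hy : y₀ ∈ FS P d {0})
    (hk : k ∈ FS P d {c}) (hz : z ∈ FS P d {c}) (hky : k * y₀ = y₀ * k)
    (hn : n - (k + (y₀ * z - z * y₀)) ∈ FS P d (Set.Ioi c)) (p : Polynomial ℝ) :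
    ∃ w ∈ FS P d {c}, Polynomial.aeval (y₀ + n) p - Polynomial.aeval y₀ p -
      Polynomial.aeval y₀ (Polynomial.derivative p) * k - (y₀ * w - w * y₀)
      ∈ FS P d (Set.Ioi c) := by
  have hsc : ∀ a ∈ ({0} : Set ℝ), ∀ b ∈ ({c} : Set ℝ), a + b ∈ ({c} : Set ℝ) := by
    intro a ha b hb
    rw [Set.mem_singleton_iff] at *
    rw [ha, hb, zero_add]
  have hcs : ∀ a ∈ ({c} : Set ℝ), ∀ b ∈ ({0} : Set ℝ), a + b ∈ ({c} : Set ℝ) := by
    intro a ha b hb
    rw [Set.mem_singleton_iff] at *
    rw [ha, hb, add_zero]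
  have hn' : n ∈ FS P d (Set.Ici c) := by
    have h1 : k + (y₀ * z - z * y₀) ∈ FS P d {c} :=
      (FS P d _).add_mem hk (FS_bracket hsc hy hz)
    have h2 := (FS P d (Set.Ici c)).add_mem (FS_mono Set.Ioi_subset_Ici_self hn)
      (FS_mono (B := Set.Ici c) (fun x hx => by
        rw [Set.mem_singleton_iff] at hx; rw [hx]; exact Set.mem_Ici.2 le_rfl) h1)
    rwa [sub_add_cancel] at h2
  have hY : y₀ + n ∈ FS P d (Set.Ici 0) := by
    refine (FS P d _).add_mem (FS_mono ?_ hy) (FS_mono ?_ hn')
    · intro x hx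
      rw [Set.mem_singleton_iff] at hx
      rw [hx]; exact Set.mem_Ici.2 le_rfl
    · intro x hx
      exact le_trans hc.le hx
  induction p using Polynomial.induction_on with
  | C a =>
    refine ⟨0, (FS P d _).zero_mem, ?_⟩
    rw [Polynomial.aeval_C, Polynomial.aeval_C, sub_self, Polynomial.derivative_C, map_zero,
      zero_mul, mul_zero, zero_mul, sub_zero, sub_zero]
    exact (FS P d _).zero_mem
  | add p q hp hq =>
    obtain ⟨w, hw, h1⟩ := hp
    obtain ⟨w', hw', h2⟩ := hq
    refine ⟨w + w', (FS P d _).add_mem hw hw', ?_⟩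
    have h3 := (FS P d _).add_mem h1 h2
    rw [map_add, map_add, Polynomial.derivative_add, map_add]
    convert h3 using 1
    noncomm_ring
  | monomial j a h =>
    obtain ⟨w, hw, h1⟩ := h
    rw [pow_succ, ← mul_assoc]
    set q : Polynomial ℝ := Polynomial.C a * Polynomial.X ^ j
    rw [Polynomial.derivative_mul, Polynomial.derivative_X, mul_one, aeval_mul_X, aeval_mul_X,
      map_add, aeval_mul_X]
    have hB : Polynomial.aeval y₀ q ∈ FS P d {0} := aeval_mem_FS hy _
    have hB' : Polynomial.aeval y₀ (Polynomial.derivative q) ∈ FS P d {0} := aeval_mem_FS hy _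
    have hBc : Polynomial.aeval y₀ q * y₀ = y₀ * Polynomial.aeval y₀ q := aeval_comm _ _
    set A := Polynomial.aeval (y₀ + n) q
    set B := Polynomial.aeval y₀ q
    set B' := Polynomial.aeval y₀ (Polynomial.derivative q)
    refine ⟨w * y₀ + B * z, (FS P d _).add_mem (FS_mul hcs hw hy) (FS_mul hsc hB hz), ?_⟩
    have h2 : (A - B - B' * k - (y₀ * w - w * y₀)) * (y₀ + n) ∈ FS P d (Set.Ioi c) := by
      refine FS_mul (A := Set.Ioi c) (B := Set.Ici 0) ?_ h1 hY
      intro a ha b hb
      rw [Set.mem_Ioi] at *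
      rw [Set.mem_Ici] at hb
      linarith
    have h3 : (B' * k + (y₀ * w - w * y₀)) * n ∈ FS P d (Set.Ioi c) := by
      refine FS_mul (A := {c}) (B := Set.Ici c) ?_
        ((FS P d _).add_mem (FS_mul hsc hB' hk) (FS_bracket hsc hy hw)) hn'
      intro a ha b hb
      rw [Set.mem_singleton_iff] at ha
      rw [Set.mem_Ici] at hb
      rw [Set.mem_Ioi]
      linarith
    have h4 : B * (n - (k + (y₀ * z - z * y₀))) ∈ FS P d (Set.Ioi c) := by
      refine FS_mul (A := {0}) (B := Set.Ioi c) ?_ hB hn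
      intro a ha b hb
      rw [Set.mem_singleton_iff] at ha
      rw [Set.mem_Ioi] at *
      linarith
    have h5 := (FS P d _).add_mem ((FS P d _).add_mem h2 h3) h4
    have e1 : B' * k * y₀ = B' * y₀ * k := by rw [mul_assoc, hky, mul_assoc]
    have e2 : B * y₀ * z = y₀ * B * z := by rw [hBc]
    have e : A * (y₀ + n) - B * y₀ - (B' * y₀ + B) * k -
        (y₀ * (w * y₀ + B * z) - (w * y₀ + B * z) * y₀)
        = (A - B - B' * k - (y₀ * w - w * y₀)) * (y₀ + n) +
          (B' * k + (y₀ * w - w * y₀)) * n + B * (n - (k + (y₀ * z - z * y₀))) +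
          (B' * k * y₀ - B' * y₀ * k) + (B * y₀ * z - y₀ * B * z) := by
      noncomm_ring
    rw [e, e1, e2, sub_self, sub_self, add_zero, add_zero]
    exact h5

end Pool.Agent.Helper654_DO.gr

namespace Pool.Agent.Helper654_DO

theorem T_conj_levi (hA1 : S_diagonalizable_iff) : S_conj_levi := by
  intro N g hg lam hlam hlam' y₀ hy₀ hc n hn hY
  obtain ⟨P, d, hPd⟩ := hlam'
  have hXP : lam = gr.unhat P (diagonal d) := hPd
  subst hXP
  have hgX : ∀ y ∈ g, gr.unhat P (diagonal d) * y - y * gr.unhat P (diagonal d) ∈ g :=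
    fun y hy => hg _ hlam y hy
  have hy0' : y₀ ∈ gr.FS P d {0} := gr.FS_zero_of_comm hc
  refine gr.kill (P := P) (d := d) hg hy₀ hy0' Diagonalizable ?_ ?_ _ 0 le_rfl le_rfl n hn.1
    (gr.FS_of_posSp hn.2) hY
  · -- conjugates of diagonalizable matrices are diagonalizable
    rintro z _ y ⟨R, e, he⟩
    refine ⟨expGL z * R, e, ?_⟩
    rw [he, _root_.mul_inv_rev]
    simp only [Units.val_mul, mul_assoc]
  · intro c hc0 m hm hm' hD
    obtain ⟨S, hS⟩ := hA1.1 hD
    set p : Polynomial ℝ := ∏ c ∈ S, (Polynomial.X - Polynomial.C c) with hp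
    -- `y₀` is diagonalizable
    have h1 : Polynomial.aeval y₀ p = 0 := by
      have h2 := gr.aeval_diff hc0 hy0' hm' p
      rw [hS, zero_sub] at h2
      have h3 : Polynomial.aeval y₀ p ∈ gr.FS P d (Set.Ici c) := by
        have := (gr.FS P d (Set.Ici c)).neg_mem h2
        rwa [neg_neg] at this
      refine gr.FS_disj (A := {0}) (B := Set.Ici c) ?_ (gr.aeval_mem_FS hy0' p) h3
      intro a ha
      rw [Set.mem_singleton_iff] at ha
      rw [ha, Set.mem_Ici, not_le]
      exact hc0
    obtain ⟨R, e, hRe⟩ := hA1.2 ⟨S, h1⟩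
    have hyR : y₀ = gr.unhat R (diagonal e) := hRe
    -- the component of degree `c`
    set nc := gr.comp P d c m with hnc
    have hncg : nc ∈ g := gr.fn_mem hgX _ hm
    have hncF : nc ∈ gr.FS P d {c} := gr.comp_mem_FS c m
    have hinv : ∀ y ∈ g ⊓ gr.FS P d {c},
        gr.unhat R (diagonal e) * y - y * gr.unhat R (diagonal e) ∈ g ⊓ gr.FS P d {c} := by
      rintro y ⟨hy1, hy2⟩
      rw [← hyR]
      refine ⟨hg _ hy₀ _ hy1, gr.FS_bracket ?_ hy0' hy2⟩
      intro a ha b hb
      rw [Set.mem_singleton_iff] at *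
      rw [ha, hb, zero_add]
    set k := gr.comp R e 0 nc with hk
    set z := gr.fn R e (fun x => x⁻¹) nc with hz
    have hkM : k ∈ g ⊓ gr.FS P d {c} := gr.fn_mem hinv _ ⟨hncg, hncF⟩
    have hzM : z ∈ g ⊓ gr.FS P d {c} := gr.fn_mem hinv _ ⟨hncg, hncF⟩
    have hk0 : k ∈ gr.FS R e {0} := gr.comp_mem_FS 0 nc
    have hky : k * y₀ = y₀ * k := by
      have h2 := gr.ad_of_FS hk0
      rw [← hyR, zero_smul, sub_eq_zero] at h2
      exact h2.symm
    have hdec : nc = k + (y₀ * z - z * y₀) := by
      apply gr.hat_inj (P := R)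
      ext i j
      rw [gr.hat_add, Matrix.add_apply]
      have h2 : gr.hat R (y₀ * z - z * y₀) i j = (e i - e j) * gr.hat R z i j := by
        rw [hyR]; exact gr.hat_ad z i j
      rw [h2, hz, hk, gr.comp, gr.hat_fn, gr.hat_fn]
      by_cases h3 : e i - e j = 0
      · rw [if_pos h3, h3]; ring
      · rw [if_neg h3]; field_simp; ring
    have hmn : m - (k + (y₀ * z - z * y₀)) ∈ gr.FS P d (Set.Ioi c) := by
      rw [← hdec]
      exact gr.sub_comp_mem hm'
    -- the lowest term of `p (y₀ + m) = 0`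
    obtain ⟨w, hw, h2⟩ := gr.aeval_first hc0 hy0' hkM.2 hzM.2 hky hmn p
    rw [hS, h1, sub_zero, zero_sub] at h2
    set B' := Polynomial.aeval y₀ (Polynomial.derivative p) with hB'
    have hB'F : B' ∈ gr.FS P d {0} := gr.aeval_mem_FS hy0' _
    have h3 : B' * k + (y₀ * w - w * y₀) = 0 := by
      refine gr.FS_disj (P := P) (d := d) (A := {c}) (B := Set.Ioi c) ?_ ?_ ?_
      · intro a ha
        rw [Set.mem_singleton_iff] at ha
        rw [ha, Set.mem_Ioi]
        exact lt_irrefl c
      · refine (gr.FS P d _).add_mem (gr.FS_mul ?_ hB'F hkM.2) (gr.FS_bracket ?_ hy0' hw)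
        · intro a ha b hb
          rw [Set.mem_singleton_iff] at *
          rw [ha, hb, zero_add]
        · intro a ha b hb
          rw [Set.mem_singleton_iff] at *
          rw [ha, hb, zero_add]
      · have := (gr.FS P d _).neg_mem h2
        convert this using 1
        abel
    have h4 : B' * k = 0 := by
      have hyR0 : y₀ ∈ gr.FS R e {0} := gr.FS_zero_of_comm (by rw [hyR])
      have h5 : B' * k ∈ gr.FS R e {0} := by
        refine gr.FS_mul ?_ (gr.aeval_mem_FS hyR0 _) hk0
        intro a ha b hb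
        rw [Set.mem_singleton_iff] at *
        rw [ha, hb, zero_add]
      apply gr.hat_inj (P := R)
      rw [gr.hat_zero]
      ext i j
      by_cases h6 : e i - e j = 0
      · have h7 : gr.hat R (y₀ * w - w * y₀) i j = (e i - e j) * gr.hat R w i j := by
          rw [hyR]; exact gr.hat_ad w i j
        have h8 : B' * k = -(y₀ * w - w * y₀) := eq_neg_of_add_eq_zero_left h3
        rw [h8, ← zero_sub, gr.hat_sub, gr.hat_zero, Matrix.sub_apply, h7, h6, zero_mul,
          sub_zero]
      · exact h5 i j (by rw [Set.mem_singleton_iff]; exact h6)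
    -- `B'` is invertible
    have hsep : p.Separable := by
      rw [hp]
      exact Polynomial.separable_prod_X_sub_C_iff'.2 fun x _ y _ h => h
    obtain ⟨a, b, hab⟩ := hsep
    have h5 : Polynomial.aeval y₀ b * B' = 1 := by
      have := congrArg (Polynomial.aeval y₀) hab
      rw [map_add, map_mul, map_mul, h1, mul_zero, zero_add, map_one] at this
      exact this
    have hk00 : k = 0 := by
      calc k = (Polynomial.aeval y₀ b * B') * k := by rw [h5, one_mul]
        _ = 0 := by rw [mul_assoc, h4, mul_zero]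
    refine ⟨z, hzM.1, hzM.2, ?_⟩
    rw [hk00, zero_add] at hmn
    exact hmn

end Pool.Agent.Helper654_DO
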