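import Pool.Agent.Helper654_DO.Aux831b

/-!
# Conjugation of `X + n` to `X`, for `n` of positive degree with respect to `X`
-/

set_option autoImplicit false

open Matrix Module Filter Topology

namespace Pool.Agent.Helper654_DO

theorem T_conj_pos : S_conj_pos := by
  intro N g hg X hX hX' n hn
  obtain ⟨P, d, hPd⟩ := hX'
  have hXP : X = gr.unhat P (diagonal d) := hPd
  subst hXP
  have hgX : ∀ y ∈ g, gr.unhat P (diagonal d) * y - y * gr.unhat P (diagonal d) ∈ g :=
    fun y hy => hg _ hX y hy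
  refine gr.kill (P := P) (d := d) hg hX (gr.FS_zero_of_comm rfl) (fun _ => True)
    (fun _ _ _ _ => trivial) ?_ _ 0 le_rfl le_rfl n hn.1 (gr.FS_of_posSp hn.2) trivial
  intro c hc m hm hm' _
  have hcm : gr.comp P d c m ∈ g := gr.fn_mem hgX _ hm
  refine ⟨c⁻¹ • gr.comp P d c m, g.smul_mem _ hcm,
    (gr.FS P d {c}).smul_mem _ (gr.comp_mem_FS c m), ?_⟩
  have h1 := gr.ad_of_FS (gr.comp_mem_FS (P := P) (d := d) c m)
  rw [mul_smul_comm, smul_mul_assoc, ← smul_sub, h1, smul_smul, inv_mul_cancel₀ hc.ne', one_smul]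
  exact gr.sub_comp_mem hm'

end Pool.Agent.Helper654_DO
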