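import Pool.Agent.Helper654_DO.T_exists_mem_nonnegSp

/-!
# E4: conjugacy of split subspaces into a maximal one
-/

set_option autoImplicit false

open Matrix Module

namespace Pool.Agent.Helper654_DO.conj_split

open gradedSp

variable {N : ℕ}

theorem diagonalizable_conj {x : Mat N} (u : GL (Fin N) ℝ) (hx : Diagonalizable x) :
    Diagonalizable ((u : Mat N) * x * ((u⁻¹ : GL (Fin N) ℝ) : Mat N)) := by
  obtain ⟨P, d, rfl⟩ := hx
  refine ⟨u * P, d, ?_⟩
  rw [_root_.mul_inv_rev, Units.val_mul, Units.val_mul]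
  simp only [Matrix.mul_assoc]

/-- Conjugation by `u` as a linear map. -/
def cj (u : GL (Fin N) ℝ) : Mat N →ₗ[ℝ] Mat N where
  toFun x := (u : Mat N) * x * ((u⁻¹ : GL (Fin N) ℝ) : Mat N)
  map_add' x y := by rw [Matrix.mul_add, Matrix.add_mul]
  map_smul' q x := by rw [Matrix.mul_smul, Matrix.smul_mul, RingHom.id_apply]

theorem cj_mul (u : GL (Fin N) ℝ) (x y : Mat N) : cj u (x * y) = cj u x * cj u y := by
  have hPQ : ((u⁻¹ : GL (Fin N) ℝ) : Mat N) * (u : Mat N) = 1 := by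
    rw [← Units.val_mul, inv_mul_cancel, Units.val_one]
  show (u : Mat N) * (x * y) * ((u⁻¹ : GL (Fin N) ℝ) : Mat N) =
    ((u : Mat N) * x * ((u⁻¹ : GL (Fin N) ℝ) : Mat N)) *
    ((u : Mat N) * y * ((u⁻¹ : GL (Fin N) ℝ) : Mat N))
  calc _ = (u : Mat N) * x * 1 * y * ((u⁻¹ : GL (Fin N) ℝ) : Mat N) := by
        rw [Matrix.mul_one]; simp only [Matrix.mul_assoc]
    _ = _ := by rw [← hPQ]; simp only [Matrix.mul_assoc]

theorem cj_cj (u v : GL (Fin N) ℝ) (x : Mat N) : cj u (cj v x) = cj (u * v) x := by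
  show (u : Mat N) * ((v : Mat N) * x * ((v⁻¹ : GL (Fin N) ℝ) : Mat N)) *
    ((u⁻¹ : GL (Fin N) ℝ) : Mat N) = ((u * v : GL (Fin N) ℝ) : Mat N) * x *
    (((u * v)⁻¹ : GL (Fin N) ℝ) : Mat N)
  rw [_root_.mul_inv_rev, Units.val_mul, Units.val_mul]
  simp only [Matrix.mul_assoc]

theorem cj_one (x : Mat N) : cj 1 x = x := by
  show ((1 : GL (Fin N) ℝ) : Mat N) * x * (((1 : GL (Fin N) ℝ)⁻¹ : GL (Fin N) ℝ) : Mat N) = x
  rw [inv_one, Units.val_one, Matrix.one_mul, Matrix.mul_one]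

theorem isSplit_map {s : Submodule ℝ (Mat N)} (hs : IsSplit s) (u : GL (Fin N) ℝ) :
    IsSplit (s.map (cj u)) := by
  refine ⟨?_, ?_⟩
  · rintro _ ⟨x, hx, rfl⟩ _ ⟨y, hy, rfl⟩
    rw [← cj_mul, ← cj_mul, hs.comm x hx y hy]
  · rintro _ ⟨x, hx, rfl⟩
    exact diagonalizable_conj u (hs.diag x hx)

/-- An element of `g` of nonnegative degree is the sum of its degree zero part and an element of
positive degree, both in `g`. -/
theorem nonneg_decomp (hA4 : S_weights) {g : Submodule ℝ (Mat N)} {x : Mat N}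
    (hx : Diagonalizable x) (hgx : ∀ y ∈ g, x * y - y * x ∈ g) {y : Mat N} (hy : y ∈ g)
    (hy' : y ∈ nonnegSp x) :
    ∃ y₀ ∈ g, ∃ n ∈ g ⊓ posSp x, x * y₀ = y₀ * x ∧ y = y₀ + n := by
  classical
  obtain ⟨S, c, h0S, hyc, hc⟩ := decomp hA4 hx hgx hy
  obtain ⟨P, d, hxP⟩ := id hx
  have hPQ : (P : Mat N) * ((P⁻¹ : GL (Fin N) ℝ) : Mat N) = 1 := by
    rw [← Units.val_mul, mul_inv_cancel, Units.val_one]
  have hneg : ∀ t ∈ S, t < 0 → c t = 0 := by
    intro t ht ht0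
    have h1 : ((P⁻¹ : GL (Fin N) ℝ) : Mat N) * c t * (P : Mat N) = 0 := by
      ext i j
      rw [Matrix.zero_apply]
      rcases mul_eq_zero.1 (coord_wsp hxP (hc t).2 i j) with h | h
      · have hij : d i < d j := by linarith
        have h2 := coord_nonnegSp hxP hy' i j hij
        rw [hyc, Finset.mul_sum, Finset.sum_mul, Matrix.sum_apply,
          Finset.sum_eq_single t] at h2
        · exact h2
        · intro s _ hst
          rcases mul_eq_zero.1 (coord_wsp hxP (hc s).2 i j) with h3 | h3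
          · exfalso
            apply hst
            linarith
          · exact h3
        · intro h3
          exact absurd ht h3
      · exact h
    calc c t = ((P : Mat N) * ((P⁻¹ : GL (Fin N) ℝ) : Mat N)) * c t *
          ((P : Mat N) * ((P⁻¹ : GL (Fin N) ℝ) : Mat N)) := by
          rw [hPQ, Matrix.one_mul, Matrix.mul_one]
      _ = (P : Mat N) * (((P⁻¹ : GL (Fin N) ℝ) : Mat N) * c t * (P : Mat N)) *
          ((P⁻¹ : GL (Fin N) ℝ) : Mat N) := by simp only [Matrix.mul_assoc]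
      _ = 0 := by rw [h1, Matrix.mul_zero, Matrix.zero_mul]
  refine ⟨c 0, (hc 0).1, ∑ t ∈ S.erase 0, c t, ⟨g.sum_mem fun t _ => (hc t).1,
    Submodule.sum_mem _ fun t ht => ?_⟩, ?_, ?_⟩
  · rw [Finset.mem_erase] at ht
    rcases lt_or_gt_of_ne ht.1 with h | h
    · rw [hneg t ht.2 h]; exact Submodule.zero_mem _
    · exact wsp_le_posSp h (hc t).2
  · have h1 := (hc 0).2
    rw [mem_wsp, zero_smul] at h1
    exact sub_eq_zero.1 h1
  · rw [Finset.add_sum_erase _ _ h0S]; exact hyc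

end Pool.Agent.Helper654_DO.conj_split

namespace Pool.Agent.Helper654_DO

open gradedSp conj_split

theorem T_conj_split (hA3 : S_split_sup) (hA4 : S_weights) (hA5 : S_exists_regular)
    (hD4 : S_expGroup_normalizes) (hE1 : S_exists_mem_nonnegSp) (hE2 : S_conj_pos)
    (hE3 : S_conj_levi) : S_conj_split := by
  intro N g hg hT a ha s hs hs'
  obtain ⟨X, hX, hreg⟩ := hA5 ha.split
  obtain ⟨lam, hlam, hlreg⟩ := hA5 hs'
  have hXg : X ∈ g := ha.le hX
  have hX' : Diagonalizable X := ha.split.diag X hX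
  have hlg : lam ∈ g := hs hlam
  have hl' : Diagonalizable lam := hs'.diag lam hlam
  obtain ⟨n, hn, hY⟩ := hE1 hg hT ha hX hreg hlg hl'
  obtain ⟨u₁, hu₁, h1⟩ := hE2 hg hXg hX' hn
  have hYg : X + n ∈ g := g.add_mem hXg hn.1
  obtain ⟨y₀, hy₀, n', hn', hc, hYy⟩ := nonneg_decomp hA4 hl' (fun y hy => hg lam hlg y hy) hYg hY
  have h1' : cj u₁ (X + n) = X := h1
  have h2 : X + n = cj u₁⁻¹ X := by
    rw [← h1', cj_cj, inv_mul_cancel, cj_one, h1']
  have hYd : Diagonalizable (y₀ + n') := by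
    rw [← hYy, h2]
    exact diagonalizable_conj _ hX'
  obtain ⟨u₂, hu₂, h3⟩ := hE3 hg hlg hl' hy₀ hc hn' hYd
  have h3' : cj u₂ (y₀ + n') = y₀ := h3
  -- `y₀ = v X v⁻¹`
  have hv : cj (u₂ * u₁⁻¹) X = y₀ := by
    rw [← cj_cj, ← h2, hYy, h3']
  set v := u₂ * u₁⁻¹ with hvdef
  have hvG : v ∈ expGroup g := mul_mem hu₂ (inv_mem hu₁)
  refine ⟨v⁻¹, inv_mem hvG, ?_⟩
  -- `v⁻¹ s v` commutes with `a`
  have hcomm : ∀ x ∈ s, ∀ y ∈ a, y * cj v⁻¹ x = cj v⁻¹ x * y := by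
    intro x hx y hy
    refine hreg _ ?_ y hy
    have h4 : x * y₀ = y₀ * x := hlreg y₀ hc x hx
    have h5 : X = cj v⁻¹ y₀ := by rw [← hv, cj_cj, inv_mul_cancel, cj_one]
    rw [h5, ← cj_mul, ← cj_mul, h4]
  have hsg : s.map (cj v⁻¹) ≤ g := by
    rintro _ ⟨x, hx, rfl⟩
    exact hD4 hg (inv_mem hvG) (hs hx)
  have hb : IsSplit (a ⊔ s.map (cj v⁻¹)) := by
    refine hA3 ha.split (isSplit_map hs' _) ?_
    rintro y hy _ ⟨x, hx, rfl⟩
    exact hcomm x hx y hy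
  have hmax := ha.max _ (sup_le ha.le hsg) hb le_sup_left
  intro x hx
  have h6 : cj v⁻¹ x ∈ a ⊔ s.map (cj v⁻¹) :=
    Submodule.mem_sup_right (Submodule.mem_map_of_mem hx)
  rw [hmax] at h6
  exact h6

end Pool.Agent.Helper654_DO
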