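import Pool.Agent.Helper654_DO.Stmts

/-!
# The abstract construction
-/

set_option autoImplicit false

open Matrix Module Filter Topology

namespace Pool.Agent.Helper654_DO.Core

section

variable {G E V ι : Type} [Group G] [TopologicalSpace G] [NormedAddCommGroup E]
  (a : E → G) (Nv : V → G → ℝ)

/-- outside the ball of radius `R` some gauge is small at `g` -/
def Good (g : G) (R ε : ℝ) : Prop := ∀ y : E, R ≤ ‖y‖ → ∃ v, Nv v (a y * g) < ε

/-- on the annulus some gauge is small, uniformly in the elements of `O` -/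
def Cov (O : Set G) (R R' ε : ℝ) : Prop :=
  ∀ x ∈ O, ∀ y : E, R ≤ ‖y‖ → ‖y‖ ≤ R' → ∃ v, Nv v (a y * x) < ε

variable {a Nv}

omit [TopologicalSpace G] in
theorem Cov.trans {O O' : Set G} {R R' R'' ε ε' : ℝ} (h1 : Cov a Nv O R R' ε)
    (h2 : Cov a Nv O' R' R'' ε') (hO : O' ⊆ O) (hε : ε' ≤ ε) : Cov a Nv O' R R'' ε := by
  intro x hx y hy hy'
  rcases le_total ‖y‖ R' with h | h
  · exact h1 x (hO hx) y hy h
  · obtain ⟨v, hv⟩ := h2 x hx y h hy'
    exact ⟨v, hv.trans_le hε⟩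

theorem tube [IsTopologicalGroup G] [ProperSpace E] (ha : Continuous a) (hNv : ∀ v, Continuous (Nv v))
    {g : G} {R ε : ℝ} (hg : Good a Nv g R ε) (R' : ℝ) {O : Set G} (hO : IsOpen O) (hgO : g ∈ O) :
    ∃ O' : Set G, IsOpen O' ∧ g ∈ O' ∧ O' ⊆ O ∧ Cov a Nv O' R R' ε := by
  have hK : IsCompact {y : E | R ≤ ‖y‖ ∧ ‖y‖ ≤ R'} := by
    apply (isCompact_closedBall (0 : E) R').of_isClosed_subset
    · exact (isClosed_le continuous_const continuous_norm).inter
        (isClosed_le continuous_norm continuous_const)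
    · intro y hy
      simpa using hy.2
  have hn : IsOpen {p : E × G | ∃ v, Nv v (a p.1 * p.2) < ε} := by
    have : {p : E × G | ∃ v, Nv v (a p.1 * p.2) < ε} = ⋃ v, {p : E × G | Nv v (a p.1 * p.2) < ε} := by
      ext p; simp
    rw [this]
    apply isOpen_iUnion
    intro v
    exact isOpen_lt ((hNv v).comp ((ha.comp continuous_fst).mul continuous_snd)) continuous_const
  obtain ⟨u, v, _, hv, hu', hv', huv⟩ := generalized_tube_lemma hK (isCompact_singleton (x := g)) hn (by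
    rintro ⟨y, x⟩ ⟨hy, hx⟩
    simp only [Set.mem_singleton_iff] at hx
    subst hx
    exact hg y hy.1)
  refine ⟨v ∩ O, hv.inter hO, ⟨hv' rfl, hgO⟩, Set.inter_subset_right, ?_⟩
  intro x hx y hy hy'
  exact huv (a := (y, x)) ⟨hu' ⟨hy, hy'⟩, hx.1⟩

end

end Pool.Agent.Helper654_DO.Core

namespace Pool.Agent.Helper654_DO

open Pool.Agent.Helper654_DO.Core in
theorem T_core : S_core := by
  intro G E V ι _ _ _ _ _ _ _ _ a ha u hu hu0 GQ h1 hGQ Nv hNv hcov Ω hΩ hfin hesc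
  -- the effect of one move
  have move : ∀ (i : ι) (g : G) (O : Set G) (R ε ε' R₀ : ℝ), g ∈ GQ → IsOpen O → g ∈ O → 0 < ε' →
      Good a Nv g R ε → ∃ (R' η : ℝ), R ≤ R' ∧ R₀ ≤ R' ∧ 0 < η ∧ ∀ q : ℚ, |(q : ℝ)| < η →
        ∃ O' : Set G, IsOpen O' ∧ u i (q : ℝ) * g ∈ O' ∧ O' ⊆ O ∧ Cov a Nv O' R R' ε ∧
          Good a Nv (u i (q : ℝ) * g) R' ε' ∧ u i (q : ℝ) * g ∈ GQ := by
    intro i g O R ε ε' R₀ hg hO hgO hε' hgood
    obtain ⟨F, R₁, hR₁⟩ := hcov i g hg ε' hε'
    obtain ⟨O₁, hO₁, hgO₁, hsub, hcov₁⟩ := tube ha hNv hgood (max R₁ (max R R₀)) hO hgO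
    have hc : ContinuousAt (fun t : ℝ => u i t * g) 0 :=
      ((hu i).mul continuous_const).continuousAt
    have hmem : (fun t : ℝ => u i t * g) ⁻¹' O₁ ∈ 𝓝 (0 : ℝ) := by
      apply hc
      simp only [hu0, one_mul]
      exact hO₁.mem_nhds hgO₁
    obtain ⟨η, hη, hball⟩ := Metric.mem_nhds_iff.mp hmem
    refine ⟨max R₁ (max R R₀), η, ?_, ?_, hη, ?_⟩
    · exact (le_max_left _ _).trans (le_max_right _ _)
    · exact (le_max_right _ _).trans (le_max_right _ _)
    · intro q hq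
      refine ⟨O₁, hO₁, ?_, hsub, hcov₁, ?_, hGQ i q g hg⟩
      · apply hball
        rw [Metric.mem_ball, dist_zero_right, Real.norm_eq_abs]
        exact hq
      · intro y hy
        obtain ⟨v, _, hv⟩ := hR₁ (q : ℝ) y ((le_max_left _ _).trans hy)
        exact ⟨v, by rwa [← mul_assoc]⟩
  -- escaping from a closed set
  have escape : ∀ (n : ℕ) (l : List (ι × ℝ)) (g : G) (O : Set G) (R ε : ℝ), g ∈ GQ → IsOpen O →
      g ∈ O → 0 < ε → Good a Nv g R ε → (l.map fun p => u p.1 p.2).prod * g ∉ Ω n →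
      ∃ (g' : G) (O' : Set G) (R' : ℝ), g' ∈ GQ ∧ IsOpen O' ∧ g' ∈ O' ∧ O' ⊆ O ∧ R ≤ R' ∧
        Cov a Nv O' R R' ε ∧ Good a Nv g' R' ε ∧ g' ∉ Ω n := by
    intro n l
    induction l using List.reverseRecOn with
    | nil =>
      intro g O R ε hg hO hgO hε hgood hl
      obtain ⟨O₁, hO₁, hgO₁, hsub, hcov₁⟩ := tube ha hNv hgood R hO hgO
      exact ⟨g, O₁, R, hg, hO₁, hgO₁, hsub, le_rfl, hcov₁, hgood, by simpa using hl⟩
    | append_singleton l p ih =>
      intro g O R ε hg hO hgO hε hgood hl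
      obtain ⟨i, t⟩ := p
      rw [List.map_append, List.prod_append] at hl
      simp only [List.map_cons, List.map_nil, List.prod_cons, List.prod_nil, mul_one] at hl
      obtain ⟨R', η, hRR', -, hη, hmove⟩ := move i g O R ε ε R hg hO hgO hε hgood
      have hfin' := hfin n i (l.map fun p => u p.1 p.2).prod g ⟨t, hl⟩
      -- a small rational parameter outside a finite set
      obtain ⟨q, hq, hq'⟩ : ∃ q : ℚ, |(q : ℝ)| < η ∧
          (l.map fun p => u p.1 p.2).prod * u i (q : ℝ) * g ∉ Ω n := by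
        have hinf : {q : ℚ | |(q : ℝ)| < η}.Infinite := by
          obtain ⟨m, hm⟩ := exists_nat_one_div_lt hη
          have hinj : Function.Injective (fun k : ℕ => (1 : ℚ) / ((m + k : ℕ) + 1)) := by
            intro k k' hkk
            simp only [one_div] at hkk
            have h4 := _root_.inv_inj.mp hkk
            have h5 : ((m + k : ℕ) : ℚ) = ((m + k' : ℕ) : ℚ) := by linarith
            have h6 : m + k = m + k' := by exact_mod_cast h5
            omega
          refine (Set.infinite_range_of_injective hinj).mono ?_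
          rintro _ ⟨k, rfl⟩
          simp only [Set.mem_ofPred_eq]
          push_cast
          rw [abs_of_pos (by positivity)]
          refine lt_of_le_of_lt ?_ hm
          apply one_div_le_one_div_of_le (by positivity)
          have : (0 : ℝ) ≤ k := Nat.cast_nonneg k
          linarith
        by_contra hcon
        push Not at hcon
        apply hinf
        apply Set.Finite.subset (hfin'.preimage (f := fun q : ℚ => (q : ℝ)) (by
          intro x _ y _ hxy
          simp only at hxy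
          exact_mod_cast hxy))
        intro q hq
        exact hcon q hq
      obtain ⟨O₁, hO₁, hgO₁, hsub, hcov₁, hgood₁, hgQ⟩ := hmove q hq
      rw [mul_assoc] at hq'
      obtain ⟨g', O', R'', h2, h3, h4, h5, h6, h7, h8, h9⟩ :=
        ih (u i (q : ℝ) * g) O₁ R' ε hgQ hO₁ hgO₁ hε hgood₁ hq'
      exact ⟨g', O', R'', h2, h3, h4, h5.trans hsub, hRR'.trans h6, hcov₁.trans h7 h5 le_rfl, h8, h9⟩
  -- the inductive step
  obtain ⟨i₀⟩ : Nonempty ι := inferInstance
  let P : (G × Set G × ℝ × ℝ) → Prop := fun s =>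
    s.1 ∈ GQ ∧ IsOpen s.2.1 ∧ s.1 ∈ s.2.1 ∧ 0 < s.2.2.2 ∧ Good a Nv s.1 s.2.2.1 s.2.2.2
  have step : ∀ (n : ℕ) (s : {s // P s}), ∃ s' : {s // P s}, closure s'.1.2.1 ⊆ s.1.2.1 ∧
      IsCompact (closure s'.1.2.1) ∧ closure s'.1.2.1 ⊆ (Ω n)ᶜ ∧ s.1.2.2.1 + 1 ≤ s'.1.2.2.1 ∧
      s'.1.2.2.2 = s.1.2.2.2 / 2 ∧ Cov a Nv s'.1.2.1 s.1.2.2.1 s'.1.2.2.1 s.1.2.2.2 := by
    rintro n ⟨⟨g, O, R, ε⟩, hg, hO, hgO, hε, hgood⟩
    simp only at hg hO hgO hε hgood
    obtain ⟨l, hl⟩ := hesc n g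
    obtain ⟨g₁, O₁, R₁, hg₁, hO₁, hgO₁, hsub₁, hRR₁, hcov₁, hgood₁, hn⟩ :=
      escape n l g O R ε hg hO hgO hε hgood hl
    obtain ⟨R₂, η, hR₂, hR₂', hη, hmove⟩ :=
      move i₀ g₁ O₁ R₁ ε (ε / 2) (R + 1) hg₁ hO₁ hgO₁ (by positivity) hgood₁
    obtain ⟨O₂, hO₂, hgO₂, hsub₂, hcov₂, hgood₂, _⟩ := hmove 0 (by simpa using hη)
    simp only [Rat.cast_zero, hu0, one_mul] at hgO₂ hgood₂
    obtain ⟨O₃, hO₃, hgO₃, hsub₃, hcomp⟩ := exists_open_between_and_isCompact_closure
      (isCompact_singleton (x := g₁)) (hO₂.inter (hΩ n).isOpen_compl) (by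
        intro x hx
        simp only [Set.mem_singleton_iff] at hx
        subst hx
        exact ⟨hgO₂, hn⟩)
    refine ⟨⟨⟨g₁, O₃, R₂, ε / 2⟩, hg₁, hO₃, hgO₃ rfl, by positivity, hgood₂⟩, ?_, hcomp, ?_, hR₂', rfl, ?_⟩
    · exact (hsub₃.trans Set.inter_subset_left).trans (hsub₂.trans hsub₁)
    · exact hsub₃.trans Set.inter_subset_right
    · have h3 : O₃ ⊆ O₂ := subset_closure.trans (hsub₃.trans Set.inter_subset_left)
      have h4 := hcov₁.trans hcov₂ hsub₂ le_rfl
      intro x hx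
      exact h4 x (h3 hx)
  choose next hnext using step
  obtain ⟨F₀, R₀, hR₀⟩ := hcov i₀ 1 h1 1 one_pos
  let s₀ : {s // P s} := ⟨⟨1, Set.univ, R₀, 1⟩, h1, isOpen_univ, Set.mem_univ _, one_pos, by
    intro y hy
    obtain ⟨v, _, hv⟩ := hR₀ 0 y hy
    exact ⟨v, by simpa [hu0] using hv⟩⟩
  let sq : ℕ → {s // P s} := fun n => Nat.rec s₀ (fun n s => next n s) n
  have hsq : ∀ n, sq (n + 1) = next n (sq n) := fun n => rfl
  have hK := IsCompact.nonempty_iInter_of_sequence_nonempty_isCompact_isClosed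
    (fun n => closure (sq (n + 1)).1.2.1) (fun n => by
      have h3 : closure (sq (n + 1 + 1)).1.2.1 ⊆ (sq (n + 1)).1.2.1 := by
        rw [hsq (n + 1)]; exact (hnext (n + 1) (sq (n + 1))).1
      exact h3.trans subset_closure) (fun n => ⟨(sq (n + 1)).1.1, subset_closure (sq (n + 1)).2.2.2.1⟩)
    (by rw [hsq 0]; exact (hnext 0 (sq 0)).2.1) (fun n => isClosed_closure)
  obtain ⟨g, hg⟩ := hK
  rw [Set.mem_iInter] at hg
  have hgO : ∀ n, g ∈ (sq n).1.2.1 := by
    intro n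
    have h3 := hg n
    rw [hsq n] at h3
    exact (hnext n (sq n)).1 h3
  refine ⟨g, ?_, ?_⟩
  · intro n
    have h3 := hg n
    rw [hsq n] at h3
    exact (hnext n (sq n)).2.2.1 h3
  · have hε : ∀ n, (sq n).1.2.2.2 = 1 / 2 ^ n := by
      intro n
      induction n with
      | zero => simp [sq, s₀]
      | succ n ih =>
        rw [hsq n, (hnext n (sq n)).2.2.2.2.1, ih, pow_succ]
        ring
    have hR : ∀ n, (sq n).1.2.2.1 + 1 ≤ (sq (n + 1)).1.2.2.1 := by
      intro n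
      rw [hsq n]
      exact (hnext n (sq n)).2.2.2.1
    have hR' : ∀ n, (sq 0).1.2.2.1 + n ≤ (sq n).1.2.2.1 := by
      intro n
      induction n with
      | zero => simp
      | succ n ih =>
        have := hR n
        push_cast
        linarith
    intro ε hε0
    obtain ⟨m, hm⟩ := exists_pow_lt_of_lt_one hε0 (by norm_num : (1 : ℝ) / 2 < 1)
    refine ⟨(sq m).1.2.2.1, fun y hy => ?_⟩
    -- the first radius larger than the norm of `y`
    have hex : ∃ n, ‖y‖ ≤ (sq (m + n)).1.2.2.1 := by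
      obtain ⟨n, hn⟩ := exists_nat_ge (‖y‖ - (sq 0).1.2.2.1)
      refine ⟨n, ?_⟩
      have h5 := hR' (m + n)
      have h6 : (0 : ℝ) ≤ m := Nat.cast_nonneg m
      push_cast at h5
      linarith
    classical
    rcases Nat.eq_zero_or_pos (Nat.find hex) with h0 | h0
    · have h3 := Nat.find_spec hex
      rw [h0, add_zero] at h3
      have h4 : (sq m).1.2.2.1 ≤ (sq (m + 1)).1.2.2.1 := by linarith [hR m]
      have h5 := (hnext m (sq m)).2.2.2.2.2 g (by rw [← hsq m]; exact hgO (m + 1)) y hy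
        (by rw [← hsq m]; exact h3.trans h4)
      obtain ⟨v, hv⟩ := h5
      refine ⟨v, hv.trans ?_⟩
      rw [hε m]
      simpa using hm
    · obtain ⟨k, hk⟩ := Nat.exists_eq_add_of_lt h0
      rw [zero_add] at hk
      have h3 := Nat.find_spec hex
      rw [hk] at h3
      have h4 : ¬ ‖y‖ ≤ (sq (m + k)).1.2.2.1 := Nat.find_min hex (by omega)
      push Not at h4
      have h5 := (hnext (m + k) (sq (m + k))).2.2.2.2.2 g
        (by rw [← hsq (m + k)]; exact hgO (m + k + 1)) y h4.le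
        (by rw [← hsq (m + k)]; exact h3)
      obtain ⟨v, hv⟩ := h5
      refine ⟨v, hv.trans ?_⟩
      rw [hε (m + k)]
      have h6 : (1 : ℝ) / 2 ^ (m + k) ≤ (1 / 2) ^ m := by
        rw [one_div, ← inv_pow, ← one_div]
        exact pow_le_pow_of_le_one (by norm_num) (by norm_num) (by omega)
      exact h6.trans_lt hm

end Pool.Agent.Helper654_DO
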