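import Pool.Agent.Helper654_DO.Stmts

set_option autoImplicit false
set_option linter.unusedVariables false

open Matrix Module Filter Topology

namespace Pool.Agent.Helper654_DO

namespace cover

/-- derivative of the determinant at the identity -/
theorem hasDerivAt_det {k : ℕ} (g : ℝ → Matrix (Fin k) (Fin k) ℝ) (g' : Matrix (Fin k) (Fin k) ℝ)
    (hg : ∀ i j, HasDerivAt (fun t => g t i j) (g' i j) 0) (h1 : g 0 = 1) :
    HasDerivAt (fun t => (g t).det) g'.trace 0 := by
  have h2 : ∀ σ : Equiv.Perm (Fin k), HasDerivAt (fun t => ∏ i, g t (σ i) i)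
      (∑ i, (∏ j ∈ Finset.univ.erase i, g 0 (σ j) j) • g' (σ i) i) 0 := fun σ =>
    HasDerivAt.fun_finsetProd (u := Finset.univ) (f := fun i t => g t (σ i) i)
      (f' := fun i => g' (σ i) i) (fun i _ => hg (σ i) i)
  have h3 : HasDerivAt (fun t => ∑ σ : Equiv.Perm (Fin k),
      ((Equiv.Perm.sign σ : ℤ) : ℝ) * ∏ i, g t (σ i) i)
      (∑ σ : Equiv.Perm (Fin k), ((Equiv.Perm.sign σ : ℤ) : ℝ) *
        ∑ i, (∏ j ∈ Finset.univ.erase i, g 0 (σ j) j) • g' (σ i) i) 0 :=
    HasDerivAt.fun_sum (fun σ _ => (h2 σ).const_mul _)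
  have h4 : (∑ σ : Equiv.Perm (Fin k), ((Equiv.Perm.sign σ : ℤ) : ℝ) *
        ∑ i, (∏ j ∈ Finset.univ.erase i, g 0 (σ j) j) • g' (σ i) i) = g'.trace := by
    rw [Finset.sum_eq_single 1]
    · simp [h1, Matrix.trace]
    · intro σ _ hσ
      rw [Finset.sum_eq_zero, mul_zero]
      intro i _
      have : ∃ j, j ≠ i ∧ σ j ≠ j := by
        by_contra hcon
        push Not at hcon
        apply hσ
        ext j
        by_cases hj : j = i
        · subst hj
          by_contra hne
          have hne' : σ j ≠ j := fun h => hne (by rw [h]; rfl)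
          have := hcon (σ j) hne'
          exact hne' (σ.injective this)
        · rw [hcon j hj]; rfl
      obtain ⟨j, hj, hj'⟩ := this
      rw [Finset.prod_eq_zero (Finset.mem_erase.mpr ⟨hj, Finset.mem_univ j⟩), zero_smul]
      rw [h1, Matrix.one_apply_ne hj']
    · intro h; exact absurd (Finset.mem_univ _) h
  rw [h4] at h3
  have h5 : (fun t => (g t).det) = fun t => ∑ σ : Equiv.Perm (Fin k),
      ((Equiv.Perm.sign σ : ℤ) : ℝ) * ∏ i, g t (σ i) i := by
    funext t
    rw [Matrix.det_apply']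
  rw [h5]
  exact h3

section
attribute [local instance] Matrix.linftyOpNormedRing Matrix.linftyOpNormedAlgebra

lemma exp_entry {n : ℕ} (X : Mat n) (i j : Fin n) :
    HasDerivAt (fun t : ℝ => NormedSpace.exp (t • X) i j) (X i j) 0 := by
  have h := hasDerivAt_exp_smul_const X (0 : ℝ)
  rw [zero_smul, NormedSpace.exp_zero, one_mul] at h
  exact (LinearMap.toContinuousLinearMap
    (Matrix.entryLinearMap ℝ ℝ i j)).hasFDerivAt.comp_hasDerivAt (0 : ℝ) h

lemma exp_hasSum {n : ℕ} (X : Mat n) :
    HasSum (fun m : ℕ => ((m.factorial : ℝ)⁻¹) • X ^ m) (NormedSpace.exp X) :=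
  NormedSpace.exp_series_hasSum_exp' (𝕂 := ℝ) X

end

/-- `det exp = exp tr` -/
lemma det_exp {n : ℕ} (X : Mat n) : (NormedSpace.exp X).det = Real.exp X.trace := by
  set f : ℝ → ℝ := fun t => (NormedSpace.exp (t • X)).det with hf
  have hf0 : f 0 = 1 := by simp [hf]
  have hd0 : HasDerivAt f X.trace 0 :=
    hasDerivAt_det (fun t => NormedSpace.exp (t • X)) X (fun i j => exp_entry X i j) (by simp)
  have hadd : ∀ s t, f (s + t) = f s * f t := by
    intro s t
    simp only [hf]
    rw [add_smul, Matrix.exp_add_of_commute _ _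
      ((Commute.refl X).smul_left s |>.smul_right t), Matrix.det_mul]
  have hd : ∀ t, HasDerivAt f (f t * X.trace) t := by
    intro t
    have h1 : f = fun s => f t * f (s - t) := by
      funext s
      rw [← hadd]
      congr 1
      ring
    have h2 : HasDerivAt (fun s : ℝ => s - t) 1 t := (hasDerivAt_id t).sub_const t
    have h3 : HasDerivAt f X.trace (t - t) := by rw [sub_self]; exact hd0
    have h4 : HasDerivAt (fun s => f (s - t)) X.trace t := HasDerivAt.comp_sub_const t t h3
    have h5 := h4.const_mul (f t)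
    rw [← h1] at h5
    exact h5
  have hg : ∀ t, HasDerivAt (fun t => f t * Real.exp (-(t * X.trace))) 0 t := by
    intro t
    have h1 : HasDerivAt (fun t : ℝ => Real.exp (-(t * X.trace)))
        (Real.exp (-(t * X.trace)) * (-(1 * X.trace))) t :=
      (((hasDerivAt_id t).mul_const X.trace).neg).exp
    have h2 := (hd t).mul h1
    have h3 : f t * X.trace * Real.exp (-(t * X.trace)) +
        f t * (Real.exp (-(t * X.trace)) * (-(1 * X.trace))) = 0 := by ring
    rw [h3] at h2
    exact h2
  have hc := is_const_of_deriv_eq_zero (fun t => (hg t).differentiableAt)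
    (fun t => (hg t).deriv) 1 0
  simp only [hf0, one_mul, zero_mul, neg_zero, Real.exp_zero] at hc
  have h1 : f 1 = (NormedSpace.exp X).det := by simp [hf]
  rw [h1] at hc
  have h2 : (NormedSpace.exp X).det * Real.exp (-X.trace) * Real.exp X.trace =
      1 * Real.exp X.trace := by rw [hc]
  rw [mul_assoc, ← Real.exp_add, neg_add_cancel, Real.exp_zero, mul_one, one_mul] at h2
  exact h2

/-- the exponential intertwines -/
lemma exp_intertwine {N k : ℕ} {A : Mat N} {B : Matrix (Fin N) (Fin k) ℝ} {m : Mat k}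
    (h : A * B = B * m) : NormedSpace.exp A * B = B * NormedSpace.exp m := by
  have hpow : ∀ n : ℕ, A ^ n * B = B * m ^ n := by
    intro n
    induction n with
    | zero => simp
    | succ n ih => rw [pow_succ, Matrix.mul_assoc, h, ← Matrix.mul_assoc, ih, pow_succ,
        Matrix.mul_assoc]
  have h1 : HasSum (fun n : ℕ => (((n.factorial : ℝ)⁻¹) • A ^ n) * B) (NormedSpace.exp A * B) := by
    have hc : Continuous (fun X : Mat N => X * B) := Continuous.matrix_mul continuous_id continuous_const
    exact (exp_hasSum A).map (AddMonoidHom.mk' (fun X : Mat N => X * B)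
      (fun X Y => Matrix.add_mul X Y B)) hc
  have h2 : HasSum (fun n : ℕ => B * (((n.factorial : ℝ)⁻¹) • m ^ n)) (B * NormedSpace.exp m) := by
    have hc : Continuous (fun X : Mat k => B * X) := Continuous.matrix_mul continuous_const continuous_id
    exact (exp_hasSum m).map (AddMonoidHom.mk' (fun X : Mat k => B * X)
      (fun X Y => Matrix.mul_add B X Y)) hc
  have h3 : (fun n : ℕ => (((n.factorial : ℝ)⁻¹) • A ^ n) * B) =
      fun n : ℕ => B * (((n.factorial : ℝ)⁻¹) • m ^ n) := by
    funext n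
    rw [Matrix.smul_mul, Matrix.mul_smul, hpow]
  rw [h3] at h1
  exact h1.unique h2

lemma Pl_mul {N k : ℕ} (B : Matrix (Fin N) (Fin k) ℝ) (g : Mat k) : Pl (B * g) = g.det • Pl B := by
  funext j
  show ((B * g).submatrix j id).det = g.det * (B.submatrix j id).det
  have h : (B * g).submatrix j id = B.submatrix j id * g := by
    ext a b
    simp [Matrix.mul_apply, Matrix.submatrix_apply]
  rw [h, Matrix.det_mul, mul_comm]

/-- if a matrix has a left inverse, its Plücker coordinates do not all vanish -/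
lemma Pl_ne_zero {N k : ℕ} {B : Matrix (Fin N) (Fin k) ℝ} {C : Matrix (Fin k) (Fin N) ℝ}
    (h : C * B = 1) : Pl B ≠ 0 := by
  intro h0
  have h1 : (C * B).det = ∑ j : Fin k → Fin N, (∏ i, C i (j i)) * (B.submatrix j id).det := by
    have e1 : (C * B).det = (Matrix.detRowAlternating (R := ℝ) (n := Fin k)).toMultilinearMap
        (fun i => ∑ l, C i l • B l) := by
      show (C * B).det = Matrix.det (fun i => ∑ l, C i l • B l)
      congr 1
      ext a b
      simp [Matrix.mul_apply]
    rw [e1, MultilinearMap.map_sum]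
    refine Finset.sum_congr rfl fun j _ => ?_
    rw [MultilinearMap.map_smul_univ]
    rfl
  rw [h, Matrix.det_one] at h1
  have h2 : ∀ j : Fin k → Fin N, (B.submatrix j id).det = 0 := fun j => congrFun h0 j
  simp only [h2, mul_zero, Finset.sum_const_zero] at h1
  exact one_ne_zero h1

/-- summation by parts -/
lemma abel {N : ℕ} (v δ : Fin N → ℝ) (h0 : ∑ i, δ i = 0)
    (h : ∀ c : ℝ, 0 ≤ ∑ i ∈ Finset.univ.filter (fun i => c ≤ v i), δ i) : 0 ≤ ∑ i, v i * δ i := by
  classical
  rcases Nat.eq_zero_or_pos N with rfl | hN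
  · simp
  obtain ⟨m, hm⟩ : ∃ m, ∀ i, m ≤ v i := by
    obtain ⟨m, hm⟩ := (Set.finite_range v).bddBelow
    exact ⟨m, fun i => hm ⟨i, rfl⟩⟩
  obtain ⟨M, hM⟩ : ∃ m, ∀ i, v i ≤ m := by
    obtain ⟨m, hm⟩ := (Set.finite_range v).bddAbove
    exact ⟨m, fun i => hm ⟨i, rfl⟩⟩
  have h1 : ∀ i, ∫ c in Set.Ioc m M, (Set.indicator (Set.Iic (v i)) (fun _ => δ i) c) =
      (v i - m) * δ i := by
    intro i
    rw [MeasureTheory.setIntegral_indicator measurableSet_Iic, MeasureTheory.setIntegral_const]
    have : Set.Ioc m M ∩ Set.Iic (v i) = Set.Ioc m (v i) := by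
      ext c
      simp only [Set.mem_inter_iff, Set.mem_Ioc, Set.mem_Iic]
      constructor
      · rintro ⟨⟨a, b⟩, c⟩; exact ⟨a, c⟩
      · rintro ⟨a, b⟩; exact ⟨⟨a, b.trans (hM i)⟩, b⟩
    rw [this]
    simp only [Real.volume_real_Ioc_of_le (hm i), smul_eq_mul]
  have h2 : 0 ≤ ∫ c in Set.Ioc m M, ∑ i, (Set.indicator (Set.Iic (v i)) (fun _ => δ i) c) := by
    apply MeasureTheory.integral_nonneg
    intro c
    have := h c
    rw [Finset.sum_filter] at this
    have e : ∀ i, (Set.Iic (v i)).indicator (fun x => δ i) c = if c ≤ v i then δ i else 0 := by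
      intro i
      simp only [Set.indicator_apply, Set.mem_Iic]
    simp only [e]
    exact this
  rw [MeasureTheory.integral_finsetSum] at h2
  · simp only [h1] at h2
    simp only [sub_mul, Finset.sum_sub_distrib, ← Finset.mul_sum, h0, mul_zero, sub_zero] at h2
    exact h2
  · intro i _
    apply MeasureTheory.Integrable.indicator _ measurableSet_Iic
    exact MeasureTheory.integrable_const _

lemma exists_den {N : ℕ} (P : MatQ N) : ∃ D : ℕ, D ≠ 0 ∧ ∃ Z : Matrix (Fin N) (Fin N) ℤ,
    ∀ i j, ((Z i j : ℤ) : ℚ) = (D : ℚ) * P i j := by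
  classical
  refine ⟨∏ p : Fin N × Fin N, (P p.1 p.2).den, ?_, ?_⟩
  · exact Finset.prod_ne_zero_iff.mpr fun p _ => (P p.1 p.2).den_nz
  · have h : ∀ i j, ∃ z : ℤ, (z : ℚ) =
        ((∏ p : Fin N × Fin N, (P p.1 p.2).den : ℕ) : ℚ) * P i j := by
      intro i j
      obtain ⟨k, hk⟩ := Finset.dvd_prod_of_mem (fun p : Fin N × Fin N => (P p.1 p.2).den)
        (Finset.mem_univ (i, j))
      refine ⟨(P i j).num * k, ?_⟩
      rw [hk]
      push_cast
      have h2 : ((P i j).den : ℚ) * P i j = (P i j).num := by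
        rw [mul_comm]; exact Rat.mul_den_eq_num _
      rw [mul_right_comm, h2]
    choose Z hZ using h
    exact ⟨Z, hZ⟩

/-- a matrix that preserves the span of the columns in `J` -/
lemma preserve {N k : ℕ} {Pr Pi y : Mat N} (hPP : Pr * Pi = 1) (J : Finset (Fin N))
    (e : Fin k ≃ J) (c : ℝ) (h : ∀ j ∈ J, ∀ i, i ∉ J → (Pi * y * Pr) i j = 0) :
    y * (c • Pr.submatrix id (fun a => (e a : Fin N))) =
      (c • Pr.submatrix id (fun a => (e a : Fin N))) *
        (Pi * y * Pr).submatrix (fun a => (e a : Fin N)) (fun a => (e a : Fin N)) := by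
  set Y : Mat N := Pi * y * Pr with hY
  have h1 : y * Pr = Pr * Y := by
    rw [hY, ← Matrix.mul_assoc, ← Matrix.mul_assoc, hPP, Matrix.one_mul]
  rw [Matrix.mul_smul, Matrix.smul_mul]
  congr 1
  ext a b
  have h2 : (y * Pr.submatrix id (fun a => (e a : Fin N))) a b = (y * Pr) a (e b) := by
    simp [Matrix.mul_apply]
  rw [h2, h1, Matrix.mul_apply, Matrix.mul_apply]
  simp only [Matrix.submatrix_apply, id]
  have h3 : ∑ x, Pr a (e x : Fin N) * Y (e x : Fin N) (e b : Fin N) =
      ∑ i ∈ J, Pr a i * Y i (e b : Fin N) := by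
    rw [← Finset.sum_coe_sort J, ← Equiv.sum_comp e]
  rw [h3]
  symm
  apply Finset.sum_subset (Finset.subset_univ J)
  intro i _ hi
  rw [h _ (e b).2 i hi, mul_zero]

lemma trace_sub {N k : ℕ} (Y : Mat N) (J : Finset (Fin N)) (e : Fin k ≃ J) :
    (Y.submatrix (fun a => (e a : Fin N)) (fun a => (e a : Fin N))).trace = ∑ i ∈ J, Y i i := by
  rw [← Finset.sum_coe_sort J, ← Equiv.sum_comp e]
  rfl

end cover

open cover in
theorem T_cover (h1 : S_simdiag) : S_cover := by
  intro N s hs' d hsd htr hinj E α hE hα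
  classical
  obtain ⟨P, μ, hP⟩ := h1 hs'
  -- real versions
  have toR_mul : ∀ A B : MatQ N, toR (A * B) = toR A * toR B := fun A B =>
    Matrix.map_mul (f := Rat.castHom ℝ)
  have toR_one : toR (1 : MatQ N) = 1 := by simp [toR]
  set Pr : Mat N := toR (P : MatQ N) with hPr
  set Pi : Mat N := toR ((P⁻¹ : GL (Fin N) ℚ) : MatQ N) with hPi
  have hPP : Pr * Pi = 1 := by
    rw [hPr, hPi, ← toR_mul, ← toR_one, ← Units.val_mul, mul_inv_cancel, Units.val_one]
  have hPP' : Pi * Pr = 1 := by
    rw [hPr, hPi, ← toR_mul, ← toR_one, ← Units.val_mul, inv_mul_cancel, Units.val_one]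
  have hx : ∀ x : s, toR (x : MatQ N) = Pr * diagonal (fun i => ((μ i x : ℚ) : ℝ)) * Pi := by
    intro x
    have h2 : toR (diagonal (fun i => μ i x) : MatQ N) = diagonal (fun i => ((μ i x : ℚ) : ℝ)) := by
      simp [toR, Matrix.diagonal_map]
    rw [← h2, hPr, hPi, ← toR_mul, ← toR_mul, ← hP x]
  -- `y` in `d` preserves the weights
  have hY : ∀ y ∈ d, ∀ i j, (Pi * y * Pr) i j ≠ 0 → μ i = μ j := by
    intro y hy i j hij
    ext x
    have h2 := hsd x x.2 y hy
    rw [hx x] at h2
    have h3 : diagonal (fun i => ((μ i x : ℚ) : ℝ)) * (Pi * y * Pr) =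
        (Pi * y * Pr) * diagonal (fun i => ((μ i x : ℚ) : ℝ)) := by
      calc diagonal (fun i => ((μ i x : ℚ) : ℝ)) * (Pi * y * Pr)
          = (Pi * Pr) * diagonal (fun i => ((μ i x : ℚ) : ℝ)) * (Pi * y * Pr) := by
            rw [hPP', Matrix.one_mul]
        _ = Pi * (Pr * diagonal (fun i => ((μ i x : ℚ) : ℝ)) * Pi * y) * Pr := by
            simp only [Matrix.mul_assoc]
        _ = Pi * (y * (Pr * diagonal (fun i => ((μ i x : ℚ) : ℝ)) * Pi)) * Pr := by rw [h2]
        _ = (Pi * y * Pr) * diagonal (fun i => ((μ i x : ℚ) : ℝ)) * (Pi * Pr) := by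
            simp only [Matrix.mul_assoc]
        _ = _ := by rw [hPP', Matrix.mul_one]
    have h4 := congrFun (congrFun h3 i) j
    rw [Matrix.diagonal_mul, Matrix.mul_diagonal, mul_comm] at h4
    exact_mod_cast mul_left_cancel₀ hij h4
  have hα0 : α ≠ 0 := by
    intro h0
    apply hα 0 d.zero_mem
    intro x
    simp [h0]
  have hF : ∀ i j, (Pi * toR E * Pr) i j ≠ 0 → μ i = μ j + α := by
    intro i j hij
    ext x
    have h2 : toR (x : MatQ N) * toR E - toR E * toR (x : MatQ N) = ((α x : ℚ) : ℝ) • toR E := by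
      have := congrArg toR (hE x)
      have e1 : toR ((x : MatQ N) * E - E * (x : MatQ N)) =
          toR ((x : MatQ N) * E) - toR (E * (x : MatQ N)) := by
        ext a b; simp [toR]
      have e2 : toR (α x • E) = ((α x : ℚ) : ℝ) • toR E := by
        ext a b; simp [toR]
      rw [e1, e2, toR_mul, toR_mul] at this
      exact this
    rw [hx x] at h2
    have h3 : diagonal (fun i => ((μ i x : ℚ) : ℝ)) * (Pi * toR E * Pr) -
        (Pi * toR E * Pr) * diagonal (fun i => ((μ i x : ℚ) : ℝ)) =
        ((α x : ℚ) : ℝ) • (Pi * toR E * Pr) := by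
      calc diagonal (fun i => ((μ i x : ℚ) : ℝ)) * (Pi * toR E * Pr) -
            (Pi * toR E * Pr) * diagonal (fun i => ((μ i x : ℚ) : ℝ))
          = (Pi * Pr) * diagonal (fun i => ((μ i x : ℚ) : ℝ)) * (Pi * toR E * Pr) -
            (Pi * toR E * Pr) * diagonal (fun i => ((μ i x : ℚ) : ℝ)) * (Pi * Pr) := by
            rw [hPP', Matrix.one_mul, Matrix.mul_one]
        _ = Pi * (Pr * diagonal (fun i => ((μ i x : ℚ) : ℝ)) * Pi * toR E -
              toR E * (Pr * diagonal (fun i => ((μ i x : ℚ) : ℝ)) * Pi)) * Pr := by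
            simp only [Matrix.mul_assoc, Matrix.mul_sub, Matrix.sub_mul]
        _ = _ := by rw [h2, Matrix.mul_smul, Matrix.smul_mul]
    have h4 := congrFun (congrFun h3 i) j
    rw [Matrix.sub_apply, Matrix.diagonal_mul, Matrix.mul_diagonal, Matrix.smul_apply,
      smul_eq_mul] at h4
    have h5 : (Pi * toR E * Pr) i j * (((μ i x : ℚ) : ℝ)) =
        (Pi * toR E * Pr) i j * (((μ j x : ℚ) : ℝ) + ((α x : ℚ) : ℝ)) := by linarith
    have h6 := mul_left_cancel₀ hij h5
    rw [LinearMap.add_apply]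
    exact_mod_cast h6
  -- the good sets
  set good : Finset (Finset (Fin N)) := Finset.univ.filter (fun J =>
    (∀ i ∈ J, ∀ j, μ i = μ j → j ∈ J) ∧ (∀ j ∈ J, ∀ i, μ i = μ j + α → i ∈ J)) with hgood
  obtain ⟨D, hD, Z, hZ⟩ := exists_den (P : MatQ N)
  have hDr : (D : ℝ) ≠ 0 := by exact_mod_cast hD
  let ee : Fin good.card ≃ good := good.equivFin.symm
  let κ : Finset (Fin N) → (Mat N →ₗ[ℝ] ℝ) := fun J =>
    { toFun := fun y => ∑ i ∈ J, (Pi * y * Pr) i i
      map_add' := by
        intro y z
        rw [← Finset.sum_add_distrib]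
        refine Finset.sum_congr rfl fun i _ => ?_
        rw [Matrix.mul_add, Matrix.add_mul, Matrix.add_apply]
      map_smul' := by
        intro c y
        rw [RingHom.id_apply, smul_eq_mul, Finset.mul_sum]
        refine Finset.sum_congr rfl fun i _ => ?_
        rw [Matrix.mul_smul, Matrix.smul_mul, Matrix.smul_apply, smul_eq_mul] }
  let eJ : ∀ J : Finset (Fin N), Fin J.card ≃ J := fun J => J.equivFin.symm
  let B : ∀ J : Finset (Fin N), Matrix (Fin N) (Fin J.card) ℤ := fun J a b => Z a (eJ J b)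
  have hB : ∀ J : Finset (Fin N), intR (B J) =
      (D : ℝ) • Pr.submatrix id (fun a => (eJ J a : Fin N)) := by
    intro J
    ext a b
    have := hZ a (eJ J b)
    simp only [intR, Matrix.map_apply, Matrix.smul_apply, Matrix.submatrix_apply, id, smul_eq_mul,
      hPr, toR, B]
    exact_mod_cast this
  refine ⟨good.card, fun i => (ee i : Finset (Fin N)).card, fun i => B (ee i), fun i => κ (ee i),
    ?_, ?_, ?_, ?_⟩
  · intro i
    exact (Finset.card_le_univ _).trans (by simp)
  · intro i
    apply Pl_ne_zero (C := (D : ℝ)⁻¹ • Pi.submatrix (fun a => (eJ (ee i) a : Fin N)) id)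
    rw [hB, Matrix.smul_mul, Matrix.mul_smul, smul_smul, inv_mul_cancel₀ hDr, one_smul]
    ext a b
    have h2 : (Pi.submatrix (fun a => (eJ (ee i) a : Fin N)) id *
        Pr.submatrix id (fun a => (eJ (ee i) a : Fin N))) a b =
        (Pi * Pr) (eJ (ee i) a) (eJ (ee i) b) := by
      simp [Matrix.mul_apply]
    rw [h2, hPP', Matrix.one_apply, Matrix.one_apply]
    simp only [Subtype.val_inj, EmbeddingLike.apply_eq_iff_eq]
  · intro i y hy t
    have hJ := (Finset.mem_filter.mp (ee i).2).2
    have p1 := preserve (y := y) hPP (ee i : Finset (Fin N)) (eJ (ee i)) (D : ℝ) (by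
      intro j hj l hl
      by_contra hne
      exact hl (hJ.1 j hj l (hY y hy l j hne).symm))
    have p2 := preserve (y := t • toR E) hPP (ee i : Finset (Fin N)) (eJ (ee i)) (D : ℝ) (by
      intro j hj l hl
      by_contra hne
      rw [Matrix.mul_smul, Matrix.smul_mul, Matrix.smul_apply, smul_eq_mul] at hne
      exact hl (hJ.2 j hj l (hF l j (right_ne_zero_of_mul hne))))
    rw [← hB] at p1 p2
    have q1 := exp_intertwine p1
    have q2 := exp_intertwine p2
    show Pl (NormedSpace.exp y * NormedSpace.exp (t • toR E) * intR (B (ee i))) = _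
    rw [Matrix.mul_assoc, q2, ← Matrix.mul_assoc, q1, Matrix.mul_assoc, Pl_mul, Matrix.det_mul,
      det_exp, det_exp, trace_sub, trace_sub]
    have h5 : ∑ l ∈ (ee i : Finset (Fin N)), (Pi * t • toR E * Pr) l l = 0 := by
      apply Finset.sum_eq_zero
      intro l _
      rw [Matrix.mul_smul, Matrix.smul_mul, Matrix.smul_apply, smul_eq_mul]
      by_cases h6 : (Pi * toR E * Pr) l l = 0
      · rw [h6, mul_zero]
      · exact absurd (left_eq_add.mp (hF l l h6)) hα0
    rw [h5, Real.exp_zero, mul_one]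
    rfl
  · intro y hy hy0
    by_contra hcon
    push Not at hcon
    have hcon' : ∀ J ∈ good, 0 ≤ ∑ i ∈ J, (Pi * y * Pr) i i := by
      intro J hJ
      have := hcon (ee.symm ⟨J, hJ⟩)
      rw [Equiv.apply_symm_apply] at this
      exact this
    have htr' : ∀ x : s, (toR (x : MatQ N) * y).trace =
        ∑ i, ((μ i x : ℚ) : ℝ) * (Pi * y * Pr) i i := by
      intro x
      rw [hx x, Matrix.mul_assoc, Matrix.mul_assoc, Matrix.trace_mul_comm, Matrix.mul_assoc]
      rw [Matrix.trace]
      refine Finset.sum_congr rfl fun i _ => ?_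
      rw [Matrix.diag_apply, Matrix.diagonal_mul]
    have h0 : ∑ i, (Pi * y * Pr) i i = 0 := by
      have : (Pi * y * Pr).trace = 0 := by
        rw [Matrix.trace_mul_comm, ← Matrix.mul_assoc, hPP, Matrix.one_mul, htr y hy]
      exact this
    have hpos : ∀ x : s, 0 ≤ α x → 0 ≤ (toR (x : MatQ N) * y).trace := by
      intro x hαx
      rw [htr' x]
      apply abel _ _ h0
      intro c
      apply hcon'
      rw [hgood, Finset.mem_filter]
      refine ⟨Finset.mem_univ _, ?_, ?_⟩
      · intro i hi j hij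
        simp only [Finset.mem_filter, Finset.mem_univ, true_and] at hi ⊢
        rw [← hij]; exact hi
      · intro j hj i hij
        simp only [Finset.mem_filter, Finset.mem_univ, true_and] at hj ⊢
        rw [hij, LinearMap.add_apply]
        push_cast
        have : (0 : ℝ) ≤ ((α x : ℚ) : ℝ) := by exact_mod_cast hαx
        linarith
    -- the functional `x ↦ tr (x y)`
    have hadd : ∀ x z : s, (toR ((x + z : s) : MatQ N) * y).trace =
        (toR (x : MatQ N) * y).trace + (toR (z : MatQ N) * y).trace := by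
      intro x z
      have : toR ((x + z : s) : MatQ N) = toR (x : MatQ N) + toR (z : MatQ N) := by
        ext a b; simp [toR]
      rw [this, Matrix.add_mul, Matrix.trace_add]
    have hsmul : ∀ (q : ℚ) (x : s), (toR ((q • x : s) : MatQ N) * y).trace =
        (q : ℝ) * (toR (x : MatQ N) * y).trace := by
      intro q x
      have : toR ((q • x : s) : MatQ N) = (q : ℝ) • toR (x : MatQ N) := by
        ext a b; simp [toR]
      rw [this, Matrix.smul_mul, Matrix.trace_smul, smul_eq_mul]
    have hker : ∀ x : s, α x = 0 → (toR (x : MatQ N) * y).trace = 0 := by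
      intro x hx0
      have a1 := hpos x hx0.ge
      have a2 := hpos ((-1 : ℚ) • x) (by rw [map_smul, hx0, smul_zero])
      rw [hsmul] at a2
      push_cast at a2
      linarith
    obtain ⟨x₁, hx₁⟩ : ∃ x : s, α x ≠ 0 := by
      by_contra hno
      push Not at hno
      exact hα0 (LinearMap.ext hno)
    have hx₀ : α ((α x₁)⁻¹ • x₁) = 1 := by
      rw [map_smul, smul_eq_mul, inv_mul_cancel₀ hx₁]
    set x₀ : s := (α x₁)⁻¹ • x₁ with hx₀def
    have hform : ∀ x : s, (toR (x : MatQ N) * y).trace =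
        ((α x : ℚ) : ℝ) * (toR (x₀ : MatQ N) * y).trace := by
      intro x
      have e1 : x = (x + (-(α x)) • x₀) + (α x) • x₀ := by
        rw [add_assoc, ← add_smul, neg_add_cancel, zero_smul, add_zero]
      have e2 : α (x + (-(α x)) • x₀) = 0 := by
        rw [map_add, map_smul, hx₀, smul_eq_mul]; ring
      conv_lhs => rw [e1]
      rw [hadd, hker _ e2, hsmul, zero_add]
    set c := (toR (x₀ : MatQ N) * y).trace with hc
    by_cases hc0 : c = 0
    · apply hy0
      apply hinj y hy
      intro x hxs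
      have := hform ⟨x, hxs⟩
      rw [hc0, mul_zero] at this
      exact this
    · apply hα (c⁻¹ • y) (d.smul_mem _ hy)
      intro x
      rw [Matrix.mul_smul, Matrix.trace_smul, hform x, smul_eq_mul]
      field_simp

end Pool.Agent.Helper654_DO
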