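import Pool.Agent.Helper654_DO.Stmts

/-!
# Diagonalizable matrices and products of distinct linear factors
-/

set_option autoImplicit false

open Matrix Module Polynomial

namespace Pool.Agent.Helper654_DO.diag

variable {K : Type} [Field K] {N : ℕ}

/-- A spanning set of column vectors contains the columns of an invertible matrix. -/
theorem exists_GL_of_span {s : Set (Fin N → K)} (hs : ⊤ ≤ Submodule.span K s) :
    ∃ P : GL (Fin N) K, ∀ j, (fun i => (P : Matrix (Fin N) (Fin N) K) i j) ∈ s := by
  classical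
  let b := Basis.ofSpan hs
  let e := b.indexEquiv (Pi.basisFun K (Fin N))
  let b' : Basis (Fin N) K (Fin N → K) := b.reindex e
  have hb' : ∀ j, b' j ∈ s := by
    intro j
    have h1 : b' j = b (e.symm j) := by simp [b']
    rw [h1]
    exact Basis.ofSpan_subset hs ⟨_, rfl⟩
  let inst := (Pi.basisFun K (Fin N)).invertibleToMatrix b'
  refine ⟨unitOfInvertible ((Pi.basisFun K (Fin N)).toMatrix b'), fun j => ?_⟩
  have h2 : (fun i => ((unitOfInvertible ((Pi.basisFun K (Fin N)).toMatrix b') :
      GL (Fin N) K) : Matrix (Fin N) (Fin N) K) i j) = b' j := by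
    funext i
    simp [Basis.toMatrix_apply]
  rw [h2]
  exact hb' j

theorem eq_conj_of_cols {A : Matrix (Fin N) (Fin N) K} (P : GL (Fin N) K) (d : Fin N → K)
    (h : ∀ j, A *ᵥ (fun i => (P : Matrix (Fin N) (Fin N) K) i j) =
      d j • (fun i => (P : Matrix (Fin N) (Fin N) K) i j)) :
    A = (P : Matrix (Fin N) (Fin N) K) * diagonal d *
      ((P⁻¹ : GL (Fin N) K) : Matrix (Fin N) (Fin N) K) := by
  have h1 : A * (P : Matrix (Fin N) (Fin N) K) = (P : Matrix (Fin N) (Fin N) K) * diagonal d := by
    ext i j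
    rw [mul_diagonal, mul_comm]
    exact congrFun (h j) i
  rw [← h1, Matrix.mul_assoc, ← Units.val_mul, mul_inv_cancel, Units.val_one, Matrix.mul_one]

theorem cols_of_eq_conj {A : Matrix (Fin N) (Fin N) K} (P : GL (Fin N) K) (d : Fin N → K)
    (h : A = (P : Matrix (Fin N) (Fin N) K) * diagonal d *
      ((P⁻¹ : GL (Fin N) K) : Matrix (Fin N) (Fin N) K)) (j : Fin N) :
    A *ᵥ (fun i => (P : Matrix (Fin N) (Fin N) K) i j) =
      d j • (fun i => (P : Matrix (Fin N) (Fin N) K) i j) := by
  have h1 : A * (P : Matrix (Fin N) (Fin N) K) = (P : Matrix (Fin N) (Fin N) K) * diagonal d := by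
    rw [h, Matrix.mul_assoc, ← Units.val_mul, inv_mul_cancel, Units.val_one, Matrix.mul_one]
  funext i
  have h2 := congrFun (congrFun h1 i) j
  rw [mul_diagonal, mul_comm] at h2
  exact h2

theorem span_cols (P : GL (Fin N) K) :
    ⊤ ≤ Submodule.span K (Set.range fun j : Fin N => fun i =>
      (P : Matrix (Fin N) (Fin N) K) i j) := by
  intro v _
  have h1 : v = ∑ j, ((((P⁻¹ : GL (Fin N) K) : Matrix (Fin N) (Fin N) K)) *ᵥ v) j •
      (fun i => (P : Matrix (Fin N) (Fin N) K) i j) := by
    have h2 : (P : Matrix (Fin N) (Fin N) K) *ᵥ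
        (((P⁻¹ : GL (Fin N) K) : Matrix (Fin N) (Fin N) K) *ᵥ v) = v := by
      rw [Matrix.mulVec_mulVec, ← Units.val_mul, mul_inv_cancel, Units.val_one, Matrix.one_mulVec]
    funext i
    rw [Finset.sum_apply]
    conv_lhs => rw [← h2]
    rw [Matrix.mulVec, dotProduct]
    refine Finset.sum_congr rfl fun j _ => ?_
    rw [Pi.smul_apply, smul_eq_mul, mul_comm]
  rw [h1]
  exact Submodule.sum_mem _ fun j _ => Submodule.smul_mem _ _ (Submodule.subset_span ⟨j, rfl⟩)

theorem ker_prod_le (f : Module.End K (Fin N → K)) (S : Finset K) :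
    LinearMap.ker (aeval f (∏ c ∈ S, (X - C c))) ≤
      Submodule.span K {v | ∃ c : K, f v = c • v} := by
  classical
  induction S using Finset.induction_on with
  | empty =>
    rw [Finset.prod_empty, map_one]
    intro v hv
    have : v = 0 := by simpa using hv
    rw [this]
    exact Submodule.zero_mem _
  | insert c S hc ih =>
    rw [Finset.prod_insert hc]
    have hco : IsCoprime (X - C c) (∏ c ∈ S, (X - C c)) := by
      refine IsCoprime.prod_right fun c' hc' => ?_
      refine isCoprime_X_sub_C_of_isUnit_sub ?_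
      refine (sub_ne_zero.2 ?_).isUnit
      rintro rfl
      exact hc hc'
    rw [← sup_ker_aeval_eq_ker_aeval_mul_of_coprime f hco]
    refine sup_le ?_ ih
    intro v hv
    refine Submodule.subset_span ⟨c, ?_⟩
    rw [LinearMap.mem_ker] at hv
    have h1 : f v - c • v = 0 := by
      simpa [Algebra.algebraMap_eq_smul_one] using hv
    exact sub_eq_zero.1 h1

theorem aeval_conj (P : GL (Fin N) K) (D : Matrix (Fin N) (Fin N) K) (p : K[X]) :
    aeval ((P : Matrix (Fin N) (Fin N) K) * D *
      ((P⁻¹ : GL (Fin N) K) : Matrix (Fin N) (Fin N) K)) p =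
    (P : Matrix (Fin N) (Fin N) K) * aeval D p *
      ((P⁻¹ : GL (Fin N) K) : Matrix (Fin N) (Fin N) K) := by
  have hP : (P : Matrix (Fin N) (Fin N) K) *
      ((P⁻¹ : GL (Fin N) K) : Matrix (Fin N) (Fin N) K) = 1 := by
    rw [← Units.val_mul, mul_inv_cancel, Units.val_one]
  have hP' : ((P⁻¹ : GL (Fin N) K) : Matrix (Fin N) (Fin N) K) *
      (P : Matrix (Fin N) (Fin N) K) = 1 := by
    rw [← Units.val_mul, inv_mul_cancel, Units.val_one]
  induction p using Polynomial.induction_on' with
  | add p q hp hq => rw [map_add, map_add, hp, hq, Matrix.mul_add, Matrix.add_mul]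
  | monomial n a =>
    rw [aeval_monomial, aeval_monomial, Algebra.algebraMap_eq_smul_one, Matrix.smul_mul,
      Matrix.one_mul, Matrix.smul_mul, Matrix.one_mul, Matrix.mul_smul, Matrix.smul_mul]
    congr 1
    induction n with
    | zero => rw [pow_zero, pow_zero, Matrix.mul_one, hP]
    | succ n ih =>
      rw [pow_succ, ih, pow_succ]
      calc _ = (P : Matrix (Fin N) (Fin N) K) * D ^ n *
            (((P⁻¹ : GL (Fin N) K) : Matrix (Fin N) (Fin N) K) *
            (P : Matrix (Fin N) (Fin N) K)) * D *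
            ((P⁻¹ : GL (Fin N) K) : Matrix (Fin N) (Fin N) K) := by
            simp only [Matrix.mul_assoc]
        _ = _ := by rw [hP', Matrix.mul_one]; simp only [Matrix.mul_assoc]

theorem aeval_diagonal (d : Fin N → K) (p : K[X]) :
    aeval (diagonal d) p = diagonal (fun i => p.eval (d i)) := by
  induction p using Polynomial.induction_on' with
  | add p q hp hq =>
    rw [map_add, hp, hq, diagonal_add]
    congr 1
    funext i
    rw [eval_add]
  | monomial n a =>
    rw [aeval_monomial, Algebra.algebraMap_eq_smul_one, Matrix.smul_mul, Matrix.one_mul,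
      diagonal_pow, ← diagonal_smul]
    congr 1
    funext i
    rw [eval_monomial, Pi.smul_apply, Pi.pow_apply, smul_eq_mul]

end Pool.Agent.Helper654_DO.diag

namespace Pool.Agent.Helper654_DO

open diag

theorem T_diagonalizable_iff : S_diagonalizable_iff := by
  intro K _ N A
  classical
  constructor
  · rintro ⟨P, d, rfl⟩
    refine ⟨Finset.univ.image d, ?_⟩
    rw [diag.aeval_conj, aeval_diagonal]
    have : (fun i => (∏ c ∈ Finset.univ.image d, (X - C c)).eval (d i)) = fun _ => 0 := by
      funext i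
      rw [eval_prod]
      refine Finset.prod_eq_zero (Finset.mem_image_of_mem d (Finset.mem_univ i)) ?_
      rw [eval_sub, eval_X, eval_C, sub_self]
    rw [this]
    have h0 : (diagonal fun _ : Fin N => (0 : K)) = 0 := diagonal_zero
    rw [h0, Matrix.mul_zero, Matrix.zero_mul]
  · rintro ⟨S, hS⟩
    have h1 : aeval (Matrix.toLin' A) (∏ c ∈ S, (X - C c)) = 0 := by
      have h2 := congrArg (Matrix.toLinAlgEquiv' : Matrix (Fin N) (Fin N) K ≃ₐ[K] _) hS
      rw [map_zero, ← aeval_algHom_apply] at h2
      exact h2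
    have h3 := ker_prod_le (Matrix.toLin' A) S
    rw [h1, LinearMap.ker_zero] at h3
    obtain ⟨P, hP⟩ := exists_GL_of_span h3
    choose d hd using hP
    exact ⟨P, d, eq_conj_of_cols P d fun j => by rw [← hd j, Matrix.toLin'_apply]⟩

end Pool.Agent.Helper654_DO
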