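import Pool.Agent.Helper654_DO.T_locallyCompact

/-!
# Plücker coordinates and the criterion for divergence
-/

set_option autoImplicit false

open Matrix Module Filter Topology

namespace Pool.Agent.Helper654_DO

theorem Pl_mul {N k : ℕ} (A : Mat N) (M : Matrix (Fin N) (Fin k) ℝ) (i : Fin k → Fin N) :
    Pl (A * M) i = ∑ j : Fin k → Fin N, (∏ a, A (i a) (j a)) * Pl M j := by
  have h1 : (A * M).submatrix i id = fun a => ∑ l, A (i a) l • M l := by
    ext a b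
    simp [Matrix.mul_apply]
  have h2 : Pl (A * M) i = Matrix.detRowAlternating (R := ℝ) (fun a => ∑ l, A (i a) l • M l) := by
    rw [← h1]; rfl
  rw [h2]
  have h3 := (Matrix.detRowAlternating (R := ℝ) (n := Fin k)).toMultilinearMap.map_sum
    (fun (a : Fin k) (l : Fin N) => A (i a) l • M l)
  rw [AlternatingMap.coe_multilinearMap] at h3
  rw [h3]
  refine Finset.sum_congr rfl fun j _ => ?_
  have h4 := (Matrix.detRowAlternating (R := ℝ) (n := Fin k)).toMultilinearMap.map_smul_univ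
    (fun a => A (i a) (j a)) (fun a => M (j a))
  rw [AlternatingMap.coe_multilinearMap] at h4
  rw [h4, smul_eq_mul]
  rfl

theorem Pl_mul_right {N k : ℕ} (M : Matrix (Fin N) (Fin k) ℝ) (C : Matrix (Fin k) (Fin k) ℝ) :
    Pl (M * C) = C.det • Pl M := by
  funext j
  simp only [Pl, Pi.smul_apply, smul_eq_mul]
  have h : (M * C).submatrix j id = M.submatrix j id * C := by
    ext a b
    simp [Matrix.mul_apply]
  rw [h, Matrix.det_mul, mul_comm]

/-- a bound for the Plücker coordinates of a product -/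
theorem norm_Pl_mul_le {N k : ℕ} (hk : k ≤ N) (A : Mat N) {b : ℝ} (hb : ∀ i j, |A i j| ≤ b)
    (M : Matrix (Fin N) (Fin k) ℝ) :
    ‖Pl (A * M)‖ ≤ (max 1 (N * b)) ^ N * ‖Pl M‖ := by
  have hmax : (0 : ℝ) ≤ max 1 (N * b) := zero_le_one.trans (le_max_left _ _)
  rw [pi_norm_le_iff_of_nonneg (by positivity)]
  intro i
  rw [Pl_mul, Real.norm_eq_abs]
  calc |∑ j : Fin k → Fin N, (∏ a, A (i a) (j a)) * Pl M j|
      ≤ ∑ j : Fin k → Fin N, |(∏ a, A (i a) (j a)) * Pl M j| := Finset.abs_sum_le_sum_abs _ _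
    _ ≤ ∑ j : Fin k → Fin N, b ^ k * ‖Pl M‖ := by
        refine Finset.sum_le_sum fun j _ => ?_
        rw [abs_mul, Finset.abs_prod]
        have h1 : ∏ a, |A (i a) (j a)| ≤ b ^ k := by
          calc ∏ a, |A (i a) (j a)| ≤ ∏ _a : Fin k, b :=
                Finset.prod_le_prod (fun _ _ => abs_nonneg _) (fun a _ => hb _ _)
            _ = b ^ k := by simp
        have h2 : |Pl M j| ≤ ‖Pl M‖ := norm_le_pi_norm (Pl M) j
        exact mul_le_mul h1 h2 (abs_nonneg _) ((Finset.prod_nonneg fun _ _ => abs_nonneg _).trans h1)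
    _ = (N * b) ^ k * ‖Pl M‖ := by
        rw [Finset.sum_const, Finset.card_univ, Fintype.card_fun, Fintype.card_fin, Fintype.card_fin,
          nsmul_eq_mul, mul_pow]
        push_cast
        ring
    _ ≤ (max 1 (N * b)) ^ N * ‖Pl M‖ := by
        apply mul_le_mul_of_nonneg_right _ (norm_nonneg _)
        rcases Nat.eq_zero_or_pos k with h0 | h0
        · subst h0
          simpa using one_le_pow₀ (le_max_left 1 ((N : ℝ) * b))
        · have hN : 0 < N := h0.trans_le hk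
          have hb0 : 0 ≤ b := (abs_nonneg _).trans (hb ⟨0, hN⟩ ⟨0, hN⟩)
          calc ((N : ℝ) * b) ^ k ≤ (max 1 (N * b)) ^ k :=
                pow_le_pow_left₀ (by positivity) (le_max_right _ _) _
            _ ≤ (max 1 (N * b)) ^ N := pow_le_pow_right₀ (le_max_left _ _) hk

theorem continuous_Pl {N k : ℕ} :
    Continuous (Pl : Matrix (Fin N) (Fin k) ℝ → (Fin k → Fin N) → ℝ) := by
  refine continuous_pi fun j => ?_
  unfold Pl
  exact Continuous.matrix_det (continuous_id.matrix_submatrix _ _)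

/-- the Plücker coordinates of an integral matrix -/
theorem one_le_norm_Pl {N k : ℕ} (B : Matrix (Fin N) (Fin k) ℤ) (hB : Pl (intR B) ≠ 0) :
    1 ≤ ‖Pl (intR B)‖ := by
  obtain ⟨j, hj⟩ : ∃ j, Pl (intR B) j ≠ 0 := by
    by_contra hcon
    push Not at hcon
    exact hB (funext hcon)
  have h1 : Pl (intR B) j = (((B.submatrix j id).det : ℤ) : ℝ) := by
    unfold Pl intR
    have := Int.cast_det (R := ℝ) (B.submatrix j id)
    rw [this]
    rfl
  have h2 : (B.submatrix j id).det ≠ 0 := by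
    intro h0
    rw [h0] at h1
    exact hj (by simpa using h1)
  have h3 : (1 : ℝ) ≤ |Pl (intR B) j| := by
    rw [h1, ← Int.cast_abs]
    exact_mod_cast Int.one_le_abs h2
  exact h3.trans (norm_le_pi_norm (Pl (intR B)) j)

theorem intR_mul {N k : ℕ} (A : Matrix (Fin N) (Fin N) ℤ) (B : Matrix (Fin N) (Fin k) ℤ) :
    intR A * intR B = intR (A * B) := (Matrix.map_mul (f := Int.castRingHom ℝ)).symm

/-- compact sets of the quotient are covered by images of compact sets -/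
theorem exists_compact_lift {G : Type} [Group G] [TopologicalSpace G] [IsTopologicalGroup G]
    [LocallyCompactSpace G] (Γ : Subgroup G) {C : Set (G ⧸ Γ)} (hC : IsCompact C) :
    ∃ K : Set G, IsCompact K ∧ C ⊆ (fun g : G => (g : G ⧸ Γ)) '' K := by
  refine hC.induction_on (p := fun S => ∃ K : Set G, IsCompact K ∧
    S ⊆ (fun g : G => (g : G ⧸ Γ)) '' K) ⟨∅, isCompact_empty, by simp⟩ ?_ ?_ ?_
  · rintro s t hst ⟨K, hK, h⟩
    exact ⟨K, hK, hst.trans h⟩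
  · rintro s t ⟨K, hK, h⟩ ⟨K', hK', h'⟩
    refine ⟨K ∪ K', hK.union hK', ?_⟩
    rw [Set.image_union]
    exact Set.union_subset_union h h'
  · intro x _
    obtain ⟨g, rfl⟩ := QuotientGroup.mk_surjective x
    obtain ⟨K, hK, hgK⟩ := exists_compact_mem_nhds g
    refine ⟨(fun g : G => (g : G ⧸ Γ)) '' K, ?_, K, hK, subset_rfl⟩
    apply mem_nhdsWithin_of_mem_nhds
    exact QuotientGroup.isOpenMap_coe.image_mem_nhds hgK

/-- entries are bounded on compact sets -/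
theorem exists_entry_bound {N : ℕ} {H : QGroup N} {K : Set H.G} (hK : IsCompact K) :
    ∃ b : ℝ, ∀ g ∈ K, ∀ i j, |(((g : GL (Fin N) ℝ)⁻¹ : GL (Fin N) ℝ) : Mat N) i j| ≤ b := by
  have h1 : ∀ p : Fin N × Fin N, ∃ b : ℝ, ∀ g ∈ K,
      |(((g : GL (Fin N) ℝ)⁻¹ : GL (Fin N) ℝ) : Mat N) p.1 p.2| ≤ b := by
    intro p
    have hc : Continuous fun g : H.G => |(((g : GL (Fin N) ℝ)⁻¹ : GL (Fin N) ℝ) : Mat N) p.1 p.2| :=
      ((continuous_inv_entry p.1 p.2).comp continuous_subtype_val).abs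
    obtain ⟨b, hb⟩ := (hK.image hc).bddAbove
    exact ⟨b, fun g hg => hb ⟨g, hg, rfl⟩⟩
  choose b hb using h1
  refine ⟨∑ p, |b p|, fun g hg i j => ?_⟩
  calc |(((g : GL (Fin N) ℝ)⁻¹ : GL (Fin N) ℝ) : Mat N) i j| ≤ b (i, j) := hb (i, j) g hg
    _ ≤ |b (i, j)| := le_abs_self _
    _ ≤ ∑ p, |b p| := Finset.single_le_sum (f := fun p => |b p|) (fun p _ => abs_nonneg _)
        (Finset.mem_univ (i, j))

/-- finitely many cosets -/
theorem exists_finite_reps {G : Type} [Group G] {Γ Δ : Subgroup G} (h : Δ.relIndex Γ ≠ 0) :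
    ∃ T : Set G, T.Finite ∧ ∀ γ ∈ Γ, ∃ t ∈ T, t⁻¹ * γ ∈ Δ := by
  have hfin : Finite (Γ ⧸ Δ.subgroupOf Γ) := by
    have : (Δ.subgroupOf Γ).FiniteIndex := ⟨h⟩
    infer_instance
  refine ⟨Set.range fun q : Γ ⧸ Δ.subgroupOf Γ => ((Quotient.out q : Γ) : G), Set.finite_range _, ?_⟩
  intro γ hγ
  refine ⟨_, ⟨((⟨γ, hγ⟩ : Γ) : Γ ⧸ Δ.subgroupOf Γ), rfl⟩, ?_⟩
  have h1 : ((Quotient.out ((⟨γ, hγ⟩ : Γ) : Γ ⧸ Δ.subgroupOf Γ) : Γ) : Γ ⧸ Δ.subgroupOf Γ) =
      ((⟨γ, hγ⟩ : Γ) : Γ ⧸ Δ.subgroupOf Γ) := Quotient.out_eq _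
  rw [QuotientGroup.eq] at h1
  exact h1

theorem T_divergence : S_divergence := by
  intro N H Γ hΓ r δ g h
  have : LocallyCompactSpace H.G := T_locallyCompact H
  rw [(Filter.hasBasis_cocompact (X := H.G ⧸ Γ)).tendsto_right_iff]
  intro C hC
  obtain ⟨K, hK, hCK⟩ := exists_compact_lift Γ hC
  obtain ⟨T, hT, hTΓ⟩ := exists_finite_reps (hΓ.2)
  obtain ⟨b₁, hb₁⟩ := exists_entry_bound hK
  obtain ⟨b₂, hb₂⟩ := exists_entry_bound hT.isCompact
  set K₁ : ℝ := (max 1 (N * b₁)) ^ N with hK₁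
  set K₂ : ℝ := (max 1 (N * b₂)) ^ N with hK₂
  have hK₁0 : 0 < K₁ := pow_pos (zero_lt_one.trans_le (le_max_left _ _)) _
  have hK₂0 : 0 < K₂ := pow_pos (zero_lt_one.trans_le (le_max_left _ _)) _
  obtain ⟨R, hR⟩ := h (1 / (K₁ * K₂)) (by positivity)
  have hev : ∀ᶠ y : Fin r → ℝ in cocompact _, R ≤ ‖y‖ :=
    tendsto_norm_cocompact_atTop.eventually_ge_atTop R
  filter_upwards [hev] with y hy hmem
  obtain ⟨k, hk, B, hB, hlt⟩ := hR y hy
  obtain ⟨c, hc, hcγ⟩ := hCK hmem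
  simp only at hcγ
  rw [QuotientGroup.eq] at hcγ
  obtain ⟨t, ht, htγ⟩ := hTΓ _ hcγ
  obtain ⟨⟨A, hA⟩, ⟨A', hA'⟩⟩ := htγ
  -- the integral matrix `γ₀ B`
  set x : H.G := H.exp (δ y) * g with hx
  have e1 : intR (A * B) = (((t : GL (Fin N) ℝ)⁻¹ : GL (Fin N) ℝ) : Mat N) *
      ((((c : GL (Fin N) ℝ)⁻¹ : GL (Fin N) ℝ) : Mat N) * (((x : GL (Fin N) ℝ) : Mat N) * intR B)) := by
    rw [← intR_mul, ← hA]
    simp only [Subgroup.coe_mul, Subgroup.coe_inv, Units.val_mul, Matrix.mul_assoc]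
  have hne : Pl (intR (A * B)) ≠ 0 := by
    intro h0
    apply hB
    have e2 : intR B = intR A' * intR (A * B) := by
      rw [← intR_mul, ← hA, ← hA', ← Matrix.mul_assoc, Units.inv_mul, Matrix.one_mul]
    rw [e2]
    funext i
    rw [Pl_mul, h0]
    simp
  have h2 := one_le_norm_Pl (A * B) hne
  rw [e1] at h2
  have h3 := norm_Pl_mul_le hk (((t : GL (Fin N) ℝ)⁻¹ : GL (Fin N) ℝ) : Mat N) (hb₂ t ht)
    ((((c : GL (Fin N) ℝ)⁻¹ : GL (Fin N) ℝ) : Mat N) * (((x : GL (Fin N) ℝ) : Mat N) * intR B))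
  have h4 := norm_Pl_mul_le hk (((c : GL (Fin N) ℝ)⁻¹ : GL (Fin N) ℝ) : Mat N) (hb₁ c hc)
    (((x : GL (Fin N) ℝ) : Mat N) * intR B)
  rw [← hK₂] at h3
  rw [← hK₁] at h4
  have h5 : (1 : ℝ) < 1 := by
    calc (1 : ℝ) ≤ K₂ * ‖Pl ((((c : GL (Fin N) ℝ)⁻¹ : GL (Fin N) ℝ) : Mat N) *
          (((x : GL (Fin N) ℝ) : Mat N) * intR B))‖ := h2.trans h3
      _ ≤ K₂ * (K₁ * ‖Pl (((x : GL (Fin N) ℝ) : Mat N) * intR B)‖) :=
          mul_le_mul_of_nonneg_left h4 hK₂0.le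
      _ < K₂ * (K₁ * (1 / (K₁ * K₂))) := by gcongr
      _ = 1 := by field_simp
  exact lt_irrefl _ h5

end Pool.Agent.Helper654_DO
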