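import Pool.Agent.Helper654_DO.Stmts

/-!
# E1: the paper, Step 3 (a)
-/

set_option autoImplicit false

open Matrix Module

namespace Pool.Agent.Helper654_DO.gradedSp

variable {N : ℕ}

theorem mem_wsp {x y : Mat N} {c : ℝ} : y ∈ wsp x c ↔ x * y - y * x = c • y := Iff.rfl

theorem diagonalizable_smul {x : Mat N} (hx : Diagonalizable x) (q : ℝ) :
    Diagonalizable (q • x) := by
  obtain ⟨P, d, rfl⟩ := hx
  exact ⟨P, q • d, by rw [← Matrix.smul_mul, ← Matrix.mul_smul, ← diagonal_smul]⟩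

theorem isSplit_span {x : Mat N} (hx : Diagonalizable x) :
    IsSplit (Submodule.span ℝ {x}) := by
  refine ⟨fun y hy z hz => ?_, fun y hy => ?_⟩
  · obtain ⟨q, rfl⟩ := Submodule.mem_span_singleton.1 hy
    obtain ⟨q', rfl⟩ := Submodule.mem_span_singleton.1 hz
    rw [Matrix.smul_mul, Matrix.mul_smul, Matrix.smul_mul, Matrix.mul_smul, smul_comm]
  · obtain ⟨q, rfl⟩ := Submodule.mem_span_singleton.1 hy
    exact diagonalizable_smul hx q

/-- Decomposition with respect to `ad x`. -/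
theorem decomp (hA4 : S_weights) {g : Submodule ℝ (Mat N)} {x : Mat N} (hx : Diagonalizable x)
    (hgx : ∀ y ∈ g, x * y - y * x ∈ g) {y : Mat N} (hy : y ∈ g) :
    ∃ (S : Finset ℝ) (c : ℝ → Mat N), 0 ∈ S ∧ y = ∑ t ∈ S, c t ∧
      ∀ t, c t ∈ g ∧ c t ∈ wsp x t := by
  classical
  have hg' : ∀ z ∈ Submodule.span ℝ {x}, ∀ y ∈ g, z * y - y * z ∈ g := by
    intro z hz y hy
    obtain ⟨q, rfl⟩ := Submodule.mem_span_singleton.1 hz
    rw [Matrix.smul_mul, Matrix.mul_smul, ← smul_sub]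
    exact g.smul_mem q (hgx y hy)
  obtain ⟨S, c, hyc, hc⟩ := hA4 (isSplit_span hx) hg' hy
  have hxs : x ∈ Submodule.span ℝ {x} := Submodule.mem_span_singleton_self x
  refine ⟨insert 0 (S.image fun β => β ⟨x, hxs⟩), fun t => ∑ β ∈ S with β ⟨x, hxs⟩ = t, c β,
    Finset.mem_insert_self _ _, ?_, fun t => ⟨?_, ?_⟩⟩
  · rw [Finset.sum_fiberwise_of_maps_to (s := S) (g := fun β => β ⟨x, hxs⟩) (f := c)
      (t := insert 0 (S.image fun β => β ⟨x, hxs⟩))
      (fun β hβ => Finset.mem_insert_of_mem (Finset.mem_image_of_mem _ hβ))]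
    exact hyc
  · exact g.sum_mem fun β hβ => (hc β (Finset.mem_filter.1 hβ).1).1
  · refine (wsp x t).sum_mem fun β hβ => ?_
    rw [Finset.mem_filter] at hβ
    have h1 := (hc β hβ.1).2 ⟨x, hxs⟩
    rw [hβ.2] at h1
    exact h1

theorem trace_wsp {x y z : Mat N} {s t : ℝ} (hy : y ∈ wsp x s) (hz : z ∈ wsp x t)
    (hst : s + t ≠ 0) : (y * z).trace = 0 := by
  rw [mem_wsp] at hy hz
  have h1 : (s + t) * (y * z).trace = 0 := by
    have h2 : (x * y - y * x) * z + y * (x * z - z * x) = x * (y * z) - (y * z) * x := by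
      noncomm_ring
    have h3 := congrArg Matrix.trace h2
    rw [hy, hz, Matrix.trace_sub, Matrix.trace_mul_comm x (y * z), sub_self, Matrix.smul_mul,
      Matrix.mul_smul, ← add_smul, Matrix.trace_smul, smul_eq_mul] at h3
    exact h3
  exact (mul_eq_zero.1 h1).resolve_left hst

theorem mul_wsp {x y z : Mat N} {s t : ℝ} (hy : y ∈ wsp x s) (hz : z ∈ wsp x t) :
    y * z ∈ wsp x (s + t) := by
  rw [mem_wsp] at hy hz ⊢
  have h2 : x * (y * z) - (y * z) * x = (x * y - y * x) * z + y * (x * z - z * x) := by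
    noncomm_ring
  rw [h2, hy, hz, Matrix.smul_mul, Matrix.mul_smul, ← add_smul]

theorem comp_zero_of_orth (hA4 : S_weights) {g : Submodule ℝ (Mat N)}
    (hT : ∀ x ∈ g, (∀ y ∈ g, (x * y).trace = 0) → x = 0) {x : Mat N} (hx : Diagonalizable x)
    (hgx : ∀ y ∈ g, x * y - y * x ∈ g) {z : Mat N} {S : Finset ℝ} {c : ℝ → Mat N}
    (hzc : z = ∑ t ∈ S, c t) (hc : ∀ t, c t ∈ g ∧ c t ∈ wsp x t) {t₀ : ℝ} (ht₀ : t₀ ∈ S)
    (h : ∀ v ∈ g, v ∈ wsp x (-t₀) → (z * v).trace = 0) : c t₀ = 0 := by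
  refine hT _ (hc t₀).1 fun y hy => ?_
  obtain ⟨S', c', _, hyc, hc'⟩ := decomp hA4 hx hgx hy
  rw [hyc, Finset.mul_sum, Matrix.trace_sum]
  refine Finset.sum_eq_zero fun s _ => ?_
  by_cases hs : t₀ + s = 0
  · have hs' : s = -t₀ := by linarith
    have h1 := h _ (hc' s).1 (hs' ▸ (hc' s).2)
    rw [hzc, Finset.sum_mul, Matrix.trace_sum, Finset.sum_eq_single t₀] at h1
    · exact h1
    · intro t _ ht
      refine trace_wsp (hc t).2 (hc' s).2 ?_
      intro h2
      apply ht
      linarith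
    · intro h2
      exact absurd ht₀ h2
  · exact trace_wsp (hc t₀).2 (hc' s).2 hs

/-- Entries of a weight vector in an eigenbasis. -/
theorem coord_wsp {x z : Mat N} {P : GL (Fin N) ℝ} {d : Fin N → ℝ}
    (hx : x = (P : Mat N) * diagonal d * ((P⁻¹ : GL (Fin N) ℝ) : Mat N)) {t : ℝ}
    (hz : z ∈ wsp x t) (i j : Fin N) :
    (d i - d j - t) * (((P⁻¹ : GL (Fin N) ℝ) : Mat N) * z * (P : Mat N)) i j = 0 := by
  have hQP : ((P⁻¹ : GL (Fin N) ℝ) : Mat N) * (P : Mat N) = 1 := by
    rw [← Units.val_mul, inv_mul_cancel, Units.val_one]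
  rw [mem_wsp] at hz
  have h1 : diagonal d * (((P⁻¹ : GL (Fin N) ℝ) : Mat N) * z * (P : Mat N)) -
      (((P⁻¹ : GL (Fin N) ℝ) : Mat N) * z * (P : Mat N)) * diagonal d =
      t • (((P⁻¹ : GL (Fin N) ℝ) : Mat N) * z * (P : Mat N)) := by
    calc diagonal d * (((P⁻¹ : GL (Fin N) ℝ) : Mat N) * z * (P : Mat N)) -
          (((P⁻¹ : GL (Fin N) ℝ) : Mat N) * z * (P : Mat N)) * diagonal d
        = (((P⁻¹ : GL (Fin N) ℝ) : Mat N) * (P : Mat N)) * diagonal d *
            (((P⁻¹ : GL (Fin N) ℝ) : Mat N) * z * (P : Mat N)) -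
          (((P⁻¹ : GL (Fin N) ℝ) : Mat N) * z * (P : Mat N)) * diagonal d *
            (((P⁻¹ : GL (Fin N) ℝ) : Mat N) * (P : Mat N)) := by
          rw [hQP, Matrix.one_mul, Matrix.mul_one]
      _ = ((P⁻¹ : GL (Fin N) ℝ) : Mat N) * (x * z - z * x) * (P : Mat N) := by
          rw [hx, Matrix.mul_sub, Matrix.sub_mul]
          simp only [Matrix.mul_assoc]
      _ = _ := by
          rw [hz, Matrix.mul_smul, Matrix.smul_mul]
  have h2 := congrFun (congrFun h1 i) j
  rw [Matrix.sub_apply, diagonal_mul, mul_diagonal, Matrix.smul_apply, smul_eq_mul] at h2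
  rw [sub_mul, sub_mul, ← h2]
  ring

/-- Entries of an element of `posSp x` in an eigenbasis of `x`. -/
theorem coord_posSp {x z : Mat N} {P : GL (Fin N) ℝ} {d : Fin N → ℝ}
    (hx : x = (P : Mat N) * diagonal d * ((P⁻¹ : GL (Fin N) ℝ) : Mat N)) (hz : z ∈ posSp x) :
    ∀ i j : Fin N, d i ≤ d j → (((P⁻¹ : GL (Fin N) ℝ) : Mat N) * z * (P : Mat N)) i j = 0 := by
  unfold posSp at hz
  induction hz using Submodule.iSup_induction' with
  | mem c z hz =>
    intro i j hij
    rcases mul_eq_zero.1 (coord_wsp hx hz i j) with h | h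
    · exfalso
      have := c.2
      linarith
    · exact h
  | zero => intro i j _; rw [Matrix.mul_zero, Matrix.zero_mul]; rfl
  | add y z _ _ hy hz =>
    intro i j hij
    rw [Matrix.mul_add, Matrix.add_mul, Matrix.add_apply, hy i j hij, hz i j hij, add_zero]

/-- Entries of an element of `nonnegSp x` in an eigenbasis of `x`. -/
theorem coord_nonnegSp {x z : Mat N} {P : GL (Fin N) ℝ} {d : Fin N → ℝ}
    (hx : x = (P : Mat N) * diagonal d * ((P⁻¹ : GL (Fin N) ℝ) : Mat N)) (hz : z ∈ nonnegSp x) :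
    ∀ i j : Fin N, d i < d j → (((P⁻¹ : GL (Fin N) ℝ) : Mat N) * z * (P : Mat N)) i j = 0 := by
  unfold nonnegSp at hz
  induction hz using Submodule.iSup_induction' with
  | mem c z hz =>
    intro i j hij
    rcases mul_eq_zero.1 (coord_wsp hx hz i j) with h | h
    · exfalso
      have := c.2
      linarith
    · exact h
  | zero => intro i j _; rw [Matrix.mul_zero, Matrix.zero_mul]; rfl
  | add y z _ _ hy hz =>
    intro i j hij
    rw [Matrix.mul_add, Matrix.add_mul, Matrix.add_apply, hy i j hij, hz i j hij, add_zero]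

theorem nilpotent_of_strict {Y : Mat N} {d : Fin N → ℝ} (h : ∀ i j, d i ≤ d j → Y i j = 0) :
    Y ^ N = 0 := by
  classical
  let ρ : Fin N → ℕ := fun i => (Finset.univ.filter fun l => d l < d i).card
  have hρ : ∀ i j, d j < d i → ρ j < ρ i := by
    intro i j hij
    refine Finset.card_lt_card ⟨fun l hl => ?_, fun hcon => ?_⟩
    · rw [Finset.mem_filter] at hl ⊢
      exact ⟨hl.1, hl.2.trans hij⟩
    · have h1 : j ∈ Finset.univ.filter fun l => d l < d i :=
        Finset.mem_filter.2 ⟨Finset.mem_univ _, hij⟩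
      have h2 := hcon h1
      rw [Finset.mem_filter] at h2
      exact lt_irrefl _ h2.2
  have hρN : ∀ i, ρ i < N := by
    intro i
    have h1 : ρ i < (Finset.univ : Finset (Fin N)).card := by
      refine Finset.card_lt_card ⟨Finset.filter_subset _ _, fun hcon => ?_⟩
      have h2 := hcon (Finset.mem_univ i)
      rw [Finset.mem_filter] at h2
      exact lt_irrefl _ h2.2
    rwa [Finset.card_fin] at h1
  have key : ∀ k i j, (Y ^ k) i j ≠ 0 → ρ j + k ≤ ρ i := by
    intro k
    induction k with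
    | zero =>
      intro i j hij
      rw [pow_zero] at hij
      by_cases h1 : i = j
      · rw [h1]; exact le_rfl
      · exact absurd (Matrix.one_apply_ne h1) hij
    | succ k ih =>
      intro i j hij
      rw [pow_succ, Matrix.mul_apply] at hij
      obtain ⟨l, _, hl⟩ := Finset.exists_ne_zero_of_sum_ne_zero hij
      have h1 := ih i l (left_ne_zero_of_mul hl)
      have h2 : d j < d l := by
        by_contra h3
        exact right_ne_zero_of_mul hl (h l j (not_lt.1 h3))
      have h4 := hρ l j h2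
      omega
  ext i j
  by_contra hij
  have h1 := key N i j hij
  have h2 := hρN i
  omega

theorem nilpotent_of_pos {x z : Mat N} (hx : Diagonalizable x) (hz : z ∈ posSp x) :
    IsNilpotent z := by
  obtain ⟨P, d, hx⟩ := hx
  refine ⟨N, ?_⟩
  have hPQ : (P : Mat N) * ((P⁻¹ : GL (Fin N) ℝ) : Mat N) = 1 := by
    rw [← Units.val_mul, mul_inv_cancel, Units.val_one]
  have h1 := nilpotent_of_strict (coord_posSp hx hz)
  have h2 : ∀ k : ℕ, (P : Mat N) * (((P⁻¹ : GL (Fin N) ℝ) : Mat N) * z * (P : Mat N)) ^ k *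
      ((P⁻¹ : GL (Fin N) ℝ) : Mat N) = z ^ k := by
    intro k
    induction k with
    | zero => rw [pow_zero, pow_zero, Matrix.mul_one, hPQ]
    | succ k ih =>
      rw [pow_succ, pow_succ, ← ih]
      calc _ = (P : Mat N) * (((P⁻¹ : GL (Fin N) ℝ) : Mat N) * z * (P : Mat N)) ^ k *
            ((P⁻¹ : GL (Fin N) ℝ) : Mat N) * z * ((P : Mat N) *
            ((P⁻¹ : GL (Fin N) ℝ) : Mat N)) := by simp only [Matrix.mul_assoc]
        _ = _ := by rw [hPQ, Matrix.mul_one]
  rw [← h2 N, h1, Matrix.mul_zero, Matrix.zero_mul]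

theorem wsp_le_posSp {x : Mat N} {t : ℝ} (ht : 0 < t) : wsp x t ≤ posSp x :=
  le_iSup (fun c : {c : ℝ // 0 < c} => wsp x c) ⟨t, ht⟩

theorem wsp_le_nonnegSp {x : Mat N} {t : ℝ} (ht : 0 ≤ t) : wsp x t ≤ nonnegSp x :=
  le_iSup (fun c : {c : ℝ // 0 ≤ c} => wsp x c) ⟨t, ht⟩

theorem wsp_mul_pos {x y z : Mat N} {t : ℝ} (ht : 0 ≤ t) (hy : y ∈ wsp x t) (hz : z ∈ posSp x) :
    y * z ∈ posSp x := by
  unfold posSp at hz
  induction hz using Submodule.iSup_induction' with
  | mem c z hz => exact wsp_le_posSp (add_pos_of_nonneg_of_pos ht c.2) (mul_wsp hy hz)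
  | zero => rw [Matrix.mul_zero]; exact Submodule.zero_mem _
  | add u z _ _ hu hz => rw [Matrix.mul_add]; exact Submodule.add_mem _ hu hz

theorem pos_mul_wsp {x y z : Mat N} {t : ℝ} (ht : 0 ≤ t) (hy : y ∈ wsp x t) (hz : z ∈ posSp x) :
    z * y ∈ posSp x := by
  unfold posSp at hz
  induction hz using Submodule.iSup_induction' with
  | mem c z hz => exact wsp_le_posSp (add_pos_of_pos_of_nonneg c.2 ht) (mul_wsp hz hy)
  | zero => rw [Matrix.zero_mul]; exact Submodule.zero_mem _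
  | add u z _ _ hu hz => rw [Matrix.add_mul]; exact Submodule.add_mem _ hu hz

theorem pos_mul_pos {x y z : Mat N} (hy : y ∈ posSp x) (hz : z ∈ posSp x) :
    y * z ∈ posSp x := by
  unfold posSp at hy
  induction hy using Submodule.iSup_induction' with
  | mem c y hy => exact wsp_mul_pos (le_of_lt c.2) hy hz
  | zero => rw [Matrix.zero_mul]; exact Submodule.zero_mem _
  | add u v _ _ hu hv => rw [Matrix.add_mul]; exact Submodule.add_mem _ hu hv

theorem one_wsp (x : Mat N) : (1 : Mat N) ∈ wsp x 0 := by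
  rw [mem_wsp, Matrix.mul_one, Matrix.one_mul, sub_self, zero_smul]

theorem pow_wsp {x z : Mat N} (hz : z ∈ wsp x 0) (k : ℕ) : z ^ k ∈ wsp x 0 := by
  induction k with
  | zero => rw [pow_zero]; exact one_wsp x
  | succ k ih =>
    rw [pow_succ]
    have := mul_wsp ih hz
    rwa [add_zero] at this

/-- The component of degree zero of a nilpotent element of nonnegative degree is nilpotent. -/
theorem nilpotent_zero_part {x z₀ zp : Mat N} (hx : Diagonalizable x) (h₀ : z₀ ∈ wsp x 0)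
    (hp : zp ∈ posSp x) (hz : IsNilpotent (z₀ + zp)) : IsNilpotent z₀ := by
  have key : ∀ k : ℕ, (z₀ + zp) ^ k - z₀ ^ k ∈ posSp x := by
    intro k
    induction k with
    | zero => rw [pow_zero, pow_zero, sub_self]; exact Submodule.zero_mem _
    | succ k ih =>
      have h1 : (z₀ + zp) ^ (k + 1) - z₀ ^ (k + 1) = ((z₀ + zp) ^ k - z₀ ^ k) * z₀ +
          ((z₀ + zp) ^ k - z₀ ^ k) * zp + z₀ ^ k * zp := by
        rw [pow_succ, pow_succ]
        noncomm_ring
      rw [h1]
      exact Submodule.add_mem _ (Submodule.add_mem _ (pos_mul_wsp le_rfl h₀ ih)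
        (pos_mul_pos ih hp)) (wsp_mul_pos le_rfl (pow_wsp h₀ k) hp)
  obtain ⟨n, hn⟩ := hz
  have h1 := key n
  rw [hn, zero_sub] at h1
  have h2 : z₀ ^ n ∈ posSp x := by
    have := Submodule.neg_mem _ h1
    rwa [neg_neg] at this
  obtain ⟨m, hm⟩ := nilpotent_of_pos hx h2
  exact ⟨n * m, by rw [pow_mul, hm]⟩

/-- Representation of functionals by the trace form. -/
theorem exists_trace {g : Submodule ℝ (Mat N)}
    (hT : ∀ x ∈ g, (∀ y ∈ g, (x * y).trace = 0) → x = 0) (f : Mat N →ₗ[ℝ] ℝ) :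
    ∃ z ∈ g, ∀ y ∈ g, (z * y).trace = f y := by
  let Φ : g →ₗ[ℝ] Module.Dual ℝ g := LinearMap.mk₂ ℝ
    (fun x y => ((x : Mat N) * (y : Mat N)).trace)
    (fun x x' y => by rw [Submodule.coe_add, Matrix.add_mul, Matrix.trace_add])
    (fun q x y => by rw [Submodule.coe_smul, Matrix.smul_mul, Matrix.trace_smul])
    (fun x y y' => by rw [Submodule.coe_add, Matrix.mul_add, Matrix.trace_add])
    (fun q x y => by rw [Submodule.coe_smul, Matrix.mul_smul, Matrix.trace_smul])
  have hinj : Function.Injective Φ := by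
    rw [injective_iff_map_eq_zero]
    intro x hx
    have h1 := hT x x.2 fun y hy => by
      have := LinearMap.congr_fun hx ⟨y, hy⟩
      exact this
    exact Subtype.ext h1
  have hsurj : Function.Surjective Φ :=
    (LinearMap.injective_iff_surjective_of_finrank_eq_finrank
      (Subspace.dual_finrank_eq (K := ℝ) (V := g)).symm).1 hinj
  obtain ⟨z, hz⟩ := hsurj (f.domRestrict g)
  exact ⟨z, z.2, fun y hy => LinearMap.congr_fun hz ⟨y, hy⟩⟩

end Pool.Agent.Helper654_DO.gradedSp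

namespace Pool.Agent.Helper654_DO

open gradedSp

theorem T_exists_mem_nonnegSp (hA4 : S_weights) (hD1 : S_no_nilpotent) :
    S_exists_mem_nonnegSp := by
  intro N g hg hT a ha X hX hreg lam hlam hlam'
  classical
  by_contra hcon
  push Not at hcon
  have hXg : X ∈ g := ha.le hX
  have hX' : Diagonalizable X := ha.split.diag X hX
  have hXV : X ∉ (g ⊓ nonnegSp lam) ⊔ (g ⊓ posSp X) := by
    intro h
    obtain ⟨p, hp, m, hm, hpm⟩ := Submodule.mem_sup.1 h
    refine hcon (-m) (Submodule.neg_mem _ hm) ?_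
    have h1 : X + -m = p := by
      conv_lhs => rw [← hpm]
      rw [add_neg_cancel_right]
    rw [h1]
    exact hp.2
  obtain ⟨f, hfX, hfV⟩ := Submodule.exists_le_ker_of_notMem hXV
  obtain ⟨z, hz, hzf⟩ := exists_trace hT f
  have hz1 : ∀ v ∈ g, v ∈ nonnegSp lam → (z * v).trace = 0 := by
    intro v hv hv'
    rw [hzf v hv]
    exact LinearMap.mem_ker.1 (hfV (Submodule.mem_sup_left ⟨hv, hv'⟩))
  have hz2 : ∀ v ∈ g, v ∈ posSp X → (z * v).trace = 0 := by
    intro v hv hv'
    rw [hzf v hv]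
    exact LinearMap.mem_ker.1 (hfV (Submodule.mem_sup_right ⟨hv, hv'⟩))
  -- `z` has positive degree for `lam`
  have hzpos : z ∈ posSp lam := by
    obtain ⟨S, c, _, hzc, hc⟩ := decomp hA4 hlam' (fun y hy => hg lam hlam y hy) hz
    rw [hzc]
    refine Submodule.sum_mem _ fun t ht => ?_
    by_cases ht0 : 0 < t
    · exact wsp_le_posSp ht0 (hc t).2
    · have h1 := comp_zero_of_orth hA4 hT hlam' (fun y hy => hg lam hlam y hy) hzc hc ht
        fun v hv hv' => hz1 v hv (wsp_le_nonnegSp (by linarith) hv')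
      rw [h1]
      exact Submodule.zero_mem _
  have hznil := nilpotent_of_pos hlam' hzpos
  -- decomposition for `X`
  obtain ⟨S, c, h0S, hzc, hc⟩ := decomp hA4 hX' (fun y hy => hg X hXg y hy) hz
  have hneg : ∀ t ∈ S, t < 0 → c t = 0 := fun t ht ht0 =>
    comp_zero_of_orth hA4 hT hX' (fun y hy => hg X hXg y hy) hzc hc ht
      fun v hv hv' => hz2 v hv (wsp_le_posSp (by linarith) hv')
  have hsplit : z = c 0 + ∑ t ∈ S.erase 0, c t := by
    rw [Finset.add_sum_erase _ _ h0S]; exact hzc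
  have hpos : ∑ t ∈ S.erase 0, c t ∈ posSp X := by
    refine Submodule.sum_mem _ fun t ht => ?_
    rw [Finset.mem_erase] at ht
    rcases lt_or_gt_of_ne ht.1 with h | h
    · rw [hneg t ht.2 h]; exact Submodule.zero_mem _
    · exact wsp_le_posSp h (hc t).2
  have h0nil : IsNilpotent (c 0) := by
    refine nilpotent_zero_part hX' (hc 0).2 hpos ?_
    rw [← hsplit]
    exact hznil
  have h0 : c 0 = 0 := by
    refine hD1 hg hT ha (hc 0).1 h0nil (hreg (c 0) ?_)
    have h1 := (hc 0).2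
    rw [mem_wsp, zero_smul] at h1
    exact sub_eq_zero.1 h1
  rw [h0, zero_add] at hsplit
  have hXX : X ∈ wsp X 0 := by rw [mem_wsp, sub_self, zero_smul]
  have htr : ∀ u ∈ posSp X, (u * X).trace = 0 := by
    intro u hu
    unfold posSp at hu
    induction hu using Submodule.iSup_induction' with
    | mem c z hz => exact trace_wsp hz hXX (by have := c.2; linarith)
    | zero => rw [Matrix.zero_mul, Matrix.trace_zero]
    | add u v _ _ hu hv => rw [Matrix.add_mul, Matrix.trace_add, hu, hv, add_zero]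
  refine hfX ?_
  rw [← hzf X hXg, hsplit]
  exact htr _ hpos

end Pool.Agent.Helper654_DO
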