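import Pool.Agent.Helper654_DO.T_simdiag

/-!
# Regular elements of split spaces
-/

set_option autoImplicit false

open Matrix Module

namespace Pool.Agent.Helper654_DO

open simdiag

theorem exists_regular.comm_diag_iff {N : ℕ} (d : Fin N → ℝ) (z : Mat N) :
    diagonal d * z = z * diagonal d ↔ ∀ i j, d i = d j ∨ z i j = 0 := by
  constructor
  · intro h i j
    have h1 := congrFun (congrFun h i) j
    rw [diagonal_mul, mul_diagonal] at h1
    have h2 : (d i - d j) * z i j = 0 := by rw [sub_mul, h1]; ring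
    rcases mul_eq_zero.1 h2 with h3 | h3
    · exact Or.inl (sub_eq_zero.1 h3)
    · exact Or.inr h3
  · intro h
    ext i j
    rw [diagonal_mul, mul_diagonal]
    rcases h i j with h1 | h1
    · rw [h1, mul_comm]
    · rw [h1, mul_zero, zero_mul]

theorem exists_regular.comm_conj_iff {N : ℕ} (P : GL (Fin N) ℝ) (d : Fin N → ℝ) (y : Mat N) :
    ((P : Mat N) * diagonal d * ((P⁻¹ : GL (Fin N) ℝ) : Mat N)) * y =
      y * ((P : Mat N) * diagonal d * ((P⁻¹ : GL (Fin N) ℝ) : Mat N)) ↔
    ∀ i j, d i = d j ∨ (((P⁻¹ : GL (Fin N) ℝ) : Mat N) * y * (P : Mat N)) i j = 0 := by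
  rw [← exists_regular.comm_diag_iff]
  have hP : (P : Mat N) * ((P⁻¹ : GL (Fin N) ℝ) : Mat N) = 1 := by
    rw [← Units.val_mul, mul_inv_cancel, Units.val_one]
  have hP' : ((P⁻¹ : GL (Fin N) ℝ) : Mat N) * (P : Mat N) = 1 := by
    rw [← Units.val_mul, inv_mul_cancel, Units.val_one]
  constructor
  · intro h
    have h1 := congrArg (fun m : Mat N => ((P⁻¹ : GL (Fin N) ℝ) : Mat N) * m * (P : Mat N)) h
    simp only [Matrix.mul_assoc] at h1 ⊢
    rw [hP', Matrix.mul_one, ← Matrix.mul_assoc _ (P : Mat N), hP', Matrix.one_mul] at h1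
    exact h1
  · intro h
    have h1 := congrArg (fun m : Mat N => (P : Mat N) * m * ((P⁻¹ : GL (Fin N) ℝ) : Mat N)) h
    simp only [Matrix.mul_assoc] at h1 ⊢
    rw [hP, Matrix.mul_one, ← Matrix.mul_assoc (P : Mat N) _ (y * _), hP, Matrix.one_mul] at h1
    exact h1

theorem T_exists_regular : S_exists_regular := by
  intro N a ha
  classical
  obtain ⟨P, μ, hμ⟩ := T_simdiag ha
  obtain ⟨X, hX⟩ := Module.Dual.exists_forall_ne_zero_of_forall_exists
    (fun p : {p : Fin N × Fin N // μ p.1 ≠ μ p.2} => μ p.1.1 - μ p.1.2) (by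
      rintro ⟨p, hp⟩
      by_contra h
      push Not at h
      refine hp (LinearMap.ext fun x => ?_)
      have := h x
      rw [LinearMap.sub_apply] at this
      exact sub_eq_zero.1 this)
  refine ⟨X, X.2, ?_⟩
  intro y hy x hx
  rw [hμ X, exists_regular.comm_conj_iff] at hy
  have hx' := hμ ⟨x, hx⟩
  simp only at hx'
  rw [hx', exists_regular.comm_conj_iff]
  intro i j
  by_cases hij : μ i = μ j
  · left
    rw [hij]
  · right
    rcases hy i j with h | h
    · exfalso
      apply hX ⟨(i, j), hij⟩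
      rw [LinearMap.sub_apply]
      exact sub_eq_zero.2 h
    · exact h

end Pool.Agent.Helper654_DO
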