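import Pool.Agent.Helper654_DO.Aux831

/-!
# The group generated by the exponentials of a Lie algebra normalizes it
-/

set_option autoImplicit false

open Matrix Module Filter Topology

namespace Pool.Agent.Helper654_DO

theorem ec.normalizes_aux {N : ℕ} {g : Submodule ℝ (Mat N)}
    (hg : ∀ x ∈ g, ∀ y ∈ g, x * y - y * x ∈ g) {u : GL (Fin N) ℝ} (hu : u ∈ expGroup g) :
    ∀ y ∈ g, (u : Mat N) * y * ((u⁻¹ : GL (Fin N) ℝ) : Mat N) ∈ g ∧
      ((u⁻¹ : GL (Fin N) ℝ) : Mat N) * y * (u : Mat N) ∈ g := by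
  have hinv : ∀ X : Mat N, (expGL X)⁻¹ = expGL (-X) := by
    intro X
    refine Units.ext ?_
    rfl
  induction hu using Subgroup.closure_induction with
  | mem x hx =>
    intro y hy
    obtain ⟨X, hX, rfl⟩ := hx
    refine ⟨ec.conj_exp_mem g (fun y hy => hg X hX y hy) hy, ?_⟩
    have h1 := ec.conj_exp_mem (X := -X) g (fun y hy => hg (-X) (g.neg_mem hX) y hy) hy
    rwa [← hinv, inv_inv] at h1
  | one =>
    intro y hy
    simpa using hy
  | mul a b _ _ ha hb =>
    intro y hy
    have h1 := (ha _ (hb y hy).1).1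
    have h2 := (hb _ (ha y hy).2).2
    rw [_root_.mul_inv_rev]
    simp only [Units.val_mul, mul_assoc] at h1 h2 ⊢
    exact ⟨h1, h2⟩
  | inv a _ ha =>
    intro y hy
    rw [inv_inv]
    exact ⟨(ha y hy).2, (ha y hy).1⟩

theorem T_expGroup_normalizes : S_expGroup_normalizes := by
  intro N g hg u hu y hy
  exact (ec.normalizes_aux hg hu y hy).1

end Pool.Agent.Helper654_DO
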