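import Pool.Agent.Helper654_DO.Stmts

/-!
# F3: the moves generate
-/

set_option autoImplicit false

open Matrix Module

namespace Pool.Agent.Helper654_DO.generation

theorem toR_mul {N : ℕ} (A B : MatQ N) : toR (A * B) = toR A * toR B :=
  Matrix.map_mul (f := (Rat.castHom ℝ))

theorem toR_sub {N : ℕ} (A B : MatQ N) : toR (A - B) = toR A - toR B := by
  ext i j
  simp [toR]

theorem toR_smul {N : ℕ} (q : ℚ) (A : MatQ N) : toR (q • A) = (q : ℝ) • toR A := by
  ext i j
  simp [toR]

theorem toR_sum {N : ℕ} {ι : Type*} (s : Finset ι) (f : ι → MatQ N) :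
    toR (∑ k ∈ s, f k) = ∑ k ∈ s, toR (f k) := by
  ext i j
  simp [toR, Matrix.sum_apply]

theorem toR_zero {N : ℕ} : toR (0 : MatQ N) = 0 := by
  ext i j
  simp [toR]

theorem toR_injective {N : ℕ} {A B : MatQ N} (h : toR A = toR B) : A = B := by
  ext i j
  have := congrFun (congrFun h i) j
  simpa [toR] using this

/-- Rational matrices independent over `ℚ` are independent over `ℝ`. -/
theorem indep_real {N r : ℕ} {b : Fin r → MatQ N} (hb : LinearIndependent ℚ b) (e : Fin r → ℝ)
    (h : ∑ k, e k • toR (b k) = 0) : ∀ k, e k = 0 := by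
  classical
  intro k
  obtain ⟨f, hf⟩ : ∃ f : MatQ N →ₗ[ℚ] ℚ, ∀ l, f (b l) = if l = k then 1 else 0 := by
    obtain ⟨F, hF⟩ := LinearMap.exists_extend (p := Submodule.span ℚ (Set.range b))
      ((Finsupp.lapply k).comp hb.repr)
    refine ⟨F, fun l => ?_⟩
    have h1 : F (b l) = ((Finsupp.lapply k).comp hb.repr : _ →ₗ[ℚ] ℚ)
        ⟨b l, Submodule.subset_span ⟨l, rfl⟩⟩ := by
      rw [← hF]; rfl
    rw [h1]
    have h2 : hb.repr ⟨b l, Submodule.subset_span ⟨l, rfl⟩⟩ = Finsupp.single l 1 :=
      hb.repr_eq_single l _ rfl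
    rw [LinearMap.comp_apply, h2, Finsupp.lapply_apply, Finsupp.single_apply]
  -- the real extension of `f`
  let φ : Fin N → Fin N → ℚ := fun i j => f (Matrix.single i j 1)
  have hφ : ∀ m : MatQ N, f m = ∑ i, ∑ j, m i j * φ i j := by
    intro m
    conv_lhs => rw [Matrix.matrix_eq_sum_single m]
    rw [map_sum]
    refine Finset.sum_congr rfl fun i _ => ?_
    rw [map_sum]
    refine Finset.sum_congr rfl fun j _ => ?_
    have h1 : (Matrix.single i j (m i j) : MatQ N) = (m i j) • Matrix.single i j 1 := by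
      rw [Matrix.smul_single, smul_eq_mul, mul_one]
    rw [h1, map_smul, smul_eq_mul]
  have h3 : ∑ i, ∑ j, (∑ l, e l • toR (b l)) i j * (φ i j : ℝ) = e k := by
    have h4 : ∀ i j, (∑ l, e l • toR (b l)) i j * (φ i j : ℝ) =
        ∑ l, e l * (((b l i j * φ i j : ℚ)) : ℝ) := by
      intro i j
      rw [Matrix.sum_apply, Finset.sum_mul]
      refine Finset.sum_congr rfl fun l _ => ?_
      rw [Matrix.smul_apply, smul_eq_mul, Rat.cast_mul, mul_assoc]
      rfl
    calc ∑ i, ∑ j, (∑ l, e l • toR (b l)) i j * (φ i j : ℝ)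
        = ∑ i, ∑ j, ∑ l, e l * (((b l i j * φ i j : ℚ)) : ℝ) :=
          Finset.sum_congr rfl fun i _ => Finset.sum_congr rfl fun j _ => h4 i j
      _ = ∑ l, ∑ i, ∑ j, e l * (((b l i j * φ i j : ℚ)) : ℝ) := by
          rw [Finset.sum_congr rfl fun i _ => Finset.sum_comm, Finset.sum_comm]
      _ = ∑ l, e l * ((f (b l) : ℚ) : ℝ) := by
          refine Finset.sum_congr rfl fun l _ => ?_
          rw [hφ (b l), Rat.cast_sum, Finset.mul_sum]
          refine Finset.sum_congr rfl fun i _ => ?_
          rw [Rat.cast_sum, Finset.mul_sum]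
      _ = e k := by
          rw [Finset.sum_eq_single k]
          · rw [hf k, if_pos rfl, Rat.cast_one, mul_one]
          · intro l _ hl
            rw [hf l, if_neg hl, Rat.cast_zero, mul_zero]
          · intro hk
            exact absurd (Finset.mem_univ k) hk
  rw [h] at h3
  simpa using h3.symm

end Pool.Agent.Helper654_DO.generation

namespace Pool.Agent.Helper654_DO

open generation

theorem T_generation (hA4 : S_weights) (hF1 : S_faithful) : S_generation := by
  intro N L hL s hs hs' U hU M hM hmoves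
  classical
  -- the moves
  let Mv : Set (MatQ N) := {E | E ∈ L ∧ ∃ α : s →ₗ[ℚ] ℚ,
    (∀ x : s, (x : MatQ N) * E - E * (x : MatQ N) = α x • E) ∧ realFn α ∉ U}
  -- the Lie algebra generated by the moves
  let G : Submodule ℚ (MatQ N) := sInf {T : Submodule ℚ (MatQ N) | Mv ⊆ T ∧
    ∀ x ∈ T, ∀ y ∈ T, x * y - y * x ∈ T}
  have hGle : ∀ T : Submodule ℚ (MatQ N), Mv ⊆ T → (∀ x ∈ T, ∀ y ∈ T, x * y - y * x ∈ T) →
      G ≤ T := fun T h1 h2 => sInf_le ⟨h1, h2⟩
  have hMvG : Mv ⊆ G := by
    intro x hx
    rw [SetLike.mem_coe, Submodule.mem_sInf]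
    exact fun T hT => hT.1 hx
  have hGlie : ∀ x ∈ G, ∀ y ∈ G, x * y - y * x ∈ G := by
    intro x hx y hy
    rw [Submodule.mem_sInf] at hx hy ⊢
    exact fun T hT => hT.2 x (hx T hT) y (hy T hT)
  have hGL : G ≤ L := hGle L (fun x hx => hx.1) hL.lie_mem
  have hGM : G ≤ M := hGle M (fun x hx => hmoves x hx.1 hx.2) hM
  -- weight vectors normalize `G`
  have hwt : ∀ v ∈ L, (∃ γ : s →ₗ[ℚ] ℚ, ∀ x : s, (x : MatQ N) * v - v * (x : MatQ N) = γ x • v) →
      ∀ y ∈ G, v * y - y * v ∈ G := by
    rintro v hv ⟨γ, hγ⟩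
    by_cases hU' : realFn γ ∈ U
    · let T : Submodule ℚ (MatQ N) :=
        { carrier := {y | y ∈ G ∧ v * y - y * v ∈ G}
          zero_mem' := ⟨G.zero_mem, by
            rw [Matrix.mul_zero, Matrix.zero_mul, sub_self]; exact G.zero_mem⟩
          add_mem' := by
            rintro y z ⟨hy, hy'⟩ ⟨hz, hz'⟩
            refine ⟨G.add_mem hy hz, ?_⟩
            have h1 : v * (y + z) - (y + z) * v = (v * y - y * v) + (v * z - z * v) := by
              noncomm_ring
            rw [h1]
            exact G.add_mem hy' hz'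
          smul_mem' := by
            rintro q y ⟨hy, hy'⟩
            refine ⟨G.smul_mem q hy, ?_⟩
            rw [Matrix.mul_smul, Matrix.smul_mul, ← smul_sub]
            exact G.smul_mem q hy' }
      have hT : G ≤ T := by
        refine hGle T ?_ ?_
        · rintro E ⟨hE, α, hα, hαU⟩
          refine ⟨hMvG ⟨hE, α, hα, hαU⟩, hMvG ⟨hL.lie_mem v hv E hE, γ + α, fun x => ?_, ?_⟩⟩
          · have h1 : (x : MatQ N) * (v * E - E * v) - (v * E - E * v) * (x : MatQ N) =
                ((x : MatQ N) * v - v * (x : MatQ N)) * E - E * ((x : MatQ N) * v - v * (x : MatQ N))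
                + (v * ((x : MatQ N) * E - E * (x : MatQ N)) -
                  ((x : MatQ N) * E - E * (x : MatQ N)) * v) := by
              noncomm_ring
            rw [h1, hγ x, hα x, LinearMap.add_apply, Matrix.mul_smul, Matrix.smul_mul,
              Matrix.mul_smul, Matrix.smul_mul, ← smul_sub, ← smul_sub, ← add_smul]
          · have h1 : realFn (γ + α) = realFn γ + realFn α := by
              unfold realFn
              rw [LinearMap.comp_add]
            rw [h1]
            intro h2
            apply hαU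
            have h3 := U.sub_mem h2 hU'
            rwa [add_sub_cancel_left] at h3
        · rintro y ⟨hy, hy'⟩ z ⟨hz, hz'⟩
          refine ⟨hGlie y hy z hz, ?_⟩
          have h1 : v * (y * z - z * y) - (y * z - z * y) * v =
              ((v * y - y * v) * z - z * (v * y - y * v)) +
              (y * (v * z - z * v) - (v * z - z * v) * y) := by
            noncomm_ring
          rw [h1]
          exact G.add_mem (hGlie _ hy' _ hz) (hGlie _ hy _ hz')
      exact fun y hy => (hT hy).2
    · exact fun y hy => hGlie v (hMvG ⟨hv, γ, hγ, hU'⟩) y hy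
  have hsL : ∀ x ∈ s, ∀ y ∈ L, x * y - y * x ∈ L := fun x hx y hy => hL.lie_mem x (hs hx) y hy
  have hideal : ∀ x ∈ L, ∀ y ∈ G, x * y - y * x ∈ G := by
    intro x hx y hy
    obtain ⟨S, c, hxc, hc⟩ := hA4 hs' hsL hx
    rw [hxc, Finset.sum_mul, Finset.mul_sum, ← Finset.sum_sub_distrib]
    exact G.sum_mem fun β hβ => hwt (c β) (hc β hβ).1 ⟨β, (hc β hβ).2⟩ y hy
  rcases hL.ideals G hGL hideal with h | h
  · exfalso
    -- all the weights lie in `U`
    have hzero : ∀ E ∈ Mv, E = 0 := by
      intro E hE
      have h1 := hMvG hE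
      rw [h] at h1
      exact (Submodule.mem_bot ℚ).1 h1
    let b := Module.finBasis ℚ s
    let Φ : (Fin (finrank ℚ s) → ℝ) ≃ₗ[ℝ] (s →ₗ[ℚ] ℝ) := b.constr ℝ
    have hΦ : ∀ v k, Φ v (b k) = v k := fun v k => b.constr_basis ℝ v k
    have hlt : U.comap (Φ : (Fin (finrank ℚ s) → ℝ) →ₗ[ℝ] (s →ₗ[ℚ] ℝ)) < ⊤ := by
      refine lt_top_iff_ne_top.2 fun htop => ?_
      have h1 : U = ⊤ := by
        rw [eq_top_iff]
        intro f _
        have h2 : Φ.symm f ∈ U.comap (Φ : (Fin (finrank ℚ s) → ℝ) →ₗ[ℝ] (s →ₗ[ℚ] ℝ)) := by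
          rw [htop]; exact Submodule.mem_top
        rw [Submodule.mem_comap] at h2
        have h3 : (Φ : (Fin (finrank ℚ s) → ℝ) →ₗ[ℝ] (s →ₗ[ℚ] ℝ)) (Φ.symm f) = f :=
          Φ.apply_symm_apply f
        rwa [h3] at h2
      have h2 : finrank ℝ U = finrank ℚ s := by
        rw [h1, finrank_top, ← Φ.finrank_eq, Module.finrank_fin_fun]
      omega
    obtain ⟨f, hf0, hf⟩ := Submodule.exists_le_ker_of_lt_top _ hlt
    let e : Fin (finrank ℚ s) → ℝ := fun k => f (Pi.single k 1)
    have hfe : ∀ v, f v = ∑ k, v k * e k := by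
      intro v
      conv_lhs => rw [← Finset.univ_sum_single v]
      rw [map_sum]
      refine Finset.sum_congr rfl fun k _ => ?_
      have h1 : (Pi.single k (v k) : Fin (finrank ℚ s) → ℝ) = v k • Pi.single k 1 := by
        rw [← Pi.single_smul', smul_eq_mul, mul_one]
      rw [h1, map_smul, smul_eq_mul]
    -- the element of the real span of `s`
    have hxs : ∑ k, e k • toR (b k : MatQ N) ∈ realSpan s :=
      Submodule.sum_mem _ fun k _ => Submodule.smul_mem _ _ (Submodule.subset_span ⟨_, (b k).2, rfl⟩)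
    have hL0 : realSpan L ≠ ⊥ := by
      intro h0
      obtain ⟨x, hx, y, hy, hxy⟩ := hL.nonabelian
      have h1 : toR x ∈ realSpan L := Submodule.subset_span ⟨x, hx, rfl⟩
      rw [h0, Submodule.mem_bot] at h1
      have h2 : x = 0 := toR_injective (by rw [h1, toR_zero])
      rw [h2, Matrix.zero_mul, Matrix.mul_zero] at hxy
      exact hxy rfl
    have hLlie : ∀ x ∈ realSpan L, ∀ y ∈ realSpan L, x * y - y * x ∈ realSpan L := by
      intro x hx y hy
      unfold realSpan at hx hy
      induction hx using Submodule.span_induction with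
      | mem x hx =>
        obtain ⟨x', hx', rfl⟩ := hx
        induction hy using Submodule.span_induction with
        | mem y hy =>
          obtain ⟨y', hy', rfl⟩ := hy
          refine Submodule.subset_span ⟨x' * y' - y' * x', hL.lie_mem x' hx' y' hy', ?_⟩
          rw [toR_sub, toR_mul, toR_mul]
        | zero => rw [Matrix.mul_zero, Matrix.zero_mul, sub_self]; exact Submodule.zero_mem _
        | add y z _ _ hy hz =>
          have h1 : toR x' * (y + z) - (y + z) * toR x' =
              (toR x' * y - y * toR x') + (toR x' * z - z * toR x') := by noncomm_ring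
          rw [h1]; exact Submodule.add_mem _ hy hz
        | smul r y _ hy =>
          rw [Matrix.mul_smul, Matrix.smul_mul, ← smul_sub]; exact Submodule.smul_mem _ _ hy
      | zero => rw [Matrix.mul_zero, Matrix.zero_mul, sub_self]; exact Submodule.zero_mem _
      | add x z _ _ hx hz =>
        have h1 : (x + z) * y - y * (x + z) = (x * y - y * x) + (z * y - y * z) := by
          noncomm_ring
        rw [h1]; exact Submodule.add_mem _ hx hz
      | smul r x _ hx =>
        rw [Matrix.mul_smul, Matrix.smul_mul, ← smul_sub]; exact Submodule.smul_mem _ _ hx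
    have hx0 := hF1 hL hs hs' (le_refl (realSpan L)) hL0 hLlie hxs (by
      intro y hy
      unfold realSpan at hy
      induction hy using Submodule.span_induction with
      | mem y hy =>
        obtain ⟨w, hw, rfl⟩ := hy
        obtain ⟨S, c, hwc, hc⟩ := hA4 hs' hsL hw
        rw [hwc, toR_sum, Finset.mul_sum, Finset.sum_mul]
        refine Finset.sum_congr rfl fun β hβ => ?_
        by_cases hβU : realFn β ∈ U
        · have h1 : ∀ k, toR (b k : MatQ N) * toR (c β) - toR (c β) * toR (b k : MatQ N) =
              ((β (b k) : ℚ) : ℝ) • toR (c β) := by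
            intro k
            rw [← toR_mul, ← toR_mul, ← toR_sub, (hc β hβ).2 (b k), toR_smul]
          have h2 : ∑ k, ((β (b k) : ℚ) : ℝ) * e k = 0 := by
            have h3 : Φ.symm (realFn β) ∈
                U.comap (Φ : (Fin (finrank ℚ s) → ℝ) →ₗ[ℝ] (s →ₗ[ℚ] ℝ)) := by
              rw [Submodule.mem_comap]
              have h4 : (Φ : (Fin (finrank ℚ s) → ℝ) →ₗ[ℝ] (s →ₗ[ℚ] ℝ)) (Φ.symm (realFn β)) =
                realFn β := Φ.apply_symm_apply _
              rwa [h4]
            have h5 := hf h3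
            rw [LinearMap.mem_ker, hfe] at h5
            rw [← h5]
            refine Finset.sum_congr rfl fun k _ => ?_
            have h6 : Φ.symm (realFn β) k = ((β (b k) : ℚ) : ℝ) := by
              rw [← hΦ (Φ.symm (realFn β)) k, LinearEquiv.apply_symm_apply]
              rfl
            rw [h6]
          have h3 : (∑ k, e k • toR (b k : MatQ N)) * toR (c β) -
              toR (c β) * (∑ k, e k • toR (b k : MatQ N)) = 0 := by
            rw [Finset.sum_mul, Finset.mul_sum, ← Finset.sum_sub_distrib]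
            calc _ = ∑ k, (((β (b k) : ℚ) : ℝ) * e k) • toR (c β) := by
                  refine Finset.sum_congr rfl fun k _ => ?_
                  rw [Matrix.smul_mul, Matrix.mul_smul, ← smul_sub, h1 k, smul_smul, mul_comm]
              _ = 0 := by rw [← Finset.sum_smul, h2, zero_smul]
          exact sub_eq_zero.1 h3
        · have h1 : c β = 0 := hzero _ ⟨(hc β hβ).1, β, (hc β hβ).2, hβU⟩
          rw [h1, toR_zero, Matrix.mul_zero, Matrix.zero_mul]
      | zero => rw [Matrix.mul_zero, Matrix.zero_mul]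
      | add y z _ _ hy hz => rw [Matrix.mul_add, Matrix.add_mul, hy, hz]
      | smul r y _ hy => rw [Matrix.mul_smul, Matrix.smul_mul, hy])
    have he := indep_real (b := fun k => (b k : MatQ N))
      (b.linearIndependent.map' s.subtype (Submodule.ker_subtype s)) e hx0
    apply hf0
    ext k
    rw [LinearMap.comp_apply]
    exact he k
  · rw [← h]
    exact hGM

end Pool.Agent.Helper654_DO
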