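import Pool.Agent.Helper654_DO.Stmts

/-!
# C2: graded Jacobson-Morozov
-/

set_option autoImplicit false

open Matrix Module

namespace Pool.Agent.Helper654_DO

namespace jacobson_morozov

/-- bracket with a fixed matrix, as a linear map -/
noncomputable def adm {N : ℕ} (x : Mat N) : Module.End ℝ (Mat N) :=
  LinearMap.mulLeft ℝ x - LinearMap.mulRight ℝ x

theorem adm_apply {N : ℕ} (x y : Mat N) : adm x y = x * y - y * x := rfl

theorem adm_bracket {N : ℕ} (x y : Mat N) :
    adm x * adm y - adm y * adm x = adm (x * y - y * x) := by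
  ext1 z
  simp only [LinearMap.sub_apply, Module.End.mul_apply, adm_apply]
  noncomm_ring

theorem adm_smul {N : ℕ} (c : ℝ) (x : Mat N) : adm (c • x) = c • adm x := by
  ext1 z
  simp only [LinearMap.smul_apply, adm_apply, Matrix.smul_mul, Matrix.mul_smul, smul_sub]

theorem adm_nilpotent {N : ℕ} {x : Mat N} (hx : IsNilpotent x) : IsNilpotent (adm x) := by
  obtain ⟨n, hn⟩ := hx
  have h1 : IsNilpotent (LinearMap.mulLeft ℝ x) :=
    ⟨n, by rw [LinearMap.pow_mulLeft, hn, LinearMap.mulLeft_zero_eq_zero]⟩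
  have h2 : IsNilpotent (LinearMap.mulRight ℝ x) :=
    ⟨n, by rw [LinearMap.pow_mulRight, hn, LinearMap.mulRight_zero_eq_zero]⟩
  exact (LinearMap.commute_mulLeft_right (R := ℝ) x x).isNilpotent_sub h1 h2

theorem comm_identity {R : Type*} [Ring R] {E F H : R} (h1 : E * F - F * E = H)
    (h2 : H * E - E * H = 2 * E) (k : ℕ) :
    E ^ (k + 1) * F = F * E ^ (k + 1) + ((k : R) + 1) * ((H - (k : R)) * E ^ k) := by
  have e1 : E * F = F * E + H := by rw [← h1]; abel
  have e2 : E * H = H * E - 2 * E := by rw [← h2]; abel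
  induction k with
  | zero => simp [e1]
  | succ k ih =>
    have hc : ∀ a : R, E * ((k : R) * a) = (k : R) * (E * a) := by
      intro a
      rw [← mul_assoc, ← Nat.cast_comm, mul_assoc]
    calc E ^ (k + 1 + 1) * F = E * (E ^ (k + 1) * F) := by rw [pow_succ', mul_assoc]
      _ = E * (F * E ^ (k + 1) + ((k : R) + 1) * ((H - (k : R)) * E ^ k)) := by rw [ih]
      _ = (E * F) * E ^ (k + 1) + ((k : R) + 1) * ((E * H - (k : R) * E) * E ^ k) := by
          rw [mul_add, mul_assoc, add_mul, mul_add, add_mul, hc]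
          simp only [sub_mul, mul_sub, one_mul, mul_assoc, hc]
      _ = F * E ^ (k + 1 + 1) + (((k + 1 : ℕ) : R) + 1) * ((H - ((k + 1 : ℕ) : R)) * E ^ (k + 1)) := by
          rw [e1, e2]
          push_cast
          have hp : E ^ (k + 1) = E * E ^ k := pow_succ' E k
          have hp2 : E ^ (k + 1 + 1) = E * (E * E ^ k) := by rw [pow_succ', hp]
          rw [hp2, hp]
          generalize E ^ k = Z
          have hk : ∀ a : R, a * (k : R) = (k : R) * a := fun a => (Nat.cast_comm k a).symm
          have hkE : E * (k : R) = (k : R) * E := hk E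
          have hkH : H * (k : R) = (k : R) * H := hk H
          simp only [sub_mul, mul_sub, add_mul, mul_add, one_mul, mul_assoc]
          simp only [← mul_assoc (k : R) (k : R)]
          noncomm_ring

theorem prod_ker {V : Type*} [AddCommGroup V] [Module ℝ V] {E F H : Module.End ℝ V}
    (h1 : E * F - F * E = H) (h2 : H * E - E * H = 2 * E) (k : ℕ) (v : V) (hv : E v = 0) :
    E (Polynomial.aeval H (∏ j ∈ Finset.range k, (Polynomial.X - Polynomial.C (j : ℝ))) v) = 0 ∧
    ∃ u : V, (E ^ k) u =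
      Polynomial.aeval H (∏ j ∈ Finset.range k, (Polynomial.X - Polynomial.C (j : ℝ))) v := by
  induction k with
  | zero => exact ⟨by simpa using hv, ⟨v, by simp⟩⟩
  | succ k ih =>
    obtain ⟨hw, u, hu⟩ := ih
    set w := Polynomial.aeval H (∏ j ∈ Finset.range k, (Polynomial.X - Polynomial.C (j : ℝ))) v
      with hwdef
    have hstep : Polynomial.aeval H
        (∏ j ∈ Finset.range (k + 1), (Polynomial.X - Polynomial.C (j : ℝ))) v
        = H w - (k : ℝ) • w := by
      rw [Finset.prod_range_succ, mul_comm, map_mul, Module.End.mul_apply, ← hwdef, map_sub,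
        Polynomial.aeval_X, Polynomial.aeval_C, LinearMap.sub_apply, Module.algebraMap_end_apply]
    rw [hstep]
    have hEH : E (H w) = 0 := by
      have := congrArg (fun T : Module.End ℝ V => T w) h2
      simp only [LinearMap.sub_apply, Module.End.mul_apply, hw, map_zero, zero_sub] at this
      rwa [neg_eq_zero] at this
    refine ⟨by rw [map_sub, map_smul, hEH, hw, smul_zero, sub_zero], ?_⟩
    refine ⟨((k : ℝ) + 1)⁻¹ • F u, ?_⟩
    have hid : (E ^ (k + 1)) (F u) = F ((E ^ (k + 1)) u) +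
        ((k : Module.End ℝ V) + 1) ((H - (k : Module.End ℝ V)) ((E ^ k) u)) :=
      congrArg (fun T : Module.End ℝ V => T u) (comm_identity h1 h2 k)
    have hz : (E ^ (k + 1)) u = 0 := by
      rw [pow_succ', Module.End.mul_apply, hu, hw]
    rw [hz, map_zero, zero_add, hu] at hid
    rw [map_smul, hid]
    have hcast : ∀ x : V, ((k : Module.End ℝ V) + 1) x = ((k : ℝ) + 1) • x := by
      intro x
      rw [LinearMap.add_apply, Module.End.one_apply, add_smul, one_smul]
      congr 1
      rw [Module.End.natCast_apply, Nat.cast_smul_eq_nsmul]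
    have hcast2 : ((H - (k : Module.End ℝ V)) w) = H w - (k : ℝ) • w := by
      rw [LinearMap.sub_apply, Module.End.natCast_apply, Nat.cast_smul_eq_nsmul]
    rw [hcast, hcast2, smul_smul, inv_mul_cancel₀ (by positivity), one_smul]

theorem aeval_mem {V : Type*} [AddCommGroup V] [Module ℝ V] {H : Module.End ℝ V}
    {Z : Submodule ℝ V} (hZ : ∀ v ∈ Z, H v ∈ Z) (p : Polynomial ℝ) : ∀ v ∈ Z,
    Polynomial.aeval H p v ∈ Z := by
  induction p using Polynomial.induction_on' with
  | add p q hp hq => intro v hv; rw [map_add, LinearMap.add_apply]; exact Z.add_mem (hp v hv) (hq v hv)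
  | monomial n a =>
    intro v hv
    rw [Polynomial.aeval_monomial, Module.End.mul_apply, Module.algebraMap_end_apply]
    refine Z.smul_mem _ ?_
    induction n with
    | zero => simpa using hv
    | succ n ih => rw [pow_succ', Module.End.mul_apply]; exact hZ _ ih

theorem exists_solve {V : Type*} [AddCommGroup V] [Module ℝ V] {E F H : Module.End ℝ V}
    (h1 : E * F - F * E = H) (h2 : H * E - E * H = 2 * E) (hE : IsNilpotent E)
    {Z : Submodule ℝ V} (hZ : ∀ v ∈ Z, H v ∈ Z) (hZE : ∀ v ∈ Z, E v = 0) {w : V} (hw : w ∈ Z) :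
    ∃ z ∈ Z, H z + (2 : ℝ) • z = w := by
  obtain ⟨K, hK⟩ := hE
  set P : Polynomial ℝ := ∏ j ∈ Finset.range K, (Polynomial.X - Polynomial.C (j : ℝ)) with hP
  have hPw : Polynomial.aeval H P w = 0 := by
    obtain ⟨-, u, hu⟩ := prod_ker h1 h2 K w (hZE w hw)
    rw [← hu, hK]; rfl
  have hcop : IsCoprime P (Polynomial.X - Polynomial.C (-2 : ℝ)) := by
    rw [hP]
    refine IsCoprime.prod_left fun j _ => ?_
    refine Polynomial.isCoprime_X_sub_C_of_isUnit_sub ?_
    rw [isUnit_iff_ne_zero]
    have h0 : (0 : ℝ) ≤ j := Nat.cast_nonneg j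
    intro h
    linarith
  obtain ⟨a, b, hab⟩ := hcop
  refine ⟨Polynomial.aeval H b w, aeval_mem hZ b w hw, ?_⟩
  have h := congrArg (fun p => Polynomial.aeval H p w) hab
  simp only [map_add, map_mul, map_one, LinearMap.add_apply, Module.End.mul_apply, hPw, map_zero,
    zero_add, Module.End.one_apply] at h
  rw [← Module.End.mul_apply, ← map_mul, mul_comm, map_mul, Module.End.mul_apply, map_sub,
    Polynomial.aeval_X, Polynomial.aeval_C, LinearMap.sub_apply, Module.algebraMap_end_apply,
    neg_smul, sub_neg_eq_add] at h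
  exact h

/-- double orthogonality -/
theorem exists_range {N : ℕ} {gp gm : Submodule ℝ (Mat N)}
    (h3 : ∀ x ∈ gp, (∀ y ∈ gm, (x * y).trace = 0) → x = 0) (φ : Module.Dual ℝ gp) :
    ∃ z ∈ gm, ∀ x : gp, φ x = ((x : Mat N) * z).trace := by
  let B : gp →ₗ[ℝ] Module.Dual ℝ gm :=
    LinearMap.mk₂ ℝ (fun (x : gp) (y : gm) => ((x : Mat N) * (y : Mat N)).trace)
      (by intro a b c; simp [add_mul]) (by intro c a b; simp [Matrix.trace_smul])
      (by intro a b c; simp [mul_add]) (by intro c a b; simp [Matrix.trace_smul])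
  have hB : Function.Injective B := by
    rw [← LinearMap.ker_eq_bot, LinearMap.ker_eq_bot']
    intro x hx
    apply Subtype.ext
    refine h3 x x.2 fun y hy => ?_
    exact congrArg (fun l : Module.Dual ℝ gm => l ⟨y, hy⟩) hx
  obtain ⟨ψ, hψ⟩ := LinearMap.dualMap_surjective_of_injective hB φ
  obtain ⟨z, hz⟩ := (Module.evalEquiv ℝ gm).surjective ψ
  refine ⟨(z : Mat N), z.2, fun x => ?_⟩
  rw [← hψ, LinearMap.dualMap_apply, ← hz]
  rfl

theorem trace_bracket {N : ℕ} (e a b : Mat N) :
    ((e * a - a * e) * b).trace = -(a * (e * b - b * e)).trace := by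
  rw [sub_mul, mul_sub, trace_sub, trace_sub, ← Matrix.mul_assoc, ← Matrix.mul_assoc]
  have : (e * a * b).trace = (a * b * e).trace := by
    rw [Matrix.mul_assoc, trace_mul_comm]
  rw [this]
  ring

end jacobson_morozov

open jacobson_morozov in
theorem T_jacobson_morozov (hC1 : S_trace_eq_zero_of_comm) : S_jacobson_morozov := by
  intro N gp gm e he hnil h1 h2 h3
  -- the image of `(ad e)²`
  let T : gm →ₗ[ℝ] gp :=
    { toFun := fun y => ⟨adm e (adm e y), h1 y y.2⟩
      map_add' := by intro a b; apply Subtype.ext; simp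
      map_smul' := by intro a b; apply Subtype.ext; simp }
  have hTe : (⟨e, he⟩ : gp) ∈ LinearMap.range T := by
    by_contra hcon
    obtain ⟨φ, hφe, hφ⟩ := Submodule.exists_dual_map_eq_bot_of_notMem hcon inferInstance
    obtain ⟨z, hz, hzφ⟩ := exists_range h3 φ
    have hφT : ∀ y : gm, φ (T y) = 0 := by
      intro y
      have hmem : φ (T y) ∈ (LinearMap.range T).map φ := ⟨T y, ⟨y, rfl⟩, rfl⟩
      rw [hφ] at hmem
      exact hmem
    have hz0 : e * (e * z - z * e) - (e * z - z * e) * e = 0 := by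
      refine h3 _ (h1 z hz) fun y hy => ?_
      rw [trace_bracket, trace_bracket, neg_neg, trace_mul_comm]
      have := hφT ⟨y, hy⟩
      rw [hzφ] at this
      exact this
    have htr : (e * z).trace = 0 := hC1 hnil (sub_eq_zero.mp hz0)
    exact hφe (by rw [hzφ]; exact htr)
  obtain ⟨y0, hy0⟩ := hTe
  have hy0' : e * (e * (y0 : Mat N) - y0 * e) - (e * (y0 : Mat N) - y0 * e) * e = e :=
    congrArg Subtype.val hy0
  set f0 : Mat N := (-2 : ℝ) • (y0 : Mat N) with hf0
  have hf0m : f0 ∈ gm := gm.smul_mem _ y0.2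
  set h0 : Mat N := e * f0 - f0 * e with hh0
  have heh : e * h0 - h0 * e = (-2 : ℝ) • e := by
    rw [hh0, hf0]
    simp only [Matrix.mul_smul, Matrix.smul_mul, ← smul_sub]
    rw [hy0']
  have hhe : h0 * e - e * h0 = (2 : ℝ) • e := by
    rw [← neg_sub, heh, neg_smul, neg_neg]
  have hA1 : adm e * adm f0 - adm f0 * adm e = adm h0 := adm_bracket e f0
  have hA2 : adm h0 * adm e - adm e * adm h0 = 2 * adm e := by
    rw [adm_bracket, hhe, adm_smul, two_mul, two_smul]
  let Z : Submodule ℝ (Mat N) := gm ⊓ LinearMap.ker (adm e)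
  have hZ : ∀ v ∈ Z, adm h0 v ∈ Z := by
    intro v hv
    refine ⟨h2 f0 hf0m v hv.1, ?_⟩
    have hv2 : adm e v = 0 := hv.2
    have := congrArg (fun S : Module.End ℝ (Mat N) => S v) hA2
    simp only [LinearMap.sub_apply, Module.End.mul_apply, hv2, map_zero, zero_sub,
      neg_eq_zero] at this
    exact this
  have hw : (h0 * f0 - f0 * h0) + (2 : ℝ) • f0 ∈ Z := by
    refine ⟨gm.add_mem (h2 f0 hf0m f0 hf0m) (gm.smul_mem _ hf0m), ?_⟩
    show adm e ((h0 * f0 - f0 * h0) + (2 : ℝ) • f0) = 0
    have this : adm h0 (adm e f0) - adm e (adm h0 f0) =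
        (2 * adm e : Module.End ℝ (Mat N)) f0 :=
      congrArg (fun S : Module.End ℝ (Mat N) => S f0) hA2
    have e1 : adm e f0 = h0 := rfl
    have e2 : adm h0 h0 = 0 := by rw [adm_apply, sub_self]
    have e3 : (2 * adm e : Module.End ℝ (Mat N)) f0 = (2 : ℝ) • h0 := by
      rw [two_mul, LinearMap.add_apply, e1, two_smul]
    rw [e3, e1, e2, zero_sub] at this
    rw [map_add, map_smul, e1]
    have e4 : adm e (h0 * f0 - f0 * h0) = adm e (adm h0 f0) := rfl
    rw [e4, ← this, add_neg_cancel]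
  obtain ⟨z, hz, hzw⟩ := exists_solve hA1 hA2 (adm_nilpotent hnil) hZ (fun v hv => hv.2) hw
  refine ⟨f0 - z, gm.sub_mem hf0m hz.1, h0, ?_, hhe, ?_⟩
  · have hz2 : e * z - z * e = 0 := hz.2
    calc e * (f0 - z) - (f0 - z) * e = (e * f0 - f0 * e) - (e * z - z * e) := by noncomm_ring
      _ = h0 := by rw [hz2, sub_zero]
  · have hzw' : (h0 * z - z * h0) + (2 : ℝ) • z = (h0 * f0 - f0 * h0) + (2 : ℝ) • f0 := hzw
    have : h0 * (f0 - z) - (f0 - z) * h0 = (h0 * f0 - f0 * h0) - (h0 * z - z * h0) := by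
      noncomm_ring
    rw [this, smul_sub]
    have h4 : h0 * f0 - f0 * h0 = (h0 * z - z * h0) + (2 : ℝ) • z - (2 : ℝ) • f0 := by
      rw [hzw']; abel
    rw [h4, neg_smul, neg_smul]
    abel

end Pool.Agent.Helper654_DO
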