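import Pool.Agent.Helper654_DO.Stmts

/-!
# The group is locally compact
-/

set_option autoImplicit false

open Matrix Module Filter Topology

namespace Pool.Agent.Helper654_DO

theorem locallyCompactSpace_GL (N : ℕ) : LocallyCompactSpace (GL (Fin N) ℝ) := by
  have : LocallyCompactSpace (Mat N) := inferInstanceAs (LocallyCompactSpace (Fin N → Fin N → ℝ))
  open scoped Norms.Operator in
  exact (Units.isOpenEmbedding_val (R := Mat N)).locallyCompactSpace

theorem continuous_aeval {σ : Type} (p : MvPolynomial σ ℚ) :
    Continuous fun x : σ → ℝ => MvPolynomial.aeval x p := by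
  have : (fun x : σ → ℝ => MvPolynomial.aeval x p) =
      fun x => MvPolynomial.eval x (MvPolynomial.map (algebraMap ℚ ℝ) p) := by
    funext x
    rw [MvPolynomial.eval_map]
    rfl
  rw [this]
  exact MvPolynomial.continuous_eval _

theorem continuous_entry {N : ℕ} (i j : Fin N) :
    Continuous fun g : GL (Fin N) ℝ => (g : Mat N) i j :=
  (Units.continuous_val (M := Mat N)).matrix_elem i j

theorem continuous_inv_entry {N : ℕ} (i j : Fin N) :
    Continuous fun g : GL (Fin N) ℝ => ((g⁻¹ : GL (Fin N) ℝ) : Mat N) i j :=
  (continuous_entry i j).comp continuous_inv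

theorem isClosed_G {N : ℕ} (H : QGroup N) : IsClosed (H.G : Set (GL (Fin N) ℝ)) := by
  have : (H.G : Set (GL (Fin N) ℝ)) = ⋂ p ∈ H.eqs, {g : GL (Fin N) ℝ | MvPolynomial.aeval
      (fun ij : Fin N × Fin N => (g : Mat N) ij.1 ij.2) p = 0} := by
    ext g
    simp only [SetLike.mem_coe, Set.mem_iInter, Set.mem_ofPred_eq]
    exact H.mem_iff g
  rw [this]
  refine isClosed_biInter fun p _ => isClosed_eq ?_ continuous_const
  exact (continuous_aeval p).comp (continuous_pi fun ij => continuous_entry ij.1 ij.2)

theorem T_locallyCompact : S_locallyCompact := by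
  intro N H
  have := locallyCompactSpace_GL N
  exact (isClosed_G H).isClosedEmbedding_subtypeVal.locallyCompactSpace

end Pool.Agent.Helper654_DO
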