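import Pool.Agent.Helper654_DO.Stmts

/-!
# D1: a maximal split space commutes with no nonzero nilpotent element
-/

set_option autoImplicit false

open Matrix Module

namespace Pool.Agent.Helper654_DO

namespace no_nilpotent

theorem diag_smul {N : ℕ} {h : Mat N} (hh : Diagonalizable h) (c : ℝ) :
    Diagonalizable (c • h) := by
  obtain ⟨P, d, hd⟩ := hh
  refine ⟨P, c • d, ?_⟩
  rw [hd, diagonal_smul, Matrix.mul_smul, Matrix.smul_mul]

/-- a diagonalizable element of `g` commuting with `a` lies in `a` -/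
theorem mem_of_diag (hA3 : S_split_sup) {N : ℕ} {g a : Submodule ℝ (Mat N)}
    (ha : IsMaxSplit g a) {h : Mat N} (hh : h ∈ g) (hd : Diagonalizable h)
    (hc : ∀ x ∈ a, x * h = h * x) : h ∈ a := by
  have hsp : IsSplit (ℝ ∙ h) := by
    refine ⟨?_, ?_⟩
    · intro x hx y hy
      obtain ⟨s, rfl⟩ := Submodule.mem_span_singleton.mp hx
      obtain ⟨t, rfl⟩ := Submodule.mem_span_singleton.mp hy
      rw [Matrix.smul_mul, Matrix.mul_smul, Matrix.smul_mul, Matrix.mul_smul, smul_comm]
    · intro x hx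
      obtain ⟨s, rfl⟩ := Submodule.mem_span_singleton.mp hx
      exact diag_smul hd s
  have hsup : IsSplit (a ⊔ ℝ ∙ h) := by
    refine hA3 ha.split hsp ?_
    intro x hx y hy
    obtain ⟨t, rfl⟩ := Submodule.mem_span_singleton.mp hy
    rw [Matrix.mul_smul, Matrix.smul_mul, hc x hx]
  have heq : a ⊔ ℝ ∙ h = a :=
    ha.max _ (sup_le ha.le ((Submodule.span_singleton_le_iff_mem _ _).mpr hh)) hsup le_sup_left
  have : h ∈ a ⊔ ℝ ∙ h := Submodule.mem_sup_right (Submodule.mem_span_singleton_self h)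
  rwa [heq] at this

/-- weight vectors of non-opposite weights are orthogonal -/
theorem trace_weight {N : ℕ} {t x y : Mat N} {b c : ℝ} (hx : t * x - x * t = b • x)
    (hy : t * y - y * t = c • y) (hbc : b + c ≠ 0) : (x * y).trace = 0 := by
  have h1 : ((t * x - x * t) * y).trace + (x * (t * y - y * t)).trace = 0 := by
    rw [sub_mul, mul_sub, trace_sub, trace_sub, ← Matrix.mul_assoc, ← Matrix.mul_assoc]
    have : (t * x * y).trace = (x * y * t).trace := by
      rw [Matrix.mul_assoc, trace_mul_comm]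
    rw [this]
    ring
  rw [hx, hy, Matrix.smul_mul, Matrix.mul_smul, trace_smul, trace_smul, smul_eq_mul,
    smul_eq_mul, ← add_mul] at h1
  exact (mul_eq_zero.mp h1).resolve_left hbc

/-- nondegeneracy of the form between the weight spaces of weights `β` and `-β` -/
theorem nondeg_weight (hA4 : S_weights) {N : ℕ} {g a : Submodule ℝ (Mat N)}
    (hg : ∀ x ∈ g, ∀ y ∈ g, x * y - y * x ∈ g)
    (hT : ∀ x ∈ g, (∀ y ∈ g, (x * y).trace = 0) → x = 0)
    (hag : a ≤ g) (ha : IsSplit a) (β : Module.Dual ℝ a) {x : Mat N} (hx : x ∈ g)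
    (hxw : ∀ t : a, (t : Mat N) * x - x * (t : Mat N) = β t • x)
    (h0 : ∀ y ∈ g, (∀ t : a, (t : Mat N) * y - y * (t : Mat N) = (-(β t)) • y) →
      (x * y).trace = 0) : x = 0 := by
  refine hT x hx fun y hy => ?_
  obtain ⟨S, c, hyc, hc⟩ := hA4 ha (fun t ht y hy => hg t (hag ht) y hy) hy
  rw [hyc, Finset.mul_sum, trace_sum]
  refine Finset.sum_eq_zero fun γ hγ => ?_
  obtain ⟨hcg, hcw⟩ := hc γ hγ
  by_cases h : γ = -β
  · refine h0 _ hcg fun t => ?_
    rw [hcw t, h]; rfl
  · obtain ⟨t, ht⟩ : ∃ t : a, β t + γ t ≠ 0 := by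
      by_contra hcon
      push Not at hcon
      apply h
      ext t
      have := hcon t
      rw [LinearMap.neg_apply]
      linarith
    exact trace_weight (hxw t) (hcw t) ht

end no_nilpotent

open no_nilpotent in
theorem T_no_nilpotent (hA3 : S_split_sup) (hA4 : S_weights) (hC2 : S_jacobson_morozov)
    (hC3 : S_sl2_diagonalizable) : S_no_nilpotent := by
  intro N g hg hT a ha e he hnil hc
  let z : Submodule ℝ (Mat N) :=
    { carrier := {y | y ∈ g ∧ ∀ x ∈ a, x * y = y * x}
      zero_mem' := ⟨g.zero_mem, fun x _ => by rw [mul_zero, zero_mul]⟩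
      add_mem' := fun {p q} hp hq => ⟨g.add_mem hp.1 hq.1, fun x hx => by
        rw [mul_add, add_mul, hp.2 x hx, hq.2 x hx]⟩
      smul_mem' := fun s p hp => ⟨g.smul_mem s hp.1, fun x hx => by
        rw [Matrix.mul_smul, Matrix.smul_mul, hp.2 x hx]⟩ }
  have hzb : ∀ p ∈ z, ∀ q ∈ z, p * q - q * p ∈ z := by
    intro p hp q hq
    refine ⟨hg p hp.1 q hq.1, fun x hx => ?_⟩
    have h1 := hp.2 x hx
    have h2 := hq.2 x hx
    rw [mul_sub, sub_mul, ← Matrix.mul_assoc, h1, Matrix.mul_assoc, h2, ← Matrix.mul_assoc x q p,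
      h2, Matrix.mul_assoc q x p, h1]
    simp only [Matrix.mul_assoc]
  have hez : e ∈ z := ⟨he, hc⟩
  obtain ⟨f, hf, h, hh, hhe, hhf⟩ := hC2 (gp := z) (gm := z) hez hnil
    (fun y hy => hzb e hez _ (hzb e hez y hy))
    (fun y hy w hw => hzb _ (hzb e hez y hy) w hw)
    (by
      intro x hx hxz
      refine nondeg_weight hA4 hg hT ha.le ha.split 0 hx.1 ?_ ?_
      · intro t
        rw [LinearMap.zero_apply, zero_smul, hx.2 t t.2, sub_self]
      · intro y hy hyt
        refine hxz y ⟨hy, fun t ht => ?_⟩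
        have := hyt ⟨t, ht⟩
        rw [LinearMap.zero_apply, neg_zero, zero_smul] at this
        exact sub_eq_zero.mp this)
  have hhz : h ∈ z := by rw [← hh]; exact hzb e hez f hf
  have hdiag : Diagonalizable h := hC3 hh hhe hhf
  have hha : h ∈ a := mem_of_diag hA3 ha hhz.1 hdiag hhz.2
  have : (2 : ℝ) • e = 0 := by rw [← hhe, hc h hha, sub_self]
  exact (smul_eq_zero.mp this).resolve_left two_ne_zero

end Pool.Agent.Helper654_DO
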