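import Pool.Agent.Helper654_DO.Stmts

set_option autoImplicit false
set_option linter.unusedVariables false

open Matrix Module Filter Topology

namespace Pool.Agent.Helper654_DO

namespace position

variable {N : ℕ}

lemma toR_add (x y : MatQ N) : toR (x + y) = toR x + toR y := by
  ext i j; simp [toR]

lemma toR_smul (q : ℚ) (x : MatQ N) : toR (q • x) = (q : ℝ) • toR x := by
  ext i j; simp [toR]

/-- conjugation by `u` -/
noncomputable def cj (u : GL (Fin N) ℝ) : Mat N →ₗ[ℝ] Mat N where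
  toFun y := (u : Mat N) * y * ((u⁻¹ : GL (Fin N) ℝ) : Mat N)
  map_add' := by intro y z; rw [mul_add, add_mul]
  map_smul' := by intro c y; rw [RingHom.id_apply, Matrix.mul_smul, Matrix.smul_mul]

lemma cj_apply (u : GL (Fin N) ℝ) (y : Mat N) :
    cj u y = (u : Mat N) * y * ((u⁻¹ : GL (Fin N) ℝ) : Mat N) := rfl

lemma cj_mul (w u : GL (Fin N) ℝ) (y : Mat N) : cj (w * u) y = cj w (cj u y) := by
  rw [cj_apply, cj_apply, cj_apply, _root_.mul_inv_rev, Units.val_mul, Units.val_mul]
  simp only [Matrix.mul_assoc]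

lemma cj_ne_zero (u : GL (Fin N) ℝ) {y : Mat N} (hy : y ≠ 0) : cj u y ≠ 0 := by
  intro h
  apply hy
  have h1 : cj u⁻¹ (cj u y) = y := by
    rw [← cj_mul, inv_mul_cancel, cj_apply, inv_one, Units.val_one, one_mul, mul_one]
  rw [← h1, h, map_zero]

/-- the functional `x ↦ tr (x z)` on `s` -/
noncomputable def tf (s : Submodule ℚ (MatQ N)) : Mat N →ₗ[ℝ] (s →ₗ[ℚ] ℝ) where
  toFun z :=
    { toFun := fun x => (toR (x : MatQ N) * z).trace
      map_add' := by
        intro x y
        rw [Submodule.coe_add, toR_add, add_mul, Matrix.trace_add]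
      map_smul' := by
        intro q x
        rw [Submodule.coe_smul, toR_smul, Matrix.smul_mul, Matrix.trace_smul, RingHom.id_apply,
          smul_eq_mul, Rat.smul_def] }
  map_add' := by
    intro y z
    ext x
    simp only [LinearMap.coe_mk, AddHom.coe_mk, LinearMap.add_apply, mul_add, Matrix.trace_add]
  map_smul' := by
    intro c z
    ext x
    simp only [LinearMap.coe_mk, AddHom.coe_mk, LinearMap.smul_apply, Matrix.mul_smul,
      Matrix.trace_smul, RingHom.id_apply]

lemma tf_apply (s : Submodule ℚ (MatQ N)) (z : Mat N) (x : s) :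
    tf s z x = (toR (x : MatQ N) * z).trace := rfl

/-- restriction of functionals to `s` -/
noncomputable def rs {s : Submodule ℚ (MatQ N)} {a : Submodule ℝ (Mat N)}
    (hsa : ∀ x ∈ s, toR x ∈ a) : Dual ℝ a →ₗ[ℝ] (s →ₗ[ℚ] ℝ) where
  toFun β :=
    { toFun := fun x => β ⟨toR (x : MatQ N), hsa x x.2⟩
      map_add' := by
        intro x y
        rw [← map_add]
        congr 1
        ext1
        exact toR_add _ _
      map_smul' := by
        intro q x
        rw [RingHom.id_apply, Rat.smul_def, ← smul_eq_mul, ← map_smul]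
        congr 1
        ext1
        exact toR_smul _ _ }
  map_add' := by
    intro β γ
    ext x
    simp only [LinearMap.coe_mk, AddHom.coe_mk, LinearMap.add_apply]
  map_smul' := by
    intro c β
    ext x
    simp only [LinearMap.coe_mk, AddHom.coe_mk, LinearMap.smul_apply, RingHom.id_apply]

lemma rs_apply {s : Submodule ℚ (MatQ N)} {a : Submodule ℝ (Mat N)}
    (hsa : ∀ x ∈ s, toR x ∈ a) (β : Dual ℝ a) (x : s) :
    rs hsa β x = β ⟨toR (x : MatQ N), hsa x x.2⟩ := rfl

/-- the trace form is positive on nonzero diagonalizable matrices -/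
lemma trace_sq_ne_zero {h : Mat N} (hd : Diagonalizable h) (h0 : h ≠ 0) : (h * h).trace ≠ 0 := by
  obtain ⟨P, d, hP⟩ := hd
  have h1 : (h * h).trace = ∑ i, d i * d i := by
    have h2 : h * h = (P : Mat N) * (diagonal (fun i => d i * d i)) *
        ((P⁻¹ : GL (Fin N) ℝ) : Mat N) := by
      have hPP : ((P⁻¹ : GL (Fin N) ℝ) : Mat N) * (P : Mat N) = 1 := by
        rw [← Units.val_mul, inv_mul_cancel, Units.val_one]
      calc h * h = ((P : Mat N) * diagonal d * ((P⁻¹ : GL (Fin N) ℝ) : Mat N)) *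
            ((P : Mat N) * diagonal d * ((P⁻¹ : GL (Fin N) ℝ) : Mat N)) := by rw [← hP]
        _ = (P : Mat N) * diagonal d * (((P⁻¹ : GL (Fin N) ℝ) : Mat N) * (P : Mat N)) *
              diagonal d * ((P⁻¹ : GL (Fin N) ℝ) : Mat N) := by simp only [Matrix.mul_assoc]
        _ = _ := by
          rw [hPP, Matrix.mul_one, Matrix.mul_assoc (P : Mat N), Matrix.diagonal_mul_diagonal]
    rw [h2, Matrix.trace_mul_comm, ← Matrix.mul_assoc, ← Units.val_mul, inv_mul_cancel,
      Units.val_one, Matrix.one_mul, Matrix.trace_diagonal]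
  rw [h1]
  intro h3
  have h4 := (Finset.sum_eq_zero_iff_of_nonneg (fun i _ => mul_self_nonneg (d i))).mp h3
  apply h0
  have h5 : d = 0 := by
    funext i
    exact mul_self_eq_zero.mp (h4 i (Finset.mem_univ i))
  rw [hP, h5]
  simp

/-- a proper subspace of functionals kills a nonzero element of the real span -/
lemma exists_killed {s : Submodule ℚ (MatQ N)} (U : Submodule ℝ (s →ₗ[ℚ] ℝ))
    (hU : finrank ℝ U < finrank ℚ s) :
    ∃ (l : ℕ) (b : Fin l → s) (c : Fin l → ℝ), ∑ i, c i • toR (b i : MatQ N) ≠ 0 ∧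
      ∀ φ ∈ U, ∑ i, c i * φ (b i) = 0 := by
  classical
  set l := finrank ℚ s with hl
  let b := Module.finBasis ℚ s
  -- dual functionals
  have hdual : ∀ j : Fin l, ∃ M : MatQ N, ∀ i : Fin l,
      ∑ p, ∑ q, M p q * (b i : MatQ N) p q = if i = j then 1 else 0 := by
    intro j
    obtain ⟨g, hg⟩ := LinearMap.exists_extend (p := s) (b.coord j)
    refine ⟨fun p q => g (Matrix.single p q 1), ?_⟩
    intro i
    have h1 : g (b i : MatQ N) = if i = j then 1 else 0 := by
      have := congrArg (fun f => f (b i)) hg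
      simp only [LinearMap.comp_apply, Submodule.subtype_apply] at this
      rw [this, Basis.coord_apply, Basis.repr_self, Finsupp.single_apply]
    rw [← h1]
    conv_rhs => rw [Matrix.matrix_eq_sum_single (b i : MatQ N)]
    rw [map_sum]
    refine Finset.sum_congr rfl fun p _ => ?_
    rw [map_sum]
    refine Finset.sum_congr rfl fun q _ => ?_
    have : (Matrix.single p q ((b i : MatQ N) p q) : MatQ N) =
        ((b i : MatQ N) p q) • Matrix.single p q (1 : ℚ) := by
      rw [Matrix.smul_single, smul_eq_mul, mul_one]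
    rw [this, map_smul, smul_eq_mul, mul_comm]
  choose M hM using hdual
  -- the image of `U` in `ℝ^l`
  let ev : (s →ₗ[ℚ] ℝ) →ₗ[ℝ] (Fin l → ℝ) :=
    { toFun := fun φ i => φ (b i)
      map_add' := by intro φ ψ; rfl
      map_smul' := by intro c φ; rfl }
  have hlt : finrank ℝ (U.map ev) < finrank ℝ (Fin l → ℝ) := by
    rw [Module.finrank_fin_fun]
    refine lt_of_le_of_lt ?_ hU
    have hinj : Function.Injective ev := by
      intro φ ψ h
      exact b.ext fun i => congrFun h i
    have : FiniteDimensional ℝ (s →ₗ[ℚ] ℝ) := FiniteDimensional.of_injective ev hinj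
    exact Submodule.finrank_map_le ev U
  obtain ⟨f, hf0, hf⟩ := Submodule.exists_le_ker_of_lt_top (U.map ev)
    (Submodule.lt_top_of_finrank_lt_finrank hlt)
  refine ⟨l, fun i => b i, fun i => f (Pi.single i 1), ?_, ?_⟩
  · intro h0
    apply hf0
    apply LinearMap.pi_ext'
    intro j
    ext
    simp only [LinearMap.comp_apply, LinearMap.coe_single, LinearMap.zero_apply]
    have h2 := congrArg (fun A : Mat N => ∑ p, ∑ q, ((M j p q : ℚ) : ℝ) * A p q) h0
    simp only [Matrix.sum_apply, Matrix.smul_apply, smul_eq_mul, Matrix.zero_apply, mul_zero,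
      Finset.sum_const_zero] at h2
    have h3 : ∑ p, ∑ q, ((M j p q : ℚ) : ℝ) * ∑ i, f (Pi.single i 1) * toR (b i : MatQ N) p q =
        ∑ i, f (Pi.single i 1) * ((∑ p, ∑ q, M j p q * (b i : MatQ N) p q : ℚ) : ℝ) := by
      simp only [Finset.mul_sum]
      rw [Finset.sum_congr rfl fun p _ => Finset.sum_comm, Finset.sum_comm]
      refine Finset.sum_congr rfl fun i _ => ?_
      push_cast
      simp only [Finset.mul_sum]
      refine Finset.sum_congr rfl fun p _ => Finset.sum_congr rfl fun q _ => ?_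
      simp only [toR, Matrix.map_apply]
      ring
    rw [h3] at h2
    simp only [hM] at h2
    rw [Finset.sum_eq_single j] at h2
    · simpa using h2
    · intro i _ hij
      simp [hij]
    · intro h; exact absurd (Finset.mem_univ j) h
  · intro φ hφ
    have h1 : f (ev φ) = 0 := hf (Submodule.mem_map_of_mem hφ)
    have h2 : ev φ = ∑ i, (φ (b i)) • (Pi.single i (1 : ℝ) : Fin l → ℝ) := by
      funext i
      simp [ev, Finset.sum_apply, Pi.single_apply]
    rw [h2, map_sum] at h1
    rw [← h1]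
    refine Finset.sum_congr rfl fun i _ => ?_
    rw [map_smul, smul_eq_mul, mul_comm]

/-- the map `F u` -/
noncomputable def Fm (s : Submodule ℚ (MatQ N)) (d : Submodule ℝ (Mat N)) (u : GL (Fin N) ℝ) :
    d →ₗ[ℝ] (s →ₗ[ℚ] ℝ) := (tf s) ∘ₗ (cj u) ∘ₗ d.subtype

lemma Fm_apply (s : Submodule ℚ (MatQ N)) (d : Submodule ℝ (Mat N)) (u : GL (Fin N) ℝ) (y : d) :
    Fm s d u y = tf s (cj u (y : Mat N)) := rfl

/-- weights of a pairing -/
lemma trace_weight {x y t : Mat N} {β γ : ℝ} (hx : t * x - x * t = β • x)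
    (hy : t * y - y * t = γ • y) : (β + γ) * (x * y).trace = 0 := by
  have h1 : (β + γ) * (x * y).trace = ((t * x - x * t) * y + x * (t * y - y * t)).trace := by
    rw [hx, hy, Matrix.smul_mul, Matrix.mul_smul, Matrix.trace_add, Matrix.trace_smul,
      Matrix.trace_smul, smul_eq_mul, smul_eq_mul, add_mul]
  rw [h1]
  have h2 : (t * x - x * t) * y + x * (t * y - y * t) = t * (x * y) - (x * y) * t := by
    noncomm_ring
  rw [h2, Matrix.trace_sub, Matrix.trace_mul_comm, sub_self]

end position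

open position in
theorem T_position (hA4 : S_weights) (hB1 : S_realSpan_lie) (hB3 : S_realSpan_nondeg)
    (hD2 : S_root_triple) (hD3 : S_reflection) (hF1 : S_faithful) : S_position := by
  intro N L hL s hs hs' a ha hsa d hd hd0 hds
  classical
  have hs0 : s ≠ ⊥ := by
    rintro rfl
    rw [finrank_bot] at hds
    omega
  set g : Submodule ℝ (Mat N) := realSpan L with hg
  have hglie : ∀ x ∈ g, ∀ y ∈ g, x * y - y * x ∈ g := hB1 hL.lie_mem
  have hT : ∀ x ∈ g, (∀ y ∈ g, (x * y).trace = 0) → x = 0 := hB3 hL hs hs' hs0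
  have hstab : ∀ x ∈ a, ∀ y ∈ g, x * y - y * x ∈ g := fun x hx y hy => hglie x (ha.le hx) y hy
  -- the set of elements normalizing `a`
  let Nor : Set (GL (Fin N) ℝ) := {u | u ∈ expGroup g ∧ ∀ y ∈ a, cj u y ∈ a}
  have h1N : (1 : GL (Fin N) ℝ) ∈ Nor := by
    refine ⟨Subgroup.one_mem _, fun y hy => ?_⟩
    rw [cj_apply, inv_one, Units.val_one, one_mul, mul_one]
    exact hy
  -- the rank is bounded
  have hbdd : ∀ u : GL (Fin N) ℝ, finrank ℝ (LinearMap.range (Fm s d u)) ≤ finrank ℝ d :=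
    fun u => LinearMap.finrank_range_le _
  obtain ⟨u, huN, humax⟩ : ∃ u ∈ Nor, ∀ w ∈ Nor, finrank ℝ (LinearMap.range (Fm s d w)) ≤
      finrank ℝ (LinearMap.range (Fm s d u)) := by
    have hne : {r | ∃ u ∈ Nor, finrank ℝ (LinearMap.range (Fm s d u)) = r}.Nonempty :=
      ⟨_, 1, h1N, rfl⟩
    have hb : BddAbove {r | ∃ u ∈ Nor, finrank ℝ (LinearMap.range (Fm s d u)) = r} := by
      refine ⟨finrank ℝ d, ?_⟩
      rintro _ ⟨u, _, rfl⟩
      exact hbdd u
    obtain ⟨u, hu, hr⟩ := Nat.sSup_mem hne hb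
    refine ⟨u, hu, fun w hw => ?_⟩
    rw [hr]
    exact le_csSup hb ⟨w, hw, rfl⟩
  refine ⟨u, huN.1, fun y hy => huN.2 y hy, ?_⟩
  -- the kernel is trivial
  by_contra hcon
  push Not at hcon
  obtain ⟨y₀, hy₀d, hy₀, hy₀0⟩ := hcon
  have hy₀K : Fm s d u ⟨y₀, hy₀d⟩ = 0 := by
    ext x
    exact hy₀ x x.2
  set U : Submodule ℝ (s →ₗ[ℚ] ℝ) := LinearMap.range (Fm s d u) with hUdef
  have hUlt : finrank ℝ U < finrank ℚ s := by
    refine lt_of_lt_of_le ?_ hds
    have h1 := LinearMap.finrank_range_add_finrank_ker (Fm s d u)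
    have h2 : 1 ≤ finrank ℝ (LinearMap.ker (Fm s d u)) := by
      rw [Submodule.one_le_finrank_iff]
      intro h
      apply hy₀0
      have h3 : (⟨y₀, hy₀d⟩ : d) ∈ LinearMap.ker (Fm s d u) := hy₀K
      rw [h, Submodule.mem_bot] at h3
      have := congrArg (fun z => ((z : d) : Mat N)) h3
      exact this
    rw [← hUdef] at h1
    omega
  -- Claim 1
  have claim1 : ∀ (β : Dual ℝ a) (e : Mat N), e ∈ g → e ≠ 0 →
      (∀ x : a, (x : Mat N) * e - e * (x : Mat N) = β x • e) → rs hsa β ∉ U →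
      ∀ y : d, Fm s d u y = 0 → β ⟨cj u y, huN.2 y (hd y.2)⟩ = 0 := by
    intro β e he he0 hw hβU y hy
    by_contra hβy
    have hβ : β ≠ 0 := by
      rintro rfl
      apply hβU
      rw [map_zero]
      exact U.zero_mem
    obtain ⟨h, hh, f, hf, hef, hhe, hhf, hfw⟩ := hD2 hglie hT ha hβ he he0 hw
    have hβh : β ⟨h, hh⟩ = 2 := by
      have h1 := hw ⟨h, hh⟩
      rw [hhe] at h1
      have h2 : ((2 : ℝ) - β ⟨h, hh⟩) • e = 0 := by rw [sub_smul, h1, sub_self]
      rcases smul_eq_zero.mp h2 with h3 | h3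
      · linarith
      · exact absurd h3 he0
    have hh0 : h ≠ 0 := by
      rintro rfl
      have h1 : (2 : ℝ) • e = 0 := by rw [← hhe]; simp
      rcases smul_eq_zero.mp h1 with h3 | h3
      · norm_num at h3
      · exact he0 h3
    have htr : ∀ x : a, ((x : Mat N) * h).trace = β x * (e * f).trace := by
      intro x
      have h1 : ((x : Mat N) * h).trace = (((x : Mat N) * e - e * (x : Mat N)) * f).trace := by
        rw [← hef, mul_sub, sub_mul, Matrix.trace_sub, Matrix.trace_sub, ← mul_assoc, ← mul_assoc,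
          Matrix.trace_mul_comm ((x : Mat N) * f) e, ← mul_assoc]
      rw [h1, hw x, Matrix.smul_mul, Matrix.trace_smul, smul_eq_mul]
    have hb : (e * f).trace ≠ 0 := by
      intro h0
      have h1 := htr ⟨h, hh⟩
      rw [h0, mul_zero] at h1
      exact trace_sq_ne_zero (ha.split.diag h hh) hh0 h1
    set w : GL (Fin N) ℝ := expGL e * expGL (-f) * expGL e with hwdef
    have hwg : w ∈ expGroup g := by
      have h1 : ∀ z ∈ g, expGL z ∈ expGroup g := fun z hz =>
        Subgroup.subset_closure ⟨z, hz, rfl⟩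
      exact Subgroup.mul_mem _ (Subgroup.mul_mem _ (h1 e he) (h1 _ (g.neg_mem hf))) (h1 e he)
    have hwy : ∀ y : a, cj w y = (y : Mat N) - β y • h := by
      intro y
      refine hD3 hef hhe hhf (hw y) ?_
      rw [hfw y]
    have hwN : w * u ∈ Nor := by
      refine ⟨Subgroup.mul_mem _ hwg huN.1, fun z hz => ?_⟩
      rw [cj_mul]
      have := hwy ⟨cj u z, huN.2 z hz⟩
      rw [this]
      exact a.sub_mem (huN.2 z hz) (a.smul_mem _ hh)
    have hFwu : ∀ z : d, Fm s d (w * u) z = Fm s d u z -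
        (β ⟨cj u z, huN.2 z (hd z.2)⟩ * (e * f).trace) • rs hsa β := by
      intro z
      rw [Fm_apply, Fm_apply, cj_mul, hwy ⟨cj u z, huN.2 z (hd z.2)⟩, map_sub, map_smul]
      congr 1
      ext x
      rw [LinearMap.smul_apply, LinearMap.smul_apply, tf_apply, rs_apply,
        htr ⟨toR (x : MatQ N), hsa x x.2⟩, smul_eq_mul, smul_eq_mul]
      ring
    have hmem : rs hsa β ∈ LinearMap.range (Fm s d (w * u)) := by
      have h1 := hFwu y
      rw [hy, zero_sub] at h1
      have h2 : (β ⟨cj u y, huN.2 y (hd y.2)⟩ * (e * f).trace) ≠ 0 := mul_ne_zero hβy hb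
      refine ⟨(-(β ⟨cj u y, huN.2 y (hd y.2)⟩ * (e * f).trace)⁻¹) • y, ?_⟩
      rw [map_smul, h1, smul_neg, neg_smul, neg_neg, smul_smul, inv_mul_cancel₀ h2, one_smul]
    have hUle : U ≤ LinearMap.range (Fm s d (w * u)) := by
      rintro _ ⟨z, rfl⟩
      have h1 := hFwu z
      have h2 : Fm s d u z = Fm s d (w * u) z +
        (β ⟨cj u z, huN.2 z (hd z.2)⟩ * (e * f).trace) • rs hsa β := by
        rw [h1, sub_add_cancel]
      rw [h2]
      exact Submodule.add_mem _ ⟨z, rfl⟩ (Submodule.smul_mem _ _ hmem)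
    have hlt : U < LinearMap.range (Fm s d (w * u)) := by
      refine lt_of_le_of_ne hUle ?_
      intro h
      exact hβU (h ▸ hmem)
    have := Submodule.finrank_lt_finrank_of_lt hlt
    have := humax _ hwN
    omega
  -- the moves and their centralizer
  let R : Set (Mat N) := {e | e ∈ g ∧ ∃ β : Dual ℝ a,
    (∀ x : a, (x : Mat N) * e - e * (x : Mat N) = β x • e) ∧ rs hsa β ∉ U}
  let c : Submodule ℝ (Mat N) :=
    { carrier := {z | z ∈ g ∧ ∀ e ∈ R, z * e = e * z}
      zero_mem' := ⟨g.zero_mem, fun e _ => by rw [zero_mul, mul_zero]⟩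
      add_mem' := by
        rintro x y ⟨hx, hx'⟩ ⟨hy, hy'⟩
        exact ⟨g.add_mem hx hy, fun e he => by rw [add_mul, mul_add, hx' e he, hy' e he]⟩
      smul_mem' := by
        rintro t x ⟨hx, hx'⟩
        exact ⟨g.smul_mem t hx, fun e he => by rw [Matrix.smul_mul, Matrix.mul_smul, hx' e he]⟩ }
  have hcle : c ≤ g := fun z hz => hz.1
  have hcen : ∀ z ∈ c, ∀ e ∈ R, z * e = e * z := fun z hz => hz.2
  -- `c` is an ideal
  have hci : ∀ x ∈ g, ∀ y ∈ c, x * y - y * x ∈ c := by
    intro x hx z hz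
    obtain ⟨S, cc, hsum, hS⟩ := hA4 ha.split hstab hx
    rw [hsum]
    have h1 : (∑ β ∈ S, cc β) * z - z * (∑ β ∈ S, cc β) = ∑ β ∈ S, (cc β * z - z * cc β) := by
      rw [Finset.sum_mul, Finset.mul_sum, Finset.sum_sub_distrib]
    rw [h1]
    refine Submodule.sum_mem _ fun γ hγ => ?_
    obtain ⟨hγg, hγw⟩ := hS γ hγ
    by_cases hγU : rs hsa γ ∈ U
    · refine ⟨hglie _ hγg _ (hcle hz), fun e he => ?_⟩
      obtain ⟨heg, β, hβw, hβU⟩ := he
      have he1 : e ∈ R := ⟨heg, β, hβw, hβU⟩
      have he2 : cc γ * e - e * cc γ ∈ R := by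
        refine ⟨hglie _ hγg _ heg, γ + β, fun t => ?_, ?_⟩
        · have e1 := hγw t
          have e2 := hβw t
          have e3 : (t : Mat N) * (cc γ * e - e * cc γ) - (cc γ * e - e * cc γ) * (t : Mat N) =
              ((t : Mat N) * cc γ - cc γ * (t : Mat N)) * e - e * ((t : Mat N) * cc γ - cc γ * (t : Mat N))
              + (cc γ * ((t : Mat N) * e - e * (t : Mat N)) - ((t : Mat N) * e - e * (t : Mat N)) * cc γ) := by
            noncomm_ring
          rw [e3, e1, e2]
          simp only [Matrix.smul_mul, Matrix.mul_smul, LinearMap.add_apply, add_smul, smul_sub]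
          abel
        · rw [map_add]
          intro h
          apply hβU
          have := U.sub_mem h hγU
          rwa [add_sub_cancel_left] at this
      have e4 := hcen z hz _ he1
      have e5 := hcen z hz _ he2
      -- Jacobi identity
      have e6 : (cc γ * z - z * cc γ) * e - e * (cc γ * z - z * cc γ) =
          (cc γ * (z * e - e * z) - (z * e - e * z) * cc γ) -
          (z * (cc γ * e - e * cc γ) - (cc γ * e - e * cc γ) * z) := by
        noncomm_ring
      rw [← sub_eq_zero, e6, e4, e5]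
      simp
    · have he2 : cc γ ∈ R := ⟨hγg, γ, hγw, hγU⟩
      rw [hcen z hz _ he2, sub_self]
      exact c.zero_mem
  -- `c` is not zero
  have hcy₀ : cj u y₀ ∈ c := by
    refine ⟨ha.le (huN.2 y₀ (hd hy₀d)), fun e he => ?_⟩
    obtain ⟨heg, β, hβw, hβU⟩ := he
    by_cases he0 : e = 0
    · rw [he0, zero_mul, mul_zero]
    · have h1 := claim1 β e heg he0 hβw hβU ⟨y₀, hy₀d⟩ hy₀K
      have h2 := hβw ⟨cj u y₀, huN.2 y₀ (hd hy₀d)⟩
      rw [h1, zero_smul] at h2
      exact sub_eq_zero.mp h2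
  have hc0 : c ≠ ⊥ := by
    intro h
    rw [h, Submodule.mem_bot] at hcy₀
    exact cj_ne_zero u hy₀0 hcy₀
  -- Claim 3
  have claim3 : ∀ (β : Dual ℝ a) (x : Mat N), x ∈ c → x ≠ 0 →
      (∀ t : a, (t : Mat N) * x - x * (t : Mat N) = β t • x) → rs hsa β ∈ U := by
    intro β x hxc hx0 hxw
    by_contra hβU
    obtain ⟨y, hy, hxy⟩ : ∃ y ∈ g, (x * y).trace ≠ 0 := by
      by_contra hno
      push Not at hno
      exact hx0 (hT x (hcle hxc) hno)
    obtain ⟨S, cc, hsum, hS⟩ := hA4 ha.split hstab hy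
    obtain ⟨γ, hγ, hγt⟩ : ∃ γ ∈ S, (x * cc γ).trace ≠ 0 := by
      by_contra hno
      push Not at hno
      apply hxy
      rw [hsum, Finset.mul_sum, Matrix.trace_sum]
      exact Finset.sum_eq_zero hno
    obtain ⟨hγg, hγw⟩ := hS γ hγ
    have hγβ : ∀ t : a, γ t = -(β t) := by
      intro t
      have h1 := trace_weight (hxw t) (hγw t)
      rcases mul_eq_zero.mp h1 with h2 | h2
      · linarith
      · exact absurd h2 hγt
    have hγR : cc γ ∈ R := by
      refine ⟨hγg, γ, hγw, ?_⟩
      intro h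
      apply hβU
      have : β = -γ := by
        ext t
        rw [LinearMap.neg_apply, hγβ t, neg_neg]
      rw [this, map_neg]
      exact U.neg_mem h
    have hcomm := hcen x hxc _ hγR
    apply hβU
    have : β = 0 := by
      ext t
      have h1 : β t * (x * cc γ).trace = 0 := by
        have h2 := hxw t
        have h3 : (((t : Mat N) * x - x * (t : Mat N)) * cc γ).trace = 0 := by
          rw [sub_mul, Matrix.trace_sub, mul_assoc, mul_assoc, Matrix.trace_mul_comm (t : Mat N),
            hcomm, mul_assoc, Matrix.trace_mul_comm (cc γ), mul_assoc, sub_self]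
        rw [h2, Matrix.smul_mul, Matrix.trace_smul, smul_eq_mul] at h3
        exact h3
      rcases mul_eq_zero.mp h1 with h2 | h2
      · exact h2
      · exact absurd h2 hγt
    rw [this, map_zero]
    exact U.zero_mem
  -- Claim 4, 5
  obtain ⟨l, b, t, hne, hkill⟩ := exists_killed U hUlt
  apply hne
  have hxs : ∑ i, t i • toR (b i : MatQ N) ∈ realSpan s :=
    Submodule.sum_mem _ fun i _ => Submodule.smul_mem _ _
      (Submodule.subset_span ⟨(b i : MatQ N), (b i).2, rfl⟩)
  have hxa : ∑ i, t i • toR (b i : MatQ N) ∈ a :=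
    Submodule.sum_mem _ fun i _ => Submodule.smul_mem _ _ (hsa _ (b i).2)
  refine hF1 hL hs hs' hcle hc0 hci hxs ?_
  intro z hz
  obtain ⟨S, cc, hsum, hS⟩ := hA4 (g := c) ha.split
    (fun x hx y hy => hci x (ha.le hx) y hy) hz
  rw [hsum, Finset.mul_sum, Finset.sum_mul]
  refine Finset.sum_congr rfl fun γ hγ => ?_
  obtain ⟨hγc, hγw⟩ := hS γ hγ
  by_cases h0 : cc γ = 0
  · rw [h0, mul_zero, zero_mul]
  have hγU := claim3 γ (cc γ) hγc h0 hγw
  have h1 := hγw ⟨_, hxa⟩
  have h2 : γ ⟨∑ i, t i • toR (b i : MatQ N), hxa⟩ = 0 := by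
    have h3 : (⟨∑ i, t i • toR (b i : MatQ N), hxa⟩ : a) =
        ∑ i, t i • (⟨toR (b i : MatQ N), hsa _ (b i).2⟩ : a) := by
      ext1
      simp only [Submodule.coe_sum, Submodule.coe_smul]
    rw [h3, map_sum, ← hkill _ hγU]
    refine Finset.sum_congr rfl fun i _ => ?_
    rw [map_smul, smul_eq_mul]
    rfl
  rw [h2, zero_smul] at h1
  exact sub_eq_zero.mp h1

end Pool.Agent.Helper654_DO
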