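import Pool.Agent.Helper654_DO.Stmts

/-! # B1: the real span is closed under brackets -/

set_option autoImplicit false

open Matrix Module Filter Topology

namespace Pool.Agent.Helper654_DO

namespace realSpan_lie

theorem toR_lie {N : ℕ} (x y : MatQ N) :
    toR (x * y - y * x) = toR x * toR y - toR y * toR x := by
  have hm : ∀ x y : MatQ N, toR (x * y) = toR x * toR y := fun x y =>
    Matrix.map_mul (f := Rat.castHom ℝ)
  rw [← hm, ← hm]
  ext i j
  simp [toR]

end realSpan_lie

theorem T_realSpan_lie : S_realSpan_lie := by
  intro N L hL x hx y hy
  induction hx using Submodule.span_induction with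
  | mem x hx =>
    obtain ⟨x, hx, rfl⟩ := hx
    induction hy using Submodule.span_induction with
    | mem y hy =>
      obtain ⟨y, hy, rfl⟩ := hy
      rw [← realSpan_lie.toR_lie]
      exact Submodule.subset_span ⟨_, hL x hx y hy, rfl⟩
    | zero => simp
    | add y z _ _ hy hz =>
      have : toR x * (y + z) - (y + z) * toR x =
          (toR x * y - y * toR x) + (toR x * z - z * toR x) := by
        rw [mul_add, add_mul]; abel
      rw [this]
      exact Submodule.add_mem _ hy hz
    | smul t y _ hy =>
      have : toR x * (t • y) - (t • y) * toR x = t • (toR x * y - y * toR x) := by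
        rw [Matrix.mul_smul, Matrix.smul_mul, smul_sub]
      rw [this]
      exact Submodule.smul_mem _ _ hy
  | zero => simp
  | add x z _ _ hx hz =>
    have : (x + z) * y - y * (x + z) = (x * y - y * x) + (z * y - y * z) := by
      rw [mul_add, add_mul]; abel
    rw [this]
    exact Submodule.add_mem _ hx hz
  | smul t x _ hx =>
    have : (t • x) * y - y * (t • x) = t • (x * y - y * x) := by
      rw [Matrix.mul_smul, Matrix.smul_mul, smul_sub]
    rw [this]
    exact Submodule.smul_mem _ _ hx

end Pool.Agent.Helper654_DO
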