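import Pool.Agent.Helper654_DO.Stmts

/-! # B3: nondegeneracy of the trace form -/

set_option autoImplicit false

open Matrix Module Filter Topology

namespace Pool.Agent.Helper654_DO

namespace realSpan_nondeg

theorem trace_sq_pos {N : ℕ} {x : MatQ N} (hx : Diagonalizable x) (h0 : (x * x).trace = 0) :
    x = 0 := by
  obtain ⟨P, d, rfl⟩ := hx
  set Q : MatQ N := ((P⁻¹ : GL (Fin N) ℚ) : MatQ N) with hQ
  have hQP : Q * (P : MatQ N) = 1 := by
    rw [hQ, ← Units.val_mul, inv_mul_cancel, Units.val_one]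
  have h1 : (P : MatQ N) * diagonal d * Q * ((P : MatQ N) * diagonal d * Q) =
      (P : MatQ N) * (diagonal d * diagonal d * Q) := by
    calc (P : MatQ N) * diagonal d * Q * ((P : MatQ N) * diagonal d * Q)
        = (P : MatQ N) * diagonal d * (Q * P) * diagonal d * Q := by
          simp only [Matrix.mul_assoc]
      _ = _ := by rw [hQP, Matrix.mul_one]; simp only [Matrix.mul_assoc]
  rw [h1, Matrix.trace_mul_comm, Matrix.mul_assoc, hQP, Matrix.mul_one,
    Matrix.diagonal_mul_diagonal, Matrix.trace_diagonal] at h0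
  have h2 : d = 0 := by
    funext i
    have h3 := (Finset.sum_eq_zero_iff_of_nonneg fun i _ => mul_self_nonneg (d i)).1 h0 i
      (Finset.mem_univ i)
    exact mul_self_eq_zero.1 h3
  rw [h2]
  simp

theorem trace_toR {N : ℕ} (x y : MatQ N) :
    (toR x * toR y).trace = (((x * y).trace : ℚ) : ℝ) := by
  simp [toR, Matrix.trace, Matrix.mul_apply]

end realSpan_nondeg

theorem T_realSpan_nondeg (hB4 : S_realSpan_slice) : S_realSpan_nondeg := by
  intro N L hL s hs hs' hs0 x hx hxt
  obtain ⟨n, e, z, he, hz, rfl⟩ := hB4 hx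
  let I : Submodule ℚ (MatQ N) :=
    { carrier := {x | x ∈ L ∧ ∀ y ∈ L, (x * y).trace = 0}
      zero_mem' := ⟨L.zero_mem, fun y _ => by simp⟩
      add_mem' := by
        rintro u v ⟨hu, hu'⟩ ⟨hv, hv'⟩
        exact ⟨L.add_mem hu hv, fun y hy => by
          rw [add_mul, Matrix.trace_add, hu' y hy, hv' y hy, add_zero]⟩
      smul_mem' := by
        rintro t u ⟨hu, hu'⟩
        exact ⟨L.smul_mem t hu, fun y hy => by
          rw [Matrix.smul_mul, Matrix.trace_smul, hu' y hy, smul_zero]⟩ }
  have hI : I = ⊥ := by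
    rcases hL.ideals I (fun u hu => hu.1) (by
      intro u hu v hv
      refine ⟨hL.lie_mem u hu v hv.1, fun y hy => ?_⟩
      have h1 : ((u * v - v * u) * y).trace = (v * (y * u - u * y)).trace := by
        rw [Matrix.sub_mul, Matrix.mul_sub, Matrix.trace_sub, Matrix.trace_sub]
        congr 1
        · rw [Matrix.mul_assoc, Matrix.trace_mul_comm, Matrix.mul_assoc]
        · rw [Matrix.mul_assoc]
      rw [h1]
      exact hv.2 _ (hL.lie_mem y hy u hu)) with h | h
    · exact h
    · exfalso
      apply hs0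
      rw [Submodule.eq_bot_iff]
      intro w hw
      have hwI : w ∈ I := by rw [h]; exact hs hw
      exact realSpan_nondeg.trace_sq_pos (hs'.diag w hw) (hwI.2 w (hs hw))
  have hzI : ∀ k, z k ∈ I := by
    intro k
    refine ⟨hz k, fun y hy => ?_⟩
    have h1 := hxt (toR y) (Submodule.subset_span ⟨y, hy, rfl⟩)
    rw [Finset.sum_mul, Matrix.trace_sum] at h1
    have h2 : ∑ k, ((z k * y).trace : ℚ) • e k = 0 := by
      rw [← h1]
      refine Finset.sum_congr rfl fun k _ => ?_
      rw [Matrix.smul_mul, Matrix.trace_smul, realSpan_nondeg.trace_toR, Rat.smul_def,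
        smul_eq_mul, mul_comm]
    exact Fintype.linearIndependent_iff.1 he _ h2 k
  refine Finset.sum_eq_zero fun k _ => ?_
  have h3 : z k = 0 := by
    have := hzI k
    rw [hI, Submodule.mem_bot] at this
    exact this
  rw [h3]
  ext i j
  simp [toR]

end Pool.Agent.Helper654_DO
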