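import Pool.Agent.Helper654_DO.Stmts

/-! # B2: a simple Lie algebra is spanned by its brackets -/

set_option autoImplicit false

open Matrix Module Filter Topology

namespace Pool.Agent.Helper654_DO

namespace realSpan_perfect

theorem toR_lie {N : ℕ} (x y : MatQ N) :
    toR (x * y - y * x) = toR x * toR y - toR y * toR x := by
  have hm : ∀ x y : MatQ N, toR (x * y) = toR x * toR y := fun x y =>
    Matrix.map_mul (f := Rat.castHom ℝ)
  rw [← hm, ← hm]
  ext i j
  simp [toR]

theorem toR_add {N : ℕ} (x y : MatQ N) : toR (x + y) = toR x + toR y := by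
  ext i j; simp [toR]

theorem toR_smul {N : ℕ} (t : ℚ) (x : MatQ N) : toR (t • x) = (t : ℝ) • toR x := by
  ext i j; simp [toR]

theorem toR_zero {N : ℕ} : toR (0 : MatQ N) = 0 := by
  ext i j; simp [toR]

/-- a simple Lie algebra is the span of its brackets -/
theorem span_eq {N : ℕ} {L : Submodule ℚ (MatQ N)} (hL : IsSimpleLie L) :
    Submodule.span ℚ {z : MatQ N | ∃ x ∈ L, ∃ y ∈ L, z = x * y - y * x} = L := by
  set I := Submodule.span ℚ {z : MatQ N | ∃ x ∈ L, ∃ y ∈ L, z = x * y - y * x} with hI
  have hle : I ≤ L := by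
    rw [hI, Submodule.span_le]
    rintro _ ⟨x, hx, y, hy, rfl⟩
    exact hL.lie_mem x hx y hy
  rcases hL.ideals I hle (fun x hx y hy => Submodule.subset_span ⟨x, hx, y, hle hy, rfl⟩) with
    h | h
  · exfalso
    obtain ⟨x, hx, y, hy, hxy⟩ := hL.nonabelian
    have : x * y - y * x ∈ I := Submodule.subset_span ⟨x, hx, y, hy, rfl⟩
    rw [h, Submodule.mem_bot] at this
    exact hxy (sub_eq_zero.1 this)
  · exact h

end realSpan_perfect

theorem T_realSpan_perfect : S_realSpan_perfect := by
  intro N L hL M hM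
  have hsub : ∀ x ∈ L, toR x ∈ realSpan L := fun x hx => Submodule.subset_span ⟨x, hx, rfl⟩
  rw [realSpan, Submodule.span_le]
  rintro _ ⟨x, hx, rfl⟩
  have hx' : x ∈ L := hx
  rw [← realSpan_perfect.span_eq hL] at hx'
  change toR x ∈ M
  induction hx' using Submodule.span_induction with
  | mem z hz =>
    obtain ⟨u, hu, v, hv, rfl⟩ := hz
    rw [realSpan_perfect.toR_lie]
    exact hM _ (hsub u hu) _ (hsub v hv)
  | zero => rw [realSpan_perfect.toR_zero]; exact M.zero_mem
  | add y z hy' hz' hy hz =>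
    rw [realSpan_perfect.toR_add]
    rw [realSpan_perfect.span_eq hL] at hy' hz'
    exact M.add_mem (hy hy') (hz hz')
  | smul t y hy' hy =>
    rw [realSpan_perfect.toR_smul]
    rw [realSpan_perfect.span_eq hL] at hy'
    exact M.smul_mem _ (hy hy')

end Pool.Agent.Helper654_DO
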