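import Pool.Agent.Helper654_DO.Stmts

/-! # B4: rational slices -/

set_option autoImplicit false

open Matrix Module Filter Topology

namespace Pool.Agent.Helper654_DO

theorem T_realSpan_slice : S_realSpan_slice := by
  intro N L x hx
  rw [realSpan, Submodule.mem_span_set'] at hx
  obtain ⟨m, c, g, rfl⟩ := hx
  have hg : ∀ i, ∃ y ∈ L, toR y = (g i : Mat N) := fun i => (g i).2
  choose y hy hgy using hg
  let V : Submodule ℚ ℝ := Submodule.span ℚ (Set.range c)
  have : FiniteDimensional ℚ V := FiniteDimensional.span_of_finite ℚ (Set.finite_range c)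
  let b := Module.finBasis ℚ V
  refine ⟨finrank ℚ V, fun k => (b k : ℝ), fun k => ∑ i, (b.repr ⟨c i, Submodule.subset_span
    ⟨i, rfl⟩⟩ k) • y i, ?_, ?_, ?_⟩
  · have := b.linearIndependent.map' V.subtype (Submodule.ker_subtype V)
    exact this
  · intro k
    exact L.sum_mem fun i _ => L.smul_mem _ (hy i)
  · have hc : ∀ i, c i = ∑ k, ((b.repr ⟨c i, Submodule.subset_span ⟨i, rfl⟩⟩ k : ℚ) : ℝ) *
        (b k : ℝ) := by
      intro i
      have h1 := b.sum_repr ⟨c i, Submodule.subset_span ⟨i, rfl⟩⟩
      have h2 := congrArg (Subtype.val : V → ℝ) h1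
      refine h2.symm.trans ?_
      rw [Submodule.coe_sum]
      refine Finset.sum_congr rfl fun k _ => ?_
      rw [Submodule.coe_smul, Rat.smul_def]
    have h1 : ∀ i, c i • (g i : Mat N) = ∑ k, (b k : ℝ) •
        (((b.repr ⟨c i, Submodule.subset_span ⟨i, rfl⟩⟩ k : ℚ) : ℝ) • toR (y i)) := by
      intro i
      rw [← hgy i]
      conv_lhs => rw [hc i]
      rw [Finset.sum_smul]
      refine Finset.sum_congr rfl fun k _ => ?_
      rw [smul_smul, mul_comm]
    rw [Finset.sum_congr rfl fun i _ => h1 i, Finset.sum_comm]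
    refine Finset.sum_congr rfl fun k _ => ?_
    rw [← Finset.smul_sum]
    congr 1
    ext i j
    simp only [toR, Matrix.sum_apply, Matrix.smul_apply, Matrix.map_apply, smul_eq_mul,
      Rat.cast_sum, Rat.cast_mul]

end Pool.Agent.Helper654_DO
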