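import Pool.Agent.Helper654_DO.Aux831

/-!
# The reflection of an `sl₂` triple
-/

set_option autoImplicit false

open Matrix Module Filter Topology

namespace Pool.Agent.Helper654_DO

theorem T_reflection : S_reflection := by
  intro N e f h y b hef hhe hhf hye hyf
  -- conjugation by `exp e`
  have c1 : ((expGL e : GL (Fin N) ℝ) : Mat N) * y * (((expGL e)⁻¹ : GL (Fin N) ℝ) : Mat N)
      = y - b • e := by
    have h1 : e * y - y * e = -(b • e) := by rw [← hye]; abel
    have h2 : e * (-(b • e)) - (-(b • e)) * e = 0 := by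
      rw [mul_neg, neg_mul, mul_smul_comm, smul_mul_assoc]; abel
    rw [ec.conj_exp_eq h1 h2 (by simp), smul_zero, add_zero, sub_eq_add_neg]
  have c2 : ((expGL e : GL (Fin N) ℝ) : Mat N) * e * (((expGL e)⁻¹ : GL (Fin N) ℝ) : Mat N)
      = e := by
    rw [ec.conj_exp_eq (sub_self (e * e)) (by simp) (W := 0) (by simp), smul_zero, add_zero,
      add_zero]
  have c3 : ((expGL e : GL (Fin N) ℝ) : Mat N) * h * (((expGL e)⁻¹ : GL (Fin N) ℝ) : Mat N)
      = h - (2 : ℝ) • e := by
    have h1 : e * h - h * e = -((2 : ℝ) • e) := by rw [← hhe]; abel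
    have h2 : e * (-((2 : ℝ) • e)) - (-((2 : ℝ) • e)) * e = 0 := by
      rw [mul_neg, neg_mul, mul_smul_comm, smul_mul_assoc]; abel
    rw [ec.conj_exp_eq h1 h2 (by simp), smul_zero, add_zero, sub_eq_add_neg]
  -- conjugation by `exp (-f)`
  have c4 : ((expGL (-f) : GL (Fin N) ℝ) : Mat N) * y * (((expGL (-f))⁻¹ : GL (Fin N) ℝ) : Mat N)
      = y - b • f := by
    have h1 : (-f) * y - y * (-f) = -(b • f) := by
      rw [neg_smul] at hyf
      rw [← hyf]; simp only [neg_mul, mul_neg]; abel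
    have h2 : (-f) * (-(b • f)) - (-(b • f)) * (-f) = 0 := by
      simp only [neg_mul_neg, mul_smul_comm, smul_mul_assoc, sub_self]
    rw [ec.conj_exp_eq h1 h2 (by simp), smul_zero, add_zero, sub_eq_add_neg]
  have c5 : ((expGL (-f) : GL (Fin N) ℝ) : Mat N) * e * (((expGL (-f))⁻¹ : GL (Fin N) ℝ) : Mat N)
      = e + h - f := by
    have h1 : (-f) * e - e * (-f) = h := by
      rw [← hef]; simp only [neg_mul, mul_neg]; abel
    have h2 : (-f) * h - h * (-f) = (-2 : ℝ) • f := by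
      rw [← hhf]; simp only [neg_mul, mul_neg]; abel
    have h3 : (-f) * ((-2 : ℝ) • f) - ((-2 : ℝ) • f) * (-f) = 0 := by
      rw [mul_smul_comm, smul_mul_assoc, neg_mul, mul_neg, sub_self]
    rw [ec.conj_exp_eq h1 h2 h3, smul_smul]
    norm_num
    abel
  -- composition
  have key : ((expGL e * expGL (-f) * expGL e : GL (Fin N) ℝ) : Mat N) * y *
      (((expGL e * expGL (-f) * expGL e)⁻¹ : GL (Fin N) ℝ) : Mat N)
      = ((expGL e : GL (Fin N) ℝ) : Mat N) * (((expGL (-f) : GL (Fin N) ℝ) : Mat N) *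
        (((expGL e : GL (Fin N) ℝ) : Mat N) * y * (((expGL e)⁻¹ : GL (Fin N) ℝ) : Mat N)) *
        (((expGL (-f))⁻¹ : GL (Fin N) ℝ) : Mat N)) * (((expGL e)⁻¹ : GL (Fin N) ℝ) : Mat N) := by
    rw [_root_.mul_inv_rev, _root_.mul_inv_rev]
    simp only [Units.val_mul, mul_assoc]
  rw [key, c1, mul_sub, sub_mul, c4, mul_smul_comm, smul_mul_assoc, c5]
  have e1 : y - b • f - b • (e + h - f) = y - b • e - b • h := by
    rw [smul_sub, smul_add]; abel
  rw [e1, mul_sub, mul_sub, sub_mul, sub_mul, c1, mul_smul_comm, smul_mul_assoc, c2,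
    mul_smul_comm, smul_mul_assoc, c3, smul_sub, smul_smul]
  have e2 : (b * 2) • e = b • e + b • e := by rw [mul_comm, mul_smul, two_smul]
  rw [e2]
  abel

end Pool.Agent.Helper654_DO
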