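import Pool.Agent.Helper654_DO.Stmts

set_option autoImplicit false

open Matrix Module Filter Topology

namespace Pool.Agent.Helper654_DO

namespace rep_closed

variable {N : ℕ} {H : QGroup N}

/-- a polynomial function is continuous -/
lemma continuous_aeval {ι : Type*} (p : MvPolynomial ι ℚ) :
    Continuous fun x : ι → ℝ => MvPolynomial.aeval x p := by
  have h : (fun x : ι → ℝ => MvPolynomial.aeval x p) =
      fun x => MvPolynomial.eval x (MvPolynomial.map (algebraMap ℚ ℝ) p) := by
    funext x
    rw [MvPolynomial.aeval_def, MvPolynomial.eval₂_eq_eval_map]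
  rw [h]
  exact MvPolynomial.continuous_eval _

/-- a representation is continuous -/
lemma continuous_rho (r : H.Rep) : Continuous fun g : H.G => r.ρ g := by
  refine continuous_matrix fun i j => ?_
  have h : (fun g : H.G => r.ρ g i j) = fun g : H.G => MvPolynomial.aeval
    (Sum.elim (fun p : Fin N × Fin N => ((g : GL (Fin N) ℝ) : Mat N) p.1 p.2)
      (fun p : Fin N × Fin N => (((g : GL (Fin N) ℝ)⁻¹ : GL (Fin N) ℝ) : Mat N) p.1 p.2))
      (r.P i j) := by
    funext g
    exact r.spec g i j
  rw [h]
  refine (continuous_aeval (r.P i j)).comp ?_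
  refine continuous_pi fun s => ?_
  rcases s with p | p
  · simp only [Sum.elim_inl]
    exact (Units.continuous_val.comp continuous_subtype_val).matrix_elem _ _
  · simp only [Sum.elim_inr]
    exact (Units.continuous_val.comp (continuous_inv.comp continuous_subtype_val)).matrix_elem _ _

/-- the contracted subspace -/
noncomputable def con (r : H.Rep) (X : H.lieR) : Submodule ℝ (Fin r.m → ℝ) where
  carrier := {v | Tendsto (fun t : ℝ => r.ρ (H.exp (t • X)) *ᵥ v) atTop (𝓝 0)}
  zero_mem' := by simp
  add_mem' := by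
    intro v w hv hw
    simp only [Set.mem_ofPred_eq] at hv hw ⊢
    have := hv.add hw
    simpa [Matrix.mulVec_add] using this
  smul_mem' := by
    intro c v hv
    simp only [Set.mem_ofPred_eq] at hv ⊢
    have := hv.const_smul c
    simpa [Matrix.mulVec_smul] using this

lemma mem_Om (r : H.Rep) (X : H.lieR) (w : Fin r.m → ℝ) (g : H.G) :
    g ∈ QGroup.Om r X w ↔ r.ρ g *ᵥ w ∈ con r X := by
  show Tendsto (fun t : ℝ => r.ρ (H.exp (t • X) * g) *ᵥ w) atTop (𝓝 0) ↔
    Tendsto (fun t : ℝ => r.ρ (H.exp (t • X)) *ᵥ (r.ρ g *ᵥ w)) atTop (𝓝 0)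
  simp only [map_mul, Matrix.mulVec_mulVec]

end rep_closed

open rep_closed in
theorem T_rep_closed : S_rep_closed := by
  intro N H r X w
  have h : QGroup.Om r X w = (fun g : H.G => r.ρ g *ᵥ w) ⁻¹' (con r X : Set (Fin r.m → ℝ)) := by
    ext g
    exact mem_Om r X w g
  rw [h]
  exact IsClosed.preimage ((continuous_rho r).matrix_mulVec continuous_const)
    (Submodule.closed_of_finiteDimensional _)

end Pool.Agent.Helper654_DO
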