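import Pool.Agent.Helper654_DO.Stmts

set_option autoImplicit false

open Matrix Module Filter Topology

namespace Pool.Agent.Helper654_DO

namespace rep_finite

variable {N : ℕ} {H : QGroup N}

/-- the contracted subspace -/
noncomputable def con (r : H.Rep) (X : H.lieR) : Submodule ℝ (Fin r.m → ℝ) where
  carrier := {v | Tendsto (fun t : ℝ => r.ρ (H.exp (t • X)) *ᵥ v) atTop (𝓝 0)}
  zero_mem' := by simp
  add_mem' := by
    intro v w hv hw
    simp only [Set.mem_ofPred_eq] at hv hw ⊢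
    have := hv.add hw
    simpa [Matrix.mulVec_add] using this
  smul_mem' := by
    intro c v hv
    simp only [Set.mem_ofPred_eq] at hv ⊢
    have := hv.const_smul c
    simpa [Matrix.mulVec_smul] using this

lemma mem_Om (r : H.Rep) (X : H.lieR) (w : Fin r.m → ℝ) (g : H.G) :
    g ∈ QGroup.Om r X w ↔ r.ρ g *ᵥ w ∈ con r X := by
  show Tendsto (fun t : ℝ => r.ρ (H.exp (t • X) * g) *ᵥ w) atTop (𝓝 0) ↔
    Tendsto (fun t : ℝ => r.ρ (H.exp (t • X)) *ᵥ (r.ρ g *ᵥ w)) atTop (𝓝 0)
  simp only [map_mul, Matrix.mulVec_mulVec]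

/-- polynomials in functions of a subalgebra -/
lemma aeval_mem {ι : Type*} (A : Subalgebra ℝ (ℝ → ℝ)) (F : ι → ℝ → ℝ) (hF : ∀ i, F i ∈ A)
    (p : MvPolynomial ι ℚ) : (fun t => MvPolynomial.aeval (fun i => F i t) p) ∈ A := by
  induction p using MvPolynomial.induction_on with
  | C a =>
    have h : (fun t : ℝ => MvPolynomial.aeval (fun i => F i t) (MvPolynomial.C a : MvPolynomial ι ℚ))
        = algebraMap ℝ (ℝ → ℝ) ((a : ℚ) : ℝ) := by
      funext t
      simp
    rw [h]
    exact A.algebraMap_mem _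
  | add p q hp hq =>
    have h : (fun t : ℝ => MvPolynomial.aeval (fun i => F i t) (p + q))
        = (fun t => MvPolynomial.aeval (fun i => F i t) p) +
          (fun t => MvPolynomial.aeval (fun i => F i t) q) := by
      funext t
      simp
    rw [h]
    exact A.add_mem hp hq
  | mul_X p i hp =>
    have h : (fun t : ℝ => MvPolynomial.aeval (fun i => F i t) (p * MvPolynomial.X i))
        = (fun t => MvPolynomial.aeval (fun i => F i t) p) * F i := by
      funext t
      simp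
    rw [h]
    exact A.mul_mem hp (hF i)

lemma mulVec_eq_sum_single {m : ℕ} (A : Matrix (Fin m) (Fin m) ℝ) (v : Fin m → ℝ) :
    A *ᵥ v = ∑ i : Fin m, ∑ j : Fin m, A i j • (Pi.single i (v j) : Fin m → ℝ) := by
  funext a
  simp only [Finset.sum_apply, Pi.smul_apply, smul_eq_mul, Pi.single_apply]
  symm
  rw [Finset.sum_eq_single a]
  · simp [Matrix.mulVec, dotProduct]
  · intro b _ hb
    simp [Ne.symm hb]
  · intro ha; exact absurd (Finset.mem_univ _) ha

/-- the algebra of polynomial functions -/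
noncomputable def polyAlg : Subalgebra ℝ (ℝ → ℝ) where
  carrier := {f | ∃ p : Polynomial ℝ, ∀ t, f t = p.eval t}
  mul_mem' := by
    rintro f g ⟨p, hp⟩ ⟨q, hq⟩
    exact ⟨p * q, fun t => by simp [hp t, hq t]⟩
  add_mem' := by
    rintro f g ⟨p, hp⟩ ⟨q, hq⟩
    exact ⟨p + q, fun t => by simp [hp t, hq t]⟩
  algebraMap_mem' := by
    intro c
    exact ⟨Polynomial.C c, fun t => by simp⟩

lemma exp_nil {E : Mat N} {n : ℕ} (hE : E ^ n = 0) (t : ℝ) :
    NormedSpace.exp (t • E) = ∑ k ∈ Finset.range n, ((k.factorial : ℝ)⁻¹ * t ^ k) • E ^ k := by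
  rw [NormedSpace.exp_eq_tsum ℝ]
  show ∑' k : ℕ, ((k.factorial : ℝ)⁻¹) • (t • E) ^ k = _
  rw [tsum_eq_sum (s := Finset.range n)]
  · refine Finset.sum_congr rfl fun k _ => ?_
    rw [smul_pow, smul_smul]
  · intro k hk
    rw [Finset.mem_range, not_lt] at hk
    rw [smul_pow, pow_eq_zero_of_le hk hE, smul_zero, smul_zero]

lemma exp_entry_mem {E : Mat N} (hE : IsNilpotent E) (i j : Fin N) :
    (fun t : ℝ => (NormedSpace.exp (t • E) : Mat N) i j) ∈ polyAlg := by
  obtain ⟨n, hn⟩ := hE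
  refine ⟨∑ k ∈ Finset.range n,
    Polynomial.C ((k.factorial : ℝ)⁻¹ * (E ^ k) i j) * Polynomial.X ^ k, fun t => ?_⟩
  simp only [exp_nil hn]
  rw [Matrix.sum_apply, Polynomial.eval_finsetSum]
  refine Finset.sum_congr rfl fun k _ => ?_
  simp
  ring

lemma exp_coe (X : H.lieR) : ((H.exp X : H.G) : GL (Fin N) ℝ) = expGL (X : Mat N) := rfl

lemma expGL_coe (X : Mat N) : ((expGL X : GL (Fin N) ℝ) : Mat N) = NormedSpace.exp X := rfl

lemma expGL_inv_coe (X : Mat N) :
    (((expGL X)⁻¹ : GL (Fin N) ℝ) : Mat N) = NormedSpace.exp (-X) := rfl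

lemma rho_entry_mem (r : H.Rep) (E : H.lieR) (hE : IsNilpotent (E : Mat N)) (i j : Fin r.m) :
    (fun t : ℝ => r.ρ (H.exp (t • E)) i j) ∈ polyAlg := by
  have h : (fun t : ℝ => r.ρ (H.exp (t • E)) i j) = fun t : ℝ => MvPolynomial.aeval
    (fun s => (Sum.elim (fun p : Fin N × Fin N => fun t : ℝ =>
        (NormedSpace.exp (t • (E : Mat N)) : Mat N) p.1 p.2)
      (fun p : Fin N × Fin N => fun t : ℝ =>
        (NormedSpace.exp (t • (-(E : Mat N))) : Mat N) p.1 p.2) s : ℝ → ℝ) t)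
      (r.P i j) := by
    funext t
    rw [r.spec]
    congr 2
    funext s
    rcases s with p | p
    · rfl
    · simp only [Sum.elim_inr, smul_neg]
      rfl
  rw [h]
  refine aeval_mem polyAlg _ ?_ _
  intro s
  rcases s with p | p
  · exact exp_entry_mem hE _ _
  · exact exp_entry_mem (hE.neg) _ _

end rep_finite

open rep_finite in
theorem T_rep_finite : S_rep_finite := by
  intro N H r X w E hE h h' ⟨t0, ht0⟩
  rw [mem_Om] at ht0
  obtain ⟨f, hf1, hf2⟩ := Submodule.exists_dual_map_eq_bot_of_notMem ht0 inferInstance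
  -- the function
  have hmem : (fun t : ℝ => f (r.ρ (h * H.exp (t • E) * h') *ᵥ w)) ∈ polyAlg := by
    have hlin : (fun t : ℝ => f (r.ρ (h * H.exp (t • E) * h') *ᵥ w)) =
        ∑ i : Fin r.m, ∑ j : Fin r.m, (f (r.ρ h *ᵥ (Pi.single i ((r.ρ h' *ᵥ w) j)))) •
          (fun t : ℝ => r.ρ (H.exp (t • E)) i j) := by
      funext t
      simp only [Finset.sum_apply, Pi.smul_apply, smul_eq_mul]
      have h1 : r.ρ (h * H.exp (t • E) * h') *ᵥ w =
          r.ρ h *ᵥ (r.ρ (H.exp (t • E)) *ᵥ (r.ρ h' *ᵥ w)) := by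
        simp only [map_mul, Matrix.mulVec_mulVec, Matrix.mul_assoc]
      have h2 : r.ρ (H.exp (t • E)) *ᵥ (r.ρ h' *ᵥ w) =
          ∑ i : Fin r.m, ∑ j : Fin r.m,
            r.ρ (H.exp (t • E)) i j • (Pi.single i ((r.ρ h' *ᵥ w) j) : Fin r.m → ℝ) :=
        mulVec_eq_sum_single _ _
      rw [h1, h2]
      simp only [Matrix.mulVec_sum, Matrix.mulVec_smul, map_sum, map_smul, smul_eq_mul]
      refine Finset.sum_congr rfl fun i _ => Finset.sum_congr rfl fun j _ => ?_
      ring
    rw [hlin]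
    refine Subalgebra.sum_mem _ fun i _ => Subalgebra.sum_mem _ fun j _ => ?_
    exact Subalgebra.smul_mem _ (rho_entry_mem r E hE i j) _
  obtain ⟨p, hp⟩ := hmem
  have hp0 : p ≠ 0 := by
    rintro rfl
    have := hp t0
    simp only [Polynomial.eval_zero] at this
    exact hf1 this
  refine (Set.Finite.subset (Polynomial.finite_setOfPred_isRoot hp0) ?_)
  intro t ht
  have ht' : h * H.exp (t • E) * h' ∈ QGroup.Om r X w := ht
  rw [mem_Om] at ht'
  show p.eval t = 0
  rw [← hp t]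
  have h3 : f (r.ρ (h * H.exp (t • E) * h') *ᵥ w) ∈ Submodule.map f (con r X) :=
    Submodule.mem_map_of_mem ht'
  rw [hf2] at h3
  exact (Submodule.mem_bot ℝ).mp h3

end Pool.Agent.Helper654_DO
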