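import Pool.Agent.Helper654_DO.Stmts

set_option autoImplicit false

open Matrix Module Filter Topology

namespace Pool.Agent.Helper654_DO

namespace rep_subseq

variable {N : ℕ} {H : QGroup N}

/-- polynomials in functions of a subalgebra -/
lemma aeval_mem {ι : Type*} (A : Subalgebra ℝ (ℝ → ℝ)) (F : ι → ℝ → ℝ) (hF : ∀ i, F i ∈ A)
    (p : MvPolynomial ι ℚ) : (fun t => MvPolynomial.aeval (fun i => F i t) p) ∈ A := by
  induction p using MvPolynomial.induction_on with
  | C a =>
    have h : (fun t : ℝ => MvPolynomial.aeval (fun i => F i t) (MvPolynomial.C a : MvPolynomial ι ℚ))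
        = algebraMap ℝ (ℝ → ℝ) ((a : ℚ) : ℝ) := by
      funext t
      simp
    rw [h]
    exact A.algebraMap_mem _
  | add p q hp hq =>
    have h : (fun t : ℝ => MvPolynomial.aeval (fun i => F i t) (p + q))
        = (fun t => MvPolynomial.aeval (fun i => F i t) p) +
          (fun t => MvPolynomial.aeval (fun i => F i t) q) := by
      funext t
      simp
    rw [h]
    exact A.add_mem hp hq
  | mul_X p i hp =>
    have h : (fun t : ℝ => MvPolynomial.aeval (fun i => F i t) (p * MvPolynomial.X i))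
        = (fun t => MvPolynomial.aeval (fun i => F i t) p) * F i := by
      funext t
      simp
    rw [h]
    exact A.mul_mem hp (hF i)

/-- finite sums of products of exponentials -/
def IsExpSum (f : ℝ → ℝ) : Prop :=
  ∃ p : ℝ →₀ ℝ, ∀ t, f t = p.sum fun κ c => c * Real.exp (κ * t)

/-- the monoid homomorphism to the exponential functions -/
noncomputable def expHom : Multiplicative ℝ →* (ℝ → ℝ) where
  toFun κ := fun t => Real.exp (Multiplicative.toAdd κ * t)
  map_one' := by funext t; simp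
  map_mul' := by
    intro a b
    funext t
    simp [add_mul, Real.exp_add]

/-- the algebra of finite sums of exponentials -/
noncomputable def expAlg : Subalgebra ℝ (ℝ → ℝ) :=
  (AddMonoidAlgebra.lift ℝ (ℝ → ℝ) ℝ expHom).range

lemma isExpSum_of_mem {f : ℝ → ℝ} (hf : f ∈ expAlg) : IsExpSum f := by
  obtain ⟨p, rfl⟩ := hf
  refine ⟨p.coeff, fun t => ?_⟩
  have h : (AddMonoidAlgebra.lift ℝ (ℝ → ℝ) ℝ expHom) p =
      p.coeff.sum fun a b => b • expHom (Multiplicative.ofAdd a) := AddMonoidAlgebra.lift_apply _ _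
  show (AddMonoidAlgebra.lift ℝ (ℝ → ℝ) ℝ expHom) p t = _
  rw [h]
  simp only [Finsupp.sum, Finset.sum_apply, Pi.smul_apply, smul_eq_mul]
  rfl

lemma exp_mem_expAlg (κ : ℝ) : (fun t : ℝ => Real.exp (κ * t)) ∈ expAlg := by
  refine ⟨AddMonoidAlgebra.single κ 1, ?_⟩
  have h : (AddMonoidAlgebra.lift ℝ (ℝ → ℝ) ℝ expHom) (AddMonoidAlgebra.single κ 1) =
      (1 : ℝ) • expHom (Multiplicative.ofAdd κ) := AddMonoidAlgebra.lift_single _ _ _
  show (AddMonoidAlgebra.lift ℝ (ℝ → ℝ) ℝ expHom) (AddMonoidAlgebra.single κ 1) = _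
  rw [h, one_smul]
  rfl

/-- the largest exponent dominates -/
lemma neg_of_tendsto {S : Finset ℝ} {c : ℝ → ℝ} (hc : ∀ κ ∈ S, c κ ≠ 0) {u : ℕ → ℝ}
    (hu : Tendsto u atTop atTop)
    (h : Tendsto (fun k => ∑ κ ∈ S, c κ * Real.exp (κ * u k)) atTop (𝓝 0)) :
    ∀ κ ∈ S, κ < 0 := by
  by_contra hcon
  push Not at hcon
  obtain ⟨κ0, hκ0, hκ0'⟩ := hcon
  have hne : S.Nonempty := ⟨κ0, hκ0⟩
  set M := S.max' hne with hM
  have hMS : M ∈ S := S.max'_mem hne
  have hM0 : 0 ≤ M := hκ0'.trans (S.le_max' κ0 hκ0)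
  -- multiply by exp (-M u)
  have h1 : Tendsto (fun k => Real.exp (-(M * u k)) * ∑ κ ∈ S, c κ * Real.exp (κ * u k)) atTop
      (𝓝 0) := by
    refine squeeze_zero_norm' ?_ (tendsto_zero_iff_norm_tendsto_zero.mp h)
    filter_upwards [hu.eventually_ge_atTop 0] with k hk
    rw [norm_mul]
    have : ‖Real.exp (-(M * u k))‖ ≤ 1 := by
      rw [Real.norm_eq_abs, abs_of_pos (Real.exp_pos _)]
      exact Real.exp_le_one_iff.mpr (by have := mul_nonneg hM0 hk; linarith)
    calc _ ≤ 1 * ‖∑ κ ∈ S, c κ * Real.exp (κ * u k)‖ :=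
          mul_le_mul_of_nonneg_right this (norm_nonneg _)
      _ = _ := one_mul _
  have h2 : Tendsto (fun k => ∑ κ ∈ S, c κ * Real.exp ((κ - M) * u k)) atTop
      (𝓝 (∑ κ ∈ S, if κ = M then c κ else 0)) := by
    refine tendsto_finsetSum _ fun κ hκ => ?_
    by_cases hκM : κ = M
    · simp only [hκM, sub_self, zero_mul, Real.exp_zero, mul_one, if_true]
      exact tendsto_const_nhds
    · rw [if_neg hκM]
      have hlt : κ - M < 0 := sub_neg.mpr (lt_of_le_of_ne (S.le_max' κ hκ) hκM)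
      have h3 : Tendsto (fun k => (κ - M) * u k) atTop atBot :=
        hu.const_mul_atTop_of_neg hlt
      have h4 := (Real.tendsto_exp_atBot.comp h3).const_mul (c κ)
      rw [mul_zero] at h4
      exact h4
  have h3 : (fun k => Real.exp (-(M * u k)) * ∑ κ ∈ S, c κ * Real.exp (κ * u k)) =
      fun k => ∑ κ ∈ S, c κ * Real.exp ((κ - M) * u k) := by
    funext k
    rw [Finset.mul_sum]
    refine Finset.sum_congr rfl fun κ _ => ?_
    rw [mul_left_comm, ← Real.exp_add]
    congr 2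
    ring
  rw [h3] at h1
  have h4 := tendsto_nhds_unique h1 h2
  rw [Finset.sum_ite_eq' S M c, if_pos hMS] at h4
  exact hc M hMS h4.symm

/-- an exponential sum that tends to zero along a sequence tends to zero -/
lemma tendsto_of_seq {f : ℝ → ℝ} (hf : f ∈ expAlg) {u : ℕ → ℝ} (hu : Tendsto u atTop atTop)
    (h : Tendsto (fun k => f (u k)) atTop (𝓝 0)) : Tendsto f atTop (𝓝 0) := by
  obtain ⟨p, hp⟩ := isExpSum_of_mem hf
  have hp' : f = fun t => ∑ κ ∈ p.support, p κ * Real.exp (κ * t) := by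
    funext t
    exact hp t
  rw [hp'] at h ⊢
  have h1 := neg_of_tendsto (S := p.support) (c := p)
    (fun κ hκ => Finsupp.mem_support_iff.mp hκ) hu h
  have h2 : Tendsto (fun t : ℝ => ∑ κ ∈ p.support, p κ * Real.exp (κ * t)) atTop
      (𝓝 (∑ κ ∈ p.support, 0)) := by
    refine tendsto_finsetSum _ fun κ hκ => ?_
    have h3 : Tendsto (fun t : ℝ => κ * t) atTop atBot :=
      tendsto_id.const_mul_atTop_of_neg (h1 κ hκ)
    have h4 := (Real.tendsto_exp_atBot.comp h3).const_mul (p κ)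
    rw [mul_zero] at h4
    exact h4
  rw [Finset.sum_const_zero] at h2
  exact h2

lemma exp_entry_mem {X : Mat N} (hX : Diagonalizable X) (i j : Fin N) :
    (fun t : ℝ => (NormedSpace.exp (t • X) : Mat N) i j) ∈ expAlg := by
  obtain ⟨P, d, hP⟩ := hX
  have h : (fun t : ℝ => (NormedSpace.exp (t • X) : Mat N) i j) =
      ∑ k : Fin N, ((P : Mat N) i k * ((P⁻¹ : GL (Fin N) ℝ) : Mat N) k j) •
        fun t : ℝ => Real.exp (d k * t) := by
    funext t
    have h1 : t • X = (P : Mat N) * diagonal (t • d) * ((P⁻¹ : GL (Fin N) ℝ) : Mat N) := by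
      rw [hP, ← Matrix.smul_mul, ← Matrix.mul_smul]
      congr 2
      ext a b
      by_cases hab : a = b
      · subst hab; simp
      · simp [hab]
    rw [h1, Matrix.exp_units_conj, Matrix.exp_diagonal]
    simp only [Finset.sum_apply, Pi.smul_apply, smul_eq_mul]
    rw [Matrix.mul_apply]
    refine Finset.sum_congr rfl fun k _ => ?_
    rw [Matrix.mul_diagonal]
    have h2 : (NormedSpace.exp (t • d) : Fin N → ℝ) k = Real.exp (d k * t) := by
      rw [Pi.coe_exp, ← Real.exp_eq_exp_ℝ]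
      simp [mul_comm]
    rw [h2]
    ring
  rw [h]
  exact Subalgebra.sum_mem _ fun k _ => Subalgebra.smul_mem _ (exp_mem_expAlg _) _

lemma diag_neg {X : Mat N} (hX : Diagonalizable X) : Diagonalizable (-X) := by
  obtain ⟨P, d, hP⟩ := hX
  refine ⟨P, -d, ?_⟩
  rw [hP, ← Matrix.neg_mul, ← Matrix.mul_neg]
  congr 2
  ext a b
  by_cases hab : a = b
  · subst hab; simp
  · simp [hab]

lemma rho_entry_mem (r : H.Rep) (X : H.lieR) (hX : Diagonalizable (X : Mat N)) (i j : Fin r.m) :
    (fun t : ℝ => r.ρ (H.exp (t • X)) i j) ∈ expAlg := by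
  have h : (fun t : ℝ => r.ρ (H.exp (t • X)) i j) = fun t : ℝ => MvPolynomial.aeval
    (fun s => (Sum.elim (fun p : Fin N × Fin N => fun t : ℝ =>
        (NormedSpace.exp (t • (X : Mat N)) : Mat N) p.1 p.2)
      (fun p : Fin N × Fin N => fun t : ℝ =>
        (NormedSpace.exp (t • (-(X : Mat N))) : Mat N) p.1 p.2) s : ℝ → ℝ) t)
      (r.P i j) := by
    funext t
    rw [r.spec]
    congr 2
    funext s
    rcases s with p | p
    · rfl
    · simp only [Sum.elim_inr, smul_neg]
      rfl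
  rw [h]
  refine aeval_mem expAlg _ ?_ _
  intro s
  rcases s with p | p
  · exact exp_entry_mem hX _ _
  · exact exp_entry_mem (diag_neg hX) _ _

end rep_subseq

open rep_subseq in
theorem T_rep_subseq : S_rep_subseq := by
  intro N H r X hX w g φ hφ h
  show Tendsto (fun t : ℝ => r.ρ (H.exp (t • X) * g) *ᵥ w) atTop (𝓝 0)
  rw [tendsto_pi_nhds] at h ⊢
  intro i
  have hmem : (fun t : ℝ => (r.ρ (H.exp (t • X) * g) *ᵥ w) i) ∈ expAlg := by
    have h1 : (fun t : ℝ => (r.ρ (H.exp (t • X) * g) *ᵥ w) i) =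
        ∑ j : Fin r.m, ((r.ρ g *ᵥ w) j) • fun t : ℝ => r.ρ (H.exp (t • X)) i j := by
      funext t
      rw [map_mul, ← Matrix.mulVec_mulVec]
      simp only [Finset.sum_apply, Pi.smul_apply, smul_eq_mul]
      rw [Matrix.mulVec, dotProduct]
      exact Finset.sum_congr rfl fun j _ => mul_comm _ _
    rw [h1]
    exact Subalgebra.sum_mem _ fun k _ => Subalgebra.smul_mem _ (rho_entry_mem r X hX i k) _
  refine tendsto_of_seq hmem (u := fun k => (φ k : ℝ)) ?_ (h i)
  exact tendsto_natCast_atTop_atTop.comp hφ.tendsto_atTop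

end Pool.Agent.Helper654_DO
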