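import Pool.Agent.Helper654_DO.Stmts

/-!
# D2: the `sl₂` triple of a root
-/

set_option autoImplicit false

open Matrix Module

namespace Pool.Agent.Helper654_DO

namespace root_triple

theorem diag_smul {N : ℕ} {h : Mat N} (hh : Diagonalizable h) (c : ℝ) :
    Diagonalizable (c • h) := by
  obtain ⟨P, d, hd⟩ := hh
  refine ⟨P, c • d, ?_⟩
  rw [hd, diagonal_smul, Matrix.mul_smul, Matrix.smul_mul]

/-- a diagonalizable element of `g` commuting with `a` lies in `a` -/
theorem mem_of_diag (hA3 : S_split_sup) {N : ℕ} {g a : Submodule ℝ (Mat N)}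
    (ha : IsMaxSplit g a) {h : Mat N} (hh : h ∈ g) (hd : Diagonalizable h)
    (hc : ∀ x ∈ a, x * h = h * x) : h ∈ a := by
  have hsp : IsSplit (ℝ ∙ h) := by
    refine ⟨?_, ?_⟩
    · intro x hx y hy
      obtain ⟨s, rfl⟩ := Submodule.mem_span_singleton.mp hx
      obtain ⟨t, rfl⟩ := Submodule.mem_span_singleton.mp hy
      rw [Matrix.smul_mul, Matrix.mul_smul, Matrix.smul_mul, Matrix.mul_smul, smul_comm]
    · intro x hx
      obtain ⟨s, rfl⟩ := Submodule.mem_span_singleton.mp hx
      exact diag_smul hd s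
  have hsup : IsSplit (a ⊔ ℝ ∙ h) := by
    refine hA3 ha.split hsp ?_
    intro x hx y hy
    obtain ⟨t, rfl⟩ := Submodule.mem_span_singleton.mp hy
    rw [Matrix.mul_smul, Matrix.smul_mul, hc x hx]
  have heq : a ⊔ ℝ ∙ h = a :=
    ha.max _ (sup_le ha.le ((Submodule.span_singleton_le_iff_mem _ _).mpr hh)) hsup le_sup_left
  have : h ∈ a ⊔ ℝ ∙ h := Submodule.mem_sup_right (Submodule.mem_span_singleton_self h)
  rwa [heq] at this

/-- weight vectors of non-opposite weights are orthogonal -/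
theorem trace_weight {N : ℕ} {t x y : Mat N} {b c : ℝ} (hx : t * x - x * t = b • x)
    (hy : t * y - y * t = c • y) (hbc : b + c ≠ 0) : (x * y).trace = 0 := by
  have h1 : ((t * x - x * t) * y).trace + (x * (t * y - y * t)).trace = 0 := by
    rw [sub_mul, mul_sub, trace_sub, trace_sub, ← Matrix.mul_assoc, ← Matrix.mul_assoc]
    have : (t * x * y).trace = (x * y * t).trace := by
      rw [Matrix.mul_assoc, trace_mul_comm]
    rw [this]
    ring
  rw [hx, hy, Matrix.smul_mul, Matrix.mul_smul, trace_smul, trace_smul, smul_eq_mul,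
    smul_eq_mul, ← add_mul] at h1
  exact (mul_eq_zero.mp h1).resolve_left hbc

/-- nondegeneracy of the form between the weight spaces of weights `β` and `-β` -/
theorem nondeg_weight (hA4 : S_weights) {N : ℕ} {g a : Submodule ℝ (Mat N)}
    (hg : ∀ x ∈ g, ∀ y ∈ g, x * y - y * x ∈ g)
    (hT : ∀ x ∈ g, (∀ y ∈ g, (x * y).trace = 0) → x = 0)
    (hag : a ≤ g) (ha : IsSplit a) (β : Module.Dual ℝ a) {x : Mat N} (hx : x ∈ g)
    (hxw : ∀ t : a, (t : Mat N) * x - x * (t : Mat N) = β t • x)
    (h0 : ∀ y ∈ g, (∀ t : a, (t : Mat N) * y - y * (t : Mat N) = (-(β t)) • y) →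
      (x * y).trace = 0) : x = 0 := by
  refine hT x hx fun y hy => ?_
  obtain ⟨S, c, hyc, hc⟩ := hA4 ha (fun t ht y hy => hg t (hag ht) y hy) hy
  rw [hyc, Finset.mul_sum, trace_sum]
  refine Finset.sum_eq_zero fun γ hγ => ?_
  obtain ⟨hcg, hcw⟩ := hc γ hγ
  by_cases h : γ = -β
  · refine h0 _ hcg fun t => ?_
    rw [hcw t, h]; rfl
  · obtain ⟨t, ht⟩ : ∃ t : a, β t + γ t ≠ 0 := by
      by_contra hcon
      push Not at hcon
      apply h
      ext t
      have := hcon t
      rw [LinearMap.neg_apply]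
      linarith
    exact trace_weight (hxw t) (hcw t) ht

/-- an eigenvector of `ad x` with nonzero eigenvalue is nilpotent -/
theorem nilp {N : ℕ} {x e : Mat N} {b : ℝ} (hb : b ≠ 0) (h : x * e - e * x = b • e) :
    IsNilpotent e := by
  by_contra hcon
  have hpow : ∀ k : ℕ, x * e ^ k - e ^ k * x = ((k : ℝ) * b) • e ^ k := by
    intro k
    induction k with
    | zero => simp
    | succ k ih =>
      have h1 : x * e ^ (k + 1) - e ^ (k + 1) * x
          = (x * e ^ k - e ^ k * x) * e + e ^ k * (x * e - e * x) := by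
        rw [pow_succ]; noncomm_ring
      rw [h1, ih, h, Matrix.smul_mul, Matrix.mul_smul, ← pow_succ, ← add_smul]
      push_cast
      congr 1
      ring
  let T : Module.End ℝ (Mat N) := LinearMap.mulLeft ℝ x - LinearMap.mulRight ℝ x
  have hev : ∀ k : ℕ, T.HasEigenvalue ((k : ℝ) * b) := by
    intro k
    refine Module.End.hasEigenvalue_of_hasEigenvector (x := e ^ k) ?_
    refine ⟨Module.End.mem_eigenspace_iff.mpr (hpow k), ?_⟩
    intro h0
    exact hcon ⟨k, h0⟩
  have hfin : Set.Finite (T.HasEigenvalue) := Module.End.finite_hasEigenvalue T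
  have hinj : Function.Injective (fun k : ℕ => (k : ℝ) * b) := by
    intro k l hkl
    have := mul_right_cancel₀ hb hkl
    exact_mod_cast this
  exact Set.infinite_of_injective_forall_mem hinj hev hfin

end root_triple

open root_triple in
theorem T_root_triple (hA3 : S_split_sup) (hA4 : S_weights) (hC2 : S_jacobson_morozov)
    (hC3 : S_sl2_diagonalizable) : S_root_triple := by
  intro N g hg hT a ha β hβ e he he0 hw
  -- jacobi for weights
  have hjac : ∀ (t p q : Mat N) (b c : ℝ), t * p - p * t = b • p → t * q - q * t = c • q →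
      t * (p * q - q * p) - (p * q - q * p) * t = (b + c) • (p * q - q * p) := by
    intro t p q b c hp hq
    have h1 : t * (p * q - q * p) - (p * q - q * p) * t
        = ((t * p - p * t) * q - q * (t * p - p * t)) + (p * (t * q - q * t) - (t * q - q * t) * p) := by
      noncomm_ring
    rw [h1, hp, hq]
    simp only [Matrix.smul_mul, Matrix.mul_smul, ← smul_sub, ← add_smul]
  let W : Module.Dual ℝ a → Submodule ℝ (Mat N) := fun γ =>
    { carrier := {y | y ∈ g ∧ ∀ t : a, (t : Mat N) * y - y * (t : Mat N) = γ t • y}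
      zero_mem' := ⟨g.zero_mem, fun x => by rw [mul_zero, zero_mul, sub_zero, smul_zero]⟩
      add_mem' := fun {p q} hp hq => ⟨g.add_mem hp.1 hq.1, fun x => by
        rw [mul_add, add_mul, add_sub_add_comm, hp.2 x, hq.2 x, smul_add]⟩
      smul_mem' := fun s p hp => ⟨g.smul_mem s hp.1, fun x => by
        rw [Matrix.mul_smul, Matrix.smul_mul, ← smul_sub, hp.2 x, smul_comm]⟩ }
  have hWb : ∀ γ δ, ∀ p ∈ W γ, ∀ q ∈ W δ, p * q - q * p ∈ W (γ + δ) := by
    intro γ δ p hp q hq
    refine ⟨hg p hp.1 q hq.1, fun t => ?_⟩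
    rw [hjac t p q _ _ (hp.2 t) (hq.2 t)]
    rfl
  have heW : e ∈ W β := ⟨he, hw⟩
  obtain ⟨t0, ht0⟩ : ∃ t : a, β t ≠ 0 := by
    by_contra hcon
    push Not at hcon
    exact hβ (LinearMap.ext hcon)
  have hnil : IsNilpotent e := nilp ht0 (hw t0)
  obtain ⟨f, hf, h, hh, hhe, hhf⟩ := hC2 (gp := W β) (gm := W (-β)) heW hnil
    (fun y hy => by
      have := hWb _ _ e heW _ (hWb _ _ e heW y hy)
      rwa [add_neg_cancel, add_zero] at this)
    (fun y hy w hw => by
      have := hWb _ _ _ (hWb _ _ e heW y hy) w hw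
      rwa [add_neg_cancel, zero_add] at this)
    (by
      intro x hx hxz
      refine nondeg_weight hA4 hg hT ha.le ha.split β hx.1 hx.2 ?_
      intro y hy hyt
      exact hxz y ⟨hy, hyt⟩)
  have hhW : h ∈ W (β + -β) := by rw [← hh]; exact hWb _ _ e heW f hf
  have hha : h ∈ a := by
    refine mem_of_diag hA3 ha hhW.1 (hC3 hh hhe hhf) fun x hx => ?_
    have := hhW.2 ⟨x, hx⟩
    rw [add_neg_cancel, LinearMap.zero_apply, zero_smul] at this
    exact sub_eq_zero.mp this
  refine ⟨h, hha, f, hf.1, hh, hhe, hhf, fun x => ?_⟩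
  rw [hf.2 x]
  rfl

end Pool.Agent.Helper654_DO
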