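import Pool.Agent.Helper654_DO.T_diagonalizable_iff

/-!
# Simultaneous diagonalization
-/

set_option autoImplicit false

open Matrix Module Polynomial

namespace Pool.Agent.Helper654_DO.simdiag

open diag

variable {K : Type} [Field K] {N : ℕ}

theorem isSemisimple_of_diagonalizable {A : Matrix (Fin N) (Fin N) K} (h : Diagonalizable A) :
    Module.End.IsSemisimple (Matrix.toLin' A) := by
  classical
  obtain ⟨S, hS⟩ := T_diagonalizable_iff.1 h
  have h1 : aeval (Matrix.toLin' A) (∏ c ∈ S, (X - C c)) = 0 := by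
    have h2 := congrArg (Matrix.toLinAlgEquiv' : Matrix (Fin N) (Fin N) K ≃ₐ[K] _) hS
    rw [map_zero, ← aeval_algHom_apply] at h2
    exact h2
  refine Module.End.isSemisimple_of_squarefree_aeval_eq_zero ?_ h1
  exact (separable_prod_X_sub_C_iff'.2 fun x _ y _ hxy => hxy).squarefree

/-- A set of pairwise commuting diagonalizable matrices is simultaneously diagonalizable. -/
theorem simdiag_set (S : Set (Matrix (Fin N) (Fin N) K))
    (hcomm : ∀ x ∈ S, ∀ y ∈ S, x * y = y * x) (hdiag : ∀ x ∈ S, Diagonalizable x) :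
    ∃ P : GL (Fin N) K, ∀ x ∈ S, ∃ d : Fin N → K, x = (P : Matrix (Fin N) (Fin N) K) *
      diagonal d * ((P⁻¹ : GL (Fin N) K) : Matrix (Fin N) (Fin N) K) := by
  classical
  have hmax : ∀ x ∈ S, ∀ μ : K, Module.End.maxGenEigenspace (Matrix.toLin' x) μ =
      Module.End.eigenspace (Matrix.toLin' x) μ := by
    intro x hx μ
    exact (isSemisimple_of_diagonalizable
      (hdiag x hx)).isFinitelySemisimple.maxGenEigenspace_eq_eigenspace μ
  have htop : ∀ x : S, ⨆ μ, Module.End.maxGenEigenspace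
      (Matrix.toLin' (x : Matrix (Fin N) (Fin N) K)) μ = ⊤ := by
    intro x
    rw [eq_top_iff]
    obtain ⟨P, d, hP⟩ := hdiag x x.2
    refine (span_cols P).trans (Submodule.span_le.2 ?_)
    rintro _ ⟨j, rfl⟩
    refine Submodule.mem_iSup_of_mem (d j) ?_
    rw [hmax x x.2, Module.End.mem_eigenspace_iff, Matrix.toLin'_apply]
    exact cols_of_eq_conj P d hP j
  have hc : Pairwise fun i j : S => @Commute (Module.End K (Fin N → K)) _
      (Matrix.toLin' (i : Matrix (Fin N) (Fin N) K))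
      (Matrix.toLin' (j : Matrix (Fin N) (Fin N) K)) := by
    intro i j _
    have h1 := hcomm i i.2 j j.2
    show Matrix.toLin' (i : Matrix (Fin N) (Fin N) K) ∘ₗ Matrix.toLin' (j : Matrix (Fin N) (Fin N) K)
      = Matrix.toLin' (j : Matrix (Fin N) (Fin N) K) ∘ₗ Matrix.toLin' (i : Matrix (Fin N) (Fin N) K)
    rw [← Matrix.toLin'_mul, ← Matrix.toLin'_mul, h1]
  have hbig := Module.End.iSup_iInf_maxGenEigenspace_eq_top_of_iSup_maxGenEigenspace_eq_top_of_commute
    (fun x : S => (Matrix.toLin' (x : Matrix (Fin N) (Fin N) K) : Module.End K (Fin N → K)))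
    hc htop
  have hspan : ⊤ ≤ Submodule.span K {v : Fin N → K | ∀ x ∈ S, ∃ c : K, x *ᵥ v = c • v} := by
    rw [← hbig]
    refine iSup_le fun χ => ?_
    intro v hv
    refine Submodule.subset_span ?_
    intro x hx
    rw [Submodule.mem_iInf] at hv
    have h1 := hv ⟨x, hx⟩
    rw [hmax x hx, Module.End.mem_eigenspace_iff, Matrix.toLin'_apply] at h1
    exact ⟨_, h1⟩
  obtain ⟨P, hP⟩ := exists_GL_of_span hspan
  refine ⟨P, fun x hx => ?_⟩
  choose d hd using fun j => hP j x hx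
  exact ⟨d, eq_conj_of_cols P d hd⟩

theorem conj_cancel (P : GL (Fin N) K) (D : Matrix (Fin N) (Fin N) K) :
    ((P⁻¹ : GL (Fin N) K) : Matrix (Fin N) (Fin N) K) * ((P : Matrix (Fin N) (Fin N) K) * D *
      ((P⁻¹ : GL (Fin N) K) : Matrix (Fin N) (Fin N) K)) * (P : Matrix (Fin N) (Fin N) K) = D := by
  have hP' : ((P⁻¹ : GL (Fin N) K) : Matrix (Fin N) (Fin N) K) *
      (P : Matrix (Fin N) (Fin N) K) = 1 := by
    rw [← Units.val_mul, inv_mul_cancel, Units.val_one]
  rw [Matrix.mul_assoc, Matrix.mul_assoc, Matrix.mul_assoc, hP', Matrix.mul_one,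
    ← Matrix.mul_assoc, hP', Matrix.one_mul]

theorem cancel_conj (P : GL (Fin N) K) (D : Matrix (Fin N) (Fin N) K) :
    (P : Matrix (Fin N) (Fin N) K) * (((P⁻¹ : GL (Fin N) K) : Matrix (Fin N) (Fin N) K) * D *
      (P : Matrix (Fin N) (Fin N) K)) * ((P⁻¹ : GL (Fin N) K) : Matrix (Fin N) (Fin N) K) = D := by
  have hP : (P : Matrix (Fin N) (Fin N) K) *
      ((P⁻¹ : GL (Fin N) K) : Matrix (Fin N) (Fin N) K) = 1 := by
    rw [← Units.val_mul, mul_inv_cancel, Units.val_one]
  rw [Matrix.mul_assoc, Matrix.mul_assoc, Matrix.mul_assoc, hP, Matrix.mul_one,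
    ← Matrix.mul_assoc, hP, Matrix.one_mul]

/-- The matrices diagonalized by `P`. -/
def conjDiag (P : GL (Fin N) K) : Submodule K (Matrix (Fin N) (Fin N) K) where
  carrier := {x | ∃ d : Fin N → K, x = (P : Matrix (Fin N) (Fin N) K) *
      diagonal d * ((P⁻¹ : GL (Fin N) K) : Matrix (Fin N) (Fin N) K)}
  zero_mem' := ⟨0, by
    have h0 : (diagonal (0 : Fin N → K)) = 0 := diagonal_zero
    rw [h0, Matrix.mul_zero, Matrix.zero_mul]⟩
  add_mem' := by
    rintro _ _ ⟨d, rfl⟩ ⟨d', rfl⟩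
    refine ⟨d + d', ?_⟩
    rw [← Matrix.add_mul, ← Matrix.mul_add, diagonal_add]
    rfl
  smul_mem' := by
    rintro c _ ⟨d, rfl⟩
    refine ⟨c • d, ?_⟩
    rw [← Matrix.smul_mul, ← Matrix.mul_smul, ← diagonal_smul]

theorem isSplit_conjDiag (P : GL (Fin N) K) {a : Submodule K (Matrix (Fin N) (Fin N) K)}
    (ha : a ≤ conjDiag P) : IsSplit a := by
  refine ⟨fun x hx y hy => ?_, fun x hx => ?_⟩
  · obtain ⟨d, hd⟩ := ha hx
    obtain ⟨d', hd'⟩ := ha hy
    have hP' : ((P⁻¹ : GL (Fin N) K) : Matrix (Fin N) (Fin N) K) *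
        (P : Matrix (Fin N) (Fin N) K) = 1 := by
      rw [← Units.val_mul, inv_mul_cancel, Units.val_one]
    have key : ∀ D D' : Matrix (Fin N) (Fin N) K,
        ((P : Matrix (Fin N) (Fin N) K) * D * ((P⁻¹ : GL (Fin N) K) : Matrix (Fin N) (Fin N) K)) *
        ((P : Matrix (Fin N) (Fin N) K) * D' * ((P⁻¹ : GL (Fin N) K) : Matrix (Fin N) (Fin N) K)) =
        (P : Matrix (Fin N) (Fin N) K) * (D * D') *
          ((P⁻¹ : GL (Fin N) K) : Matrix (Fin N) (Fin N) K) := by
      intro D D'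
      calc _ = (P : Matrix (Fin N) (Fin N) K) * D *
            (((P⁻¹ : GL (Fin N) K) : Matrix (Fin N) (Fin N) K) *
            (P : Matrix (Fin N) (Fin N) K)) * D' *
            ((P⁻¹ : GL (Fin N) K) : Matrix (Fin N) (Fin N) K) := by
            simp only [Matrix.mul_assoc]
        _ = _ := by rw [hP', Matrix.mul_one]; simp only [Matrix.mul_assoc]
    rw [hd, hd', key, key, diagonal_mul_diagonal, diagonal_mul_diagonal]
    congr 2
    refine congrArg diagonal ?_
    funext i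
    exact mul_comm _ _
  · obtain ⟨d, hd⟩ := ha hx
    exact ⟨P, d, hd⟩

end Pool.Agent.Helper654_DO.simdiag

namespace Pool.Agent.Helper654_DO

open simdiag

theorem T_simdiag : S_simdiag := by
  intro K _ N a ha
  obtain ⟨P, hP⟩ := simdiag_set (a : Set (Matrix (Fin N) (Fin N) K)) ha.comm ha.diag
  refine ⟨P, fun i =>
    { toFun := fun x => (((P⁻¹ : GL (Fin N) K) : Matrix (Fin N) (Fin N) K) *
        (x : Matrix (Fin N) (Fin N) K) * (P : Matrix (Fin N) (Fin N) K)) i i
      map_add' := fun x y => by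
        rw [Submodule.coe_add, Matrix.mul_add, Matrix.add_mul, Matrix.add_apply]
      map_smul' := fun c x => by
        rw [Submodule.coe_smul, Matrix.mul_smul, Matrix.smul_mul, Matrix.smul_apply,
          RingHom.id_apply] }, fun x => ?_⟩
  obtain ⟨d, hd⟩ := hP x x.2
  have h1 : ∀ i, (((P⁻¹ : GL (Fin N) K) : Matrix (Fin N) (Fin N) K) *
      (x : Matrix (Fin N) (Fin N) K) * (P : Matrix (Fin N) (Fin N) K)) i i = d i := by
    intro i
    rw [hd, conj_cancel, diagonal_apply_eq]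
  show (x : Matrix (Fin N) (Fin N) K) = (P : Matrix (Fin N) (Fin N) K) * diagonal (fun i =>
    (((P⁻¹ : GL (Fin N) K) : Matrix (Fin N) (Fin N) K) *
      (x : Matrix (Fin N) (Fin N) K) * (P : Matrix (Fin N) (Fin N) K)) i i) * _
  rw [funext h1]
  exact hd

end Pool.Agent.Helper654_DO
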