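import Pool.Agent.Helper654_DO.Stmts

/-!
# C3: in an `sl₂` triple of real matrices `h` is diagonalizable

Everything is done by left multiplication inside a finite-dimensional real algebra.
-/

set_option autoImplicit false

open Matrix Module Filter Topology

namespace Pool.Agent.Helper654_DO

namespace sl2_diagonalizable

variable {R : Type*} [Ring R] [Algebra ℝ R]

/-- An `sl₂` triple. -/
structure Trip (e f h : R) : Prop where
  ef : e * f - f * e = h
  he : h * e - e * h = (2 : ℝ) • e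
  hf : h * f - f * h = (-2 : ℝ) • f

theorem Trip.mirror {e f h : R} (t : Trip e f h) : Trip f e (-h) where
  ef := by rw [← t.ef]; abel
  he := by
    have h1 : -h * f - f * -h = -(h * f - f * h) := by noncomm_ring
    rw [h1, t.hf]; module
  hf := by
    have h1 : -h * e - e * -h = -(h * e - e * h) := by noncomm_ring
    rw [h1, t.he]; module

theorem Trip.he' {e f h : R} (t : Trip e f h) : h * e = e * h + (2 : ℝ) • e := by
  rw [← t.he]; abel

theorem Trip.eh {e f h : R} (t : Trip e f h) (y : R) :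
    e * (h * y) = h * (e * y) - (2 : ℝ) • (e * y) := by
  rw [← mul_assoc, ← mul_assoc, t.he', add_mul, smul_mul_assoc]; abel

theorem Trip.hpow {e f h : R} (t : Trip e f h) (k : ℕ) (y : R) :
    h * (e ^ k * y) = e ^ k * (h * y) + (2 * (k : ℝ)) • (e ^ k * y) := by
  induction k generalizing y with
  | zero => simp
  | succ k ih =>
    have h1 : ∀ x : R, e ^ (k + 1) * x = e ^ k * (e * x) := fun x => by
      rw [pow_succ, mul_assoc]
    rw [h1, h1, ih, t.eh, mul_sub, mul_smul_comm]
    have h2 : h * (e * y) = e * (h * y) + (2 : ℝ) • (e * y) := by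
      rw [t.eh]; abel
    rw [h2, mul_add, mul_smul_comm]
    push_cast
    module

theorem Trip.nil [FiniteDimensional ℝ R] {e f h : R} (t : Trip e f h) : IsNilpotent e := by
  by_contra hn
  have h1 : ∀ k : ℕ, e ^ k ≠ 0 := fun k hk => hn ⟨k, hk⟩
  let L : Module.End ℝ R := LinearMap.mulLeft ℝ h - LinearMap.mulRight ℝ h
  have h2 : ∀ k : ℕ, L.HasEigenvalue (2 * (k : ℝ)) := by
    intro k
    refine Module.End.hasEigenvalue_of_hasEigenvector (x := e ^ k) ?_
    rw [Module.End.hasEigenvector_iff, Module.End.mem_eigenspace_iff]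
    refine ⟨?_, h1 k⟩
    show h * e ^ k - e ^ k * h = _
    have := t.hpow k 1
    rw [mul_one, mul_one] at this
    rw [this]; abel
  have h3 : Set.Infinite {μ : ℝ | L.HasEigenvalue μ} :=
    Set.infinite_of_injective_forall_mem (f := fun k : ℕ => 2 * (k : ℝ))
      (fun a b hab => by
        have : (a : ℝ) = b := by simpa using hab
        exact_mod_cast this) h2
  exact h3 (Module.End.finite_hasEigenvalue L)

theorem Trip.id2 {e f h : R} (t : Trip e f h) (k : ℕ) (y : R) :
    e ^ (k + 1) * (f * y) = f * (e ^ (k + 1) * y) +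
      ((k : ℝ) + 1) • (h * (e ^ k * y) - (k : ℝ) • (e ^ k * y)) := by
  have h0 : ∀ x : R, e * (f * x) = f * (e * x) + h * x := fun x => by
    rw [← mul_assoc, ← mul_assoc, ← t.ef]; noncomm_ring
  induction k with
  | zero => simp [h0]
  | succ k ih =>
    have h1 : ∀ (n : ℕ) (x : R), e ^ (n + 1) * x = e * (e ^ n * x) := fun n x => by
      rw [pow_succ', mul_assoc]
    rw [h1 (k + 1) (f * y), ih, mul_add, h0, mul_smul_comm, mul_sub, t.eh, mul_smul_comm,
      ← h1 (k + 1), ← h1 k]
    push_cast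
    module

theorem Trip.step {e f h : R} (t : Trip e f h) (k : ℕ) {y u : R} (hy : e * y = 0)
    (hu : y = e ^ k * u) :
    e * (h * y - (k : ℝ) • y) = 0 ∧ ∃ u', h * y - (k : ℝ) • y = e ^ (k + 1) * u' := by
  constructor
  · rw [mul_sub, t.eh, mul_smul_comm, hy]; simp
  · refine ⟨((k : ℝ) + 1)⁻¹ • (f * u), ?_⟩
    have h1 := t.id2 k u
    rw [← hu] at h1
    have h2 : e ^ (k + 1) * u = e * y := by rw [hu, pow_succ', mul_assoc]
    rw [h2, hy, mul_zero, zero_add] at h1
    rw [mul_smul_comm, h1, smul_smul, inv_mul_cancel₀ (by positivity), one_smul]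

/-- Weights of primitive vectors. -/
theorem Trip.wt {e f h : R} (t : Trip e f h) {K : ℕ} (hK : e ^ K = 0) (d : ℕ) :
    ∀ (k : ℕ) (y u : R) (ω : ℝ), K ≤ k + d → y ≠ 0 → e * y = 0 → y = e ^ k * u →
      h * y = ω • y → ∃ j : ℕ, k ≤ j ∧ ω = j := by
  induction d with
  | zero =>
    intro k y u ω hk hy _ hu _
    exfalso
    apply hy
    rw [hu, pow_eq_zero_of_le (by omega) hK, zero_mul]
  | succ d ih =>
    intro k y u ω hk hy hey hu hω
    by_cases h1 : ω = k
    · exact ⟨k, le_refl _, h1⟩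
    · obtain ⟨_, u', hu'⟩ := t.step k hey hu
      have h2 : ω - k ≠ 0 := sub_ne_zero.2 h1
      have h3 : y = e ^ (k + 1) * ((ω - k)⁻¹ • u') := by
        rw [mul_smul_comm, ← hu', hω, ← sub_smul, smul_smul, inv_mul_cancel₀ h2, one_smul]
      obtain ⟨j, hj, hj'⟩ := ih (k + 1) y _ ω (by omega) hy hey h3 hω
      exact ⟨j, by omega, hj'⟩

/-- `h` is semisimple on `ker e`. -/
theorem Trip.kss {e f h : R} (t : Trip e f h) {K : ℕ} (hK : e ^ K = 0) (m : ℕ) (d : ℕ) :
    ∀ (k : ℕ) (y u w : R), K ≤ k + d → e * y = 0 → y = e ^ k * u →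
      h * y - (m : ℝ) • y = w → h * w = (m : ℝ) • w → w = 0 := by
  induction d with
  | zero =>
    intro k y u w hk _ hu hw _
    have : y = 0 := by rw [hu, pow_eq_zero_of_le (by omega) hK, zero_mul]
    rw [← hw, this]; simp
  | succ d ih =>
    intro k y u w hk hey hu hw hhw
    obtain ⟨h1, u', hu'⟩ := t.step k hey hu
    by_cases hkm : k = m
    · subst hkm
      by_contra hne
      rw [hw] at h1 hu'
      obtain ⟨j, hj, hj'⟩ := t.wt hK K (k + 1) w u' k (by omega) hne h1 hu' hhw
      have : k = j := by exact_mod_cast hj'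
      omega
    · have h2 : h * y - (k : ℝ) • y = w + ((m : ℝ) - k) • y := by
        rw [← hw]; module
      have h3 : h * (h * y - (k : ℝ) • y) - (m : ℝ) • (h * y - (k : ℝ) • y) =
          ((m : ℝ) - k) • w := by
        rw [h2, mul_add, hhw, mul_smul_comm]
        have : h * y = w + (m : ℝ) • y := by rw [← hw]; abel
        rw [this]; module
      have h4 := ih (k + 1) _ u' _ (by omega) h1 hu' h3 (by
        rw [mul_smul_comm, hhw]; module)
      have h5 : (m : ℝ) - k ≠ 0 := by
        rw [sub_ne_zero]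
        exact fun h => hkm (by exact_mod_cast h.symm)
      exact (smul_eq_zero.1 h4).resolve_left h5

theorem Trip.hw {e f h : R} (t : Trip e f h) (k : ℕ) {y : R} {ω : ℝ} (hω : h * y = ω • y) :
    h * (e ^ k * y) = (ω + 2 * k) • (e ^ k * y) := by
  rw [t.hpow, hω, mul_smul_comm]; module

theorem Trip.hwf {e f h : R} (t : Trip e f h) (k : ℕ) {y : R} {ω : ℝ} (hω : h * y = ω • y) :
    h * (f ^ k * y) = (ω - 2 * k) • (f ^ k * y) := by
  have h1 : -h * y = (-ω) • y := by rw [neg_mul, hω]; module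
  have h2 := t.mirror.hw k h1
  rw [neg_mul] at h2
  have h3 : h * (f ^ k * y) = -((-ω + 2 * k) • (f ^ k * y)) := by rw [← h2, neg_neg]
  rw [h3]; module

theorem Trip.inj {e f h : R} (t : Trip e f h) {K : ℕ} (hK : e ^ K = 0) (hK' : f ^ K = 0) (m : ℕ)
    {u : R} (hu : h * u = ((m : ℝ) + 2) • u) (h0 : e * (f * u) = 0) : u = 0 := by
  by_contra hne
  have hex : ∃ i, f ^ i * u = 0 := ⟨K, by rw [hK', zero_mul]⟩
  classical
  have hi0 : Nat.find hex ≠ 0 := by
    intro h1
    have h2 := Nat.find_spec hex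
    rw [h1, pow_zero, one_mul] at h2
    exact hne h2
  obtain ⟨i, hi⟩ := Nat.exists_eq_succ_of_ne_zero hi0
  have hy : f ^ i * u ≠ 0 := Nat.find_min hex (by omega)
  have hfy : f * (f ^ i * u) = 0 := by
    have h2 := Nat.find_spec hex
    rw [hi, Nat.succ_eq_add_one, pow_succ', mul_assoc] at h2
    exact h2
  have hwt := t.hwf i hu
  have hwt' : -h * (f ^ i * u) = (-(((m : ℝ) + 2) - 2 * i)) • (f ^ i * u) := by
    rw [neg_mul, hwt]; module
  obtain ⟨j, hj, hj'⟩ := t.mirror.wt hK' K i _ u _ (by omega) hy hfy rfl hwt'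
  have hge : m + 2 ≤ i := by
    have h1 : (j : ℝ) = 2 * i - (m + 2) := by rw [← hj']; ring
    have h2 : j + (m + 2) = 2 * i := by
      have : (j : ℝ) + (m + 2) = 2 * i := by rw [h1]; ring
      exact_mod_cast this
    omega
  have hp : f ^ (m + 2) * u ≠ 0 := Nat.find_min hex (by omega)
  -- the vector `p`
  have hz : h * (f * u) = (m : ℝ) • (f * u) := by
    have h1 := t.hwf 1 hu
    rw [pow_one] at h1
    rw [h1]; congr 1; push_cast; ring
  have hpz : f ^ (m + 2) * u = f ^ (m + 1) * (f * u) := by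
    rw [pow_succ f (m + 1), mul_assoc]
  have hep : e * (f ^ (m + 1) * (f * u)) = 0 := by
    have h1 := t.mirror.id2 m (f * u)
    rw [h0, mul_zero, neg_mul, t.hwf m hz] at h1
    have h2 : -(((m : ℝ) - 2 * m) • (f ^ m * (f * u))) - (m : ℝ) • (f ^ m * (f * u)) = 0 := by
      module
    rw [h2, smul_zero, add_zero] at h1
    exact h1.symm
  have hwp := t.hwf (m + 1) hz
  rw [hpz] at hp
  obtain ⟨j, _, hj'⟩ := t.wt hK K 0 _ (f ^ (m + 1) * (f * u)) _ (by omega) hp hep (by simp) hwp
  have h3 : (0 : ℝ) ≤ j := Nat.cast_nonneg j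
  have h4 : (0 : ℝ) ≤ m := Nat.cast_nonneg m
  rw [← hj'] at h3
  push_cast at h3
  linarith

theorem Trip.surj [FiniteDimensional ℝ R] {e f h : R} (t : Trip e f h) {K : ℕ} (hK : e ^ K = 0)
    (hK' : f ^ K = 0) (m : ℕ) {x : R} (hx : h * x = ((m : ℝ) + 2) • x) :
    ∃ u', h * u' = (m : ℝ) • u' ∧ e * u' = x := by
  let E : Submodule ℝ R :=
    { carrier := {v | h * v = ((m : ℝ) + 2) • v}
      add_mem' := by
        intro a b ha hb
        simp only [Set.mem_ofPred_eq] at ha hb ⊢
        rw [mul_add, ha, hb, smul_add]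
      zero_mem' := by simp
      smul_mem' := by
        intro c a ha
        simp only [Set.mem_ofPred_eq] at ha ⊢
        rw [mul_smul_comm, ha, smul_comm] }
  have hE : ∀ v, v ∈ E ↔ h * v = ((m : ℝ) + 2) • v := fun v => Iff.rfl
  have hmaps : ∀ v ∈ E, LinearMap.mulLeft ℝ (e * f) v ∈ E := by
    intro v hv
    rw [hE] at hv ⊢
    rw [LinearMap.mulLeft_apply, mul_assoc]
    have h1 := t.hwf 1 hv
    rw [pow_one] at h1
    have h2 := t.hw 1 h1
    rw [pow_one] at h2
    rw [h2]; congr 1; push_cast; ring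
  let T : E →ₗ[ℝ] E := (LinearMap.mulLeft ℝ (e * f)).restrict hmaps
  have hTv : ∀ v : E, ((T v : E) : R) = e * (f * v) := fun v => by
    show (LinearMap.mulLeft ℝ (e * f)) v = _
    rw [LinearMap.mulLeft_apply, mul_assoc]
  have hinj : Function.Injective T := by
    rw [injective_iff_map_eq_zero]
    intro v hv
    apply Subtype.ext
    apply t.inj hK hK' m v.2
    rw [← hTv, hv]; rfl
  obtain ⟨v, hv⟩ := (LinearMap.injective_iff_surjective.1 hinj) ⟨x, hx⟩
  refine ⟨f * v, ?_, ?_⟩
  · have h1 := t.hwf 1 v.2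
    rw [pow_one] at h1
    rw [h1]; congr 1; push_cast; ring
  · rw [← hTv, hv]

/-- `h` is semisimple at the eigenvalue `m ≥ 0`. -/
theorem Trip.ss [FiniteDimensional ℝ R] {e f h : R} (t : Trip e f h) {K : ℕ} (hK : e ^ K = 0)
    (hK' : f ^ K = 0) (k : ℕ) :
    ∀ (m : ℕ) (v : R), e ^ k * v = 0 → h * (h * v - (m : ℝ) • v) = (m : ℝ) • (h * v - (m : ℝ) • v) →
      h * v - (m : ℝ) • v = 0 := by
  induction k with
  | zero =>
    intro m v hv _
    rw [pow_zero, one_mul] at hv
    rw [hv]; simp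
  | succ k ih =>
    intro m v hv hh
    have h1 : e ^ k * (e * v) = 0 := by rw [← mul_assoc, ← pow_succ]; exact hv
    have hhe : ∀ x : R, h * (e * x) = e * (h * x) + (2 : ℝ) • (e * x) := fun x => by
      rw [t.eh]; abel
    have h2 : h * (e * v) - ((m + 2 : ℕ) : ℝ) • (e * v) = e * (h * v - (m : ℝ) • v) := by
      rw [hhe, mul_sub, mul_smul_comm]; push_cast; module
    have h3 : h * (h * (e * v) - ((m + 2 : ℕ) : ℝ) • (e * v)) =
        ((m + 2 : ℕ) : ℝ) • (h * (e * v) - ((m + 2 : ℕ) : ℝ) • (e * v)) := by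
      rw [h2, hhe, hh, mul_smul_comm]; push_cast; module
    have h4 := ih (m + 2) (e * v) h1 h3
    have h5 : h * (e * v) = ((m : ℝ) + 2) • (e * v) := by
      rw [sub_eq_zero] at h4
      rw [h4]; push_cast; rfl
    obtain ⟨u', hu', hu''⟩ := t.surj hK hK' m h5
    have h6 : e * (v - u') = 0 := by rw [mul_sub, hu'', sub_self]
    have h7 : h * (v - u') - (m : ℝ) • (v - u') = h * v - (m : ℝ) • v := by
      rw [mul_sub, hu']; module
    exact t.kss hK m K 0 (v - u') (v - u') _ (by omega) h6 (by simp) h7 hh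

/-- `h` is semisimple at integral eigenvalues. -/
theorem Trip.ssz [FiniteDimensional ℝ R] {e f h : R} (t : Trip e f h) {K : ℕ} (hK : e ^ K = 0)
    (hK' : f ^ K = 0) (z : ℤ) (v : R)
    (hh : h * (h * v - (z : ℝ) • v) = (z : ℝ) • (h * v - (z : ℝ) • v)) :
    h * v - (z : ℝ) • v = 0 := by
  rcases Int.eq_nat_or_neg z with ⟨m, rfl | rfl⟩
  · have h1 : (((m : ℤ)) : ℝ) = (m : ℝ) := by norm_cast
    rw [h1] at hh ⊢
    exact t.ss hK hK' K m v (by rw [hK, zero_mul]) hh
  · have h1 : (((-(m : ℤ) : ℤ)) : ℝ) = -(m : ℝ) := by push_cast; rfl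
    rw [h1] at hh ⊢
    have h2 : -h * v - (m : ℝ) • v = -(h * v - (-(m : ℝ)) • v) := by rw [neg_mul]; module
    have h3 := t.mirror.ss hK' hK K m v (by rw [hK', zero_mul]) (by
      rw [h2, neg_mul, mul_neg, neg_neg, hh]; module)
    rw [h2, neg_eq_zero] at h3
    exact h3

/-- The product of `h - a` over a list of numbers. -/
noncomputable def P (h : R) (l : List ℝ) : R := (l.map (fun a => h - algebraMap ℝ R a)).prod

theorem P_append (h : R) (l l' : List ℝ) : P h (l ++ l') = P h l * P h l' := by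
  simp [P]

theorem Trip.kerlist {e f h : R} (t : Trip e f h) {K : ℕ} (hK : e ^ K = 0) (d : ℕ) :
    ∀ k : ℕ, K ≤ k + d → ∃ l : List ℝ, (∀ a ∈ l, ∃ z : ℤ, a = z) ∧
      ∀ y u : R, e * y = 0 → y = e ^ k * u → P h l * y = 0 := by
  induction d with
  | zero =>
    intro k hk
    refine ⟨[], by simp, fun y u _ hu => ?_⟩
    rw [hu, pow_eq_zero_of_le (by omega) hK, zero_mul, mul_zero]
  | succ d ih =>
    intro k hk
    obtain ⟨l, hl, hl'⟩ := ih (k + 1) (by omega)
    refine ⟨l ++ [(k : ℝ)], ?_, ?_⟩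
    · intro a ha
      rw [List.mem_append, List.mem_singleton] at ha
      rcases ha with ha | ha
      · exact hl a ha
      · exact ⟨k, by rw [ha]; norm_cast⟩
    · intro y u hy hu
      obtain ⟨h1, u', hu'⟩ := t.step k hy hu
      have h2 : P h [(k : ℝ)] * y = h * y - (k : ℝ) • y := by
        simp only [P, List.map_cons, List.map_nil, List.prod_cons, List.prod_nil, mul_one]
        rw [sub_mul, Algebra.smul_def]
      rw [P_append, mul_assoc, h2]
      exact hl' _ u' h1 hu'

theorem Trip.shift {e f h : R} (t : Trip e f h) (l : List ℝ) :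
    e * P h (l.map (fun a => a - 2)) = P h l * e := by
  induction l with
  | nil => simp [P]
  | cons a l ih =>
    have h1 : P h (a :: l) = (h - algebraMap ℝ R a) * P h l := by simp [P]
    have h2 : P h ((a :: l).map (fun a => a - 2)) =
        (h - algebraMap ℝ R (a - 2)) * P h (l.map (fun a => a - 2)) := by simp [P]
    have h3 : e * (h - algebraMap ℝ R (a - 2)) = (h - algebraMap ℝ R a) * e := by
      have h4 : h * e = e * h + (2 : ℝ) • e := t.he'
      have h5 : e * algebraMap ℝ R (a - 2) = a • e - (2 : ℝ) • e := by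
        rw [← Algebra.commutes, ← Algebra.smul_def, sub_smul]
      rw [mul_sub, h5, sub_mul, h4, ← Algebra.smul_def]; abel
    rw [h1, h2, ← mul_assoc, h3, mul_assoc, ih, mul_assoc]

theorem Trip.alllist {e f h : R} (t : Trip e f h) {K : ℕ} (hK : e ^ K = 0) (k : ℕ) :
    ∃ l : List ℝ, (∀ a ∈ l, ∃ z : ℤ, a = z) ∧ ∀ v : R, e ^ k * v = 0 → P h l * v = 0 := by
  induction k with
  | zero =>
    refine ⟨[], by simp, fun v hv => ?_⟩
    rw [pow_zero, one_mul] at hv
    rw [hv, mul_zero]
  | succ k ih =>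
    obtain ⟨l, hl, hl'⟩ := ih
    obtain ⟨l0, hl0, hl0'⟩ := t.kerlist hK K 0 (by omega)
    refine ⟨l0 ++ l.map (fun a => a - 2), ?_, ?_⟩
    · intro a ha
      rw [List.mem_append, List.mem_map] at ha
      rcases ha with ha | ⟨b, hb, rfl⟩
      · exact hl0 a ha
      · obtain ⟨z, rfl⟩ := hl b hb
        exact ⟨z - 2, by push_cast; ring⟩
    · intro v hv
      rw [P_append, mul_assoc]
      refine hl0' _ (P h (l.map (fun a => a - 2)) * v) ?_ (by simp)
      rw [← mul_assoc, t.shift, mul_assoc]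
      apply hl'
      rw [← mul_assoc, ← pow_succ]
      exact hv

open Polynomial in
theorem P_eq (h : R) (l : List ℝ) : P h l = aeval h ((l.map (fun a => (X - C a : ℝ[X]))).prod) := by
  induction l with
  | nil => simp [P]
  | cons a l ih =>
    have h1 : P h (a :: l) = (h - algebraMap ℝ R a) * P h l := by simp [P]
    rw [h1, ih]
    simp

open Polynomial in
/-- Removing repeated factors. -/
theorem dedup {h : R} (l : List ℝ)
    (hss : ∀ a ∈ l, ∀ v : R, h * (h * v - a • v) = a • (h * v - a • v) → h * v - a • v = 0) :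
    ∀ v : R, aeval h ((l.map (fun a => (X - C a : ℝ[X]))).prod) * v = 0 →
      aeval h (∏ c ∈ l.toFinset, (X - C c : ℝ[X])) * v = 0 := by
  induction l with
  | nil => intro v hv; simpa using hv
  | cons a l ih =>
    intro v hv
    have hxa : ∀ x : R, aeval h (X - C a : ℝ[X]) * x = h * x - a • x := fun x => by
      rw [map_sub, aeval_X, aeval_C, sub_mul, Algebra.smul_def]
    have h1 : aeval h ((l.map (fun a => (X - C a : ℝ[X]))).prod) *
        (aeval h (X - C a : ℝ[X]) * v) = 0 := by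
      rw [← mul_assoc, ← map_mul, mul_comm]
      rw [List.map_cons, List.prod_cons] at hv
      exact hv
    have h2 := ih (fun b hb => hss b (List.mem_cons_of_mem _ hb)) _ h1
    rw [List.toFinset_cons]
    by_cases ha : a ∈ l.toFinset
    · rw [Finset.insert_eq_self.2 ha]
      have h3 : (∏ c ∈ l.toFinset, (X - C c : ℝ[X])) =
          (X - C a) * ∏ c ∈ l.toFinset.erase a, (X - C c : ℝ[X]) :=
        (Finset.mul_prod_erase _ _ ha).symm
      rw [h3] at h2 ⊢
      set q : ℝ[X] := ∏ c ∈ l.toFinset.erase a, (X - C c : ℝ[X]) with hq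
      have h4 : aeval h ((X - C a) * q) * v = h * (aeval h q * v) - a • (aeval h q * v) := by
        rw [map_mul, mul_assoc, hxa]
      have h5 : aeval h ((X - C a) * q) * (aeval h (X - C a : ℝ[X]) * v) =
          aeval h (X - C a : ℝ[X]) * (aeval h (X - C a : ℝ[X]) * (aeval h q * v)) := by
        rw [← mul_assoc, ← mul_assoc, ← mul_assoc, ← map_mul, ← map_mul, ← map_mul]
        congr 2
        ring
      rw [h5, hxa (aeval h q * v), hxa, sub_eq_zero] at h2
      rw [h4]
      exact hss a List.mem_cons_self _ h2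
    · rw [Finset.prod_insert ha, mul_comm, map_mul, mul_assoc]
      exact h2

end sl2_diagonalizable

theorem T_sl2_diagonalizable (hA1 : S_diagonalizable_iff) : S_sl2_diagonalizable := by
  intro N e f h hef hhe hhf
  have t : sl2_diagonalizable.Trip e f h := ⟨hef, hhe, hhf⟩
  obtain ⟨K1, hK1⟩ := t.nil
  obtain ⟨K2, hK2⟩ := t.mirror.nil
  have hK : e ^ (max K1 K2) = 0 := pow_eq_zero_of_le (le_max_left _ _) hK1
  have hK' : f ^ (max K1 K2) = 0 := pow_eq_zero_of_le (le_max_right _ _) hK2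
  obtain ⟨l, hl, hl'⟩ := t.alllist hK (max K1 K2)
  have h1 := hl' 1 (by rw [hK, zero_mul])
  rw [sl2_diagonalizable.P_eq] at h1
  have h2 := sl2_diagonalizable.dedup l (fun a ha v hv => by
    obtain ⟨z, rfl⟩ := hl a ha
    exact t.ssz hK hK' z v hv) 1 h1
  rw [mul_one] at h2
  exact (hA1 (K := ℝ)).2 ⟨l.toFinset, h2⟩

end Pool.Agent.Helper654_DO
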