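import Pool.Agent.Helper654_DO.T_simdiag

/-!
# Sums of commuting split spaces
-/

set_option autoImplicit false

open Matrix Module

namespace Pool.Agent.Helper654_DO

open simdiag

theorem T_split_sup : S_split_sup := by
  intro K _ N a b ha hb hab
  obtain ⟨P, hP⟩ := simdiag_set ((a : Set (Matrix (Fin N) (Fin N) K)) ∪ b)
    (by
      rintro x (hx | hx) y (hy | hy)
      · exact ha.comm x hx y hy
      · exact hab x hx y hy
      · exact (hab y hy x hx).symm
      · exact hb.comm x hx y hy)
    (by
      rintro x (hx | hx)
      · exact ha.diag x hx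
      · exact hb.diag x hx)
  refine isSplit_conjDiag P (sup_le ?_ ?_)
  · intro x hx
    exact hP x (Or.inl hx)
  · intro x hx
    exact hP x (Or.inr hx)

end Pool.Agent.Helper654_DO
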