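import Pool.Agent.Helper654_DO.Stmts

/-!
# C1: if `A` is nilpotent and commutes with `[A, B]` then `tr (A B) = 0`
-/

set_option autoImplicit false

open Matrix Module Filter Topology

namespace Pool.Agent.Helper654_DO

namespace trace_eq_zero_of_comm

variable {R : Type*} [Ring R] [Algebra ℝ R]

/-- The bracket with `A`, iterated: a Leibniz rule. -/
theorem leib {A B C : R} (hC : A * B - B * A = C) (hAC : A * C = C * A)
    (D : R → R) (hD : ∀ X, D X = A * X - X * A) (m : ℕ) (X : R) :
    D^[m + 1] (X * B) = D^[m + 1] X * B + ((m : ℝ) + 1) • (D^[m] X * C) := by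
  have hadd : ∀ X Y, D (X + Y) = D X + D Y := fun X Y => by
    rw [hD, hD, hD, mul_add, add_mul]; abel
  have hsm : ∀ (t : ℝ) X, D (t • X) = t • D X := fun t X => by
    rw [hD, hD, mul_smul_comm, smul_mul_assoc, smul_sub]
  have hB : ∀ X, D (X * B) = D X * B + X * C := fun X => by
    rw [hD, hD, ← hC]; noncomm_ring
  have hCm : ∀ X, D (X * C) = D X * C := fun X => by
    rw [hD, hD, sub_mul, mul_assoc X C A, ← hAC]; noncomm_ring
  induction m with
  | zero =>
    simp only [Function.iterate_succ, Function.iterate_zero, Function.comp_apply, id_eq]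
    rw [hB]
    simp
  | succ m ih =>
    rw [Function.iterate_succ_apply' D (m + 1) (X * B), ih, hadd, hsm, hB, hCm,
      ← Function.iterate_succ_apply' D, ← Function.iterate_succ_apply' D m X]
    push_cast
    module

theorem pow_comm {A B C : R} (hC : A * B - B * A = C) (hAC : A * C = C * A) (n : ℕ) :
    A ^ n * B = B * A ^ n + (n : ℝ) • (C * A ^ (n - 1)) := by
  induction n with
  | zero => simp
  | succ n ih =>
    have h1 : A * B = B * A + C := by rw [← hC]; abel
    have h2 : (n : ℝ) • (C * A ^ (n - 1)) * A = (n : ℝ) • (C * A ^ n) := by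
      rcases Nat.eq_zero_or_pos n with h | h
      · subst h; simp
      · obtain ⟨k, rfl⟩ : ∃ k, n = k + 1 := ⟨n - 1, by omega⟩
        rw [smul_mul_assoc, mul_assoc, Nat.add_sub_cancel, pow_succ]
    have h3 : Commute A C := hAC
    calc A ^ (n + 1) * B = A ^ n * (A * B) := by rw [pow_succ, mul_assoc]
      _ = A ^ n * B * A + A ^ n * C := by rw [h1]; noncomm_ring
      _ = B * A ^ (n + 1) + ((n + 1 : ℕ) : ℝ) • (C * A ^ (n + 1 - 1)) := by
          rw [ih, add_mul, h2, (h3.pow_left n).eq, Nat.add_sub_cancel, pow_succ, mul_assoc]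
          push_cast
          module

/-- `C` is nilpotent. -/
theorem nilC {A B C : R} (hA : IsNilpotent A) (hC : A * B - B * A = C) (hAC : A * C = C * A) :
    IsNilpotent C := by
  have hl : IsNilpotent (LinearMap.mulLeft ℝ A) := by rwa [LinearMap.isNilpotent_mulLeft_iff]
  have hr : IsNilpotent (LinearMap.mulRight ℝ A) := by rwa [LinearMap.isNilpotent_mulRight_iff]
  obtain ⟨n, hn⟩ := (LinearMap.commute_mulLeft_right A A).isNilpotent_sub hl hr
  have hD : ∀ X, (LinearMap.mulLeft ℝ A - LinearMap.mulRight ℝ A) X = A * X - X * A := fun X => by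
    rw [LinearMap.sub_apply, LinearMap.mulLeft_apply, LinearMap.mulRight_apply]
  have key : ∀ k : ℕ, (⇑(LinearMap.mulLeft ℝ A - LinearMap.mulRight ℝ A))^[k] (B ^ k) =
      (k.factorial : ℝ) • C ^ k := by
    intro k
    induction k with
    | zero => simp
    | succ k ih =>
      rw [pow_succ, leib hC hAC _ hD, Function.iterate_succ_apply', ih, hD]
      have h3 : Commute A C := hAC
      rw [mul_smul_comm, smul_mul_assoc, (h3.pow_right k).eq, sub_self, zero_mul, zero_add,
        smul_mul_assoc, smul_smul, ← pow_succ, Nat.factorial_succ]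
      push_cast
      rfl
  refine ⟨n, ?_⟩
  have h1 := key n
  rw [← Module.End.pow_apply, hn, LinearMap.zero_apply] at h1
  have h2 : ((n.factorial : ℕ) : ℝ) ≠ 0 := by exact_mod_cast Nat.factorial_ne_zero n
  exact (smul_eq_zero.1 h1.symm).resolve_left h2

theorem nilAB {A B C : R} (hA : IsNilpotent A) (hC : A * B - B * A = C) (hAC : A * C = C * A) :
    IsNilpotent (A * B) := by
  obtain ⟨n, hn⟩ := nilC hA hC hAC
  obtain ⟨r, hr⟩ := hA
  have h3 : Commute A C := hAC
  -- on the kernel of `A ^ (i + 1)`
  have step : ∀ (i : ℕ) (Y : R), A ^ (i + 1) * Y = 0 → ∀ k : ℕ,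
      A ^ (i + 1) * ((A * B) ^ k * Y) = 0 ∧
      A ^ i * ((A * B) ^ k * Y) = ((i : ℝ) + 1) ^ k • (C ^ k * (A ^ i * Y)) := by
    intro i Y hY k
    induction k with
    | zero => simp [hY]
    | succ k ih =>
      obtain ⟨h4, h5⟩ := ih
      set Z := (A * B) ^ k * Y with hZ
      have h6 : (A * B) ^ (k + 1) * Y = A * (B * Z) := by
        rw [hZ, pow_succ']; noncomm_ring
      rw [h6]
      constructor
      · have h7 : A ^ (i + 1) * (A * (B * Z)) = (A ^ (i + 1 + 1) * B) * Z := by
          rw [pow_succ A (i + 1)]; noncomm_ring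
        rw [h7, pow_comm hC hAC, add_mul, mul_assoc, pow_succ' A (i + 1), mul_assoc A, h4,
          Nat.add_sub_cancel, smul_mul_assoc, mul_assoc, h4]
        simp
      · have h7 : A ^ i * (A * (B * Z)) = (A ^ (i + 1) * B) * Z := by
          rw [pow_succ A i]; noncomm_ring
        rw [h7, pow_comm hC hAC, add_mul, mul_assoc, h4, Nat.add_sub_cancel, smul_mul_assoc,
          mul_assoc, h5, mul_smul_comm, smul_smul, ← mul_assoc, ← mul_assoc, ← pow_succ',
          mul_zero, zero_add, pow_succ' ((i : ℝ) + 1) k]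
        push_cast
        rw [mul_assoc]
  have fin : ∀ (i : ℕ) (Y : R), A ^ i * Y = 0 → (A * B) ^ (n * i) * Y = 0 := by
    intro i
    induction i with
    | zero => intro Y hY; simpa using hY
    | succ i ih =>
      intro Y hY
      have h4 := (step i Y hY n).2
      rw [hn, zero_mul, smul_zero] at h4
      have h5 := ih _ h4
      rw [← mul_assoc, ← pow_add] at h5
      have h6 : n * i + n = n * (i + 1) := by ring
      rwa [h6] at h5
  refine ⟨n * r, ?_⟩
  have h4 := fin r 1 (by rw [hr, zero_mul])
  rwa [mul_one] at h4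

end trace_eq_zero_of_comm

theorem T_trace_eq_zero_of_comm : S_trace_eq_zero_of_comm := by
  intro N A B hA h
  have h1 := trace_eq_zero_of_comm.nilAB hA rfl h
  exact (Matrix.isNilpotent_trace_of_isNilpotent h1).eq_zero

end Pool.Agent.Helper654_DO
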