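import Pool.Agent.Helper654_DO.Stmts

/-! # A4: weight decomposition -/

set_option autoImplicit false

open Matrix Module Filter Topology

namespace Pool.Agent.Helper654_DO

namespace weights

variable {K : Type} [Field K] {N : ℕ}

/-- the components of an element of an invariant subspace lie in the subspace -/
theorem mem_of_sum_mem {a g : Submodule K (Matrix (Fin N) (Fin N) K)}
    (hg : ∀ x ∈ a, ∀ y ∈ g, x * y - y * x ∈ g) (S : Finset (Module.Dual K a)) :
    ∀ c : Module.Dual K a → Matrix (Fin N) (Fin N) K,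
      (∀ β ∈ S, ∀ x : a, (x : Matrix (Fin N) (Fin N) K) * c β -
        c β * (x : Matrix (Fin N) (Fin N) K) = β x • c β) →
      ∑ β ∈ S, c β ∈ g → ∀ β ∈ S, c β ∈ g := by
  classical
  induction S using Finset.induction_on with
  | empty => intro c _ _ β hβ; simp at hβ
  | insert β₀ S hS ih =>
    intro c hc hsum
    have hS' : ∀ β ∈ S, c β ∈ g := by
      intro β hβ
      have hne : β ≠ β₀ := fun h => hS (h ▸ hβ)
      obtain ⟨x, hx⟩ : ∃ x : a, β x ≠ β₀ x := by
        by_contra hcon
        push Not at hcon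
        exact hne (LinearMap.ext hcon)
      have h1 := hg x x.2 _ hsum
      have h2 := g.sub_mem h1 (g.smul_mem (β₀ x) hsum)
      have h3 : (x : Matrix (Fin N) (Fin N) K) * ∑ β ∈ insert β₀ S, c β -
          (∑ β ∈ insert β₀ S, c β) * (x : Matrix (Fin N) (Fin N) K) -
          β₀ x • ∑ β ∈ insert β₀ S, c β = ∑ β ∈ S, (β x - β₀ x) • c β := by
        rw [Finset.mul_sum, Finset.sum_mul, ← Finset.sum_sub_distrib,
          Finset.sum_congr rfl fun β hβ => hc β hβ x, Finset.smul_sum, ← Finset.sum_sub_distrib,
          Finset.sum_insert hS, sub_self, zero_add]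
        exact Finset.sum_congr rfl fun β _ => (sub_smul _ _ _).symm
      rw [h3] at h2
      have h4 := ih (fun β => (β x - β₀ x) • c β) (fun γ hγ z => by
        rw [Matrix.mul_smul, Matrix.smul_mul, ← smul_sub,
          hc γ (Finset.mem_insert_of_mem hγ) z, smul_comm]) h2 β hβ
      have h5 := g.smul_mem (β x - β₀ x)⁻¹ h4
      rwa [smul_smul, inv_mul_cancel₀ (sub_ne_zero.2 hx), one_smul] at h5
    intro β hβ
    rcases Finset.mem_insert.1 hβ with rfl | hβ
    · rw [Finset.sum_insert hS] at hsum
      have := g.sub_mem hsum (g.sum_mem hS')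
      rwa [add_sub_cancel_right] at this
    · exact hS' β hβ

end weights

theorem T_weights (hA2 : S_simdiag) : S_weights := by
  intro K _ _ N a ha g hg y hy
  classical
  obtain ⟨P, μ, hP⟩ := hA2 ha
  set Q : Matrix (Fin N) (Fin N) K := ((P⁻¹ : GL (Fin N) K) : Matrix (Fin N) (Fin N) K) with hQ
  have hPQ : (P : Matrix (Fin N) (Fin N) K) * Q = 1 := by
    rw [hQ, ← Units.val_mul, mul_inv_cancel, Units.val_one]
  have hQP : Q * (P : Matrix (Fin N) (Fin N) K) = 1 := by
    rw [hQ, ← Units.val_mul, inv_mul_cancel, Units.val_one]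
  set Y : Matrix (Fin N) (Fin N) K := Q * y * P with hY
  let Z : Module.Dual K a → Matrix (Fin N) (Fin N) K := fun β =>
    Matrix.of fun i j => if μ i - μ j = β then Y i j else 0
  let S : Finset (Module.Dual K a) :=
    Finset.univ.image fun p : Fin N × Fin N => μ p.1 - μ p.2
  let c : Module.Dual K a → Matrix (Fin N) (Fin N) K := fun β => P * Z β * Q
  have hsum : y = ∑ β ∈ S, c β := by
    have h1 : ∑ β ∈ S, Z β = Y := by
      ext i j
      rw [Matrix.sum_apply]
      change ∑ β ∈ S, (if μ i - μ j = β then Y i j else 0) = Y i j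
      rw [Finset.sum_ite_eq, if_pos]
      exact Finset.mem_image.2 ⟨(i, j), Finset.mem_univ _, rfl⟩
    have h2 : ∑ β ∈ S, c β = P * Y * Q := by
      rw [← h1, Finset.mul_sum, Finset.sum_mul]
    rw [h2, hY]
    calc y = (P * Q) * y * (P * Q) := by rw [hPQ, Matrix.one_mul, Matrix.mul_one]
      _ = _ := by simp only [Matrix.mul_assoc]
  have hw : ∀ β, ∀ x : a, (x : Matrix (Fin N) (Fin N) K) * c β -
        c β * (x : Matrix (Fin N) (Fin N) K) = β x • c β := by
    intro β x
    have hD : (diagonal fun i => μ i x) * Z β - Z β * (diagonal fun i => μ i x) = β x • Z β := by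
      ext i j
      rw [Matrix.sub_apply, Matrix.diagonal_mul, Matrix.mul_diagonal, Matrix.smul_apply]
      change μ i x * (if μ i - μ j = β then Y i j else 0) -
        (if μ i - μ j = β then Y i j else 0) * μ j x = β x • (if μ i - μ j = β then Y i j else 0)
      split_ifs with h
      · rw [← h, LinearMap.sub_apply, smul_eq_mul]; ring
      · simp
    rw [hP x]
    calc (P : Matrix (Fin N) (Fin N) K) * diagonal (fun i => μ i x) * Q * (P * Z β * Q) -
          P * Z β * Q * (P * diagonal (fun i => μ i x) * Q)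
        = P * diagonal (fun i => μ i x) * (Q * P) * Z β * Q -
          P * Z β * (Q * P) * diagonal (fun i => μ i x) * Q := by
          simp only [Matrix.mul_assoc]
      _ = P * ((diagonal fun i => μ i x) * Z β - Z β * (diagonal fun i => μ i x)) * Q := by
          rw [hQP, Matrix.mul_one, Matrix.mul_one, Matrix.mul_sub, Matrix.sub_mul]
          simp only [Matrix.mul_assoc]
      _ = β x • (P * Z β * Q) := by
          rw [hD, Matrix.mul_smul, Matrix.smul_mul]
  refine ⟨S, c, hsum, fun β hβ => ⟨?_, hw β⟩⟩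
  exact weights.mem_of_sum_mem hg S c (fun β _ => hw β) (hsum ▸ hy) β hβ

end Pool.Agent.Helper654_DO
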