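import Pool.Agent.Helper654_DO.Final
import Pool.Agent.Helper654_DO.T_conj_levi
import Pool.Agent.Helper654_DO.T_conj_pos
import Pool.Agent.Helper654_DO.T_conj_split
import Pool.Agent.Helper654_DO.T_core
import Pool.Agent.Helper654_DO.T_cover
import Pool.Agent.Helper654_DO.T_diagonalizable_iff
import Pool.Agent.Helper654_DO.T_divergence
import Pool.Agent.Helper654_DO.T_exists_mem_nonnegSp
import Pool.Agent.Helper654_DO.T_exists_regular
import Pool.Agent.Helper654_DO.T_expGroup_normalizes
import Pool.Agent.Helper654_DO.T_faithful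
import Pool.Agent.Helper654_DO.T_generation
import Pool.Agent.Helper654_DO.T_jacobson_morozov
import Pool.Agent.Helper654_DO.T_locallyCompact
import Pool.Agent.Helper654_DO.T_no_nilpotent
import Pool.Agent.Helper654_DO.T_position
import Pool.Agent.Helper654_DO.T_realSpan_lie
import Pool.Agent.Helper654_DO.T_realSpan_nondeg
import Pool.Agent.Helper654_DO.T_realSpan_perfect
import Pool.Agent.Helper654_DO.T_realSpan_slice
import Pool.Agent.Helper654_DO.T_reflection
import Pool.Agent.Helper654_DO.T_rep_closed
import Pool.Agent.Helper654_DO.T_rep_escape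
import Pool.Agent.Helper654_DO.T_rep_finite
import Pool.Agent.Helper654_DO.T_rep_subseq
import Pool.Agent.Helper654_DO.T_root_triple
import Pool.Agent.Helper654_DO.T_simdiag
import Pool.Agent.Helper654_DO.T_sl2_diagonalizable
import Pool.Agent.Helper654_DO.T_split_sup
import Pool.Agent.Helper654_DO.T_trace_eq_zero_of_comm
import Pool.Agent.Helper654_DO.T_weights

/-!
# All the pieces together
-/

set_option autoImplicit false

open Matrix Module Filter Topology

namespace Pool.Agent.Helper654_DO

/-- The main theorem: non-obvious divergent orbits. -/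
theorem exists_divergent_not_obvious
    {N : ℕ} (H : QGroup N) (hL : IsSimpleLie H.lieQ) (Γ : Subgroup H.G)
    (hΓ : Γ.Commensurable H.intPoints) (a : Submodule ℝ (Mat N)) (ha : IsMaxSplit H.lieR a)
    (d : Submodule ℝ (Mat N)) (hda : d ≤ a) (hd0 : 0 < finrank ℝ d)
    (hd1 : finrank ℝ d < H.rankQ) :
    ∃ x : H.G ⧸ Γ, QGroup.Divergent Γ (hda.trans ha.le) x ∧
      ¬ QGroup.Obvious Γ (hda.trans ha.le) x := by
  have A1 : S_diagonalizable_iff := T_diagonalizable_iff
  have A2 : S_simdiag := T_simdiag
  have A3 : S_split_sup := T_split_sup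
  have A4 : S_weights := T_weights A2
  have A5 : S_exists_regular := T_exists_regular
  have B1 : S_realSpan_lie := T_realSpan_lie
  have B2 : S_realSpan_perfect := T_realSpan_perfect
  have B4 : S_realSpan_slice := T_realSpan_slice
  have B3 : S_realSpan_nondeg := T_realSpan_nondeg B4
  have C1 : S_trace_eq_zero_of_comm := T_trace_eq_zero_of_comm
  have C2 : S_jacobson_morozov := T_jacobson_morozov C1
  have C3 : S_sl2_diagonalizable := T_sl2_diagonalizable A1
  have D1 : S_no_nilpotent := T_no_nilpotent A3 A4 C2 C3
  have D2 : S_root_triple := T_root_triple A3 A4 C2 C3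
  have D3 : S_reflection := T_reflection
  have D4 : S_expGroup_normalizes := T_expGroup_normalizes
  have E1 : S_exists_mem_nonnegSp := T_exists_mem_nonnegSp A4 D1
  have E2 : S_conj_pos := T_conj_pos
  have E3 : S_conj_levi := T_conj_levi A1
  have E4 : S_conj_split := T_conj_split A3 A4 A5 D4 E1 E2 E3
  have F1 : S_faithful := T_faithful A2 B4
  exact main_of_pieces A2 B1 B2 B3 D4 E4
    (T_position A4 B1 B3 D2 D3 F1) (T_generation A4 F1) (T_cover A2) T_core T_divergence
    T_locallyCompact T_rep_closed T_rep_finite T_rep_escape T_rep_subseq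
    H hL Γ hΓ a ha d hda hd0 hd1

end Pool.Agent.Helper654_DO
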