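import Pool.Agent.Helper654_DO.GenSum

/-!
# The theorem for semisimple groups, given the pieces
-/

set_option autoImplicit false

open Matrix Module Filter Topology

namespace Pool.Agent.Helper654_DO

theorem exists_split_rankLie {N : ℕ} (L : Submodule ℚ (MatQ N)) :
    ∃ s : Submodule ℚ (MatQ N), s ≤ L ∧ IsSplit s ∧ finrank ℚ s = rankLie L := by
  have hmem : rankLie L ∈ {r | ∃ s : Submodule ℚ (MatQ N), s ≤ L ∧ IsSplit s ∧ finrank ℚ s = r} := by
    apply Nat.sSup_mem
    · refine ⟨finrank ℚ (⊥ : Submodule ℚ (MatQ N)), ⊥, bot_le, ⟨?_, ?_⟩, rfl⟩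
      · intro x hx y hy
        rw [Submodule.mem_bot] at hx hy
        rw [hx, hy]
      · intro x hx
        rw [Submodule.mem_bot] at hx
        exact ⟨1, 0, by simp [hx]⟩
    · refine ⟨finrank ℚ (MatQ N), ?_⟩
      rintro _ ⟨s, _, _, rfl⟩
      exact Submodule.finrank_le s
  exact hmem

theorem main_sum (hsim : S_simdiag) (hlie : S_realSpan_lie) (hperf : S_realSpan_perfect)
    (hconj : S_conj_split) (hpos : S_position) (hgen : S_generation)
    (hproj : S_proj) (hmax : S_maxsplit_sum) (hsup : S_iSup_split)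
    (hex : S_exists_maxsplit) (hndsum : S_nondeg_sum)
    (hcover : S_cover) (hcore : S_core)
    (hdiv : S_divergence) (hlc : S_locallyCompact) (hclosed : S_rep_closed)
    (hfinite : S_rep_finite) (hescape : S_rep_escape_sub) (hsubseq : S_rep_subseq)
    {N : ℕ} {ι : Type} [Fintype ι] (H : QGroup N) (I : ι → Submodule ℚ (MatQ N))
    (hL : IsSumOfSimple H.lieQ I) (Γ : Subgroup H.G) (hΓ : Γ.Commensurable H.intPoints)
    (d : Submodule ℝ (Mat N)) (hd : d ≤ H.lieR) (hd' : IsSplit d) (hd0 : 0 < finrank ℝ d)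
    (c1 : ∀ k, finrank ℝ d ≤
      finrank ℝ (d ⊓ realSpan (⨆ j : {j : ι // j ≠ k}, I j.1) : Submodule ℝ (Mat N)) + rankLie (I k))
    (c2 : ∀ k, rankLie (I k) ≠ 0 →
      finrank ℝ (d ⊓ realSpan (I k) : Submodule ℝ (Mat N)) < rankLie (I k)) :
    ∃ x : H.G ⧸ Γ, QGroup.Divergent Γ hd x ∧ ¬ QGroup.Obvious Γ hd x := by
  classical
  let κ : Type := {k : ι // rankLie (I k) ≠ 0}
  let I' : κ → Submodule ℚ (MatQ N) := fun k => I k.1
  set L₀ : Submodule ℚ (MatQ N) := ⨆ k, I' k with hL₀def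
  have hL' : IsSumOfSimple L₀ I' :=
    { simple := fun k => hL.simple k.1
      comm := fun j k hjk => hL.comm j.1 k.1 (fun h => hjk (Subtype.ext h))
      sum := rfl }
  have hL₀ : L₀ ≤ H.lieQ := by
    rw [hL.sum]
    exact iSup_le fun k => le_iSup I k.1
  obtain ⟨π, hπ1, hπ2, hπ3, hπ4, hπ5, hπ6, hπ7, hπ8⟩ := hproj hL
  -- `d` has no component in the factors of rank zero
  have haniso : ∀ k, rankLie (I k) = 0 → ∀ y ∈ d, π k y = 0 := by
    intro k hk y hy
    have h1 := c1 k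
    rw [hk, add_zero] at h1
    have h2 : (d ⊓ realSpan (⨆ j : {j : ι // j ≠ k}, I j.1) : Submodule ℝ (Mat N)) = d :=
      Submodule.eq_of_le_of_finrank_le inf_le_left h1
    have h3 : y ∈ (d ⊓ realSpan (⨆ j : {j : ι // j ≠ k}, I j.1) : Submodule ℝ (Mat N)) := by
      rw [h2]; exact hy
    exact (hπ6 k y (hd hy)).mpr h3.2
  have hdL₀ : d ≤ realSpan L₀ := by
    intro y hy
    rw [hπ3 y (hd hy)]
    refine Submodule.sum_mem _ fun k _ => ?_
    by_cases hk : rankLie (I k) = 0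
    · rw [haniso k hk y hy]
      exact Submodule.zero_mem _
    · exact realSpan_mono (le_iSup I' ⟨k, hk⟩) (hπ1 k y (hd hy))
  -- the split spaces
  have h1 : ∀ k : κ, ∃ s : Submodule ℚ (MatQ N), s ≤ I' k ∧ IsSplit s ∧ finrank ℚ s = rankLie (I' k) :=
    fun k => exists_split_rankLie (I' k)
  choose s hs hs' hsr using h1
  have hs0 : ∀ k, s k ≠ ⊥ := by
    intro k h
    have h2 := hsr k
    rw [h, finrank_bot] at h2
    exact k.2 h2.symm
  have hS : IsSplit (⨆ k, s k) := by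
    apply hsup hs'
    intro j k hjk x hx y hy
    exact hL'.comm j k hjk x (hs j hx) y (hs k hy)
  have hc1 : ∀ k : κ, finrank ℝ d ≤
      finrank ℝ (d ⊓ realSpan (⨆ j : {j // j ≠ k}, I' j) : Submodule ℝ (Mat N)) + finrank ℚ (s k) := by
    intro k
    rw [hsr k]
    refine (c1 k.1).trans (Nat.add_le_add_right ?_ _)
    apply Submodule.finrank_mono
    rintro y ⟨hy, hy'⟩
    refine ⟨hy, ?_⟩
    have h2 : π k.1 y = 0 := (hπ6 k.1 y (hd hy)).mpr hy'
    rw [hπ3 y (hd hy)]
    refine Submodule.sum_mem _ fun j _ => ?_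
    by_cases hj : rankLie (I j) = 0
    · rw [haniso j hj y hy]
      exact Submodule.zero_mem _
    · by_cases hjk : j = k.1
      · rw [hjk, h2]
        exact Submodule.zero_mem _
      · have h3 : (⟨j, hj⟩ : κ) ≠ k := fun h => hjk (congrArg Subtype.val h)
        exact realSpan_mono (le_iSup (fun i : {i : κ // i ≠ k} => I' i.1) ⟨⟨j, hj⟩, h3⟩)
          (hπ1 j y (hd hy))
  obtain ⟨v, hv, hvL, hvs, hvk, hvinj⟩ := position_sum hsim hlie hconj hpos hproj hmax hex hndsum
    hL' hs hs' hs0 hdL₀ hd' hc1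
  refine main_abs hcover hcore hdiv hlc hclosed hfinite hescape hsubseq H Γ hΓ L₀ hL₀
    (hL'.perfect hperf) (⨆ k, s k) hS d hd hd'.diag hd0 v hv hvL hvs hvinj ?_ ?_
  · intro M hM hmoves
    refine generation_sum hgen hL' hs hs' hvk ?_ M hM hmoves
    intro k
    rw [hsr k]
    exact c2 k.1 k.2
  · intro h
    have h2 : d = ⊥ := by
      rw [eq_bot_iff]
      intro y hy
      have h3 := hdL₀ hy
      rw [h] at h3
      have h4 : realSpan (⊥ : Submodule ℚ (MatQ N)) = ⊥ := by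
        rw [eq_bot_iff]
        apply Submodule.span_le.mpr
        rintro _ ⟨x, hx, rfl⟩
        rw [SetLike.mem_coe, Submodule.mem_bot] at hx
        rw [hx, toR_zero]
        exact Submodule.zero_mem _
      rwa [h4] at h3
    rw [h2, finrank_bot] at hd0
    exact lt_irrefl _ hd0

end Pool.Agent.Helper654_DO
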