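import Pool.Agent.Helper654_DO.Defs

/-!
# Semisimple Lie algebras of rational matrices
-/

set_option autoImplicit false

open Matrix Module Filter Topology

namespace Pool.Agent.Helper654_DO

/-- The space of rational matrices `L` is a semisimple Lie algebra over `ℚ` with the simple ideals
`I k`: every `I k` is a simple Lie algebra, the elements of different `I k` commute, and `L` is the sum
of the `I k`. If `L` is the rational Lie algebra of `G`, then `G` is up to isogeny the product of the
`ℚ`-simple factors `G_k` with the Lie algebras `I k`. -/
structure IsSumOfSimple {N : ℕ} {ι : Type} (L : Submodule ℚ (MatQ N))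
    (I : ι → Submodule ℚ (MatQ N)) : Prop where
  simple : ∀ k, IsSimpleLie (I k)
  comm : ∀ j k, j ≠ k → ∀ x ∈ I j, ∀ y ∈ I k, x * y = y * x
  sum : L = ⨆ k, I k

/-- The `ℚ`-rank of a space of rational matrices: the largest dimension of a subspace that consists
of commuting matrices diagonalizable over `ℚ`. -/
noncomputable def rankLie {N : ℕ} (L : Submodule ℚ (MatQ N)) : ℕ :=
  sSup {r | ∃ s : Submodule ℚ (MatQ N), s ≤ L ∧ IsSplit s ∧ finrank ℚ s = r}

end Pool.Agent.Helper654_DO
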