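import Pool.Agent.Helper654_DO.Base
import Pool.Agent.Helper654_DO.DefsSS

/-!
# Statements for the semisimple case
-/

set_option autoImplicit false

open Matrix Module Filter Topology

namespace Pool.Agent.Helper654_DO

/-- P1. The centre of the real span of a simple `L` is zero. Write `x = ∑ e i • toR (z i)`, `z i ∈ L`,
with the `e i` linearly independent over `ℚ` (B4); every `z i` commutes with `L`, and an abelian ideal of
`L` is `0`. -/
def S_centre : Prop :=
  ∀ {N : ℕ} {L : Submodule ℚ (MatQ N)} (hL : IsSimpleLie L) {x : Mat N} (hx : x ∈ realSpan L)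
    (hc : ∀ y ∈ L, x * toR y = toR y * x), x = 0

/-- P2. Projections onto the real spans of the simple ideals. The real spans `V k` of the `I k` are
independent: an element of `V k` and of the sum of the others commutes with `V k`, so it vanishes by
P1. -/
def S_proj : Prop :=
  ∀ {N : ℕ} {ι : Type} [Fintype ι] {L : Submodule ℚ (MatQ N)} {I : ι → Submodule ℚ (MatQ N)}
    (hL : IsSumOfSimple L I),
    ∃ π : ι → (Mat N →ₗ[ℝ] Mat N),
      (∀ k, ∀ x ∈ realSpan L, π k x ∈ realSpan (I k)) ∧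
      (∀ x ∈ realSpan L, (∀ k, π k x = 0) → x = 0) ∧
      (∀ x ∈ realSpan L, x = ∑ k, π k x) ∧
      (∀ k, ∀ x ∈ realSpan (I k), π k x = x) ∧
      (∀ j k, j ≠ k → ∀ x ∈ realSpan (I j), π k x = 0) ∧
      (∀ k, ∀ x ∈ realSpan L, (π k x = 0 ↔ x ∈ realSpan (⨆ j : {j // j ≠ k}, I j))) ∧
      (∀ k, ∀ x ∈ realSpan L, ∀ y ∈ realSpan (I k), x * y - y * x = π k x * y - y * π k x) ∧
      (∀ k, ∀ x ∈ realSpan L, (∀ j, j ≠ k → π j x = 0) → x ∈ realSpan (I k))

/-- P3. A sum of maximal split subspaces of the real spans of the simple ideals is a maximal split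
subspace. Assume A3, A4, B1, B3, D1, D2, P1, P2. Let `b` be split in `realSpan L`, `b ≥ ⨆ k, a k`, `x ∈ b`
and `y = π k x`. `y` commutes with `a k` and `ad y = ad x` on `V k`, so `ad y` is diagonalizable on `V k`
(the span of `a` and `x` is split; use A4 for it and `g = V k`, so `V k` is the sum of the common
eigenspaces of `ad (a k)` and `ad y`). Subtract from `y` its orthogonal projection to `a k` for the
trace form (positive definite on `a k`): `y` is now orthogonal to `a k`. If `e ∈ V k` is a common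
eigenvector, of weight `β ≠ 0` for `a k` and with `[y, e] = c e`, then D2 gives `h ∈ a k` and `f` and
`0 = tr (y h) = tr ([y, e] f) = c tr (e f)`, `2 tr (e f) = tr (h h) > 0`, so `c = 0`. If `β = 0` and
`c ≠ 0` then `e` is nilpotent (an eigenvector of `ad y` for a nonzero eigenvalue) and commutes with
`a k`, so `e = 0` by D1. So `y` is in the centre of `V k`, `y = 0`. So `b ≤ ⨆ k, a k`. The sum is
split by A3. -/
def S_maxsplit_sum : Prop :=
  ∀ {N : ℕ} {ι : Type} [Finite ι] {L : Submodule ℚ (MatQ N)} {I : ι → Submodule ℚ (MatQ N)}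
    (hL : IsSumOfSimple L I)
    {s : ι → Submodule ℚ (MatQ N)} (hs : ∀ k, s k ≤ I k) (hs' : ∀ k, IsSplit (s k))
    (hs0 : ∀ k, s k ≠ ⊥)
    {a : ι → Submodule ℝ (Mat N)} (ha : ∀ k, IsMaxSplit (realSpan (I k)) (a k)),
    IsMaxSplit (realSpan L) (⨆ k, a k)

/-- P4. A finite sum of commuting split spaces is split (A3 and induction). -/
def S_iSup_split : Prop :=
  ∀ {K : Type} [Field K] {N : ℕ} {ι : Type} [Finite ι]
    {a : ι → Submodule K (Matrix (Fin N) (Fin N) K)} (ha : ∀ k, IsSplit (a k))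
    (hc : ∀ j k, j ≠ k → ∀ x ∈ a j, ∀ y ∈ a k, x * y = y * x),
    IsSplit (⨆ k, a k)

/-- P5. Maximal split subspaces exist (take one of the largest dimension). -/
def S_exists_maxsplit : Prop :=
  ∀ {N : ℕ} {g b : Submodule ℝ (Mat N)} (hb : b ≤ g) (hb' : IsSplit b),
    ∃ a, b ≤ a ∧ IsMaxSplit g a

/-- P6. The trace form is nondegenerate on the real span, and the real span is perfect. By B3, B2 and
`tr (x y) = 0` for `x ∈ I j`, `y ∈ I k`, `j ≠ k`: `x` is a sum of brackets `[x', x'']` in `I j` and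
`tr ([x', x''] y) = tr (x' [x'', y]) = 0`. -/
def S_nondeg_sum : Prop :=
  ∀ {N : ℕ} {ι : Type} [Finite ι] {L : Submodule ℚ (MatQ N)} {I : ι → Submodule ℚ (MatQ N)}
    (hL : IsSumOfSimple L I)
    {s : ι → Submodule ℚ (MatQ N)} (hs : ∀ k, s k ≤ I k) (hs' : ∀ k, IsSplit (s k))
    (hs0 : ∀ k, s k ≠ ⊥),
    (∀ x ∈ realSpan L, (∀ y ∈ realSpan L, (x * y).trace = 0) → x = 0) ∧
    (∀ j k, j ≠ k → ∀ x ∈ realSpan (I j), ∀ y ∈ realSpan (I k), (x * y).trace = 0)

/-- P7. Escaping, for a subalgebra `M₀` (as R3, with the same proof). -/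
def S_rep_escape_sub : Prop :=
  ∀ {N : ℕ} {H : QGroup N} (M₀ : Submodule ℝ (Mat N)) (hM₀ : M₀ ≤ H.lieR)
    (hperf : ∀ M : Submodule ℝ (Mat N), (∀ x ∈ M₀, ∀ y ∈ M₀, x * y - y * x ∈ M) → M₀ ≤ M)
    (moves : Set H.lieR)
    (hgen : ∀ M : Submodule ℝ (Mat N), M ≤ H.lieR → (∀ x ∈ M, ∀ y ∈ M, x * y - y * x ∈ M) →
      (∀ E ∈ moves, (E : Mat N) ∈ M) → M₀ ≤ M)
    (r : H.Rep) (X : H.lieR) (hX : (X : Mat N) ∈ M₀) {w : Fin r.m → ℝ} (hw : w ≠ 0) (g : H.G),
    ∃ l : List (H.lieR × ℝ), (∀ p ∈ l, p.1 ∈ moves) ∧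
      (l.map fun p => H.exp (p.2 • p.1)).prod * g ∉ QGroup.Om r X w

/-- P8. The example: the rational Lie algebra of `SL₂ × SL₂` is the sum of two simple ideals. `J` is
`sl₂` in the upper left block and `J'` is `sl₂` in the lower right block. -/
def S_sl2_blocks : Prop :=
  ∀ (J J' : Submodule ℚ (MatQ 4))
    (hJ : ∀ z : MatQ 4, z ∈ J ↔ ∃ a b c : ℚ, z = !![a, b, 0, 0; c, -a, 0, 0; 0, 0, 0, 0; 0, 0, 0, 0])
    (hJ' : ∀ z : MatQ 4, z ∈ J' ↔ ∃ a b c : ℚ, z = !![0, 0, 0, 0; 0, 0, 0, 0; 0, 0, a, b; 0, 0, c, -a]),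
    IsSumOfSimple (J ⊔ J') ![J, J']

end Pool.Agent.Helper654_DO
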