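import Pool.Agent.Helper654_DO.Stmts

/-!
# F1: a nonzero ideal is not centralized by a nonzero split element
-/

set_option autoImplicit false

open Matrix Module

namespace Pool.Agent.Helper654_DO.faithful

theorem toR_mul {N : ℕ} (A B : MatQ N) : toR (A * B) = toR A * toR B :=
  Matrix.map_mul (f := (Rat.castHom ℝ))

theorem toR_sub {N : ℕ} (A B : MatQ N) : toR (A - B) = toR A - toR B := by
  ext i j
  simp [toR]

theorem toR_smul {N : ℕ} (q : ℚ) (A : MatQ N) : toR (q • A) = (q : ℝ) • toR A := by
  ext i j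
  simp [toR]

theorem toR_add {N : ℕ} (A B : MatQ N) : toR (A + B) = toR A + toR B := by
  ext i j
  simp [toR]

theorem toR_zero {N : ℕ} : toR (0 : MatQ N) = 0 := by
  ext i j
  simp [toR]

theorem toR_injective {N : ℕ} {A B : MatQ N} (h : toR A = toR B) : A = B := by
  ext i j
  have := congrFun (congrFun h i) j
  simpa [toR] using this

/-- Real combinations with coefficients independent over `ℚ` vanish only trivially. -/
theorem slice_zero {N n : ℕ} {e : Fin n → ℝ} (he : LinearIndependent ℚ e) (w : Fin n → MatQ N)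
    (h : ∑ k, e k • toR (w k) = 0) : ∀ k, w k = 0 := by
  intro k
  ext i j
  have h1 := congrFun (congrFun h i) j
  rw [Matrix.sum_apply, Matrix.zero_apply] at h1
  have h2 : ∑ k, (w k i j) • e k = 0 := by
    rw [← h1]
    refine Finset.sum_congr rfl fun k _ => ?_
    rw [Matrix.smul_apply, smul_eq_mul, Rat.smul_def, mul_comm]
    rfl
  exact Fintype.linearIndependent_iff.1 he _ h2 k

/-- The set of the elements of `L` that centralize `c`. -/
def cent {N : ℕ} (L : Submodule ℚ (MatQ N)) (c : Set (Mat N)) : Submodule ℚ (MatQ N) where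
  carrier := {w | w ∈ L ∧ ∀ y ∈ c, toR w * y = y * toR w}
  zero_mem' := ⟨L.zero_mem, fun y _ => by rw [toR_zero, Matrix.zero_mul, Matrix.mul_zero]⟩
  add_mem' := by
    rintro v w ⟨hv, hv'⟩ ⟨hw, hw'⟩
    exact ⟨L.add_mem hv hw, fun y hy => by
      rw [toR_add, Matrix.add_mul, Matrix.mul_add, hv' y hy, hw' y hy]⟩
  smul_mem' := by
    rintro q w ⟨hw, hw'⟩
    exact ⟨L.smul_mem q hw, fun y hy => by
      rw [toR_smul, Matrix.smul_mul, Matrix.mul_smul, hw' y hy]⟩

theorem mem_realSpan {N : ℕ} {L : Submodule ℚ (MatQ N)} {w : MatQ N} (hw : w ∈ L) :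
    toR w ∈ realSpan L := Submodule.subset_span ⟨w, hw, rfl⟩

/-- The centre of a simple Lie algebra is zero. -/
theorem centre_zero {N : ℕ} {L : Submodule ℚ (MatQ N)} (hL : IsSimpleLie L) {z : MatQ N}
    (hz : z ∈ L) (h : ∀ w ∈ L, w * z = z * w) : z = 0 := by
  let I : Submodule ℚ (MatQ N) :=
    { carrier := {z | z ∈ L ∧ ∀ w ∈ L, w * z = z * w}
      zero_mem' := ⟨L.zero_mem, fun w _ => by rw [Matrix.zero_mul, Matrix.mul_zero]⟩
      add_mem' := by
        rintro u v ⟨hu, hu'⟩ ⟨hv, hv'⟩
        exact ⟨L.add_mem hu hv, fun w hw => by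
          rw [Matrix.add_mul, Matrix.mul_add, hu' w hw, hv' w hw]⟩
      smul_mem' := by
        rintro q u ⟨hu, hu'⟩
        exact ⟨L.smul_mem q hu, fun w hw => by
          rw [Matrix.smul_mul, Matrix.mul_smul, hu' w hw]⟩ }
  have hzI : z ∈ I := ⟨hz, h⟩
  rcases hL.ideals I (fun x hx => hx.1) (by
    intro x hx y hy
    have h1 : x * y - y * x = 0 := sub_eq_zero.2 (hy.2 x hx)
    rw [h1]
    exact I.zero_mem) with h1 | h1
  · rw [h1] at hzI
    exact (Submodule.mem_bot ℚ).1 hzI
  · exfalso
    obtain ⟨x, hx, y, hy, hxy⟩ := hL.nonabelian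
    have hy' : y ∈ I := by rw [h1]; exact hy
    exact hxy (hy'.2 x hx)

end Pool.Agent.Helper654_DO.faithful

namespace Pool.Agent.Helper654_DO

open faithful

theorem T_faithful (hA2 : S_simdiag) (hB4 : S_realSpan_slice) : S_faithful := by
  intro N L hL s hs hs' c hc hc0 hci x hx hxc
  classical
  obtain ⟨n, e, z, he, hz, hxz⟩ := hB4 hx
  obtain ⟨P, μ, hP⟩ := hA2 hs'
  -- the real version of `P`
  set PR : Mat N := toR (P : MatQ N) with hPR
  set QR : Mat N := toR ((P⁻¹ : GL (Fin N) ℚ) : MatQ N) with hQR
  have hPQ : PR * QR = 1 := by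
    rw [hPR, hQR, ← toR_mul, ← Units.val_mul, mul_inv_cancel, Units.val_one]
    ext i j
    by_cases hij : i = j
    · subst hij; simp [toR]
    · simp [toR, hij]
  have hQP : QR * PR = 1 := by
    rw [hPR, hQR, ← toR_mul, ← Units.val_mul, inv_mul_cancel, Units.val_one]
    ext i j
    by_cases hij : i = j
    · subst hij; simp [toR]
    · simp [toR, hij]
  have hPw : ∀ w : s, toR (w : MatQ N) = PR * diagonal (fun i => ((μ i w : ℚ) : ℝ)) * QR := by
    intro w
    conv_lhs => rw [hP w]
    rw [toR_mul, toR_mul]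
    congr 2
    ext i j
    by_cases hij : i = j
    · subst hij; simp [toR]
    · simp [toR, hij]
  -- commuting with a matrix conjugate to a diagonal one
  have hcomm : ∀ (δ : Fin N → ℝ) (y : Mat N), (PR * diagonal δ * QR) * y = y * (PR * diagonal δ * QR) ↔
      ∀ i j, (δ i - δ j) * (QR * y * PR) i j = 0 := by
    intro δ y
    have h1 : (PR * diagonal δ * QR) * y = y * (PR * diagonal δ * QR) ↔
        diagonal δ * (QR * y * PR) = (QR * y * PR) * diagonal δ := by
      constructor
      · intro h
        have h2 := congrArg (fun m => QR * m * PR) h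
        calc diagonal δ * (QR * y * PR) = (QR * PR) * diagonal δ * (QR * y * PR) := by
              rw [hQP, Matrix.one_mul]
          _ = QR * (PR * diagonal δ * QR * y) * PR := by simp only [Matrix.mul_assoc]
          _ = QR * (y * (PR * diagonal δ * QR)) * PR := h2
          _ = QR * y * PR * diagonal δ * (QR * PR) := by simp only [Matrix.mul_assoc]
          _ = _ := by rw [hQP, Matrix.mul_one]
      · intro h
        have h2 := congrArg (fun m => PR * m * QR) h
        calc (PR * diagonal δ * QR) * y = (PR * diagonal δ * QR) * y * (PR * QR) := by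
              rw [hPQ, Matrix.mul_one]
          _ = PR * (diagonal δ * (QR * y * PR)) * QR := by simp only [Matrix.mul_assoc]
          _ = PR * (QR * y * PR * diagonal δ) * QR := h2
          _ = (PR * QR) * y * (PR * diagonal δ * QR) := by simp only [Matrix.mul_assoc]
          _ = _ := by rw [hPQ, Matrix.one_mul]
    rw [h1]
    constructor
    · intro h i j
      have h2 := congrFun (congrFun h i) j
      rw [diagonal_mul, mul_diagonal] at h2
      rw [sub_mul, h2]; ring
    · intro h
      ext i j
      rw [diagonal_mul, mul_diagonal]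
      have h2 := h i j
      rw [sub_mul] at h2
      linarith [mul_comm (δ j) ((QR * y * PR) i j)]
  -- Step 1: every slice of `x` centralizes `c`
  have step1 : ∀ y : Mat N, x * y = y * x → ∀ k, toR (z k) * y = y * toR (z k) := by
    intro y hy k
    have hx' : x = PR * diagonal (fun i => ∑ k, e k * ((μ i ⟨z k, hz k⟩ : ℚ) : ℝ)) * QR := by
      rw [hxz]
      have h1 : ∀ k, e k • toR (z k) = PR * diagonal (fun i => e k * ((μ i ⟨z k, hz k⟩ : ℚ) : ℝ)) * QR := by
        intro k
        rw [hPw ⟨z k, hz k⟩, ← Matrix.smul_mul, ← Matrix.mul_smul, ← diagonal_smul]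
        rfl
      rw [Finset.sum_congr rfl fun k _ => h1 k, ← Finset.sum_mul, ← Finset.mul_sum]
      congr 2
      ext i j
      rw [Matrix.sum_apply]
      by_cases hij : i = j
      · subst hij
        simp only [diagonal_apply_eq]
      · simp only [diagonal_apply_ne _ hij, Finset.sum_const_zero]
    rw [hx', hcomm] at hy
    have h3 := hPw ⟨z k, hz k⟩
    simp only at h3
    rw [h3, hcomm]
    intro i j
    rcases mul_eq_zero.1 (hy i j) with h | h
    · have h4 : ∑ k, (μ i ⟨z k, hz k⟩ - μ j ⟨z k, hz k⟩) • e k = 0 := by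
        rw [← h, ← Finset.sum_sub_distrib]
        refine Finset.sum_congr rfl fun k _ => ?_
        rw [Rat.smul_def, Rat.cast_sub]; ring
      have h5 := Fintype.linearIndependent_iff.1 he _ h4 k
      rw [sub_eq_zero] at h5
      rw [h5, sub_self, zero_mul]
    · rw [h, mul_zero]
  -- Step 2
  have step2 : ∀ k, z k = 0 := by
    intro k
    by_contra hk
    have hI := hL.ideals (cent L c) (fun w hw => hw.1) (by
      rintro v hv w ⟨hw, hw'⟩
      refine ⟨hL.lie_mem v hv w hw, fun y hy => ?_⟩
      have h1 := hw' y hy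
      have h2 := hw' _ (hci _ (mem_realSpan hv) y hy)
      rw [toR_sub, toR_mul, toR_mul]
      have h3 : (toR v * toR w - toR w * toR v) * y - y * (toR v * toR w - toR w * toR v) =
          toR v * (toR w * y - y * toR w) - (toR w * y - y * toR w) * toR v -
          (toR w * (toR v * y - y * toR v) - (toR v * y - y * toR v) * toR w) := by
        noncomm_ring
      rw [sub_eq_zero.2 h1, sub_eq_zero.2 h2, Matrix.mul_zero, Matrix.zero_mul, sub_self,
        sub_self] at h3
      exact sub_eq_zero.1 h3)
    have hkI : z k ∈ cent L (c : Set (Mat N)) := ⟨hs (hz k), fun y hy => step1 y (hxc y hy) k⟩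
    rcases hI with hI | hI
    · rw [hI] at hkI
      exact hk ((Submodule.mem_bot ℚ).1 hkI)
    · obtain ⟨y, hy, hy0⟩ := Submodule.exists_mem_ne_zero_of_ne_bot hc0
      obtain ⟨m, e', z', he', hz', hyz⟩ := hB4 (hc hy)
      refine hy0 ?_
      have h0 : ∀ l, z' l = 0 := by
        intro l
        refine centre_zero hL (hz' l) fun w hw => ?_
        have hwI : w ∈ cent L (c : Set (Mat N)) := by rw [hI]; exact hw
        have h1 := hwI.2 y hy
        have h2 : ∑ l, e' l • toR (w * z' l - z' l * w) = 0 := by
          have h3 : toR w * y - y * toR w = 0 := sub_eq_zero.2 h1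
          rw [hyz, Finset.mul_sum, Finset.sum_mul, ← Finset.sum_sub_distrib] at h3
          rw [← h3]
          refine Finset.sum_congr rfl fun l _ => ?_
          rw [toR_sub, toR_mul, toR_mul, Matrix.mul_smul, Matrix.smul_mul, smul_sub]
        exact sub_eq_zero.1 (slice_zero he' _ h2 l)
      rw [hyz]
      refine Finset.sum_eq_zero fun l _ => ?_
      rw [h0 l, toR_zero, smul_zero]
  rw [hxz]
  refine Finset.sum_eq_zero fun k _ => ?_
  rw [step2 k, toR_zero, smul_zero]

end Pool.Agent.Helper654_DO
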