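import Pool.Agent.Helper654_DO.Stmts
import Pool.Agent.Helper654_DO.Stmts3
import Pool.Agent.Helper654_DO.T_faithful

/-! # P1: the centre of the real span of a simple Lie algebra -/

set_option autoImplicit false

open Matrix Module Filter Topology

namespace Pool.Agent.Helper654_DO

theorem T_centre (hB4 : S_realSpan_slice) : S_centre := by
  intro N L hL x hx hc
  obtain ⟨n, e, z, he, hz, rfl⟩ := hB4 hx
  have h0 : ∀ k, z k = 0 := by
    intro k
    refine faithful.centre_zero hL (hz k) fun w hw => ?_
    have h1 := hc w hw
    have h2 : ∑ l, e l • toR (w * z l - z l * w) = 0 := by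
      have h3 : toR w * (∑ k, e k • toR (z k)) - (∑ k, e k • toR (z k)) * toR w = 0 :=
        sub_eq_zero.2 h1.symm
      rw [Finset.mul_sum, Finset.sum_mul, ← Finset.sum_sub_distrib] at h3
      rw [← h3]
      refine Finset.sum_congr rfl fun l _ => ?_
      rw [faithful.toR_sub, faithful.toR_mul, faithful.toR_mul, Matrix.mul_smul, Matrix.smul_mul,
        smul_sub]
    exact sub_eq_zero.1 (faithful.slice_zero he _ h2 k)
  refine Finset.sum_eq_zero fun k _ => ?_
  rw [h0 k, faithful.toR_zero, smul_zero]

end Pool.Agent.Helper654_DO
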