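import Pool.Agent.Helper654_DO.Stmts
import Pool.Agent.Helper654_DO.Stmts3

/-!
# Maximal split spaces exist
-/

set_option autoImplicit false

open Matrix Module

namespace Pool.Agent.Helper654_DO

theorem T_exists_maxsplit : S_exists_maxsplit := by
  intro N g b hb hb'
  have : IsNoetherian ℝ (Mat N) := by
    unfold Mat
    infer_instance
  obtain ⟨a, ⟨ha1, ha2, ha3⟩, hmax⟩ := WellFounded.has_min
    (wellFounded_gt (α := Submodule ℝ (Mat N))) {a | b ≤ a ∧ a ≤ g ∧ IsSplit a} ⟨b, le_rfl, hb, hb'⟩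
  refine ⟨a, ha1, ha2, ha3, ?_⟩
  intro c hc hc' hac
  by_contra hne
  exact hmax c ⟨ha1.trans hac, hc, hc'⟩ (lt_of_le_of_ne hac (fun h => hne h.symm))

end Pool.Agent.Helper654_DO
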