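import Pool.Agent.Helper654_DO.Stmts
import Pool.Agent.Helper654_DO.Stmts3

/-!
# Finite sums of commuting split spaces are split
-/

set_option autoImplicit false

open Matrix Module

namespace Pool.Agent.Helper654_DO

namespace iSup_split

theorem isSplit_bot {K : Type} [Field K] {N : ℕ} :
    IsSplit (⊥ : Submodule K (Matrix (Fin N) (Fin N) K)) := by
  refine ⟨?_, ?_⟩
  · intro x hx y hy
    rw [Submodule.mem_bot] at hx hy
    rw [hx, hy]
  · intro x hx
    rw [Submodule.mem_bot] at hx
    refine ⟨1, 0, ?_⟩
    rw [hx]
    simp

/-- the matrices commuting with `x` -/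
def cen {K : Type} [Field K] {N : ℕ} (x : Matrix (Fin N) (Fin N) K) :
    Submodule K (Matrix (Fin N) (Fin N) K) where
  carrier := {y | x * y = y * x}
  add_mem' := by
    intro a b ha hb
    show x * (a + b) = (a + b) * x
    have ha' : x * a = a * x := ha
    have hb' : x * b = b * x := hb
    rw [mul_add, add_mul, ha', hb']
  zero_mem' := by
    show x * 0 = 0 * x
    rw [mul_zero, zero_mul]
  smul_mem' := by
    intro c a ha
    show x * (c • a) = (c • a) * x
    have ha' : x * a = a * x := ha
    rw [Matrix.mul_smul, Matrix.smul_mul, ha']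

theorem mem_cen {K : Type} [Field K] {N : ℕ} {x y : Matrix (Fin N) (Fin N) K} :
    y ∈ cen x ↔ x * y = y * x := Iff.rfl

end iSup_split

open iSup_split

theorem T_iSup_split (hA3 : S_split_sup) : S_iSup_split := by
  intro K _ N ι _ a ha hc
  classical
  have := Fintype.ofFinite ι
  have key : ∀ t : Finset ι, IsSplit (⨆ k ∈ t, a k) := by
    intro t
    induction t using Finset.induction_on with
    | empty =>
      have : (⨆ k ∈ (∅ : Finset ι), a k) = ⊥ := by simp
      rw [this]
      exact isSplit_bot
    | insert j t hj ih =>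
      rw [Finset.iSup_insert]
      refine hA3 (ha j) ih ?_
      intro x hx y hy
      have h1 : (⨆ k ∈ t, a k) ≤ cen x := by
        refine iSup₂_le fun k hk z hz => ?_
        exact mem_cen.2 (hc j k (fun h => hj (h ▸ hk)) x hx z hz)
      exact mem_cen.1 (h1 hy)
  have h := key Finset.univ
  simpa using h

end Pool.Agent.Helper654_DO
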