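import Pool.Agent.Helper654_DO.Stmts

/-!
# Conjugation
-/

set_option autoImplicit false

open Matrix Module Filter Topology

namespace Pool.Agent.Helper654_DO

/-- Conjugation by `u`. -/
def cj {N : ℕ} (u : GL (Fin N) ℝ) : Mat N ≃ₗ[ℝ] Mat N where
  toFun x := (u : Mat N) * x * ((u⁻¹ : GL (Fin N) ℝ) : Mat N)
  invFun x := ((u⁻¹ : GL (Fin N) ℝ) : Mat N) * x * (u : Mat N)
  left_inv x := by
    have h := Units.inv_mul u
    calc ((u⁻¹ : GL (Fin N) ℝ) : Mat N) * ((u : Mat N) * x * ((u⁻¹ : GL (Fin N) ℝ) : Mat N)) * (u : Mat N)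
        = (((u⁻¹ : GL (Fin N) ℝ) : Mat N) * (u : Mat N)) * x * (((u⁻¹ : GL (Fin N) ℝ) : Mat N) * (u : Mat N)) := by
          noncomm_ring
      _ = x := by rw [h, one_mul, mul_one]
  right_inv x := by
    have h := Units.mul_inv u
    calc (u : Mat N) * (((u⁻¹ : GL (Fin N) ℝ) : Mat N) * x * (u : Mat N)) * ((u⁻¹ : GL (Fin N) ℝ) : Mat N)
        = ((u : Mat N) * ((u⁻¹ : GL (Fin N) ℝ) : Mat N)) * x * ((u : Mat N) * ((u⁻¹ : GL (Fin N) ℝ) : Mat N)) := by
          noncomm_ring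
      _ = x := by rw [h, one_mul, mul_one]
  map_add' x y := by rw [mul_add, add_mul]
  map_smul' c x := by simp

theorem cj_apply {N : ℕ} (u : GL (Fin N) ℝ) (x : Mat N) :
    cj u x = (u : Mat N) * x * ((u⁻¹ : GL (Fin N) ℝ) : Mat N) := rfl

theorem cj_mul {N : ℕ} (u v : GL (Fin N) ℝ) (x : Mat N) : cj (u * v) x = cj u (cj v x) := by
  simp only [cj_apply, Units.val_mul, _root_.mul_inv_rev]
  noncomm_ring

theorem cj_one {N : ℕ} (x : Mat N) : cj 1 x = x := by simp [cj_apply]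

theorem cj_inv_cj {N : ℕ} (u : GL (Fin N) ℝ) (x : Mat N) : cj u⁻¹ (cj u x) = x := by
  rw [← cj_mul, inv_mul_cancel, cj_one]

theorem cj_cj_inv {N : ℕ} (u : GL (Fin N) ℝ) (x : Mat N) : cj u (cj u⁻¹ x) = x := by
  rw [← cj_mul, mul_inv_cancel, cj_one]

theorem cj_mul' {N : ℕ} (u : GL (Fin N) ℝ) (x y : Mat N) : cj u (x * y) = cj u x * cj u y := by
  simp only [cj_apply]
  have h : ((u⁻¹ : GL (Fin N) ℝ) : Mat N) * (u : Mat N) = 1 := Units.inv_mul u
  calc (u : Mat N) * (x * y) * ((u⁻¹ : GL (Fin N) ℝ) : Mat N)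
      = (u : Mat N) * x * 1 * y * ((u⁻¹ : GL (Fin N) ℝ) : Mat N) := by noncomm_ring
    _ = _ := by rw [← h]; noncomm_ring

theorem diag_cj {N : ℕ} (u : GL (Fin N) ℝ) {x : Mat N} (hx : Diagonalizable x) :
    Diagonalizable (cj u x) := by
  obtain ⟨P, d, h⟩ := hx
  refine ⟨u * P, d, ?_⟩
  rw [h, cj_apply, _root_.mul_inv_rev, Units.val_mul, Units.val_mul]
  noncomm_ring

theorem split_cj {N : ℕ} (u : GL (Fin N) ℝ) {a : Submodule ℝ (Mat N)} (ha : IsSplit a) :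
    IsSplit (a.map (cj u : Mat N →ₗ[ℝ] Mat N)) := by
  constructor
  · rintro _ ⟨x, hx, rfl⟩ _ ⟨y, hy, rfl⟩
    change cj u x * cj u y = cj u y * cj u x
    rw [← cj_mul', ← cj_mul', ha.comm x hx y hy]
  · rintro _ ⟨x, hx, rfl⟩
    exact diag_cj u (ha.diag x hx)

theorem maxSplit_cj {N : ℕ} {g a : Submodule ℝ (Mat N)} (u : GL (Fin N) ℝ)
    (hu : ∀ x ∈ g, cj u x ∈ g) (hu' : ∀ x ∈ g, cj u⁻¹ x ∈ g) (ha : IsMaxSplit g a) :
    IsMaxSplit g (a.map (cj u : Mat N →ₗ[ℝ] Mat N)) := by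
  refine ⟨?_, split_cj u ha.split, ?_⟩
  · rintro _ ⟨x, hx, rfl⟩
    exact hu x (ha.le hx)
  · intro b hb hbs hab
    have h1 := ha.max (b.map (cj u⁻¹ : Mat N →ₗ[ℝ] Mat N)) (by
      rintro _ ⟨x, hx, rfl⟩
      exact hu' x (hb hx)) (split_cj _ hbs) (by
      intro x hx
      exact ⟨cj u x, hab ⟨x, hx, rfl⟩, cj_inv_cj u x⟩)
    apply le_antisymm _ hab
    intro x hx
    refine ⟨cj u⁻¹ x, ?_, cj_cj_inv u x⟩
    rw [← h1]
    exact ⟨x, hx, rfl⟩

theorem expGL_cj {N : ℕ} (u : GL (Fin N) ℝ) (x : Mat N) :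
    expGL (cj u x) = u * expGL x * u⁻¹ := by
  apply Units.ext
  rw [Units.val_mul, Units.val_mul]
  exact Matrix.exp_units_conj u x

theorem expGroup_le {N : ℕ} (H : QGroup N) : expGroup H.lieR ≤ H.G := by
  rw [expGroup, Subgroup.closure_le]
  rintro _ ⟨x, hx, rfl⟩
  exact H.exp_mem hx

/-! ### Rational matrices -/

theorem toR_mul {N m k : ℕ} (x : Matrix (Fin N) (Fin m) ℚ) (y : Matrix (Fin m) (Fin k) ℚ) :
    toR (x * y) = toR x * toR y := Matrix.map_mul (f := Rat.castHom ℝ)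

theorem toR_sub {m n : Type*} (x y : Matrix m n ℚ) : toR (x - y) = toR x - toR y := by
  ext i j; simp [toR]

theorem toR_add {m n : Type*} (x y : Matrix m n ℚ) : toR (x + y) = toR x + toR y := by
  ext i j; simp [toR]

theorem toR_smul {m n : Type*} (c : ℚ) (x : Matrix m n ℚ) : toR (c • x) = (c : ℝ) • toR x := by
  ext i j; simp [toR]

theorem toR_one {N : ℕ} : toR (1 : MatQ N) = 1 := by
  ext i j
  simp [toR, Matrix.one_apply]
  split_ifs <;> simp

theorem toR_mem {N : ℕ} {L : Submodule ℚ (MatQ N)} {x : MatQ N} (hx : x ∈ L) :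
    toR x ∈ realSpan L := Submodule.subset_span ⟨x, hx, rfl⟩

theorem realSpan_mono {N : ℕ} {L M : Submodule ℚ (MatQ N)} (h : L ≤ M) :
    realSpan L ≤ realSpan M :=
  Submodule.span_mono (Set.image_mono h)

/-- A rational invertible matrix as a real one. -/
def glR {N : ℕ} (P : GL (Fin N) ℚ) : GL (Fin N) ℝ where
  val := toR (P : MatQ N)
  inv := toR ((P⁻¹ : GL (Fin N) ℚ) : MatQ N)
  val_inv := by rw [← toR_mul, Units.mul_inv, toR_one]
  inv_val := by rw [← toR_mul, Units.inv_mul, toR_one]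

theorem realSpan_split (simdiag : S_simdiag) {N : ℕ} {s : Submodule ℚ (MatQ N)} (hs : IsSplit s) :
    IsSplit (realSpan s) := by
  obtain ⟨P, μ, hP⟩ := simdiag hs
  have key : ∀ x ∈ realSpan s, ∃ d : Fin N → ℝ,
      x = (glR P : Mat N) * diagonal d * (((glR P)⁻¹ : GL (Fin N) ℝ) : Mat N) := by
    intro x hx
    induction hx using Submodule.span_induction with
    | mem x hx =>
      obtain ⟨y, hy, rfl⟩ := hx
      refine ⟨fun i => (μ i ⟨y, hy⟩ : ℝ), ?_⟩
      have h1 := congrArg toR (hP ⟨y, hy⟩)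
      rw [toR_mul, toR_mul] at h1
      have h2 : toR (diagonal (fun i => μ i ⟨y, hy⟩) : MatQ N) =
          diagonal (fun i => ((μ i ⟨y, hy⟩ : ℚ) : ℝ)) := by
        ext i j
        by_cases hij : i = j
        · subst hij; simp [toR]
        · simp [toR, hij]
      rw [h2] at h1
      exact h1
    | zero => exact ⟨0, by simp⟩
    | add x y _ _ hx hy =>
      obtain ⟨d, rfl⟩ := hx
      obtain ⟨d', rfl⟩ := hy
      refine ⟨d + d', ?_⟩
      have : (diagonal (d + d') : Mat N) = diagonal d + diagonal d' := by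
        rw [Matrix.diagonal_add]; rfl
      rw [this, mul_add, add_mul]
    | smul c x _ hx =>
      obtain ⟨d, rfl⟩ := hx
      refine ⟨c • d, ?_⟩
      rw [Matrix.diagonal_smul, Matrix.mul_smul, Matrix.smul_mul]
  constructor
  · intro x hx y hy
    obtain ⟨d, rfl⟩ := key x hx
    obtain ⟨d', rfl⟩ := key y hy
    have h1 : ∀ A B : Mat N, (glR P : Mat N) * A * (((glR P)⁻¹ : GL (Fin N) ℝ) : Mat N) *
        ((glR P : Mat N) * B * (((glR P)⁻¹ : GL (Fin N) ℝ) : Mat N)) =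
        (glR P : Mat N) * (A * B) * (((glR P)⁻¹ : GL (Fin N) ℝ) : Mat N) := by
      intro A B
      have := cj_mul' (glR P) A B
      exact this.symm
    rw [h1, h1]
    congr 2
    rw [Matrix.diagonal_mul_diagonal, Matrix.diagonal_mul_diagonal]
    congr 1
    ext i
    ring
  · intro x hx
    obtain ⟨d, rfl⟩ := key x hx
    exact ⟨glR P, d, rfl⟩

end Pool.Agent.Helper654_DO
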