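import Pool.Agent.Helper654_DO.Stmts
import Pool.Agent.Helper654_DO.Stmts3
import Pool.Agent.Helper654_DO.T_root_triple
import Pool.Agent.Helper654_DO.Conj

/-! # P3: the sum of maximal split subspaces of the simple ideals -/

set_option autoImplicit false
set_option linter.unusedVariables false

open Matrix Module Filter Topology

namespace Pool.Agent.Helper654_DO

namespace maxsplit_sum

/-- a real diagonalizable matrix with `tr (x²) = 0` vanishes -/
theorem trace_sq {N : ℕ} {x : Mat N} (hx : Diagonalizable x) (h0 : (x * x).trace = 0) :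
    x = 0 := by
  obtain ⟨P, d, rfl⟩ := hx
  set Q : Mat N := ((P⁻¹ : GL (Fin N) ℝ) : Mat N) with hQ
  have hQP : Q * (P : Mat N) = 1 := by
    rw [hQ, ← Units.val_mul, inv_mul_cancel, Units.val_one]
  have h1 : (P : Mat N) * diagonal d * Q * ((P : Mat N) * diagonal d * Q) =
      (P : Mat N) * (diagonal d * diagonal d * Q) := by
    calc (P : Mat N) * diagonal d * Q * ((P : Mat N) * diagonal d * Q)
        = (P : Mat N) * diagonal d * (Q * P) * diagonal d * Q := by
          simp only [Matrix.mul_assoc]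
      _ = _ := by rw [hQP, Matrix.mul_one]; simp only [Matrix.mul_assoc]
  rw [h1, Matrix.trace_mul_comm, Matrix.mul_assoc, hQP, Matrix.mul_one,
    Matrix.diagonal_mul_diagonal, Matrix.trace_diagonal] at h0
  have h2 : d = 0 := by
    funext i
    have h3 := (Finset.sum_eq_zero_iff_of_nonneg fun i _ => mul_self_nonneg (d i)).1 h0 i
      (Finset.mem_univ i)
    exact mul_self_eq_zero.1 h3
  rw [h2]
  simp

/-- the trace pairing of a matrix with the elements of a subspace -/
noncomputable def pair {N : ℕ} (A : Submodule ℝ (Mat N)) : Mat N →ₗ[ℝ] Module.Dual ℝ A :=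
  LinearMap.mk₂ ℝ (fun (u : Mat N) (v : A) => (u * (v : Mat N)).trace)
    (fun u u' v => by rw [add_mul, trace_add])
    (fun c u v => by rw [Matrix.smul_mul, trace_smul])
    (fun u v v' => by rw [Submodule.coe_add, mul_add, trace_add])
    (fun c u v => by rw [Submodule.coe_smul, Matrix.mul_smul, trace_smul])

theorem pair_apply {N : ℕ} (A : Submodule ℝ (Mat N)) (u : Mat N) (v : A) :
    pair A u v = (u * (v : Mat N)).trace := rfl

/-- the orthogonal projection to a split subspace for the trace form -/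
theorem exists_proj {N : ℕ} {A : Submodule ℝ (Mat N)} (hA : IsSplit A) (y : Mat N) :
    ∃ p ∈ A, ∀ z ∈ A, ((y - p) * z).trace = 0 := by
  let Φ : A →ₗ[ℝ] Module.Dual ℝ A := (pair A).comp A.subtype
  have hinj : Function.Injective Φ := by
    rw [← LinearMap.ker_eq_bot, Submodule.eq_bot_iff]
    intro u hu
    have h1 : Φ u u = 0 := by
      rw [LinearMap.mem_ker] at hu
      rw [hu]
      rfl
    have h2 : ((u : Mat N) * (u : Mat N)).trace = 0 := h1
    exact Subtype.ext (trace_sq (hA.diag u u.2) h2)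
  have hsurj : Function.Surjective Φ :=
    (LinearMap.injective_iff_surjective_of_finrank_eq_finrank
      (Subspace.dual_finrank_eq (K := ℝ) (V := A)).symm).mp hinj
  obtain ⟨p, hp⟩ := hsurj (pair A y)
  refine ⟨p, p.2, fun z hz => ?_⟩
  have h3 : Φ p ⟨z, hz⟩ = pair A y ⟨z, hz⟩ := by rw [hp]
  have h4 : ((p : Mat N) * z).trace = (y * z).trace := h3
  rw [sub_mul, trace_sub, h4, sub_self]

/-- elements of the real spans of commuting spaces commute -/
theorem realSpan_comm {N : ℕ} {L M : Submodule ℚ (MatQ N)}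
    (h : ∀ x ∈ L, ∀ y ∈ M, x * y = y * x) :
    ∀ x ∈ realSpan L, ∀ y ∈ realSpan M, x * y = y * x := by
  intro x hx y hy
  have h1 : ∀ u ∈ L, toR u * y = y * toR u := by
    intro u hu
    refine Submodule.span_induction (p := fun y _ => toR u * y = y * toR u) ?_ ?_ ?_ ?_ hy
    · rintro _ ⟨v, hv, rfl⟩
      rw [← toR_mul, ← toR_mul, h u hu v hv]
    · simp
    · intro p q _ _ hp hq
      rw [mul_add, add_mul, hp, hq]
    · intro c p _ hp
      rw [Matrix.mul_smul, Matrix.smul_mul, hp]
  refine Submodule.span_induction (p := fun x _ => x * y = y * x) ?_ ?_ ?_ ?_ hx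
  · rintro _ ⟨v, hv, rfl⟩
    exact h1 v hv
  · simp
  · intro p q _ _ hp hq
    rw [mul_add, add_mul, hp, hq]
  · intro c p _ hp
    rw [Matrix.mul_smul, Matrix.smul_mul, hp]

theorem trace_bracket {N : ℕ} {u e f h : Mat N} {t : ℝ} (h1 : u * e - e * u = t • e)
    (hef : e * f - f * e = h) : (u * h).trace = t * (e * f).trace := by
  have h2 : ((u * e - e * u) * f).trace = t * (e * f).trace := by
    rw [h1, Matrix.smul_mul, trace_smul, smul_eq_mul]
  rw [← h2, ← hef, mul_sub, sub_mul, trace_sub, trace_sub, ← Matrix.mul_assoc,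
    ← Matrix.mul_assoc, trace_mul_comm (u * f) e, ← Matrix.mul_assoc]

/-- the main step: an element `y` of `g` that commutes with the maximal split subspace `a` of `g`
and acts on `g` as an element `x` of a split space `b ≥ a` preserving `g` lies in `a`, if `g` has no
centre -/
theorem mem_of_split (hA4 : S_weights) (hD1 : S_no_nilpotent) (hD2 : S_root_triple)
    {N : ℕ} {g : Submodule ℝ (Mat N)}
    (hg : ∀ x ∈ g, ∀ y ∈ g, x * y - y * x ∈ g)
    (hT : ∀ x ∈ g, (∀ y ∈ g, (x * y).trace = 0) → x = 0)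
    (hZ : ∀ x ∈ g, (∀ y ∈ g, x * y = y * x) → x = 0)
    {a : Submodule ℝ (Mat N)} (ha : IsMaxSplit g a)
    {b : Submodule ℝ (Mat N)} (hb : IsSplit b) (hab : a ≤ b)
    (hbg : ∀ x ∈ b, ∀ y ∈ g, x * y - y * x ∈ g)
    {x y : Mat N} (hx : x ∈ b) (hy : y ∈ g)
    (hxy : ∀ z ∈ g, x * z - z * x = y * z - z * y) : y ∈ a := by
  obtain ⟨p, hp, hpo⟩ := exists_proj ha.split y
  have hya : ∀ z ∈ a, y * z = z * y := by
    intro z hz
    have h1 := hxy z (ha.le hz)
    rw [hb.comm x hx z (hab hz), sub_self] at h1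
    exact (sub_eq_zero.mp h1.symm)
  have key : y - p = 0 := by
    refine hZ _ (g.sub_mem hy (ha.le hp)) fun z hz => ?_
    obtain ⟨S, c, hzc, hc⟩ := hA4 hb hbg hz
    rw [hzc, Finset.mul_sum, Finset.sum_mul]
    refine Finset.sum_congr rfl fun β hβ => ?_
    obtain ⟨heg, hew⟩ := hc β hβ
    set e := c β with he
    have h1 : (y - p) * e - e * (y - p) = (β ⟨x, hx⟩ - β ⟨p, hab hp⟩) • e := by
      have h2 := hew ⟨x, hx⟩
      have h3 := hew ⟨p, hab hp⟩
      simp only at h2 h3
      rw [sub_smul, ← h2, ← h3, hxy e heg]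
      noncomm_ring
    set t := β ⟨x, hx⟩ - β ⟨p, hab hp⟩ with ht
    by_cases ht0 : t = 0
    · rw [ht0, zero_smul] at h1
      exact sub_eq_zero.mp h1
    by_cases he0 : e = 0
    · rw [he0, mul_zero, zero_mul]
    exfalso
    let β' : Module.Dual ℝ a := β.comp (Submodule.inclusion hab)
    have hβ' : ∀ u : a, (u : Mat N) * e - e * (u : Mat N) = β' u • e := fun u =>
      hew (Submodule.inclusion hab u)
    by_cases hβ0 : β' = 0
    · refine he0 (hD1 hg hT ha heg (root_triple.nilp ht0 h1) fun u hu => ?_)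
      have := hβ' ⟨u, hu⟩
      rw [hβ0, LinearMap.zero_apply, zero_smul] at this
      exact sub_eq_zero.mp this
    · obtain ⟨h, hh, f, hf, hef, hhe, hhf, -⟩ := hD2 hg hT ha hβ0 heg he0 hβ'
      have h4 : ((y - p) * h).trace = t * (e * f).trace := trace_bracket h1 hef
      have h5 : (e * f).trace = 0 := by
        rw [hpo h hh] at h4
        exact (mul_eq_zero.mp h4.symm).resolve_left ht0
      have h6 : (h * h).trace = 2 * (e * f).trace := trace_bracket hhe hef
      have h7 : h = 0 := trace_sq (ha.split.diag h hh) (by rw [h6, h5, mul_zero])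
      rw [h7, zero_mul, mul_zero, sub_zero] at hhe
      exact he0 ((smul_eq_zero.mp hhe.symm).resolve_left two_ne_zero)
  rw [sub_eq_zero.mp key]
  exact hp

end maxsplit_sum

open maxsplit_sum in
/-- P3. -/
theorem T_maxsplit_sum (hA2 : S_simdiag) (hA3 : S_split_sup) (hA4 : S_weights) (hB1 : S_realSpan_lie) (hB3 : S_realSpan_nondeg)
    (hD1 : S_no_nilpotent) (hD2 : S_root_triple) (hP1 : S_centre) (hP2 : S_proj) (hP4 : S_iSup_split) : S_maxsplit_sum := by
  intro N ι _ L I hL s hs hs' hs0 a ha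
  have : Fintype ι := Fintype.ofFinite ι
  have hIL : ∀ k, realSpan (I k) ≤ realSpan L := fun k => by
    refine realSpan_mono ?_
    rw [hL.sum]
    exact le_iSup I k
  have hVc : ∀ j k, j ≠ k → ∀ x ∈ realSpan (I j), ∀ y ∈ realSpan (I k), x * y = y * x :=
    fun j k hjk => realSpan_comm (hL.comm j k hjk)
  obtain ⟨π, hπ1, -, hπ3, -, -, -, hπ7, -⟩ := hP2 hL
  refine ⟨iSup_le fun k => (ha k).le.trans (hIL k),
    hP4 (fun k => (ha k).split) fun j k hjk x hx y hy => hVc j k hjk x ((ha j).le hx) y ((ha k).le hy),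
    fun b hbL hb hab => le_antisymm (fun x hx => ?_) hab⟩
  rw [hπ3 x (hbL hx)]
  refine Submodule.sum_mem _ fun k _ => (le_iSup a k) ?_
  have hg := hB1 (hL.simple k).lie_mem
  refine mem_of_split hA4 hD1 hD2 hg (hB3 (hL.simple k) (hs k) (hs' k) (hs0 k)) ?_ (ha k) hb
    ((le_iSup a k).trans hab) ?_ hx (hπ1 k x (hbL hx)) (fun z hz => hπ7 k x (hbL hx) z hz)
  · intro u hu hc
    exact hP1 (hL.simple k) hu fun v hv => hc _ (toR_mem hv)
  · intro u hu v hv
    rw [hπ7 k u (hbL hu) v hv]
    exact hg _ (hπ1 k u (hbL hu)) v hv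

end Pool.Agent.Helper654_DO
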