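import Pool.Agent.Helper654_DO.Stmts
import Pool.Agent.Helper654_DO.Stmts3

/-! # P6: the trace form on a sum of simple ideals -/

set_option autoImplicit false

open Matrix Module Filter Topology

namespace Pool.Agent.Helper654_DO

namespace nondeg_sum

theorem exists_decomp {N : ℕ} {ι : Type} [Fintype ι] (p : ι → Submodule ℝ (Mat N)) {x : Mat N}
    (hx : x ∈ ⨆ k, p k) : ∃ f : ι → Mat N, (∀ k, f k ∈ p k) ∧ x = ∑ k, f k := by
  classical
  induction hx using Submodule.iSup_induction' with
  | mem k x hx =>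
    refine ⟨Pi.single k x, fun j => ?_, ?_⟩
    · by_cases h : j = k
      · subst h; simpa using hx
      · simp [Pi.single_eq_of_ne h]
    · simp
  | zero => exact ⟨fun _ => 0, fun k => Submodule.zero_mem _, by simp⟩
  | add x y _ _ hx hy =>
    obtain ⟨f, hf, rfl⟩ := hx
    obtain ⟨g, hg, rfl⟩ := hy
    exact ⟨fun k => f k + g k, fun k => Submodule.add_mem _ (hf k) (hg k), by
      rw [Finset.sum_add_distrib]⟩

theorem toR_add {N : ℕ} (x y : MatQ N) : toR (x + y) = toR x + toR y := by
  ext i j; simp [toR]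

theorem toR_mul {N : ℕ} (x y : MatQ N) : toR (x * y) = toR x * toR y :=
  Matrix.map_mul (f := Rat.castHom ℝ)

theorem realSpan_iSup {N : ℕ} {ι : Type} (I : ι → Submodule ℚ (MatQ N)) :
    realSpan (⨆ k, I k) ≤ ⨆ k, realSpan (I k) := by
  unfold realSpan
  rw [Submodule.span_le]
  rintro _ ⟨z, hz, rfl⟩
  have hz' : z ∈ ⨆ k, I k := hz
  change toR z ∈ ⨆ k, Submodule.span ℝ (toR '' (I k : Set (MatQ N)))
  induction hz' using Submodule.iSup_induction' with
  | mem k x hx =>
    exact (le_iSup (fun k => Submodule.span ℝ (toR '' (I k : Set (MatQ N)))) k)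
      (Submodule.subset_span ⟨x, hx, rfl⟩)
  | zero =>
    have : toR (0 : MatQ N) = 0 := by ext i j; simp [toR]
    rw [this]; exact Submodule.zero_mem _
  | add x y hx hy ihx ihy =>
    rw [toR_add]
    exact Submodule.add_mem _ (ihx hx) (ihy hy)

theorem comm_span {N : ℕ} {A B : Submodule ℚ (MatQ N)}
    (h : ∀ x ∈ A, ∀ y ∈ B, x * y = y * x) :
    ∀ x ∈ realSpan A, ∀ y ∈ realSpan B, x * y = y * x := by
  intro x hx y hy
  induction hx using Submodule.span_induction with
  | mem x hx =>
    obtain ⟨x, hx, rfl⟩ := hx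
    induction hy using Submodule.span_induction with
    | mem y hy =>
      obtain ⟨y, hy, rfl⟩ := hy
      rw [← toR_mul, ← toR_mul, h x hx y hy]
    | zero => simp
    | add y z _ _ hy hz => rw [mul_add, add_mul, hy, hz]
    | smul t y _ hy => rw [Matrix.mul_smul, Matrix.smul_mul, hy]
  | zero => simp
  | add x z _ _ hx hz => rw [mul_add, add_mul, hx, hz]
  | smul t x _ hx => rw [Matrix.mul_smul, Matrix.smul_mul, hx]

/-- the matrices orthogonal to `y` for the trace form -/
noncomputable def orth {N : ℕ} (y : Mat N) : Submodule ℝ (Mat N) where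
  carrier := {x | (x * y).trace = 0}
  zero_mem' := by simp
  add_mem' := by
    intro a b ha hb
    simp only [Set.mem_ofPred_eq] at ha hb ⊢
    rw [add_mul, Matrix.trace_add, ha, hb, add_zero]
  smul_mem' := by
    intro t a ha
    simp only [Set.mem_ofPred_eq] at ha ⊢
    rw [Matrix.smul_mul, Matrix.trace_smul, ha, smul_zero]

end nondeg_sum

open nondeg_sum in
theorem T_nondeg_sum (hB1 : S_realSpan_lie) (hB2 : S_realSpan_perfect)
    (hB3 : S_realSpan_nondeg) : S_nondeg_sum := by
  intro N ι _ L I hL s hs hs' hs0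
  have horth : ∀ j k, j ≠ k → ∀ x ∈ realSpan (I j), ∀ y ∈ realSpan (I k),
      (x * y).trace = 0 := by
    intro j k hjk x hx y hy
    have hle : realSpan (I j) ≤ orth y := by
      refine hB2 (hL.simple j) (orth y) ?_
      intro a ha b hb
      change ((a * b - b * a) * y).trace = 0
      have hby : b * y = y * b := comm_span (hL.comm j k hjk) b hb y hy
      rw [sub_mul, Matrix.trace_sub, mul_assoc, hby, ← mul_assoc, Matrix.trace_mul_comm,
        ← mul_assoc, sub_self]
    exact hle hx
  refine ⟨?_, horth⟩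
  intro x hx hxy
  have := Fintype.ofFinite ι
  have hx' : x ∈ ⨆ k, realSpan (I k) := by
    apply realSpan_iSup
    rw [← hL.sum]
    exact hx
  obtain ⟨f, hf, rfl⟩ := exists_decomp _ hx'
  apply Finset.sum_eq_zero
  intro k _
  refine hB3 (hL.simple k) (hs k) (hs' k) (hs0 k) (f k) (hf k) ?_
  intro y hy
  have hyL : y ∈ realSpan L := by
    have hle : I k ≤ L := by rw [hL.sum]; exact le_iSup I k
    exact Submodule.span_mono (Set.image_mono hle) hy
  have h := hxy y hyL
  rw [Finset.sum_mul, Matrix.trace_sum, Finset.sum_eq_single k] at h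
  · exact h
  · intro j _ hjk
    exact horth j k hjk (f j) (hf j) y hy
  · intro hk
    exact absurd (Finset.mem_univ k) hk

end Pool.Agent.Helper654_DO
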