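import Pool.Agent.Helper654_DO.Stmts
import Pool.Agent.Helper654_DO.Stmts3

/-! # P2: the projections onto the real spans of the simple ideals -/

set_option autoImplicit false

open Matrix Module Filter Topology

namespace Pool.Agent.Helper654_DO

namespace proj

/-- the real span of a sum is the sum of the real spans -/
theorem realSpan_iSup {N : ℕ} {ι : Sort*} (I : ι → Submodule ℚ (MatQ N)) :
    realSpan (⨆ k, I k) = ⨆ k, realSpan (I k) := by
  apply le_antisymm
  · rw [realSpan, Submodule.span_le]
    rintro _ ⟨x, hx', rfl⟩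
    change toR x ∈ (⨆ k, realSpan (I k))
    replace hx' : x ∈ ⨆ k, I k := hx'
    induction hx' using Submodule.iSup_induction' with
    | mem k x hx =>
      exact Submodule.mem_iSup_of_mem k (Submodule.subset_span ⟨x, hx, rfl⟩)
    | zero =>
      have : toR (0 : MatQ N) = 0 := by ext i j; simp [toR]
      rw [this]; exact Submodule.zero_mem _
    | add x y _ _ hx hy =>
      have : toR (x + y) = toR x + toR y := by ext i j; simp [toR]
      rw [this]; exact Submodule.add_mem _ hx hy
  · refine iSup_le fun k => ?_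
    exact Submodule.span_mono (Set.image_mono (le_iSup I k))

/-- if the elements of two rational spaces commute then so do those of the real spans -/
theorem comm_realSpan {N : ℕ} {I J : Submodule ℚ (MatQ N)}
    (h : ∀ x ∈ I, ∀ y ∈ J, x * y = y * x) :
    ∀ x ∈ realSpan I, ∀ y ∈ realSpan J, x * y = y * x := by
  intro x hx y hy
  induction hx using Submodule.span_induction with
  | mem x hx =>
    obtain ⟨x, hx, rfl⟩ := hx
    induction hy using Submodule.span_induction with
    | mem y hy =>
      obtain ⟨y, hy, rfl⟩ := hy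
      have hm : ∀ x y : MatQ N, toR (x * y) = toR x * toR y := fun x y =>
        Matrix.map_mul (f := Rat.castHom ℝ)
      rw [← hm, ← hm, h x hx y hy]
    | zero => simp
    | add y z _ _ hy hz => rw [mul_add, add_mul, hy, hz]
    | smul t y _ hy => rw [Matrix.mul_smul, Matrix.smul_mul, hy]
  | zero => simp
  | add x z _ _ hx hz => rw [mul_add, add_mul, hx, hz]
  | smul t x _ hx => rw [Matrix.mul_smul, Matrix.smul_mul, hx]

end proj

theorem T_proj (hP1 : S_centre) : S_proj := by
  intro N ι hι L I hL
  classical
  set V : ι → Submodule ℝ (Mat N) := fun k => realSpan (I k) with hV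
  have hLV : realSpan L = ⨆ k, V k := by rw [hL.sum, proj.realSpan_iSup]
  have hVc : ∀ j k, j ≠ k → ∀ x ∈ V j, ∀ y ∈ V k, x * y = y * x := fun j k hjk =>
    proj.comm_realSpan (hL.comm j k hjk)
  -- the sum of the others
  set U : ι → Submodule ℝ (Mat N) := fun k => ⨆ j : {j // j ≠ k}, V j with hU
  have hUc : ∀ k, ∀ x ∈ U k, ∀ y ∈ V k, x * y = y * x := by
    intro k x hx y hy
    induction hx using Submodule.iSup_induction' with
    | mem j x hx => exact hVc j k j.2 x hx y hy
    | zero => simp
    | add x z _ _ hx hz => rw [mul_add, add_mul, hx, hz]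
  have hVU : ∀ k, Disjoint (V k) (U k) := by
    intro k
    rw [Submodule.disjoint_def]
    intro x hx hx'
    refine hP1 (hL.simple k) hx fun y hy => ?_
    exact hUc k x hx' (toR y) (Submodule.subset_span ⟨y, hy, rfl⟩)
  have hex : ∀ k, ∃ C : Submodule ℝ (Mat N), U k ≤ C ∧ IsCompl (V k) C := by
    intro k
    obtain ⟨C, h1, h2⟩ := (hVU k).symm.exists_isCompl
    exact ⟨C, h1, h2.symm⟩
  choose C hUC hVC using hex
  set π : ι → (Mat N →ₗ[ℝ] Mat N) := fun k => (V k).projection (C k) (hVC k) with hπ
  have p1 : ∀ k x, π k x ∈ V k := fun k x => Submodule.projection_apply_mem (hVC k) x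
  have p4 : ∀ k, ∀ x ∈ V k, π k x = x := fun k x hx =>
    Submodule.projection_apply_of_mem_left (hVC k) hx
  have p6 : ∀ k, ∀ x ∈ U k, π k x = 0 := fun k x hx =>
    Submodule.projection_apply_of_mem_right (hVC k) (hUC k hx)
  have hVleU : ∀ j k, j ≠ k → V j ≤ U k := fun j k hjk =>
    le_iSup (fun j : {j // j ≠ k} => V j) ⟨j, hjk⟩
  have p5 : ∀ j k, j ≠ k → ∀ x ∈ V j, π k x = 0 := fun j k hjk x hx =>
    p6 k x (hVleU j k hjk hx)
  have p3 : ∀ x ∈ realSpan L, x = ∑ k, π k x := by
    intro x hx
    rw [hLV] at hx
    induction hx using Submodule.iSup_induction' with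
    | mem j x hx =>
      rw [Finset.sum_eq_single j (fun k _ hk => p5 j k hk.symm x hx)
        (fun h => absurd (Finset.mem_univ j) h), p4 j x hx]
    | zero => simp
    | add x z _ _ hx hz =>
      conv_lhs => rw [hx, hz]
      rw [← Finset.sum_add_distrib]
      exact Finset.sum_congr rfl fun k _ => (map_add (π k) x z).symm
  refine ⟨π, fun k x _ => p1 k x, ?_, p3, p4, p5, ?_, ?_, ?_⟩
  · intro x hx h
    rw [p3 x hx]
    exact Finset.sum_eq_zero fun k _ => h k
  · intro k x hx
    rw [proj.realSpan_iSup]
    constructor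
    · intro h
      rw [p3 x hx]
      refine Submodule.sum_mem _ fun j _ => ?_
      by_cases hjk : j = k
      · subst hjk; rw [h]; exact Submodule.zero_mem _
      · exact hVleU j k hjk (p1 j x)
    · intro h
      exact p6 k x h
  · intro k x hx y hy
    have h1 : x * y = ∑ j, π j x * y := by
      conv_lhs => rw [p3 x hx]
      rw [Finset.sum_mul]
    have h2 : y * x = ∑ j, y * π j x := by
      conv_lhs => rw [p3 x hx]
      rw [Finset.mul_sum]
    rw [h1, h2, ← Finset.sum_sub_distrib]
    refine Finset.sum_eq_single k (fun j _ hj => ?_) (fun h => absurd (Finset.mem_univ k) h)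
    exact sub_eq_zero.2 (hVc j k hj _ (p1 j x) y hy)
  · intro k x hx h
    rw [p3 x hx, Finset.sum_eq_single k (fun j _ hj => h j hj)
      (fun h => absurd (Finset.mem_univ k) h)]
    exact p1 k x

end Pool.Agent.Helper654_DO
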