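import Pool.Agent.Helper654_DO.Stmts

set_option autoImplicit false

open Matrix Module Filter Topology

namespace Pool.Agent.Helper654_DO

namespace rep_escape

variable {N : ℕ} {H : QGroup N}

/-! ### `det exp = exp tr` -/

/-- derivative of the determinant at the identity -/
theorem hasDerivAt_det {k : ℕ} (g : ℝ → Matrix (Fin k) (Fin k) ℝ) (g' : Matrix (Fin k) (Fin k) ℝ)
    (hg : ∀ i j, HasDerivAt (fun t => g t i j) (g' i j) 0) (h1 : g 0 = 1) :
    HasDerivAt (fun t => (g t).det) g'.trace 0 := by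
  have h2 : ∀ σ : Equiv.Perm (Fin k), HasDerivAt (fun t => ∏ i, g t (σ i) i)
      (∑ i, (∏ j ∈ Finset.univ.erase i, g 0 (σ j) j) • g' (σ i) i) 0 := fun σ =>
    HasDerivAt.fun_finsetProd (u := Finset.univ) (f := fun i t => g t (σ i) i)
      (f' := fun i => g' (σ i) i) (fun i _ => hg (σ i) i)
  have h3 : HasDerivAt (fun t => ∑ σ : Equiv.Perm (Fin k),
      ((Equiv.Perm.sign σ : ℤ) : ℝ) * ∏ i, g t (σ i) i)
      (∑ σ : Equiv.Perm (Fin k), ((Equiv.Perm.sign σ : ℤ) : ℝ) *
        ∑ i, (∏ j ∈ Finset.univ.erase i, g 0 (σ j) j) • g' (σ i) i) 0 :=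
    HasDerivAt.fun_sum (fun σ _ => (h2 σ).const_mul _)
  have h4 : (∑ σ : Equiv.Perm (Fin k), ((Equiv.Perm.sign σ : ℤ) : ℝ) *
        ∑ i, (∏ j ∈ Finset.univ.erase i, g 0 (σ j) j) • g' (σ i) i) = g'.trace := by
    rw [Finset.sum_eq_single 1]
    · simp [h1, Matrix.trace]
    · intro σ _ hσ
      rw [Finset.sum_eq_zero, mul_zero]
      intro i _
      have : ∃ j, j ≠ i ∧ σ j ≠ j := by
        by_contra hcon
        push Not at hcon
        apply hσ
        ext j
        by_cases hj : j = i
        · subst hj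
          by_contra hne
          have hne' : σ j ≠ j := fun h => hne (by rw [h]; rfl)
          have := hcon (σ j) hne'
          exact hne' (σ.injective this)
        · rw [hcon j hj]; rfl
      obtain ⟨j, hj, hj'⟩ := this
      rw [Finset.prod_eq_zero (Finset.mem_erase.mpr ⟨hj, Finset.mem_univ j⟩), zero_smul]
      rw [h1, Matrix.one_apply_ne hj']
    · intro h; exact absurd (Finset.mem_univ _) h
  rw [h4] at h3
  have h5 : (fun t => (g t).det) = fun t => ∑ σ : Equiv.Perm (Fin k),
      ((Equiv.Perm.sign σ : ℤ) : ℝ) * ∏ i, g t (σ i) i := by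
    funext t
    rw [Matrix.det_apply']
  rw [h5]
  exact h3

attribute [local instance] Matrix.linftyOpNormedRing Matrix.linftyOpNormedAlgebra

lemma exp_entry {n : ℕ} (X : Mat n) (i j : Fin n) :
    HasDerivAt (fun t : ℝ => NormedSpace.exp (t • X) i j) (X i j) 0 := by
  have h := hasDerivAt_exp_smul_const X (0 : ℝ)
  rw [zero_smul, NormedSpace.exp_zero, one_mul] at h
  exact (LinearMap.toContinuousLinearMap
    (Matrix.entryLinearMap ℝ ℝ i j)).hasFDerivAt.comp_hasDerivAt (0 : ℝ) h

/-- `det exp = exp tr` -/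
lemma det_exp {n : ℕ} (X : Mat n) : (NormedSpace.exp X).det = Real.exp X.trace := by
  set f : ℝ → ℝ := fun t => (NormedSpace.exp (t • X)).det with hf
  have hf0 : f 0 = 1 := by simp [hf]
  have hd0 : HasDerivAt f X.trace 0 :=
    hasDerivAt_det (fun t => NormedSpace.exp (t • X)) X (fun i j => exp_entry X i j) (by simp)
  have hadd : ∀ s t, f (s + t) = f s * f t := by
    intro s t
    simp only [hf]
    rw [add_smul, Matrix.exp_add_of_commute _ _
      ((Commute.refl X).smul_left s |>.smul_right t), Matrix.det_mul]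
  have hd : ∀ t, HasDerivAt f (f t * X.trace) t := by
    intro t
    have h1 : f = fun s => f t * f (s - t) := by
      funext s
      rw [← hadd]
      congr 1
      ring
    have h2 : HasDerivAt (fun s : ℝ => s - t) 1 t := (hasDerivAt_id t).sub_const t
    have h3 : HasDerivAt f X.trace (t - t) := by rw [sub_self]; exact hd0
    have h4 : HasDerivAt (fun s => f (s - t)) X.trace t := HasDerivAt.comp_sub_const t t h3
    have h5 := h4.const_mul (f t)
    rw [← h1] at h5
    exact h5
  have hg : ∀ t, HasDerivAt (fun t => f t * Real.exp (-(t * X.trace))) 0 t := by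
    intro t
    have h1 : HasDerivAt (fun t : ℝ => Real.exp (-(t * X.trace)))
        (Real.exp (-(t * X.trace)) * (-(1 * X.trace))) t :=
      (((hasDerivAt_id t).mul_const X.trace).neg).exp
    have h2 := (hd t).mul h1
    have h3 : f t * X.trace * Real.exp (-(t * X.trace)) +
        f t * (Real.exp (-(t * X.trace)) * (-(1 * X.trace))) = 0 := by ring
    rw [h3] at h2
    exact h2
  have hc := is_const_of_deriv_eq_zero (fun t => (hg t).differentiableAt)
    (fun t => (hg t).deriv) 1 0
  simp only [hf0, one_mul, zero_mul, neg_zero, Real.exp_zero] at hc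
  have h1 : f 1 = (NormedSpace.exp X).det := by simp [hf]
  rw [h1] at hc
  have h2 : (NormedSpace.exp X).det * Real.exp (-X.trace) * Real.exp X.trace =
      1 * Real.exp X.trace := by rw [hc]
  rw [mul_assoc, ← Real.exp_add, neg_add_cancel, Real.exp_zero, mul_one, one_mul] at h2
  exact h2

/-! ### the derivative of a representation -/

lemma differentiable_aeval {ι : Type*} [Fintype ι] (p : MvPolynomial ι ℚ) :
    Differentiable ℝ fun x : ι → ℝ => MvPolynomial.aeval x p := by
  induction p using MvPolynomial.induction_on with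
  | C a =>
    simp only [MvPolynomial.aeval_C]
    exact differentiable_const _
  | add p q hp hq =>
    simp only [map_add]
    exact hp.add hq
  | mul_X p i hp =>
    simp only [map_mul, MvPolynomial.aeval_X]
    exact hp.mul (differentiable_apply i)

/-- the coordinates of a pair of matrices -/
def vec (A B : Mat N) : (Fin N × Fin N) ⊕ (Fin N × Fin N) → ℝ :=
  Sum.elim (fun p => A p.1 p.2) (fun p => B p.1 p.2)

/-- the derivative of a representation at the identity -/
noncomputable def dr (r : H.Rep) : Mat N →ₗ[ℝ] Matrix (Fin r.m) (Fin r.m) ℝ where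
  toFun Y := Matrix.of fun i j =>
    fderiv ℝ (fun x => MvPolynomial.aeval x (r.P i j)) (vec 1 1) (vec Y (-Y))
  map_add' := by
    intro Y Z
    have h : vec (Y + Z) (-(Y + Z)) = vec Y (-Y) + vec Z (-Z) := by
      funext s
      rcases s with p | p
      · simp [vec]
      · simp [vec]; ring
    ext i j
    simp only [Matrix.of_apply, Matrix.add_apply]
    rw [h, map_add]
  map_smul' := by
    intro c Y
    have h : vec (c • Y) (-(c • Y)) = c • vec Y (-Y) := by
      funext s
      rcases s with p | p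
      · simp [vec]
      · simp [vec]
    ext i j
    simp only [Matrix.of_apply, Matrix.smul_apply, RingHom.id_apply]
    rw [h, map_smul]

lemma hasDerivAt_matrix {m : ℕ} {F : ℝ → Matrix (Fin m) (Fin m) ℝ}
    {F' : Matrix (Fin m) (Fin m) ℝ} {t : ℝ}
    (h : ∀ i j, HasDerivAt (fun s => F s i j) (F' i j) t) : HasDerivAt F F' t := by
  have h1 : F = fun s => ∑ i, ∑ j, F s i j • (Matrix.single i j (1 : ℝ) :
      Matrix (Fin m) (Fin m) ℝ) := by
    funext s
    conv_lhs => rw [Matrix.matrix_eq_sum_single (F s)]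
    simp
  have h2 : F' = ∑ i, ∑ j, F' i j • (Matrix.single i j (1 : ℝ) :
      Matrix (Fin m) (Fin m) ℝ) := by
    conv_lhs => rw [Matrix.matrix_eq_sum_single F']
    simp
  rw [h1, h2]
  exact HasDerivAt.fun_sum fun i _ => HasDerivAt.fun_sum fun j _ => (h i j).smul_const _

lemma rho_deriv_zero (r : H.Rep) (Y : H.lieR) :
    HasDerivAt (fun t : ℝ => r.ρ (H.exp (t • Y))) (dr r Y) 0 := by
  refine hasDerivAt_matrix fun i j => ?_
  have h : (fun t : ℝ => r.ρ (H.exp (t • Y)) i j) = fun t : ℝ =>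
      MvPolynomial.aeval (vec (NormedSpace.exp (t • (Y : Mat N)))
        (NormedSpace.exp (t • (-(Y : Mat N))))) (r.P i j) := by
    funext t
    rw [r.spec]
    congr 2
    funext s
    rcases s with p | p
    · rfl
    · simp only [vec, Sum.elim_inr, smul_neg]
      rfl
  rw [h]
  have hvec : HasDerivAt (fun t : ℝ => vec (NormedSpace.exp (t • (Y : Mat N)))
        (NormedSpace.exp (t • (-(Y : Mat N))))) (vec (Y : Mat N) (-(Y : Mat N))) 0 := by
    rw [hasDerivAt_pi]
    intro s
    rcases s with p | p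
    · exact exp_entry _ _ _
    · exact exp_entry _ _ _
  have h0 : vec (NormedSpace.exp ((0 : ℝ) • (Y : Mat N)))
        (NormedSpace.exp ((0 : ℝ) • (-(Y : Mat N)))) = vec 1 1 := by
    simp
  have hd := (differentiable_aeval (r.P i j)).differentiableAt (x := vec (1 : Mat N) 1)
  have hd' : HasFDerivAt (fun x => MvPolynomial.aeval x (r.P i j))
      (fderiv ℝ (fun x => MvPolynomial.aeval x (r.P i j)) (vec (1 : Mat N) 1))
      (vec (NormedSpace.exp ((0 : ℝ) • (Y : Mat N)))
        (NormedSpace.exp ((0 : ℝ) • (-(Y : Mat N))))) := by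
    rw [h0]; exact hd.hasFDerivAt
  exact hd'.comp_hasDerivAt (0 : ℝ) hvec

lemma exp_add_smul (Y : H.lieR) (s t : ℝ) :
    H.exp ((s + t) • Y) = H.exp (s • Y) * H.exp (t • Y) := by
  apply Subtype.ext
  apply Units.ext
  show NormedSpace.exp ((s + t) • (Y : Mat N)) =
    NormedSpace.exp (s • (Y : Mat N)) * NormedSpace.exp (t • (Y : Mat N))
  rw [add_smul, Matrix.exp_add_of_commute _ _
      ((Commute.refl (Y : Mat N)).smul_left s |>.smul_right t)]

lemma exp_zero_smul (Y : H.lieR) : H.exp ((0 : ℝ) • Y) = 1 := by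
  apply Subtype.ext
  apply Units.ext
  show NormedSpace.exp ((0 : ℝ) • (Y : Mat N)) = 1
  simp

lemma rho_deriv (r : H.Rep) (Y : H.lieR) (t : ℝ) :
    HasDerivAt (fun t : ℝ => r.ρ (H.exp (t • Y))) (r.ρ (H.exp (t • Y)) * dr r Y) t := by
  have h1 : (fun s : ℝ => r.ρ (H.exp (s • Y))) =
      fun s : ℝ => r.ρ (H.exp (t • Y)) * r.ρ (H.exp ((s - t) • Y)) := by
    funext s
    rw [← map_mul, ← exp_add_smul, add_sub_cancel]
  have h3 : HasDerivAt (fun s : ℝ => r.ρ (H.exp (s • Y))) (dr r Y) (t - t) := by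
    rw [sub_self]; exact rho_deriv_zero r Y
  have h4 : HasDerivAt (fun s => r.ρ (H.exp ((s - t) • Y))) (dr r Y) t :=
    HasDerivAt.comp_sub_const t t h3
  have h5 := h4.const_mul (r.ρ (H.exp (t • Y)))
  rw [← h1] at h5
  exact h5

lemma rho_deriv_neg (r : H.Rep) (Y : H.lieR) (t : ℝ) :
    HasDerivAt (fun t : ℝ => r.ρ (H.exp ((-t) • Y))) (-(r.ρ (H.exp ((-t) • Y)) * dr r Y)) t := by
  have h := (rho_deriv r Y (-t)).scomp t (hasDerivAt_neg t)
  rw [neg_smul, one_smul] at h
  exact h

lemma expGL_conj (g : GL (Fin N) ℝ) (Z : Mat N) :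
    expGL ((g : Mat N) * Z * ((g⁻¹ : GL (Fin N) ℝ) : Mat N)) = g * expGL Z * g⁻¹ := by
  apply Units.ext
  show NormedSpace.exp ((g : Mat N) * Z * ((g⁻¹ : GL (Fin N) ℝ) : Mat N)) =
    (g : Mat N) * NormedSpace.exp Z * ((g⁻¹ : GL (Fin N) ℝ) : Mat N)
  exact Matrix.exp_units_conj g Z

lemma conj_smul (g : GL (Fin N) ℝ) (Z : Mat N) (t : ℝ) :
    t • ((g : Mat N) * Z * ((g⁻¹ : GL (Fin N) ℝ) : Mat N)) =
      (g : Mat N) * (t • Z) * ((g⁻¹ : GL (Fin N) ℝ) : Mat N) := by
  rw [Matrix.mul_smul, Matrix.smul_mul]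

lemma conj_mem (g : H.G) (Z : H.lieR) :
    ((g : GL (Fin N) ℝ) : Mat N) * (Z : Mat N) * (((g : GL (Fin N) ℝ)⁻¹ : GL (Fin N) ℝ) : Mat N) ∈
      H.lieR := by
  refine (H.lie_iff _).mp fun t => ?_
  rw [conj_smul, expGL_conj]
  exact H.G.mul_mem (H.G.mul_mem g.2 ((H.lie_iff _).mpr Z.2 t)) (H.G.inv_mem g.2)

/-- conjugation -/
noncomputable def cj (g : H.G) (Z : H.lieR) : H.lieR := ⟨_, conj_mem g Z⟩

lemma exp_cj (g : H.G) (Z : H.lieR) (t : ℝ) :
    H.exp (t • cj g Z) = g * H.exp (t • Z) * g⁻¹ := by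
  apply Subtype.ext
  show expGL (t • (((g : GL (Fin N) ℝ) : Mat N) * (Z : Mat N) *
    (((g : GL (Fin N) ℝ)⁻¹ : GL (Fin N) ℝ) : Mat N))) =
    (g : GL (Fin N) ℝ) * expGL (t • (Z : Mat N)) * (g : GL (Fin N) ℝ)⁻¹
  rw [conj_smul, expGL_conj]

lemma dr_cj (r : H.Rep) (g : H.G) (Z : H.lieR) :
    dr r (cj g Z) = r.ρ g * dr r Z * r.ρ g⁻¹ := by
  have h1 := rho_deriv_zero r (cj g Z)
  have h2 := ((rho_deriv_zero r Z).const_mul (r.ρ g)).mul_const (r.ρ g⁻¹)
  have h3 : (fun t : ℝ => r.ρ (H.exp (t • cj g Z))) =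
      fun t : ℝ => r.ρ g * r.ρ (H.exp (t • Z)) * r.ρ g⁻¹ := by
    funext t
    rw [exp_cj, map_mul, map_mul]
  rw [h3] at h1
  exact h1.unique h2

lemma exp_inv (Y : H.lieR) (t : ℝ) : (H.exp (t • Y))⁻¹ = H.exp ((-t) • Y) := by
  rw [inv_eq_iff_mul_eq_one, ← exp_add_smul, add_neg_cancel, exp_zero_smul]

lemma dr_lie (r : H.Rep) (Y Z : H.lieR) :
    dr r ((Y : Mat N) * (Z : Mat N) - (Z : Mat N) * (Y : Mat N)) =
      dr r Y * dr r Z - dr r Z * dr r Y := by
  -- the curve
  have hc : HasDerivAt (fun t : ℝ => NormedSpace.exp (t • (Y : Mat N)) * (Z : Mat N) *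
      NormedSpace.exp (t • (-(Y : Mat N))))
      ((Y : Mat N) * (Z : Mat N) - (Z : Mat N) * (Y : Mat N)) 0 := by
    have h1 := hasDerivAt_exp_smul_const (𝕂 := ℝ) (Y : Mat N) (0 : ℝ)
    have h2 := hasDerivAt_exp_smul_const (𝕂 := ℝ) (-(Y : Mat N)) (0 : ℝ)
    have h3 := (h1.mul_const (Z : Mat N)).mul h2
    simp only [zero_smul, NormedSpace.exp_zero, one_mul, mul_one, mul_neg] at h3
    rw [sub_eq_add_neg]
    exact h3
  have h4 := (LinearMap.toContinuousLinearMap (dr r)).hasFDerivAt.comp_hasDerivAt (0 : ℝ) hc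
  have h5 : (fun t : ℝ => dr r (NormedSpace.exp (t • (Y : Mat N)) * (Z : Mat N) *
      NormedSpace.exp (t • (-(Y : Mat N))))) =
      fun t : ℝ => r.ρ (H.exp (t • Y)) * dr r Z * r.ρ (H.exp ((-t) • Y)) := by
    funext t
    rw [← exp_inv, ← dr_cj]
    congr 1
    show _ = NormedSpace.exp (t • (Y : Mat N)) * (Z : Mat N) *
      NormedSpace.exp (-(t • (Y : Mat N)))
    rw [smul_neg]
  have h6 : HasDerivAt (fun t : ℝ => dr r (NormedSpace.exp (t • (Y : Mat N)) * (Z : Mat N) *
      NormedSpace.exp (t • (-(Y : Mat N)))))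
      (dr r ((Y : Mat N) * (Z : Mat N) - (Z : Mat N) * (Y : Mat N))) 0 := h4
  rw [h5] at h6
  have h7 := ((rho_deriv_zero r Y).mul_const (dr r Z)).mul (rho_deriv_neg r Y 0)
  rw [neg_zero, exp_zero_smul, map_one, one_mul, mul_one, one_mul, mul_neg,
    ← sub_eq_add_neg] at h7
  exact h6.unique h7

/-- the real Lie algebra is closed under brackets -/
lemma lieR_lie : ∀ x ∈ H.lieR, ∀ y ∈ H.lieR, x * y - y * x ∈ H.lieR := by
  intro x hx y hy
  have hx' : x ∈ Submodule.span ℝ (toR '' (H.lieQ : Set (MatQ N))) := hx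
  have hy' : y ∈ Submodule.span ℝ (toR '' (H.lieQ : Set (MatQ N))) := hy
  induction hx' using Submodule.span_induction with
  | mem x hx1 =>
    obtain ⟨a, ha, rfl⟩ := hx1
    induction hy' using Submodule.span_induction with
    | mem y hy1 =>
      obtain ⟨b, hb, rfl⟩ := hy1
      refine Submodule.subset_span ⟨a * b - b * a, H.lie_mem a ha b hb, ?_⟩
      have key : ∀ C D : MatQ N, toR C * toR D = toR (C * D) := by
        intro C D
        exact (Matrix.map_mul (f := Rat.castHom ℝ)).symm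
      rw [key, key]
      ext i j
      simp [toR]
    | zero => simp
    | add y z _ _ h1 h2 =>
      have : toR a * (y + z) - (y + z) * toR a =
          (toR a * y - y * toR a) + (toR a * z - z * toR a) := by noncomm_ring
      rw [this]
      exact H.lieR.add_mem (h1 (by assumption)) (h2 (by assumption))
    | smul c y _ h1 =>
      have : toR a * (c • y) - (c • y) * toR a = c • (toR a * y - y * toR a) := by
        rw [Matrix.mul_smul, Matrix.smul_mul, smul_sub]
      rw [this]
      exact H.lieR.smul_mem c (h1 (by assumption))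
  | zero => simp
  | add u v _ _ h1 h2 =>
    have : (u + v) * y - y * (u + v) = (u * y - y * u) + (v * y - y * v) := by noncomm_ring
    rw [this]
    exact H.lieR.add_mem (h1 (by assumption)) (h2 (by assumption))
  | smul c u _ h1 =>
    have : (c • u) * y - y * (c • u) = c • (u * y - y * u) := by
      rw [Matrix.mul_smul, Matrix.smul_mul, smul_sub]
    rw [this]
    exact H.lieR.smul_mem c (h1 (by assumption))

lemma inv_mul {m : ℕ} {p A B : Matrix (Fin m) (Fin m) ℝ} (hA : A * p = p * A * p)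
    (hB : B * p = p * B * p) : A * B * p = p * (A * B) * p := by
  calc A * B * p = A * (B * p) := mul_assoc _ _ _
    _ = A * (p * B * p) := by rw [← hB]
    _ = (A * p) * (B * p) := by noncomm_ring
    _ = (p * A * p) * (B * p) := by rw [← hA]
    _ = p * A * (p * B * p) := by noncomm_ring
    _ = p * A * (B * p) := by rw [← hB]
    _ = p * (A * B) * p := by noncomm_ring

lemma mul_inv_eq {m : ℕ} {p A B : Matrix (Fin m) (Fin m) ℝ} (hB : B * p = p * B * p) :
    A * B * p = (A * p) * (B * p) := by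
  calc A * B * p = A * (B * p) := mul_assoc _ _ _
    _ = A * (p * B * p) := by rw [← hB]
    _ = (A * p) * (B * p) := by noncomm_ring

/-! ### the contraction argument -/

/-- the final contradiction: `p` a projection to an invariant contracted subspace -/
lemma no_contraction (r : H.Rep) (X : H.lieR) (p : Matrix (Fin r.m) (Fin r.m) ℝ)
    (hp : p * p = p) (hinv : dr r X * p = p * dr r X * p) (htr : (dr r X * p).trace = 0)
    (hcon : ∀ v, Tendsto (fun t : ℝ => r.ρ (H.exp (t • X)) *ᵥ (p *ᵥ v)) atTop (𝓝 0)) : p = 0 := by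
  set B := dr r X with hB
  set C := B * p with hC
  have hpC : p * C = C := by rw [hC, ← mul_assoc]; exact hinv.symm
  have hCp : C * p = C := by rw [hC, mul_assoc, hp]
  -- `exp(tC)` commutes with `p`
  have hcomm : ∀ t : ℝ, p * NormedSpace.exp (t • C) = NormedSpace.exp (t • C) * p := by
    intro t
    have h1 : Commute p (t • C) := by
      have : Commute p C := by rw [commute_iff_eq, hpC, hCp]
      exact this.smul_right t
    exact (h1.exp_right).eq
  -- `exp(tC) (1 - p) = 1 - p`
  have hfix : ∀ t : ℝ, NormedSpace.exp (t • C) * (1 - p) = 1 - p := by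
    intro t
    have hd : ∀ t : ℝ, HasDerivAt (fun t : ℝ => NormedSpace.exp (t • C) * (1 - p)) 0 t := by
      intro t
      have h1 := (hasDerivAt_exp_smul_const (𝕂 := ℝ) C t).mul_const (1 - p)
      have h2 : NormedSpace.exp (t • C) * C * (1 - p) = 0 := by
        rw [mul_assoc, mul_sub, mul_one, hCp, sub_self, mul_zero]
      exact h1.congr_deriv h2
    have hc := is_const_of_deriv_eq_zero (fun t => (hd t).differentiableAt)
      (fun t => (hd t).deriv) t 0
    simpa using hc
  -- `exp(tC) p = A(t) p`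
  have hexp : ∀ t : ℝ, NormedSpace.exp (t • C) * p = r.ρ (H.exp (t • X)) * p := by
    intro t
    have hd : ∀ t : ℝ, HasDerivAt (fun t : ℝ =>
        r.ρ (H.exp ((-t) • X)) * (NormedSpace.exp (t • C) * p)) 0 t := by
      intro t
      have h1 := (rho_deriv_neg r X t).mul
        ((hasDerivAt_exp_smul_const' (𝕂 := ℝ) C t).mul_const p)
      have h2 : -(r.ρ (H.exp ((-t) • X)) * dr r X) * (NormedSpace.exp (t • C) * p) +
          r.ρ (H.exp ((-t) • X)) * (C * NormedSpace.exp (t • C) * p) = 0 := by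
        have h3 : NormedSpace.exp (t • C) * p = p * (NormedSpace.exp (t • C) * p) := by
          rw [← mul_assoc, hcomm, mul_assoc, hp]
        have h4 : C * NormedSpace.exp (t • C) * p = B * (NormedSpace.exp (t • C) * p) := by
          calc C * NormedSpace.exp (t • C) * p = (B * p) * (NormedSpace.exp (t • C) * p) :=
                mul_assoc _ _ _
            _ = B * (p * (NormedSpace.exp (t • C) * p)) := mul_assoc _ _ _
            _ = B * (NormedSpace.exp (t • C) * p) := by rw [← h3]
        rw [h4, ← hB]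
        noncomm_ring
      exact h1.congr_deriv h2
    have hc := is_const_of_deriv_eq_zero (fun t => (hd t).differentiableAt)
      (fun t => (hd t).deriv) t 0
    have e0 : H.exp (0 : H.lieR) = 1 := by simpa using exp_zero_smul (0 : H.lieR)
    simp only [neg_zero, map_one, one_mul, zero_smul, NormedSpace.exp_zero, e0] at hc
    have h5 : r.ρ (H.exp (t • X)) * (r.ρ (H.exp ((-t) • X)) * (NormedSpace.exp (t • C) * p)) =
        r.ρ (H.exp (t • X)) * p := by rw [hc]
    rw [← mul_assoc, ← map_mul, ← exp_add_smul, add_neg_cancel, exp_zero_smul, map_one,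
      one_mul] at h5
    exact h5
  have hsum : ∀ t : ℝ, NormedSpace.exp (t • C) = r.ρ (H.exp (t • X)) * p + (1 - p) := by
    intro t
    rw [← hexp t]
    conv_rhs => rw [← hfix t]
    rw [← mul_add]
    simp
  have hdet : ∀ t : ℝ, (r.ρ (H.exp (t • X)) * p + (1 - p)).det = 1 := by
    intro t
    rw [← hsum t, det_exp, Matrix.trace_smul, htr, smul_zero, Real.exp_zero]
  have hlim : Tendsto (fun t : ℝ => r.ρ (H.exp (t • X)) * p + (1 - p)) atTop (𝓝 (0 + (1 - p))) := by
    refine Tendsto.add_const _ ?_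
    refine tendsto_pi_nhds.mpr fun i => tendsto_pi_nhds.mpr fun j => ?_
    have h1 := hcon (Pi.single j 1)
    rw [tendsto_pi_nhds] at h1
    have h2 := h1 i
    have h3 : (fun t : ℝ => (r.ρ (H.exp (t • X)) *ᵥ (p *ᵥ Pi.single j 1)) i) =
        fun t : ℝ => (r.ρ (H.exp (t • X)) * p) i j := by
      funext t
      rw [Matrix.mulVec_mulVec, Matrix.mulVec_single_one]
      rfl
    rw [h3] at h2
    exact h2
  have hlim2 : Tendsto (fun t : ℝ => (r.ρ (H.exp (t • X)) * p + (1 - p)).det) atTop
      (𝓝 (0 + (1 - p)).det) :=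
    ((continuous_id.matrix_det).tendsto _).comp hlim
  simp only [hdet, zero_add] at hlim2
  have h1 : (1 : ℝ) = (1 - p).det := tendsto_nhds_unique tendsto_const_nhds hlim2
  -- `(1 - p) p = 0` and `1 - p` is invertible
  have hunit : IsUnit (1 - p).det := by rw [← h1]; exact isUnit_one
  have hz : (1 - p) * p = 0 := by rw [sub_mul, one_mul, hp, sub_self]
  have h2 : (1 - p)⁻¹ * ((1 - p) * p) = p := by
    rw [← mul_assoc, Matrix.nonsing_inv_mul _ hunit, one_mul]
  rw [hz, mul_zero] at h2
  exact h2.symm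

/-- a projection matrix to a subspace -/
lemma exists_proj {m : ℕ} (W : Submodule ℝ (Fin m → ℝ)) :
    ∃ p : Matrix (Fin m) (Fin m) ℝ, (∀ v, p *ᵥ v ∈ W) ∧ ∀ v ∈ W, p *ᵥ v = v := by
  obtain ⟨f, hf⟩ := W.subtype.exists_leftInverse_of_injective (by simp)
  refine ⟨LinearMap.toMatrix' (W.subtype ∘ₗ f), fun v => ?_, fun v hv => ?_⟩
  · rw [← Matrix.toLin'_apply, Matrix.toLin'_toMatrix']
    exact (f v).2
  · rw [← Matrix.toLin'_apply, Matrix.toLin'_toMatrix']
    have := LinearMap.congr_fun hf ⟨v, hv⟩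
    simp only [LinearMap.comp_apply, LinearMap.id_apply, Submodule.subtype_apply] at this ⊢
    rw [this]

end rep_escape

open rep_escape in
attribute [local instance] Matrix.linftyOpNormedRing Matrix.linftyOpNormedAlgebra in
theorem T_rep_escape : S_rep_escape := by
  intro N H hperf moves hgen r X w hw g
  by_contra hno
  push Not at hno
  have hno' : ∀ l : List (H.lieR × ℝ), (∀ p ∈ l, p.1 ∈ moves) →
      (l.map fun p => H.exp (p.2 • p.1)).prod * g ∈ QGroup.Om r X w := hno
  -- the span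
  set W : Submodule ℝ (Fin r.m → ℝ) := Submodule.span ℝ
    {v | ∃ l : List (H.lieR × ℝ), (∀ p ∈ l, p.1 ∈ moves) ∧
      v = r.ρ ((l.map fun p => H.exp (p.2 • p.1)).prod * g) *ᵥ w} with hW
  have hcon : ∀ v ∈ W, Tendsto (fun t : ℝ => r.ρ (H.exp (t • X)) *ᵥ v) atTop (𝓝 0) := by
    intro v hv
    induction hv using Submodule.span_induction with
    | mem v hv =>
      obtain ⟨l, hl, rfl⟩ := hv
      have h1 := hno' l hl
      have h2 : Tendsto (fun t : ℝ => r.ρ (H.exp (t • X) *
        ((l.map fun p => H.exp (p.2 • p.1)).prod * g)) *ᵥ w) atTop (𝓝 0) := h1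
      simpa only [map_mul, Matrix.mulVec_mulVec] using h2
    | zero => simp
    | add v v' _ _ h1 h2 =>
      have := h1.add h2
      simpa [Matrix.mulVec_add] using this
    | smul c v _ h1 =>
      have := h1.const_smul c
      simpa [Matrix.mulVec_smul] using this
  have hmov : ∀ E ∈ moves, ∀ t : ℝ, ∀ v ∈ W, r.ρ (H.exp (t • E)) *ᵥ v ∈ W := by
    intro E hE t v hv
    induction hv using Submodule.span_induction with
    | mem v hv =>
      obtain ⟨l, hl, rfl⟩ := hv
      refine Submodule.subset_span ⟨(E, t) :: l, ?_, ?_⟩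
      · intro p hp
        rcases List.mem_cons.mp hp with rfl | hp
        · exact hE
        · exact hl p hp
      · rw [Matrix.mulVec_mulVec, ← map_mul, List.map_cons, List.prod_cons, mul_assoc]
    | zero => rw [Matrix.mulVec_zero]; exact W.zero_mem
    | add v v' _ _ h1 h2 => rw [Matrix.mulVec_add]; exact W.add_mem h1 h2
    | smul c v _ h1 => rw [Matrix.mulVec_smul]; exact W.smul_mem c h1
  have hW0 : r.ρ g *ᵥ w ∈ W := by
    refine Submodule.subset_span ⟨[], by simp, ?_⟩
    simp
  have hne : r.ρ g *ᵥ w ≠ 0 := by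
    intro h0
    apply hw
    have h1 : r.ρ g⁻¹ *ᵥ (r.ρ g *ᵥ w) = 0 := by rw [h0, Matrix.mulVec_zero]
    rwa [Matrix.mulVec_mulVec, ← map_mul, inv_mul_cancel, map_one, Matrix.one_mulVec] at h1
  obtain ⟨p, hp1, hp2⟩ := exists_proj W
  have hpp : p * p = p := by
    apply Matrix.ext_of_mulVec_single
    intro j
    rw [← Matrix.mulVec_mulVec]
    exact hp2 _ (hp1 _)
  -- invariance in terms of `p`
  have hinvA : ∀ A : Matrix (Fin r.m) (Fin r.m) ℝ, (∀ v ∈ W, A *ᵥ v ∈ W) →
      A * p = p * A * p := by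
    intro A hA
    apply Matrix.ext_of_mulVec_single
    intro j
    rw [← Matrix.mulVec_mulVec, mul_assoc, ← Matrix.mulVec_mulVec, ← Matrix.mulVec_mulVec]
    exact (hp2 _ (hA _ (hp1 _))).symm
  have hinvE : ∀ E ∈ moves, dr r (E : Mat N) * p = p * dr r (E : Mat N) * p := by
    intro E hE
    have h1 := (rho_deriv_zero r E).mul_const p
    have h2 := ((rho_deriv_zero r E).const_mul p).mul_const p
    have h3 : (fun t : ℝ => r.ρ (H.exp (t • E)) * p) =
        fun t : ℝ => p * r.ρ (H.exp (t • E)) * p := by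
      funext t
      exact hinvA _ (hmov E hE t)
    rw [h3] at h1
    exact h1.unique h2
  -- everything preserves `W`
  have hall : ∀ Y ∈ H.lieR, dr r Y * p = p * dr r Y * p := by
    have hle : H.lieR ≤
        { carrier := {Y | Y ∈ H.lieR ∧ dr r Y * p = p * dr r Y * p}
          zero_mem' := ⟨H.lieR.zero_mem, by simp⟩
          add_mem' := by
            rintro Y Z ⟨hY1, hY2⟩ ⟨hZ1, hZ2⟩
            refine ⟨H.lieR.add_mem hY1 hZ1, ?_⟩
            rw [map_add, add_mul, hY2, hZ2, mul_add, add_mul]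
          smul_mem' := by
            rintro c Y ⟨hY1, hY2⟩
            refine ⟨H.lieR.smul_mem c hY1, ?_⟩
            rw [map_smul, Matrix.smul_mul, hY2, Matrix.mul_smul, Matrix.smul_mul]
          : Submodule ℝ (Mat N) } := by
      apply hgen
      · intro Y hY
        exact hY.1
      · rintro Y ⟨hY1, hY2⟩ Z ⟨hZ1, hZ2⟩
        have hYZ : Y * Z - Z * Y ∈ H.lieR := lieR_lie Y hY1 Z hZ1
        refine ⟨hYZ, ?_⟩
        have h1 := dr_lie r ⟨Y, hY1⟩ ⟨Z, hZ1⟩
        simp only at h1
        rw [h1]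
        have e1 : dr r Y * dr r Z * p = p * (dr r Y * dr r Z) * p := inv_mul hY2 hZ2
        have e2 : dr r Z * dr r Y * p = p * (dr r Z * dr r Y) * p := inv_mul hZ2 hY2
        rw [sub_mul, e1, e2, mul_sub, sub_mul]
      · intro E hE
        exact ⟨E.2, hinvE E hE⟩
    intro Y hY
    exact (hle hY).2
  have htr : ∀ Y ∈ H.lieR, (dr r Y * p).trace = 0 := by
    have hle : H.lieR ≤
        { carrier := {Y | (dr r Y * p).trace = 0}
          zero_mem' := by simp
          add_mem' := by
            intro Y Z hY hZ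
            simp only [Set.mem_ofPred_eq] at hY hZ ⊢
            rw [map_add, add_mul, Matrix.trace_add, hY, hZ, add_zero]
          smul_mem' := by
            intro c Y hY
            simp only [Set.mem_ofPred_eq] at hY ⊢
            rw [map_smul, Matrix.smul_mul, Matrix.trace_smul, hY, smul_zero]
          : Submodule ℝ (Mat N) } := by
      apply hperf
      intro Y hY Z hZ
      show (dr r (Y * Z - Z * Y) * p).trace = 0
      have h1 := dr_lie r ⟨Y, hY⟩ ⟨Z, hZ⟩
      simp only at h1
      rw [h1]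
      have e1 : dr r Y * dr r Z * p = (dr r Y * p) * (dr r Z * p) := mul_inv_eq (hall Z hZ)
      have e2 : dr r Z * dr r Y * p = (dr r Z * p) * (dr r Y * p) := mul_inv_eq (hall Y hY)
      rw [sub_mul, e1, e2, Matrix.trace_sub, Matrix.trace_mul_comm, sub_self]
    intro Y hY
    exact hle hY
  have hp0 := no_contraction r X p hpp (hall X X.2) (htr X X.2) (fun v => hcon _ (hp1 v))
  apply hne
  rw [← hp2 _ hW0, hp0, Matrix.zero_mulVec]

end Pool.Agent.Helper654_DO
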