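import Pool.Agent.Helper654_DO.Stmts3
import Pool.Agent.Helper654_DO.T_rep_escape

/-!
# Escaping, for a subalgebra

The proof of `T_rep_escape` with the real Lie algebra replaced by a perfect subalgebra.
-/

set_option autoImplicit false

open Matrix Module Filter Topology

namespace Pool.Agent.Helper654_DO

open rep_escape in
attribute [local instance] Matrix.linftyOpNormedRing Matrix.linftyOpNormedAlgebra in
theorem T_rep_escape_sub : S_rep_escape_sub := by
  intro N H M₀ hM₀ hperf moves hgen r X hX w hw g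
  by_contra hno
  push Not at hno
  have hno' : ∀ l : List (H.lieR × ℝ), (∀ p ∈ l, p.1 ∈ moves) →
      (l.map fun p => H.exp (p.2 • p.1)).prod * g ∈ QGroup.Om r X w := hno
  -- the span
  set W : Submodule ℝ (Fin r.m → ℝ) := Submodule.span ℝ
    {v | ∃ l : List (H.lieR × ℝ), (∀ p ∈ l, p.1 ∈ moves) ∧
      v = r.ρ ((l.map fun p => H.exp (p.2 • p.1)).prod * g) *ᵥ w} with hW
  have hcon : ∀ v ∈ W, Tendsto (fun t : ℝ => r.ρ (H.exp (t • X)) *ᵥ v) atTop (𝓝 0) := by
    intro v hv
    induction hv using Submodule.span_induction with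
    | mem v hv =>
      obtain ⟨l, hl, rfl⟩ := hv
      have h1 := hno' l hl
      have h2 : Tendsto (fun t : ℝ => r.ρ (H.exp (t • X) *
        ((l.map fun p => H.exp (p.2 • p.1)).prod * g)) *ᵥ w) atTop (𝓝 0) := h1
      simpa only [map_mul, Matrix.mulVec_mulVec] using h2
    | zero => simp
    | add v v' _ _ h1 h2 =>
      have := h1.add h2
      simpa [Matrix.mulVec_add] using this
    | smul c v _ h1 =>
      have := h1.const_smul c
      simpa [Matrix.mulVec_smul] using this
  have hmov : ∀ E ∈ moves, ∀ t : ℝ, ∀ v ∈ W, r.ρ (H.exp (t • E)) *ᵥ v ∈ W := by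
    intro E hE t v hv
    induction hv using Submodule.span_induction with
    | mem v hv =>
      obtain ⟨l, hl, rfl⟩ := hv
      refine Submodule.subset_span ⟨(E, t) :: l, ?_, ?_⟩
      · intro p hp
        rcases List.mem_cons.mp hp with rfl | hp
        · exact hE
        · exact hl p hp
      · rw [Matrix.mulVec_mulVec, ← map_mul, List.map_cons, List.prod_cons, mul_assoc]
    | zero => rw [Matrix.mulVec_zero]; exact W.zero_mem
    | add v v' _ _ h1 h2 => rw [Matrix.mulVec_add]; exact W.add_mem h1 h2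
    | smul c v _ h1 => rw [Matrix.mulVec_smul]; exact W.smul_mem c h1
  have hW0 : r.ρ g *ᵥ w ∈ W := by
    refine Submodule.subset_span ⟨[], by simp, ?_⟩
    simp
  have hne : r.ρ g *ᵥ w ≠ 0 := by
    intro h0
    apply hw
    have h1 : r.ρ g⁻¹ *ᵥ (r.ρ g *ᵥ w) = 0 := by rw [h0, Matrix.mulVec_zero]
    rwa [Matrix.mulVec_mulVec, ← map_mul, inv_mul_cancel, map_one, Matrix.one_mulVec] at h1
  obtain ⟨p, hp1, hp2⟩ := exists_proj W
  have hpp : p * p = p := by
    apply Matrix.ext_of_mulVec_single
    intro j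
    rw [← Matrix.mulVec_mulVec]
    exact hp2 _ (hp1 _)
  -- invariance in terms of `p`
  have hinvA : ∀ A : Matrix (Fin r.m) (Fin r.m) ℝ, (∀ v ∈ W, A *ᵥ v ∈ W) →
      A * p = p * A * p := by
    intro A hA
    apply Matrix.ext_of_mulVec_single
    intro j
    rw [← Matrix.mulVec_mulVec, mul_assoc, ← Matrix.mulVec_mulVec, ← Matrix.mulVec_mulVec]
    exact (hp2 _ (hA _ (hp1 _))).symm
  have hinvE : ∀ E ∈ moves, dr r (E : Mat N) * p = p * dr r (E : Mat N) * p := by
    intro E hE
    have h1 := (rho_deriv_zero r E).mul_const p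
    have h2 := ((rho_deriv_zero r E).const_mul p).mul_const p
    have h3 : (fun t : ℝ => r.ρ (H.exp (t • E)) * p) =
        fun t : ℝ => p * r.ρ (H.exp (t • E)) * p := by
      funext t
      exact hinvA _ (hmov E hE t)
    rw [h3] at h1
    exact h1.unique h2
  -- everything preserves `W`
  have hall : ∀ Y ∈ M₀, dr r Y * p = p * dr r Y * p := by
    have hle : M₀ ≤
        { carrier := {Y | Y ∈ H.lieR ∧ dr r Y * p = p * dr r Y * p}
          zero_mem' := ⟨H.lieR.zero_mem, by simp⟩
          add_mem' := by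
            rintro Y Z ⟨hY1, hY2⟩ ⟨hZ1, hZ2⟩
            refine ⟨H.lieR.add_mem hY1 hZ1, ?_⟩
            rw [map_add, add_mul, hY2, hZ2, mul_add, add_mul]
          smul_mem' := by
            rintro c Y ⟨hY1, hY2⟩
            refine ⟨H.lieR.smul_mem c hY1, ?_⟩
            rw [map_smul, Matrix.smul_mul, hY2, Matrix.mul_smul, Matrix.smul_mul]
          : Submodule ℝ (Mat N) } := by
      apply hgen
      · intro Y hY
        exact hY.1
      · rintro Y ⟨hY1, hY2⟩ Z ⟨hZ1, hZ2⟩
        have hYZ : Y * Z - Z * Y ∈ H.lieR := lieR_lie Y hY1 Z hZ1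
        refine ⟨hYZ, ?_⟩
        have h1 := dr_lie r ⟨Y, hY1⟩ ⟨Z, hZ1⟩
        simp only at h1
        rw [h1]
        have e1 : dr r Y * dr r Z * p = p * (dr r Y * dr r Z) * p := inv_mul hY2 hZ2
        have e2 : dr r Z * dr r Y * p = p * (dr r Z * dr r Y) * p := inv_mul hZ2 hY2
        rw [sub_mul, e1, e2, mul_sub, sub_mul]
      · intro E hE
        exact ⟨E.2, hinvE E hE⟩
    intro Y hY
    exact (hle hY).2
  have htr : ∀ Y ∈ M₀, (dr r Y * p).trace = 0 := by
    have hle : M₀ ≤
        { carrier := {Y | (dr r Y * p).trace = 0}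
          zero_mem' := by simp
          add_mem' := by
            intro Y Z hY hZ
            simp only [Set.mem_ofPred_eq] at hY hZ ⊢
            rw [map_add, add_mul, Matrix.trace_add, hY, hZ, add_zero]
          smul_mem' := by
            intro c Y hY
            simp only [Set.mem_ofPred_eq] at hY ⊢
            rw [map_smul, Matrix.smul_mul, Matrix.trace_smul, hY, smul_zero]
          : Submodule ℝ (Mat N) } := by
      apply hperf
      intro Y hY Z hZ
      show (dr r (Y * Z - Z * Y) * p).trace = 0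
      have h1 := dr_lie r ⟨Y, hM₀ hY⟩ ⟨Z, hM₀ hZ⟩
      simp only at h1
      rw [h1]
      have e1 : dr r Y * dr r Z * p = (dr r Y * p) * (dr r Z * p) := mul_inv_eq (hall Z hZ)
      have e2 : dr r Z * dr r Y * p = (dr r Z * p) * (dr r Y * p) := mul_inv_eq (hall Y hY)
      rw [sub_mul, e1, e2, Matrix.trace_sub, Matrix.trace_mul_comm, sub_self]
    intro Y hY
    exact hle hY
  have hp0 := no_contraction r X p hpp (hall X hX) (htr X hX) (fun v => hcon _ (hp1 v))
  apply hne
  rw [← hp2 _ hW0, hp0, Matrix.zero_mulVec]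

end Pool.Agent.Helper654_DO
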