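import Pool.Agent.Helper654_DO.All
import Pool.Agent.Helper654_DO.FinalSum
import Pool.Agent.Helper654_DO.T_centre
import Pool.Agent.Helper654_DO.T_proj
import Pool.Agent.Helper654_DO.T_iSup_split
import Pool.Agent.Helper654_DO.T_exists_maxsplit
import Pool.Agent.Helper654_DO.T_nondeg_sum
import Pool.Agent.Helper654_DO.T_maxsplit_sum
import Pool.Agent.Helper654_DO.T_rep_escape_sub

/-!
# The theorem for semisimple groups
-/

set_option autoImplicit false

open Matrix Module Filter Topology

namespace Pool.Agent.Helper654_DO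

/-- Non-obvious divergent orbits in the semisimple case. -/
theorem exists_divergent_not_obvious_sum
    {N : ℕ} {ι : Type} [Fintype ι] (H : QGroup N) (I : ι → Submodule ℚ (MatQ N))
    (hL : IsSumOfSimple H.lieQ I) (Γ : Subgroup H.G) (hΓ : Γ.Commensurable H.intPoints)
    (d : Submodule ℝ (Mat N)) (hd : d ≤ H.lieR) (hd' : IsSplit d) (hd0 : 0 < finrank ℝ d)
    (c1 : ∀ k, finrank ℝ d ≤
      finrank ℝ (d ⊓ realSpan (⨆ j : {j : ι // j ≠ k}, I j.1) : Submodule ℝ (Mat N)) + rankLie (I k))
    (c2 : ∀ k, rankLie (I k) ≠ 0 →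
      finrank ℝ (d ⊓ realSpan (I k) : Submodule ℝ (Mat N)) < rankLie (I k)) :
    ∃ x : H.G ⧸ Γ, QGroup.Divergent Γ hd x ∧ ¬ QGroup.Obvious Γ hd x := by
  have A1 : S_diagonalizable_iff := T_diagonalizable_iff
  have A2 : S_simdiag := T_simdiag
  have A3 : S_split_sup := T_split_sup
  have A4 : S_weights := T_weights A2
  have A5 : S_exists_regular := T_exists_regular
  have B1 : S_realSpan_lie := T_realSpan_lie
  have B2 : S_realSpan_perfect := T_realSpan_perfect
  have B4 : S_realSpan_slice := T_realSpan_slice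
  have B3 : S_realSpan_nondeg := T_realSpan_nondeg B4
  have C1 : S_trace_eq_zero_of_comm := T_trace_eq_zero_of_comm
  have C2 : S_jacobson_morozov := T_jacobson_morozov C1
  have C3 : S_sl2_diagonalizable := T_sl2_diagonalizable A1
  have D1 : S_no_nilpotent := T_no_nilpotent A3 A4 C2 C3
  have D2 : S_root_triple := T_root_triple A3 A4 C2 C3
  have D3 : S_reflection := T_reflection
  have D4 : S_expGroup_normalizes := T_expGroup_normalizes
  have E1 : S_exists_mem_nonnegSp := T_exists_mem_nonnegSp A4 D1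
  have E2 : S_conj_pos := T_conj_pos
  have E3 : S_conj_levi := T_conj_levi A1
  have E4 : S_conj_split := T_conj_split A3 A4 A5 D4 E1 E2 E3
  have F1 : S_faithful := T_faithful A2 B4
  have P1 : S_centre := T_centre B4
  have P2 : S_proj := T_proj P1
  have P4 : S_iSup_split := T_iSup_split A3
  have P3 : S_maxsplit_sum := T_maxsplit_sum A2 A3 A4 B1 B3 D1 D2 P1 P2 P4
  exact main_sum A2 B1 B2 E4 (T_position A4 B1 B3 D2 D3 F1) (T_generation A4 F1) P2 P3 P4
    T_exists_maxsplit (T_nondeg_sum B1 B2 B3) (T_cover A2) T_core T_divergence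
    T_locallyCompact T_rep_closed T_rep_finite T_rep_escape_sub T_rep_subseq
    H I hL Γ hΓ d hd hd' hd0 c1 c2

end Pool.Agent.Helper654_DO
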