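import Pool.Agent.Helper654_DO.Help

/-!
# Assembly, first part: the position of `D`
-/

set_option autoImplicit false

open Matrix Module Filter Topology

namespace Pool.Agent.Helper654_DO

theorem exists_split_of_lt_rankQ {N : ℕ} {H : QGroup N} {r : ℕ} (h : r < H.rankQ) :
    ∃ s : Submodule ℚ (MatQ N), s ≤ H.lieQ ∧ IsSplit s ∧ r < finrank ℚ s := by
  have hmem : H.rankQ ∈ {r | ∃ s : Submodule ℚ (MatQ N), s ≤ H.lieQ ∧ IsSplit s ∧ finrank ℚ s = r} := by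
    apply Nat.sSup_mem
    · refine ⟨finrank ℚ (⊥ : Submodule ℚ (MatQ N)), ⊥, bot_le, ⟨?_, ?_⟩, rfl⟩
      · intro x hx y hy
        rw [Submodule.mem_bot] at hx hy
        rw [hx, hy]
      · intro x hx
        rw [Submodule.mem_bot] at hx
        exact ⟨1, 0, by simp [hx]⟩
    · refine ⟨finrank ℚ (MatQ N), ?_⟩
      rintro _ ⟨s, _, _, rfl⟩
      exact Submodule.finrank_le s
  obtain ⟨s, hs, hs', hr⟩ := hmem
  exact ⟨s, hs, hs', by rw [hr]; exact h⟩

theorem trace_lieR (hperf : S_realSpan_perfect) {N : ℕ} {L : Submodule ℚ (MatQ N)}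
    (hL : IsSimpleLie L) {x : Mat N} (hx : x ∈ realSpan L) : x.trace = 0 := by
  have h := hperf hL (LinearMap.ker (Matrix.traceLinearMap (Fin N) ℝ ℝ)) (by
    intro x _ y _
    rw [LinearMap.mem_ker, Matrix.traceLinearMap_apply, Matrix.trace_sub, Matrix.trace_mul_comm x y,
      sub_self])
  exact h hx

/-- the functional `x ↦ tr (x z)` on `s` -/
noncomputable def Phi {N : ℕ} (s : Submodule ℚ (MatQ N)) : Mat N →ₗ[ℝ] (s →ₗ[ℚ] ℝ) where
  toFun z :=
    { toFun := fun x => (toR (x : MatQ N) * z).trace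
      map_add' := fun x y => by rw [Submodule.coe_add, toR_add, add_mul, Matrix.trace_add]
      map_smul' := fun c x => by
        rw [Submodule.coe_smul, toR_smul, Matrix.smul_mul, Matrix.trace_smul, RingHom.id_apply,
          smul_eq_mul, Rat.smul_def] }
  map_add' z w := by
    ext x
    simp [mul_add, Matrix.trace_add]
  map_smul' c z := by
    ext x
    simp

/-- The data obtained by conjugation: `v` in `G`, such that `v d v⁻¹` commutes with `s` and is detected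
by the trace form on `s`. -/
theorem exists_position (hsim : S_simdiag) (hlie : S_realSpan_lie) (hnd : S_realSpan_nondeg)
    (hnorm : S_expGroup_normalizes) (hconj : S_conj_split) (hpos : S_position)
    {N : ℕ} {L : Submodule ℚ (MatQ N)} (hL : IsSimpleLie L) {s : Submodule ℚ (MatQ N)} (hs : s ≤ L)
    (hs' : IsSplit s) {a d : Submodule ℝ (Mat N)} (ha : IsMaxSplit (realSpan L) a) (hda : d ≤ a)
    (hd0 : 0 < finrank ℝ d) (hds : finrank ℝ d ≤ finrank ℚ s) :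
    ∃ v ∈ expGroup (realSpan L), (∀ y ∈ d, cj v y ∈ realSpan L) ∧
      (∀ x ∈ s, ∀ y ∈ d, toR x * cj v y = cj v y * toR x) ∧
      (∀ y ∈ d, (∀ x ∈ s, (toR x * cj v y).trace = 0) → y = 0) := by
  have hg := hlie hL.lie_mem
  have hs0 : s ≠ ⊥ := by
    rintro rfl
    rw [finrank_bot] at hds
    omega
  have hT := hnd hL hs hs' hs0
  obtain ⟨u₁, hu₁, hu₁s⟩ := hconj hg hT ha (realSpan_mono hs) (realSpan_split hsim hs')
  have hn : ∀ u ∈ expGroup (realSpan L), ∀ x ∈ realSpan L, cj u x ∈ realSpan L :=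
    fun u hu x hx => hnorm hg hu hx
  have hu₁' : u₁⁻¹ ∈ expGroup (realSpan L) := inv_mem hu₁
  set a₁ : Submodule ℝ (Mat N) := a.map (cj u₁⁻¹ : Mat N →ₗ[ℝ] Mat N) with ha₁
  have hmax₁ : IsMaxSplit (realSpan L) a₁ :=
    maxSplit_cj u₁⁻¹ (hn _ hu₁') (by rw [inv_inv]; exact hn _ hu₁) ha
  have hsa₁ : ∀ x ∈ s, toR x ∈ a₁ := fun x hx =>
    ⟨cj u₁ (toR x), hu₁s _ (toR_mem hx), cj_inv_cj u₁ _⟩
  set d₁ : Submodule ℝ (Mat N) := d.map (cj u₁⁻¹ : Mat N →ₗ[ℝ] Mat N) with hd₁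
  have hd₁a₁ : d₁ ≤ a₁ := Submodule.map_mono hda
  have hfin : finrank ℝ d₁ = finrank ℝ d := LinearEquiv.finrank_map_eq (cj u₁⁻¹) d
  obtain ⟨u₂, hu₂, hu₂a, hu₂d⟩ := hpos hL hs hs' hmax₁ hsa₁ hd₁a₁ (by rw [hfin]; exact hd0)
    (by rw [hfin]; exact hds)
  refine ⟨u₂ * u₁⁻¹, mul_mem hu₂ hu₁', ?_, ?_, ?_⟩
  · intro y hy
    exact hn _ (mul_mem hu₂ hu₁') _ (ha.le (hda hy))
  · intro x hx y hy
    have h1 : cj (u₂ * u₁⁻¹) y ∈ a₁ := by
      rw [cj_mul]
      exact hu₂a _ (hd₁a₁ ⟨y, hy, rfl⟩)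
    exact hmax₁.split.comm _ (hsa₁ x hx) _ h1
  · intro y hy h
    have h1 : cj u₁⁻¹ y = 0 := by
      apply hu₂d (cj u₁⁻¹ y) ⟨y, hy, rfl⟩
      intro x hx
      have h2 := h x hx
      rw [cj_mul] at h2
      exact h2
    exact (LinearEquiv.map_eq_zero_iff (cj u₁⁻¹)).mp h1

end Pool.Agent.Helper654_DO
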