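import Pool.Agent.Helper654_DO.Stmts

/-!
# Conjugation by exponentials
-/

set_option autoImplicit false

open Matrix Module Filter Topology

namespace Pool.Agent.Helper654_DO.ec

section general

variable {A : Type*} [NormedRing A] [NormedAlgebra ℝ A] [CompleteSpace A]

/-- the bracket with `X` -/
noncomputable def adA (X : A) : A →ₗ[ℝ] A := LinearMap.mulLeft ℝ X - LinearMap.mulRight ℝ X

/-- left multiplication as a bounded operator -/
noncomputable def LL (X : A) : A →L[ℝ] A := ContinuousLinearMap.mul ℝ A X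

/-- right multiplication as a bounded operator -/
noncomputable def RR (X : A) : A →L[ℝ] A := (ContinuousLinearMap.mul ℝ A).flip X

omit [CompleteSpace A] in
theorem LL_apply (X Y : A) : LL X Y = X * Y := rfl
omit [CompleteSpace A] in
theorem RR_apply (X Y : A) : RR X Y = Y * X := rfl

omit [CompleteSpace A] in
theorem LL_pow (X Y : A) (n : ℕ) : ((LL X) ^ n) Y = X ^ n * Y := by
  induction n with
  | zero => simp
  | succ n ih =>
    rw [pow_succ']
    change LL X ((LL X ^ n) Y) = _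
    rw [ih, LL_apply, pow_succ', mul_assoc]

omit [CompleteSpace A] in
theorem RR_pow (X Y : A) (n : ℕ) : ((RR X) ^ n) Y = Y * X ^ n := by
  induction n with
  | zero => simp
  | succ n ih =>
    rw [pow_succ']
    change RR X ((RR X ^ n) Y) = _
    rw [ih, RR_apply, pow_succ, mul_assoc]

theorem exp_LL (X Y : A) : (NormedSpace.exp (LL X)) Y = NormedSpace.exp X * Y := by
  have h1 := (NormedSpace.exp_series_hasSum_exp' (𝕂 := ℝ) X).mul_right Y
  have h2 := (NormedSpace.exp_series_hasSum_exp' (𝕂 := ℝ) (LL X)).mapL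
    (ContinuousLinearMap.apply ℝ A Y)
  refine h2.unique ?_
  have e : (fun n : ℕ => (ContinuousLinearMap.apply ℝ A Y) (((n.factorial : ℝ)⁻¹) • (LL X) ^ n))
      = fun n : ℕ => ((n.factorial : ℝ)⁻¹) • X ^ n * Y := by
    funext n
    change ((n.factorial : ℝ)⁻¹) • (((LL X) ^ n) Y) = _
    rw [LL_pow, smul_mul_assoc]
  exact e ▸ h1

theorem exp_RR (X Y : A) : (NormedSpace.exp (RR X)) Y = Y * NormedSpace.exp X := by
  have h1 := (NormedSpace.exp_series_hasSum_exp' (𝕂 := ℝ) X).mul_left Y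
  have h2 := (NormedSpace.exp_series_hasSum_exp' (𝕂 := ℝ) (RR X)).mapL
    (ContinuousLinearMap.apply ℝ A Y)
  refine h2.unique ?_
  have e : (fun n : ℕ => (ContinuousLinearMap.apply ℝ A Y) (((n.factorial : ℝ)⁻¹) • (RR X) ^ n))
      = fun n : ℕ => Y * ((n.factorial : ℝ)⁻¹) • X ^ n := by
    funext n
    change ((n.factorial : ℝ)⁻¹) • (((RR X) ^ n) Y) = _
    rw [RR_pow, mul_smul_comm]
  exact e ▸ h1

omit [CompleteSpace A] in
theorem comm_LR (X Y : A) : Commute (LL X) (RR Y) := by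
  refine ContinuousLinearMap.ext fun Z => ?_
  change X * (Z * Y) = (X * Z) * Y
  rw [mul_assoc]

omit [CompleteSpace A] in
theorem pow_ad (X Y : A) (n : ℕ) : ((LL X + RR (-X)) ^ n) Y = ((adA X) ^ n) Y := by
  induction n with
  | zero => simp
  | succ n ih =>
    rw [pow_succ']
    change (LL X + RR (-X)) (((LL X + RR (-X)) ^ n) Y) = _
    rw [ih, pow_succ', Module.End.mul_apply]
    change X * _ + _ * (-X) = X * _ - _ * X
    rw [mul_neg, sub_eq_add_neg]

theorem hasSum_conjA (X Y : A) :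
    HasSum (fun n : ℕ => ((n.factorial : ℝ)⁻¹) • ((adA X) ^ n) Y)
      (NormedSpace.exp X * Y * NormedSpace.exp (-X)) := by
  have h2 := (NormedSpace.exp_series_hasSum_exp' (𝕂 := ℝ) (LL X + RR (-X))).mapL
    (ContinuousLinearMap.apply ℝ A Y)
  have h3 : NormedSpace.exp (LL X + RR (-X)) = NormedSpace.exp (LL X) * NormedSpace.exp (RR (-X)) :=
    letI : NormedAlgebra ℚ (A →L[ℝ] A) := NormedAlgebra.restrictScalars ℚ ℝ (A →L[ℝ] A)
    NormedSpace.exp_add_of_commute (comm_LR _ _)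
  have h4 : (ContinuousLinearMap.apply ℝ A Y) (NormedSpace.exp (LL X + RR (-X)))
      = NormedSpace.exp X * Y * NormedSpace.exp (-X) := by
    rw [h3]
    change (NormedSpace.exp (LL X)) ((NormedSpace.exp (RR (-X))) Y) = _
    rw [exp_RR, exp_LL, mul_assoc]
  rw [h4] at h2
  have e : (fun n : ℕ => (ContinuousLinearMap.apply ℝ A Y)
      (((n.factorial : ℝ)⁻¹) • (LL X + RR (-X)) ^ n))
      = fun n : ℕ => ((n.factorial : ℝ)⁻¹) • ((adA X) ^ n) Y := by
    funext n
    change ((n.factorial : ℝ)⁻¹) • (((LL X + RR (-X)) ^ n) Y) = _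
    rw [pow_ad]
  exact e ▸ h2

end general

variable {N : ℕ}

/-- the bracket with `X` -/
noncomputable def adL (X : Mat N) : Mat N →ₗ[ℝ] Mat N :=
  LinearMap.mulLeft ℝ X - LinearMap.mulRight ℝ X

theorem adL_apply (X Y : Mat N) : adL X Y = X * Y - Y * X := rfl

theorem hasSum_conj (X Y : Mat N) :
    HasSum (fun n : ℕ => ((n.factorial : ℝ)⁻¹) • ((adL X) ^ n) Y)
      (NormedSpace.exp X * Y * NormedSpace.exp (-X)) := by
  let _ : NormedRing (Mat N) := Matrix.linftyOpNormedRing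
  let _ : NormedAlgebra ℝ (Mat N) := Matrix.linftyOpNormedAlgebra
  have _ : CompleteSpace (Mat N) := FiniteDimensional.complete ℝ (Mat N)
  exact hasSum_conjA X Y

theorem conj_expGL (X Y : Mat N) :
    ((expGL X : GL (Fin N) ℝ) : Mat N) * Y * (((expGL X)⁻¹ : GL (Fin N) ℝ) : Mat N)
      = NormedSpace.exp X * Y * NormedSpace.exp (-X) := rfl

/-- if `[X, [X, Y]] ∈ M` and `[X, M] ≤ M` then `exp(X) Y exp(-X) - Y - [X, Y] ∈ M` -/
theorem conj_exp_sub_mem {X Y : Mat N} (M : Submodule ℝ (Mat N))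
    (hM : ∀ y ∈ M, X * y - y * X ∈ M)
    (h2 : X * (X * Y - Y * X) - (X * Y - Y * X) * X ∈ M) :
    ((expGL X : GL (Fin N) ℝ) : Mat N) * Y * (((expGL X)⁻¹ : GL (Fin N) ℝ) : Mat N)
      - Y - (X * Y - Y * X) ∈ M := by
  rw [conj_expGL]
  have hs := hasSum_conj X Y
  have hp : ∀ n : ℕ, ((adL X) ^ (n + 2)) Y ∈ M := by
    intro n
    induction n with
    | zero => exact h2
    | succ n ih =>
      rw [show n + 1 + 2 = (n + 2) + 1 by ring, pow_succ', Module.End.mul_apply]
      exact hM _ ih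
  have hs2 := (hasSum_nat_add_iff' (f := fun n : ℕ => ((n.factorial : ℝ)⁻¹) • ((adL X) ^ n) Y)
    2).2 hs
  have hcl : IsClosed (M : Set (Mat N)) := Submodule.closed_of_finiteDimensional M
  have hmem : NormedSpace.exp X * Y * NormedSpace.exp (-X)
      - ∑ i ∈ Finset.range 2, ((i.factorial : ℝ)⁻¹) • ((adL X) ^ i) Y ∈ M := by
    refine hcl.mem_of_tendsto hs2 (Filter.Eventually.of_forall fun s => ?_)
    exact M.sum_mem fun n _ => M.smul_mem _ (hp n)
  have e : ∑ i ∈ Finset.range 2, ((i.factorial : ℝ)⁻¹) • ((adL X) ^ i) Y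
      = Y + (X * Y - Y * X) := by
    rw [Finset.sum_range_succ, Finset.sum_range_one]
    simp [adL_apply]
  rw [e] at hmem
  rwa [sub_sub]

/-- conjugation by an exponential preserves invariant subspaces -/
theorem conj_exp_mem {X Y : Mat N} (M : Submodule ℝ (Mat N))
    (hM : ∀ y ∈ M, X * y - y * X ∈ M) (hY : Y ∈ M) :
    ((expGL X : GL (Fin N) ℝ) : Mat N) * Y * (((expGL X)⁻¹ : GL (Fin N) ℝ) : Mat N) ∈ M := by
  have h1 := conj_exp_sub_mem M hM (hM _ (hM _ hY))
  have h2 := M.add_mem h1 (M.add_mem hY (hM _ hY))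
  convert h2 using 1
  abel

/-- a case where the series is finite -/
theorem conj_exp_eq {X Y Z W : Mat N} (h1 : X * Y - Y * X = Z) (h2 : X * Z - Z * X = W)
    (h3 : X * W - W * X = 0) :
    ((expGL X : GL (Fin N) ℝ) : Mat N) * Y * (((expGL X)⁻¹ : GL (Fin N) ℝ) : Mat N)
      = Y + Z + (2 : ℝ)⁻¹ • W := by
  rw [conj_expGL]
  have hs := hasSum_conj X Y
  have p1 : ((adL X) ^ 1) Y = Z := by rw [pow_one, adL_apply, h1]
  have p2 : ((adL X) ^ 2) Y = W := by rw [pow_succ', Module.End.mul_apply, p1, adL_apply, h2]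
  have p3 : ∀ n : ℕ, ((adL X) ^ (n + 3)) Y = 0 := by
    intro n
    induction n with
    | zero => rw [pow_succ', Module.End.mul_apply, p2, adL_apply, h3]
    | succ n ih =>
      rw [show n + 1 + 3 = (n + 3) + 1 by ring, pow_succ', Module.End.mul_apply, ih, map_zero]
  have hf : HasSum (fun n : ℕ => ((n.factorial : ℝ)⁻¹) • ((adL X) ^ n) Y)
      (∑ n ∈ Finset.range 3, ((n.factorial : ℝ)⁻¹) • ((adL X) ^ n) Y) := by
    refine hasSum_sum_of_ne_finset_zero fun n hn => ?_
    have hn' : 3 ≤ n := by simpa using hn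
    obtain ⟨k, rfl⟩ := Nat.exists_eq_add_of_le' hn'
    simp only [p3, smul_zero]
  rw [hs.unique hf, Finset.sum_range_succ, Finset.sum_range_succ, Finset.sum_range_one]
  simp only [p1, p2]
  simp

end Pool.Agent.Helper654_DO.ec
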