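import Pool.Agent.Helper654_DO.Aux831

/-!
# Gradings by a diagonalizable matrix
-/

set_option autoImplicit false

open Matrix Module Filter Topology

namespace Pool.Agent.Helper654_DO.gr

variable {N : ℕ}

/-- the matrix in the basis `P` -/
noncomputable def hat (P : GL (Fin N) ℝ) (y : Mat N) : Mat N :=
  ((P⁻¹ : GL (Fin N) ℝ) : Mat N) * y * (P : Mat N)

/-- the inverse of `hat` -/
noncomputable def unhat (P : GL (Fin N) ℝ) (y : Mat N) : Mat N :=
  (P : Mat N) * y * ((P⁻¹ : GL (Fin N) ℝ) : Mat N)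

theorem PP (P : GL (Fin N) ℝ) : ((P⁻¹ : GL (Fin N) ℝ) : Mat N) * (P : Mat N) = 1 := by
  rw [← Units.val_mul, inv_mul_cancel, Units.val_one]

theorem PP' (P : GL (Fin N) ℝ) : (P : Mat N) * ((P⁻¹ : GL (Fin N) ℝ) : Mat N) = 1 := by
  rw [← Units.val_mul, mul_inv_cancel, Units.val_one]

theorem hat_unhat (P : GL (Fin N) ℝ) (y : Mat N) : hat P (unhat P y) = y := by
  unfold hat unhat
  rw [← mul_assoc, ← mul_assoc, PP, one_mul, mul_assoc, PP, mul_one]

theorem unhat_hat (P : GL (Fin N) ℝ) (y : Mat N) : unhat P (hat P y) = y := by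
  unfold hat unhat
  rw [← mul_assoc, ← mul_assoc, PP', one_mul, mul_assoc, PP', mul_one]

theorem hat_inj {P : GL (Fin N) ℝ} {y z : Mat N} (h : hat P y = hat P z) : y = z := by
  rw [← unhat_hat P y, h, unhat_hat]

theorem hat_add (P : GL (Fin N) ℝ) (y z : Mat N) : hat P (y + z) = hat P y + hat P z := by
  unfold hat; rw [mul_add, add_mul]

theorem hat_sub (P : GL (Fin N) ℝ) (y z : Mat N) : hat P (y - z) = hat P y - hat P z := by
  unfold hat; rw [mul_sub, sub_mul]

theorem hat_smul (P : GL (Fin N) ℝ) (t : ℝ) (y : Mat N) : hat P (t • y) = t • hat P y := by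
  unfold hat; rw [mul_smul_comm, smul_mul_assoc]

theorem hat_zero (P : GL (Fin N) ℝ) : hat P 0 = 0 := by
  unfold hat; rw [mul_zero, zero_mul]

theorem hat_one (P : GL (Fin N) ℝ) : hat P 1 = 1 := by
  unfold hat; rw [mul_one, PP]

theorem hat_mul (P : GL (Fin N) ℝ) (y z : Mat N) : hat P (y * z) = hat P y * hat P z := by
  unfold hat
  calc ((P⁻¹ : GL (Fin N) ℝ) : Mat N) * (y * z) * (P : Mat N)
      = ((P⁻¹ : GL (Fin N) ℝ) : Mat N) * y * 1 * z * (P : Mat N) := by
        rw [mul_one]; simp only [mul_assoc]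
    _ = _ := by rw [← PP' P]; simp only [mul_assoc]

/-- the matrices with degrees in `A` -/
noncomputable def FS (P : GL (Fin N) ℝ) (d : Fin N → ℝ) (A : Set ℝ) : Submodule ℝ (Mat N) where
  carrier := {y | ∀ i j, d i - d j ∉ A → hat P y i j = 0}
  zero_mem' := by
    intro i j _
    rw [hat_zero]; rfl
  add_mem' := by
    intro y z hy hz i j hij
    rw [hat_add, Matrix.add_apply, hy i j hij, hz i j hij, add_zero]
  smul_mem' := by
    intro t y hy i j hij
    rw [hat_smul, Matrix.smul_apply, hy i j hij, smul_zero]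

variable {P : GL (Fin N) ℝ} {d : Fin N → ℝ}

theorem mem_FS {A : Set ℝ} {y : Mat N} :
    y ∈ FS P d A ↔ ∀ i j, d i - d j ∉ A → hat P y i j = 0 := Iff.rfl

theorem FS_mono {A B : Set ℝ} (h : A ⊆ B) {y : Mat N} (hy : y ∈ FS P d A) : y ∈ FS P d B :=
  fun i j hij => hy i j fun h' => hij (h h')

theorem FS_mul {A B C : Set ℝ} (h : ∀ a ∈ A, ∀ b ∈ B, a + b ∈ C) {y z : Mat N}
    (hy : y ∈ FS P d A) (hz : z ∈ FS P d B) : y * z ∈ FS P d C := by
  intro i j hij
  rw [hat_mul, Matrix.mul_apply]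
  refine Finset.sum_eq_zero fun k _ => ?_
  by_cases h1 : d i - d k ∈ A
  · by_cases h2 : d k - d j ∈ B
    · exfalso
      apply hij
      have := h _ h1 _ h2
      rwa [sub_add_sub_cancel] at this
    · rw [hz k j h2, mul_zero]
  · rw [hy i k h1, zero_mul]

theorem FS_bracket {A B C : Set ℝ} (h : ∀ a ∈ A, ∀ b ∈ B, a + b ∈ C) {y z : Mat N}
    (hy : y ∈ FS P d A) (hz : z ∈ FS P d B) : y * z - z * y ∈ FS P d C := by
  refine (FS P d C).sub_mem (FS_mul h hy hz) (FS_mul (fun b hb a ha => ?_) hz hy)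
  rw [add_comm]
  exact h a ha b hb

theorem FS_disj {A B : Set ℝ} (h : ∀ a ∈ A, a ∉ B) {y : Mat N}
    (hy : y ∈ FS P d A) (hz : y ∈ FS P d B) : y = 0 := by
  apply hat_inj (P := P)
  rw [hat_zero]
  ext i j
  by_cases h1 : d i - d j ∈ A
  · exact hz i j (h _ h1)
  · exact hy i j h1

theorem one_mem_FS : (1 : Mat N) ∈ FS P d {0} := by
  intro i j hij
  rw [hat_one]
  have : i ≠ j := by
    rintro rfl
    exact hij (by simp)
  exact Matrix.one_apply_ne this

theorem hat_diag : hat P (unhat P (diagonal d)) = diagonal d := hat_unhat _ _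

theorem hat_ad (y : Mat N) (i j : Fin N) :
    hat P (unhat P (diagonal d) * y - y * unhat P (diagonal d)) i j = (d i - d j) * hat P y i j := by
  rw [hat_sub, hat_mul, hat_mul, hat_diag, Matrix.sub_apply, Matrix.diagonal_mul,
    Matrix.mul_diagonal]
  ring

theorem FS_of_wsp {c : ℝ} {y : Mat N} (hy : y ∈ wsp (unhat P (diagonal d)) c) :
    y ∈ FS P d {c} := by
  intro i j hij
  have h1 : unhat P (diagonal d) * y - y * unhat P (diagonal d) = c • y := hy
  have h2 := hat_ad (P := P) (d := d) y i j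
  rw [h1, hat_smul, Matrix.smul_apply, smul_eq_mul] at h2
  have h3 : (d i - d j - c) * hat P y i j = 0 := by linarith
  rcases mul_eq_zero.1 h3 with h | h
  · exact absurd (by simp; linarith) hij
  · exact h

theorem ad_of_FS {c : ℝ} {y : Mat N} (hy : y ∈ FS P d {c}) :
    unhat P (diagonal d) * y - y * unhat P (diagonal d) = c • y := by
  apply hat_inj (P := P)
  ext i j
  rw [hat_ad, hat_smul, Matrix.smul_apply, smul_eq_mul]
  by_cases h : d i - d j = c
  · rw [h]
  · rw [hy i j h, mul_zero, mul_zero]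

theorem FS_of_posSp {y : Mat N} (hy : y ∈ posSp (unhat P (diagonal d))) :
    y ∈ FS P d (Set.Ioi 0) := by
  have h : posSp (unhat P (diagonal d)) ≤ FS P d (Set.Ioi 0) := by
    refine iSup_le fun c => ?_
    intro y hy
    exact FS_mono (by
      intro x hx
      rw [Set.mem_singleton_iff] at hx
      rw [hx]
      exact c.2) (FS_of_wsp hy)
  exact h hy

theorem FS_zero_of_comm {y : Mat N}
    (hy : unhat P (diagonal d) * y = y * unhat P (diagonal d)) : y ∈ FS P d {0} := by
  refine FS_of_wsp ?_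
  change unhat P (diagonal d) * y - y * unhat P (diagonal d) = (0 : ℝ) • y
  rw [hy, sub_self, zero_smul]

/-- the operator `φ (ad lam)` -/
noncomputable def fn (P : GL (Fin N) ℝ) (d : Fin N → ℝ) (φ : ℝ → ℝ) (y : Mat N) : Mat N :=
  unhat P (Matrix.of fun i j => φ (d i - d j) * hat P y i j)

theorem hat_fn (φ : ℝ → ℝ) (y : Mat N) (i j : Fin N) :
    hat P (fn P d φ y) i j = φ (d i - d j) * hat P y i j := by
  rw [fn, hat_unhat]; rfl

theorem hat_pow_ad (k : ℕ) (y : Mat N) (i j : Fin N) :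
    hat P (((ec.adL (unhat P (diagonal d))) ^ k) y) i j = (d i - d j) ^ k * hat P y i j := by
  induction k with
  | zero => simp
  | succ k ih =>
    rw [pow_succ', Module.End.mul_apply, ec.adL_apply, hat_ad, ih]
    ring

/-- the coordinates as a linear map -/
noncomputable def hatL (P : GL (Fin N) ℝ) : Mat N →ₗ[ℝ] Mat N where
  toFun := hat P
  map_add' := hat_add P
  map_smul' := hat_smul P

theorem fn_mem {M : Submodule ℝ (Mat N)}
    (hM : ∀ y ∈ M, unhat P (diagonal d) * y - y * unhat P (diagonal d) ∈ M) (φ : ℝ → ℝ)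
    {y : Mat N} (hy : y ∈ M) : fn P d φ y ∈ M := by
  classical
  obtain ⟨p, hpD⟩ : ∃ p : Polynomial ℝ, ∀ i j, p.eval (d i - d j) = φ (d i - d j) := by
    set D : Finset ℝ := (Finset.univ : Finset (Fin N × Fin N)).image fun p => d p.1 - d p.2
      with hD
    refine ⟨Lagrange.interpolate D (fun x => x) φ, fun i j => ?_⟩
    have h1 : d i - d j ∈ D := Finset.mem_image.2 ⟨(i, j), Finset.mem_univ _, rfl⟩
    have h2 : Set.InjOn (fun x : ℝ => x) (D : Set ℝ) := fun _ _ _ _ h => h
    have h3 := Lagrange.eval_interpolate_at_node (v := fun x : ℝ => x) φ h2 h1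
    exact h3
  have hpow : ∀ k : ℕ, ((ec.adL (unhat P (diagonal d))) ^ k) y ∈ M := by
    intro k
    induction k with
    | zero => simpa using hy
    | succ k ih =>
      rw [pow_succ', Module.End.mul_apply, ec.adL_apply]
      exact hM _ ih
  have e : fn P d φ y = Polynomial.aeval (ec.adL (unhat P (diagonal d))) p y := by
    apply hat_inj (P := P)
    ext i j
    rw [hat_fn, ← hpD, Polynomial.aeval_eq_sum_range, Polynomial.eval_eq_sum_range,
      LinearMap.sum_apply]
    change _ = hatL P _ i j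
    rw [map_sum, Matrix.sum_apply, Finset.sum_mul]
    refine Finset.sum_congr rfl fun k _ => ?_
    rw [LinearMap.smul_apply, map_smul, Matrix.smul_apply]
    change _ = _ • hat P _ i j
    rw [hat_pow_ad, smul_eq_mul, mul_assoc]
  rw [e, Polynomial.aeval_eq_sum_range, LinearMap.sum_apply]
  exact M.sum_mem fun k _ => M.smul_mem _ (hpow k)

/-- The successive elimination of the components of positive degree. -/
theorem kill {g : Submodule ℝ (Mat N)} (hg : ∀ x ∈ g, ∀ y ∈ g, x * y - y * x ∈ g)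
    {y₀ : Mat N} (hy₀ : y₀ ∈ g) (hy₀' : y₀ ∈ FS P d {0}) (Q : Mat N → Prop)
    (hQ : ∀ z ∈ g, ∀ y, Q y →
      Q (((expGL z : GL (Fin N) ℝ) : Mat N) * y * (((expGL z)⁻¹ : GL (Fin N) ℝ) : Mat N)))
    (H : ∀ c : ℝ, 0 < c → ∀ n ∈ g, n ∈ FS P d (Set.Ici c) → Q (y₀ + n) →
      ∃ z ∈ g, z ∈ FS P d {c} ∧ n - (y₀ * z - z * y₀) ∈ FS P d (Set.Ioi c)) (k : ℕ) :
    ∀ c : ℝ, 0 ≤ c →
      ((Finset.univ : Finset (Fin N × Fin N)).filter fun p => c < d p.1 - d p.2).card ≤ k →
      ∀ n ∈ g, n ∈ FS P d (Set.Ioi c) → Q (y₀ + n) →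
      ∃ u ∈ expGroup g, (u : Mat N) * (y₀ + n) * ((u⁻¹ : GL (Fin N) ℝ) : Mat N) = y₀ := by
  induction k with
  | zero =>
    intro c hc hk n hn hn' _
    have hemp := Finset.card_eq_zero.1 (Nat.le_zero.1 hk)
    have h0 : n = 0 := by
      apply hat_inj (P := P)
      rw [hat_zero]
      ext i j
      refine hn' i j fun h => ?_
      have : (i, j) ∈ ((Finset.univ : Finset (Fin N × Fin N)).filter
        fun p => c < d p.1 - d p.2) := by
        rw [Finset.mem_filter]
        exact ⟨Finset.mem_univ _, h⟩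
      rw [hemp] at this
      simp at this
    refine ⟨1, (expGroup g).one_mem, ?_⟩
    rw [h0]
    simp
  | succ k ih =>
    intro c hc hk n hn hn' hQn
    set A := ((Finset.univ : Finset (Fin N × Fin N)).filter fun p => c < d p.1 - d p.2) with hA
    rcases A.eq_empty_or_nonempty with hemp | hne
    · refine ih c hc ?_ n hn hn' hQn
      rw [← hA, hemp]
      simp
    obtain ⟨p₁, hp₁, hmin⟩ := A.exists_min_image (fun p => d p.1 - d p.2) hne
    set c₁ := d p₁.1 - d p₁.2 with hc₁
    have hcc : c < c₁ := (Finset.mem_filter.1 hp₁).2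
    have hc₁0 : 0 < c₁ := lt_of_le_of_lt hc hcc
    have hn1 : n ∈ FS P d (Set.Ici c₁) := by
      intro i j hij
      refine hn' i j fun h => hij ?_
      exact hmin (i, j) (Finset.mem_filter.2 ⟨Finset.mem_univ _, h⟩)
    obtain ⟨z, hz, hzc, hzn⟩ := H c₁ hc₁0 n hn hn1 hQn
    have hYg : y₀ + n ∈ g := g.add_mem hy₀ hn
    set Y' := ((expGL z : GL (Fin N) ℝ) : Mat N) * (y₀ + n) *
      (((expGL z)⁻¹ : GL (Fin N) ℝ) : Mat N) with hY'
    have hY'g : Y' ∈ g := ec.conj_exp_mem g (fun y hy => hg z hz y hy) hYg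
    have hQ' : Q Y' := hQ z hz _ hQn
    have hY0 : y₀ + n ∈ FS P d (Set.Ici 0) := by
      refine (FS P d _).add_mem (FS_mono ?_ hy₀') (FS_mono ?_ hn1)
      · intro x hx
        rw [Set.mem_singleton_iff] at hx
        rw [hx]; exact Set.mem_Ici.2 le_rfl
      · intro x hx
        exact le_trans hc₁0.le hx
    have hrem : Y' - (y₀ + n) - (z * (y₀ + n) - (y₀ + n) * z) ∈ FS P d (Set.Ioi c₁) := by
      refine ec.conj_exp_sub_mem (FS P d (Set.Ioi c₁)) (fun y hy => ?_) ?_
      · refine FS_bracket (A := {c₁}) (B := Set.Ioi c₁) ?_ hzc hy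
        intro a ha b hb
        rw [Set.mem_singleton_iff] at ha
        rw [Set.mem_Ioi] at hb ⊢
        linarith
      · have h1 : z * (y₀ + n) - (y₀ + n) * z ∈ FS P d (Set.Ici c₁) := by
          refine FS_bracket (A := {c₁}) (B := Set.Ici 0) ?_ hzc hY0
          intro a ha b hb
          rw [Set.mem_singleton_iff] at ha
          rw [Set.mem_Ici] at hb ⊢
          linarith
        refine FS_bracket (A := {c₁}) (B := Set.Ici c₁) ?_ hzc h1
        intro a ha b hb
        rw [Set.mem_singleton_iff] at ha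
        rw [Set.mem_Ici] at hb
        rw [Set.mem_Ioi]
        linarith
    have hzn' : z * n - n * z ∈ FS P d (Set.Ioi c₁) := by
      refine FS_bracket (A := {c₁}) (B := Set.Ici c₁) ?_ hzc hn1
      intro a ha b hb
      rw [Set.mem_singleton_iff] at ha
      rw [Set.mem_Ici] at hb
      rw [Set.mem_Ioi]
      linarith
    have hn2 : Y' - y₀ ∈ FS P d (Set.Ioi c₁) := by
      have := (FS P d (Set.Ioi c₁)).add_mem ((FS P d (Set.Ioi c₁)).add_mem hrem hzn) hzn'
      convert this using 1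
      noncomm_ring
    have hcard : ((Finset.univ : Finset (Fin N × Fin N)).filter
        fun p => c₁ < d p.1 - d p.2).card ≤ k := by
      have hlt : ((Finset.univ : Finset (Fin N × Fin N)).filter
          fun p => c₁ < d p.1 - d p.2) ⊂ A := by
        rw [Finset.ssubset_iff_of_subset]
        · refine ⟨p₁, hp₁, ?_⟩
          rw [Finset.mem_filter]
          rintro ⟨_, h⟩
          exact lt_irrefl _ h
        · intro p hp
          rw [Finset.mem_filter] at hp ⊢
          exact ⟨hp.1, hcc.trans hp.2⟩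
      have := Finset.card_lt_card hlt
      omega
    obtain ⟨u, hu, hu'⟩ := ih c₁ hc₁0.le hcard (Y' - y₀) (g.sub_mem hY'g hy₀) hn2
      (by rw [add_sub_cancel]; exact hQ')
    refine ⟨u * expGL z, (expGroup g).mul_mem hu (Subgroup.subset_closure ⟨z, hz, rfl⟩), ?_⟩
    rw [add_sub_cancel] at hu'
    rw [_root_.mul_inv_rev]
    calc ((u * expGL z : GL (Fin N) ℝ) : Mat N) * (y₀ + n) *
          (((expGL z)⁻¹ * u⁻¹ : GL (Fin N) ℝ) : Mat N)
        = (u : Mat N) * Y' * ((u⁻¹ : GL (Fin N) ℝ) : Mat N) := by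
          rw [hY']
          simp only [Units.val_mul, mul_assoc]
      _ = y₀ := hu'

/-- the component of degree `c` -/
noncomputable def comp (P : GL (Fin N) ℝ) (d : Fin N → ℝ) (c : ℝ) (y : Mat N) : Mat N :=
  fn P d (fun x => open Classical in if x = c then 1 else 0) y

theorem comp_mem_FS (c : ℝ) (y : Mat N) : comp P d c y ∈ FS P d {c} := by
  intro i j hij
  rw [Set.mem_singleton_iff] at hij
  rw [comp, hat_fn, if_neg hij, zero_mul]

theorem sub_comp_mem {c : ℝ} {y : Mat N} (hy : y ∈ FS P d (Set.Ici c)) :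
    y - comp P d c y ∈ FS P d (Set.Ioi c) := by
  intro i j hij
  rw [Set.mem_Ioi, not_lt] at hij
  rw [hat_sub, Matrix.sub_apply, comp, hat_fn]
  rcases lt_or_eq_of_le hij with h | h
  · rw [hy i j (by rw [Set.mem_Ici, not_le]; exact h), mul_zero, sub_zero]
  · rw [if_pos h, one_mul, sub_self]

end Pool.Agent.Helper654_DO.gr
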