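import Pool.Agent.Helper654_DO.Defs

/-!
# Shared auxiliary definitions of the project
-/

set_option autoImplicit false

open Matrix Module Filter Topology

namespace Pool.Agent.Helper654_DO

/-- Plücker coordinates of a frame `B` of `k` vectors of `ℝ^N` (the columns of `B`): the determinants
of the `k × k` matrices formed by `k` rows of `B`. -/
noncomputable def Pl {N k : ℕ} (B : Matrix (Fin N) (Fin k) ℝ) : (Fin k → Fin N) → ℝ :=
  fun j => (B.submatrix j id).det

/-- The eigenspace of `ad x` for the eigenvalue `c`. -/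
noncomputable def wsp {N : ℕ} (x : Mat N) (c : ℝ) : Submodule ℝ (Mat N) where
  carrier := {y | x * y - y * x = c • y}
  zero_mem' := by simp
  add_mem' := by
    intro y z hy hz
    simp only [Set.mem_ofPred_eq] at hy hz ⊢
    rw [mul_add, add_mul, smul_add, ← hy, ← hz]; abel
  smul_mem' := by
    intro t y hy
    simp only [Set.mem_ofPred_eq] at hy ⊢
    rw [Matrix.mul_smul, Matrix.smul_mul, ← smul_sub, hy, smul_comm]

/-- The sum of the eigenspaces of `ad x` with positive eigenvalue. -/
noncomputable def posSp {N : ℕ} (x : Mat N) : Submodule ℝ (Mat N) := ⨆ c : {c : ℝ // 0 < c}, wsp x c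

/-- The sum of the eigenspaces of `ad x` with nonnegative eigenvalue. -/
noncomputable def nonnegSp {N : ℕ} (x : Mat N) : Submodule ℝ (Mat N) := ⨆ c : {c : ℝ // 0 ≤ c}, wsp x c

/-- The group generated by the exponentials of the elements of `g`. -/
noncomputable def expGroup {N : ℕ} (g : Submodule ℝ (Mat N)) : Subgroup (GL (Fin N) ℝ) :=
  Subgroup.closure (expGL '' (g : Set (Mat N)))

/-- A rational functional on a rational vector space, viewed as a real valued functional. -/
noncomputable def realFn {V : Type*} [AddCommGroup V] [Module ℚ V] (α : V →ₗ[ℚ] ℚ) : V →ₗ[ℚ] ℝ :=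
  (Algebra.linearMap ℚ ℝ).comp α

/-- The elements `g` of `G` such that `ρ(exp(tX) g) w` tends to zero as `t → ∞`. -/
def QGroup.Om {N : ℕ} {H : QGroup N} (r : H.Rep) (X : H.lieR) (w : Fin r.m → ℝ) : Set H.G :=
  {g | Tendsto (fun t : ℝ => r.ρ (H.exp (t • X) * g) *ᵥ w) atTop (𝓝 0)}

end Pool.Agent.Helper654_DO
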