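import Pool.Agent.Helper654_DO.Help

/-!
# Countability
-/

set_option autoImplicit false

open Matrix Module Filter Topology

namespace Pool.Agent.Helper654_DO

theorem countable_mvPolynomial {σ : Type} [Finite σ] : Countable (MvPolynomial σ ℚ) := by
  have : Countable (σ →₀ ℕ) := inferInstance
  have h : Countable ((σ →₀ ℕ) →₀ ℚ) := inferInstance
  exact (AddMonoidAlgebra.coeff_injective (R := ℚ) (M := σ →₀ ℕ)).countable

/-- the data of a representation without the homomorphism -/
abbrev Code (N : ℕ) := Σ m : ℕ,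
  (Fin m → Fin m → MvPolynomial ((Fin N × Fin N) ⊕ (Fin N × Fin N)) ℚ) × (Fin m → ℚ)

theorem countable_code (N : ℕ) : Countable (Code N) := by
  have : Countable (MvPolynomial ((Fin N × Fin N) ⊕ (Fin N × Fin N)) ℚ) := countable_mvPolynomial
  have : ∀ m : ℕ, Countable ((Fin m → Fin m →
      MvPolynomial ((Fin N × Fin N) ⊕ (Fin N × Fin N)) ℚ) × (Fin m → ℚ)) := fun m => inferInstance
  infer_instance

theorem countable_intPoints {N : ℕ} (H : QGroup N) : Countable H.intPoints := by
  have h1 : ∀ g : H.intPoints, ∃ A : Matrix (Fin N) (Fin N) ℤ,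
      (((g : H.G) : GL (Fin N) ℝ) : Mat N) = intR A := fun g => g.2.1
  choose A hA using h1
  have hinj : Function.Injective A := by
    intro g h hgh
    apply Subtype.ext
    apply Subtype.ext
    apply Units.ext
    rw [hA, hA, hgh]
  have : Countable (Matrix (Fin N) (Fin N) ℤ) := inferInstanceAs (Countable (Fin N → Fin N → ℤ))
  exact hinj.countable

theorem countable_of_commensurable {N : ℕ} {H : QGroup N} {Γ : Subgroup H.G}
    (hΓ : Γ.Commensurable H.intPoints) : Countable Γ := by
  have := countable_intPoints H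
  obtain ⟨T, hT, hTΓ⟩ := exists_finite_reps hΓ.2
  have hsub : (Γ : Set H.G) ⊆ ⋃ t ∈ T, (fun x : H.G => t * x) '' (H.intPoints : Set H.G) := by
    intro γ hγ
    obtain ⟨t, ht, h⟩ := hTΓ γ hγ
    simp only [Set.mem_iUnion]
    exact ⟨t, ht, t⁻¹ * γ, h, by simp⟩
  have hc : (⋃ t ∈ T, (fun x : H.G => t * x) '' (H.intPoints : Set H.G)).Countable := by
    refine hT.countable.biUnion fun t _ => ?_
    exact (Set.countable_coe_iff.mp this).image _
  exact Set.countable_coe_iff.mpr (hc.mono hsub)

end Pool.Agent.Helper654_DO
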