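import Pool.Agent.Helper654_DO.Asm
import Pool.Agent.Helper654_DO.Count

/-!
# Assembly, second part: the gauges
-/

set_option autoImplicit false

open Matrix Module Filter Topology

namespace Pool.Agent.Helper654_DO

theorem Pl_smul {N k : ℕ} (c : ℝ) (M : Matrix (Fin N) (Fin k) ℝ) : Pl (c • M) = c ^ k • Pl M := by
  funext j
  simp only [Pl, Pi.smul_apply, smul_eq_mul]
  rw [Matrix.submatrix_smul, Pi.smul_apply, Pi.smul_apply, Matrix.det_smul, Fintype.card_fin]

/-- a common denominator -/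
theorem exists_denominator {m n : ℕ} (A : Matrix (Fin m) (Fin n) ℚ) :
    ∃ (M : ℕ) (A' : Matrix (Fin m) (Fin n) ℤ), 0 < M ∧ (M : ℝ) • toR A = intR A' := by
  let M : ℕ := ∏ p : Fin m × Fin n, (A p.1 p.2).den
  have hM : 0 < M := Finset.prod_pos fun p _ => (A p.1 p.2).den_pos
  have h : ∀ p : Fin m × Fin n, ∃ z : ℤ, (M : ℚ) * A p.1 p.2 = z := by
    intro p
    obtain ⟨c, hc⟩ : (A p.1 p.2).den ∣ M := Finset.dvd_prod_of_mem _ (Finset.mem_univ p)
    refine ⟨c * (A p.1 p.2).num, ?_⟩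
    rw [hc]
    push_cast
    rw [mul_comm ((A p.1 p.2).den : ℚ) (c : ℚ), mul_assoc, Rat.den_mul_eq_num]
  choose z hz using h
  refine ⟨M, Matrix.of fun i j => z (i, j), hM, ?_⟩
  ext i j
  have := hz (i, j)
  simp only [toR, intR, Matrix.smul_apply, Matrix.map_apply, Matrix.of_apply, smul_eq_mul]
  rw [← Rat.cast_natCast, ← Rat.cast_mul, this]
  simp

/-- a finite family of linear forms, one of which is negative at each nonzero vector -/
theorem exists_uniform_neg {r n : ℕ} (hr : 0 < r) (f : Fin n → ((Fin r → ℝ) →ₗ[ℝ] ℝ))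
    (h : ∀ y, y ≠ 0 → ∃ i, f i y < 0) : ∃ η > 0, ∀ y, ∃ i, f i y ≤ -η * ‖y‖ := by
  have hn : 0 < n := by
    obtain ⟨i, _⟩ := h (fun _ => 1) (by
      intro h0
      have := congrFun h0 ⟨0, hr⟩
      simp at this)
    exact i.pos
  have hne : (Finset.univ : Finset (Fin n)).Nonempty := ⟨⟨0, hn⟩, Finset.mem_univ _⟩
  have hcont : Continuous fun y : Fin r → ℝ => Finset.univ.inf' hne (fun i => f i y) := by
    apply Continuous.finset_inf'_apply
    intro i _
    exact (f i).continuous_of_finiteDimensional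
  have : Nonempty (Fin r) := ⟨⟨0, hr⟩⟩
  have : Nontrivial (Fin r → ℝ) := inferInstance
  obtain ⟨y₀, hy₀, hmax⟩ := (isCompact_sphere (0 : Fin r → ℝ) 1).exists_isMaxOn
    (NormedSpace.sphere_nonempty.mpr zero_le_one) hcont.continuousOn
  have hy₀n : ‖y₀‖ = 1 := by simpa using hy₀
  have hneg : Finset.univ.inf' hne (fun i => f i y₀) < 0 := by
    obtain ⟨i, hi⟩ := h y₀ (by
      rintro rfl
      simp at hy₀n)
    exact (Finset.inf'_lt_iff hne).mpr ⟨i, Finset.mem_univ _, hi⟩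
  refine ⟨-Finset.univ.inf' hne (fun i => f i y₀), by linarith, ?_⟩
  intro y
  rw [neg_neg]
  rcases eq_or_ne y 0 with rfl | hy
  · exact ⟨⟨0, hn⟩, by simp⟩
  · have hyn : 0 < ‖y‖ := norm_pos_iff.mpr hy
    have h1 : ‖y‖⁻¹ • y ∈ Metric.sphere (0 : Fin r → ℝ) 1 := by
      rw [mem_sphere_zero_iff_norm, norm_smul, norm_inv, norm_norm, inv_mul_cancel₀ hyn.ne']
    have h2 : Finset.univ.inf' hne (fun i => f i (‖y‖⁻¹ • y)) ≤
        Finset.univ.inf' hne (fun i => f i y₀) := hmax h1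
    obtain ⟨i, _, hi⟩ := Finset.exists_mem_eq_inf' hne (fun i => f i (‖y‖⁻¹ • y))
    refine ⟨i, ?_⟩
    rw [hi, map_smul, smul_eq_mul] at h2
    have h3 : f i y = ‖y‖ * (‖y‖⁻¹ * f i y) := by
      rw [← mul_assoc, mul_inv_cancel₀ hyn.ne', one_mul]
    rw [h3, mul_comm (Finset.univ.inf' hne (fun i => f i y₀)) ‖y‖]
    exact mul_le_mul_of_nonneg_left h2 hyn.le

end Pool.Agent.Helper654_DO
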