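import Mathlib

/-!
# Divergent orbits of split subgroups: definitions

Real algebraic groups defined over the rationals, their rational rank, their representations over
the rationals, divergent orbits and obvious divergent orbits.
-/

set_option autoImplicit false

open Matrix Module Filter Topology

namespace Pool.Agent.Helper654_DO

/-- Real `N × N` matrices. -/
abbrev Mat (N : ℕ) := Matrix (Fin N) (Fin N) ℝ

/-- Rational `N × N` matrices. -/
abbrev MatQ (N : ℕ) := Matrix (Fin N) (Fin N) ℚ

/-- A rational matrix, viewed as a real matrix. -/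
def toR {m n : Type*} (x : Matrix m n ℚ) : Matrix m n ℝ := x.map (fun q : ℚ => (q : ℝ))

/-- An integral matrix, viewed as a real matrix. -/
def intR {m n : Type*} (x : Matrix m n ℤ) : Matrix m n ℝ := x.map (fun z : ℤ => (z : ℝ))

/-- The exponential of a real matrix, as an element of `GL_N(ℝ)`. -/
noncomputable def expGL {N : ℕ} (X : Mat N) : GL (Fin N) ℝ where
  val := NormedSpace.exp X
  inv := NormedSpace.exp (-X)
  val_inv := by
    rw [← Matrix.exp_add_of_commute _ _ (Commute.neg_right (Commute.refl X)), add_neg_cancel,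
      NormedSpace.exp_zero]
  inv_val := by
    rw [← Matrix.exp_add_of_commute _ _ (Commute.neg_left (Commute.refl X)), neg_add_cancel,
      NormedSpace.exp_zero]

/-- The matrix `A` over the field `K` is diagonalizable over `K`. -/
def Diagonalizable {K : Type*} [Field K] {N : ℕ} (A : Matrix (Fin N) (Fin N) K) : Prop :=
  ∃ (P : GL (Fin N) K) (d : Fin N → K),
    A = (P : Matrix (Fin N) (Fin N) K) * diagonal d * ((P⁻¹ : GL (Fin N) K) : Matrix (Fin N) (Fin N) K)

/-- A subspace of pairwise commuting matrices over `K`, all of them diagonalizable over `K`: the Lie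
algebra of a `K`-split torus or, for `K = ℝ`, of a closed connected subgroup of one. -/
structure IsSplit {K : Type*} [Field K] {N : ℕ} (a : Submodule K (Matrix (Fin N) (Fin N) K)) :
    Prop where
  comm : ∀ x ∈ a, ∀ y ∈ a, x * y = y * x
  diag : ∀ x ∈ a, Diagonalizable x

/-- `a` is maximal among the split subspaces of `g`. -/
structure IsMaxSplit {K : Type*} [Field K] {N : ℕ} (g a : Submodule K (Matrix (Fin N) (Fin N) K)) :
    Prop where
  le : a ≤ g
  split : IsSplit a
  max : ∀ b : Submodule K (Matrix (Fin N) (Fin N) K), b ≤ g → IsSplit b → a ≤ b → b = a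

/-- The real span of a space of rational matrices. -/
def realSpan {N : ℕ} (L : Submodule ℚ (MatQ N)) : Submodule ℝ (Mat N) :=
  Submodule.span ℝ (toR '' (L : Set (MatQ N)))

/-- A space of rational matrices which is a simple Lie algebra over `ℚ`: it is closed under the
bracket `xy - yx`, not commutative, and has no ideals except `0` and itself. -/
structure IsSimpleLie {N : ℕ} (L : Submodule ℚ (MatQ N)) : Prop where
  lie_mem : ∀ x ∈ L, ∀ y ∈ L, x * y - y * x ∈ L
  nonabelian : ∃ x ∈ L, ∃ y ∈ L, x * y ≠ y * x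
  ideals : ∀ I : Submodule ℚ (MatQ N), I ≤ L → (∀ x ∈ L, ∀ y ∈ I, x * y - y * x ∈ I) → I = ⊥ ∨ I = L

/-- A real algebraic group defined over `ℚ`: the group `G` of the elements of `GL_N(ℝ)` that satisfy
a set `eqs` of polynomial equations with rational coefficients in the entries, together with its
rational Lie algebra `lieQ`: the real Lie algebra of `G`, that is, the set of the matrices `X` all of
whose multiples have their exponential in `G`, is the real span of the Lie algebra `lieQ` of rational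
matrices. -/
structure QGroup (N : ℕ) where
  /-- the group of real points -/
  G : Subgroup (GL (Fin N) ℝ)
  /-- equations -/
  eqs : Set (MvPolynomial (Fin N × Fin N) ℚ)
  mem_iff : ∀ g : GL (Fin N) ℝ, g ∈ G ↔
    ∀ p ∈ eqs, MvPolynomial.aeval (fun ij : Fin N × Fin N => (g : Mat N) ij.1 ij.2) p = 0
  /-- the rational Lie algebra -/
  lieQ : Submodule ℚ (MatQ N)
  lie_mem : ∀ x ∈ lieQ, ∀ y ∈ lieQ, x * y - y * x ∈ lieQ
  lie_iff : ∀ X : Mat N, (∀ t : ℝ, expGL (t • X) ∈ G) ↔ X ∈ realSpan lieQ

namespace QGroup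

variable {N : ℕ} (H : QGroup N)

/-- The real Lie algebra of `G`. -/
def lieR : Submodule ℝ (Mat N) := realSpan H.lieQ

theorem exp_mem {X : Mat N} (hX : X ∈ H.lieR) : expGL X ∈ H.G := by
  have := (H.lie_iff X).mpr hX 1
  rwa [one_smul] at this

/-- The exponential map of `G`. -/
noncomputable def exp (X : H.lieR) : H.G := ⟨expGL (X : Mat N), H.exp_mem X.2⟩

/-- The `ℚ`-rank of `G`: the largest dimension of a `ℚ`-split torus, that is, of a subspace of the
rational Lie algebra that consists of commuting matrices diagonalizable over `ℚ`. -/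
noncomputable def rankQ : ℕ :=
  sSup {r | ∃ s : Submodule ℚ (MatQ N), s ≤ H.lieQ ∧ IsSplit s ∧ finrank ℚ s = r}

/-- The arithmetic group `G(ℤ)`: the elements of `G` which, together with their inverse, have
integral entries. -/
def intPoints : Subgroup H.G where
  carrier := {g | (∃ A : Matrix (Fin N) (Fin N) ℤ, ((g : GL (Fin N) ℝ) : Mat N) = intR A) ∧
    ∃ A : Matrix (Fin N) (Fin N) ℤ, (((g : GL (Fin N) ℝ)⁻¹ : GL (Fin N) ℝ) : Mat N) = intR A}
  one_mem' := ⟨⟨1, by simp [intR, Matrix.map_one]⟩, ⟨1, by simp [intR, Matrix.map_one]⟩⟩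
  mul_mem' := by
    rintro g h ⟨⟨A, hA⟩, ⟨A', hA'⟩⟩ ⟨⟨B, hB⟩, ⟨B', hB'⟩⟩
    have key : ∀ C D : Matrix (Fin N) (Fin N) ℤ, intR C * intR D = intR (C * D) := by
      intro C D
      exact (Matrix.map_mul (f := Int.castRingHom ℝ)).symm
    refine ⟨⟨A * B, ?_⟩, ⟨B' * A', ?_⟩⟩
    · rw [Subgroup.coe_mul, Units.val_mul, hA, hB, key]
    · rw [Subgroup.coe_mul, _root_.mul_inv_rev, Units.val_mul, hA', hB', key]
  inv_mem' := by
    rintro g ⟨⟨A, hA⟩, ⟨A', hA'⟩⟩
    refine ⟨⟨A', ?_⟩, ⟨A, ?_⟩⟩
    · simpa using hA'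
    · simpa using hA

/-- A representation of `G` over `ℚ`: a homomorphism to the `m × m` matrices whose entries are
polynomials with rational coefficients in the entries of `g` and `g⁻¹`. -/
structure Rep where
  /-- the dimension -/
  m : ℕ
  /-- the homomorphism -/
  ρ : H.G →* Matrix (Fin m) (Fin m) ℝ
  /-- the matrix entries -/
  P : Fin m → Fin m → MvPolynomial ((Fin N × Fin N) ⊕ (Fin N × Fin N)) ℚ
  spec : ∀ (g : H.G) (i j : Fin m), ρ g i j = MvPolynomial.aeval
    (Sum.elim (fun p : Fin N × Fin N => ((g : GL (Fin N) ℝ) : Mat N) p.1 p.2)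
      (fun p : Fin N × Fin N => (((g : GL (Fin N) ℝ)⁻¹ : GL (Fin N) ℝ) : Mat N) p.1 p.2)) (P i j)

variable {H}

/-- The orbit of `x` in `G / Γ` under `D = exp(d)` is divergent: the orbit map is proper. -/
def Divergent (Γ : Subgroup H.G) {d : Submodule ℝ (Mat N)} (hd : d ≤ H.lieR) (x : H.G ⧸ Γ) : Prop :=
  Tendsto (fun y : d => H.exp ⟨y, hd y.2⟩ • x) (cocompact d) (cocompact (H.G ⧸ Γ))

/-- The orbit of `x = gΓ` under `D = exp(d)` is obvious: there are finitely many representations
`ρ_i` over `ℚ` and nonzero rational vectors `v_i` such that for every sequence `y_n → ∞` in `d` there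
are an index `i` and a subsequence along which `ρ_i(exp(y_n) g) v_i → 0`. -/
def Obvious (Γ : Subgroup H.G) {d : Submodule ℝ (Mat N)} (hd : d ≤ H.lieR) (x : H.G ⧸ Γ) : Prop :=
  ∃ g : H.G, (g : H.G ⧸ Γ) = x ∧ ∃ (l : ℕ) (ρ : Fin l → H.Rep) (v : ∀ i, Fin (ρ i).m → ℚ),
    (∀ i, v i ≠ 0) ∧ ∀ y : ℕ → d, Tendsto y atTop (cocompact d) →
      ∃ (i : Fin l) (φ : ℕ → ℕ), StrictMono φ ∧
        Tendsto (fun k => (ρ i).ρ (H.exp ⟨y (φ k), hd (y (φ k)).2⟩ * g) *ᵥ
          (fun j => ((v i j : ℚ) : ℝ))) atTop (𝓝 0)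

end QGroup

end Pool.Agent.Helper654_DO
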