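import Pool.Agent.Helper654_DO.Conj
import Pool.Agent.Helper654_DO.T_divergence

/-!
# Auxiliary lemmas for the assembly
-/

set_option autoImplicit false

open Matrix Module Filter Topology

namespace Pool.Agent.Helper654_DO

section

attribute [local instance] Matrix.linftyOpNormedRing Matrix.linftyOpNormedAlgebra

theorem continuous_exp_mat {N : ℕ} : Continuous (NormedSpace.exp : Mat N → Mat N) :=
  NormedSpace.exp_continuous

theorem hasSum_exp_mat {N : ℕ} (X : Mat N) :
    HasSum (fun m : ℕ => ((m.factorial : ℝ)⁻¹) • X ^ m) (NormedSpace.exp X) :=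
  NormedSpace.exp_series_hasSum_exp' (𝕂 := ℝ) X

end

theorem continuous_expGL {N : ℕ} : Continuous (expGL : Mat N → GL (Fin N) ℝ) := by
  rw [Units.continuous_iff]
  exact ⟨continuous_exp_mat, continuous_exp_mat.comp continuous_neg⟩

theorem QGroup.continuous_exp {N : ℕ} (H : QGroup N) : Continuous H.exp :=
  (continuous_expGL.comp continuous_subtype_val).subtype_mk _

theorem expGL_zero {N : ℕ} : expGL (0 : Mat N) = 1 := by
  apply Units.ext
  change NormedSpace.exp (0 : Mat N) = 1
  exact NormedSpace.exp_zero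

theorem QGroup.exp_zero {N : ℕ} (H : QGroup N) : H.exp 0 = 1 := by
  apply Subtype.ext
  exact expGL_zero

theorem exp_nilpotent {N : ℕ} {X : Mat N} {n : ℕ} (hX : X ^ n = 0) :
    NormedSpace.exp X = ∑ m ∈ Finset.range n, ((m.factorial : ℝ)⁻¹) • X ^ m := by
  refine (hasSum_exp_mat X).unique (hasSum_sum_of_ne_finset_zero ?_)
  intro m hm
  rw [Finset.mem_range, not_lt] at hm
  rw [pow_eq_zero_of_le hm hX, smul_zero]

theorem toR_pow {N : ℕ} (x : MatQ N) (n : ℕ) : toR (x ^ n) = toR x ^ n := by
  induction n with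
  | zero => simp [toR_one]
  | succ n ih => rw [pow_succ, pow_succ, toR_mul, ih]

theorem toR_zero {m n : Type*} : toR (0 : Matrix m n ℚ) = 0 := by
  ext i j; simp [toR]

theorem toR_sum {m n ι : Type*} (s : Finset ι) (f : ι → Matrix m n ℚ) :
    toR (∑ i ∈ s, f i) = ∑ i ∈ s, toR (f i) := by
  classical
  induction s using Finset.induction_on with
  | empty => simp [toR_zero]
  | insert i s hi ih => rw [Finset.sum_insert hi, Finset.sum_insert hi, toR_add, ih]

/-- the exponential of a nilpotent rational matrix is rational -/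
theorem exp_rational {N : ℕ} {E : MatQ N} (hE : IsNilpotent E) (q : ℚ) :
    ∃ A : MatQ N, NormedSpace.exp ((q : ℝ) • toR E) = toR A := by
  obtain ⟨n, hn⟩ := hE
  refine ⟨∑ m ∈ Finset.range n, ((m.factorial : ℚ)⁻¹) • (q • E) ^ m, ?_⟩
  have h : ((q : ℝ) • toR E) ^ n = 0 := by
    rw [← toR_smul, ← toR_pow, smul_pow, hn, smul_zero, toR_zero]
  rw [exp_nilpotent h, toR_sum]
  refine Finset.sum_congr rfl fun m _ => ?_
  rw [toR_smul, toR_pow, toR_smul]
  push_cast
  rfl

/-- An eigenvector of `ad x` for a nonzero eigenvalue is nilpotent. -/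
theorem isNilpotent_of_bracket {K : Type*} [Field K] [CharZero K] {N : ℕ}
    {x E : Matrix (Fin N) (Fin N) K} {c : K} (hc : c ≠ 0) (h : x * E - E * x = c • E) :
    IsNilpotent E := by
  by_contra hnil
  have hne : ∀ k : ℕ, E ^ k ≠ 0 := fun k hk => hnil ⟨k, hk⟩
  have hpow : ∀ k : ℕ, x * E ^ k - E ^ k * x = ((k : K) * c) • E ^ k := by
    intro k
    induction k with
    | zero => simp
    | succ k ih =>
      have h1 : x * E ^ (k + 1) - E ^ (k + 1) * x =
          (x * E ^ k - E ^ k * x) * E + E ^ k * (x * E - E * x) := by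
        rw [pow_succ]; noncomm_ring
      rw [h1, ih, h, Matrix.smul_mul, Matrix.mul_smul, ← pow_succ, ← add_smul]
      push_cast
      congr 1
      ring
  let T : Module.End K (Matrix (Fin N) (Fin N) K) := LinearMap.mulLeft K x - LinearMap.mulRight K x
  have hev : ∀ k : ℕ, T.HasEigenvalue ((k : K) * c) := by
    intro k
    apply Module.End.hasEigenvalue_of_hasEigenvector (x := E ^ k)
    rw [Module.End.hasEigenvector_iff, Module.End.mem_eigenspace_iff]
    exact ⟨by simpa [T] using hpow k, hne k⟩
  have hfin : {μ : K | T.HasEigenvalue μ}.Finite := T.finite_hasEigenvalue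
  have hinj : Function.Injective (fun k : ℕ => (k : K) * c) := by
    intro k k' hkk
    have := mul_right_cancel₀ hc hkk
    exact_mod_cast this
  exact (Set.infinite_range_of_injective hinj) (hfin.subset (by rintro _ ⟨k, rfl⟩; exact hev k))

end Pool.Agent.Helper654_DO
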