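import Pool.Agent.Helper654_DO.Stmts2
import Pool.Agent.Helper654_DO.Help

/-!
# The group `SL₂ × SL₂`
-/

set_option autoImplicit false

open Matrix Module Filter Topology

namespace Pool.Agent.Helper654_DO.ex

/-- 2 by 2 matrices -/
abbrev M2 (K : Type*) := Matrix (Fin 2) (Fin 2) K

/-- block diagonal matrices -/
def blk {K : Type*} [Zero K] (x y : M2 K) : Matrix (Fin 4) (Fin 4) K :=
  !![x 0 0, x 0 1, 0, 0; x 1 0, x 1 1, 0, 0; 0, 0, y 0 0, y 0 1; 0, 0, y 1 0, y 1 1]

/-- upper left block -/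
def ul {K : Type*} (g : Matrix (Fin 4) (Fin 4) K) : M2 K := !![g 0 0, g 0 1; g 1 0, g 1 1]

/-- lower right block -/
def lr {K : Type*} (g : Matrix (Fin 4) (Fin 4) K) : M2 K := !![g 2 2, g 2 3; g 3 2, g 3 3]

theorem blk_mul {K : Type*} [Semiring K] (x y x' y' : M2 K) :
    blk x y * blk x' y' = blk (x * x') (y * y') := by
  ext i j
  fin_cases i <;> fin_cases j <;>
    simp [blk, Matrix.mul_apply, Fin.sum_univ_four, Fin.sum_univ_two]

theorem blk_add {K : Type*} [Semiring K] (x y x' y' : M2 K) :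
    blk x y + blk x' y' = blk (x + x') (y + y') := by
  ext i j
  fin_cases i <;> fin_cases j <;> simp [blk]

theorem blk_sub {K : Type*} [Ring K] (x y x' y' : M2 K) :
    blk x y - blk x' y' = blk (x - x') (y - y') := by
  ext i j
  fin_cases i <;> fin_cases j <;> simp [blk]

theorem blk_smul {K : Type*} [Semiring K] (c : K) (x y : M2 K) :
    c • blk x y = blk (c • x) (c • y) := by
  ext i j
  fin_cases i <;> fin_cases j <;> simp [blk]

theorem blk_one {K : Type*} [Semiring K] : blk (1 : M2 K) 1 = 1 := by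
  ext i j
  fin_cases i <;> fin_cases j <;> simp [blk]

theorem blk_zero {K : Type*} [Semiring K] : blk (0 : M2 K) 0 = 0 := by
  ext i j
  fin_cases i <;> fin_cases j <;> simp [blk]

theorem blk_map {K L : Type*} [Zero K] [Zero L] (f : K → L) (hf : f 0 = 0) (x y : M2 K) :
    (blk x y).map f = blk (x.map f) (y.map f) := by
  ext i j
  fin_cases i <;> fin_cases j <;> simp [blk, hf]

theorem ul_blk {K : Type*} [Zero K] (x y : M2 K) : ul (blk x y) = x := by
  ext i j
  fin_cases i <;> fin_cases j <;> simp [blk, ul]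

theorem lr_blk {K : Type*} [Zero K] (x y : M2 K) : lr (blk x y) = y := by
  ext i j
  fin_cases i <;> fin_cases j <;> simp [blk, lr]

theorem blk_injective {K : Type*} [Zero K] {x y x' y' : M2 K} (h : blk x y = blk x' y') :
    x = x' ∧ y = y' := by
  refine ⟨?_, ?_⟩
  · rw [← ul_blk x y, h, ul_blk]
  · rw [← lr_blk x y, h, lr_blk]

/-- off diagonal positions -/
def Off (i j : Fin 4) : Prop := ¬ (i.val < 2 ↔ j.val < 2)

theorem eq_blk {K : Type*} [Zero K] {g : Matrix (Fin 4) (Fin 4) K} (h : ∀ i j, Off i j → g i j = 0) :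
    g = blk (ul g) (lr g) := by
  ext i j
  fin_cases i <;> fin_cases j <;> simp [blk, ul, lr] <;> apply h <;> simp [Off]

theorem blk_off {K : Type*} [Zero K] (x y : M2 K) {i j : Fin 4} (h : Off i j) : blk x y i j = 0 := by
  revert h
  fin_cases i <;> fin_cases j <;> simp [blk, Off]

/-- the group `SL₂(ℝ) × SL₂(ℝ)` in `GL₄(ℝ)` -/
def GG : Subgroup (GL (Fin 4) ℝ) where
  carrier := {g | ∃ x y : M2 ℝ, x.det = 1 ∧ y.det = 1 ∧ (g : Mat 4) = blk x y}
  one_mem' := ⟨1, 1, by simp, by simp, by rw [blk_one]; rfl⟩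
  mul_mem' := by
    rintro g h ⟨x, y, hx, hy, hg⟩ ⟨x', y', hx', hy', hh⟩
    refine ⟨x * x', y * y', by rw [det_mul, hx, hx', one_mul], by rw [det_mul, hy, hy', one_mul], ?_⟩
    rw [Units.val_mul, hg, hh, blk_mul]
  inv_mem' := by
    rintro g ⟨x, y, hx, hy, hg⟩
    refine ⟨x.adjugate, y.adjugate, ?_, ?_, ?_⟩
    · rw [det_adjugate, hx]; simp
    · rw [det_adjugate, hy]; simp
    · apply Units.inv_eq_of_mul_eq_one_right
      rw [hg, blk_mul, mul_adjugate, mul_adjugate, hx, hy, one_smul, blk_one]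

theorem mem_GG {g : GL (Fin 4) ℝ} :
    g ∈ GG ↔ ∃ x y : M2 ℝ, x.det = 1 ∧ y.det = 1 ∧ (g : Mat 4) = blk x y := Iff.rfl

/-- the equations -/
noncomputable def eqs : Set (MvPolynomial (Fin 4 × Fin 4) ℚ) :=
  {p | (∃ i j, Off i j ∧ p = MvPolynomial.X (i, j)) ∨
    p = MvPolynomial.X (0, 0) * MvPolynomial.X (1, 1) - MvPolynomial.X (0, 1) * MvPolynomial.X (1, 0) - 1 ∨
    p = MvPolynomial.X (2, 2) * MvPolynomial.X (3, 3) - MvPolynomial.X (2, 3) * MvPolynomial.X (3, 2) - 1}

theorem mem_iff (g : GL (Fin 4) ℝ) : g ∈ GG ↔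
    ∀ p ∈ eqs, MvPolynomial.aeval (fun ij : Fin 4 × Fin 4 => (g : Mat 4) ij.1 ij.2) p = 0 := by
  constructor
  · rintro ⟨x, y, hx, hy, hg⟩ p (⟨i, j, hij, rfl⟩ | rfl | rfl)
    · rw [MvPolynomial.aeval_X, hg]
      exact blk_off x y hij
    · simp only [map_sub, map_mul, MvPolynomial.aeval_X, map_one, hg]
      rw [det_fin_two] at hx
      simp [blk, hx]
    · simp only [map_sub, map_mul, MvPolynomial.aeval_X, map_one, hg]
      rw [det_fin_two] at hy
      simp [blk, hy]
  · intro h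
    refine ⟨ul g, lr g, ?_, ?_, ?_⟩
    · have := h _ (Or.inr (Or.inl rfl))
      simp only [map_sub, map_mul, MvPolynomial.aeval_X, map_one] at this
      rw [det_fin_two]
      simp only [ul, of_apply, cons_val', cons_val_zero, cons_val_one, cons_val_fin_one]
      linarith
    · have := h _ (Or.inr (Or.inr rfl))
      simp only [map_sub, map_mul, MvPolynomial.aeval_X, map_one] at this
      rw [det_fin_two]
      simp only [lr, of_apply, cons_val', cons_val_zero, cons_val_one, cons_val_fin_one]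
      linarith
    · apply eq_blk
      intro i j hij
      have := h _ (Or.inl ⟨i, j, hij, rfl⟩)
      rwa [MvPolynomial.aeval_X] at this

/-- the rational Lie algebra -/
def LQ : Submodule ℚ (MatQ 4) where
  carrier := {z | ∃ x y : M2 ℚ, x.trace = 0 ∧ y.trace = 0 ∧ z = blk x y}
  zero_mem' := ⟨0, 0, by simp, by simp, by rw [blk_zero]⟩
  add_mem' := by
    rintro z w ⟨x, y, hx, hy, rfl⟩ ⟨x', y', hx', hy', rfl⟩
    exact ⟨x + x', y + y', by rw [trace_add, hx, hx', add_zero], by rw [trace_add, hy, hy', add_zero],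
      blk_add _ _ _ _⟩
  smul_mem' := by
    rintro c z ⟨x, y, hx, hy, rfl⟩
    exact ⟨c • x, c • y, by rw [trace_smul, hx, smul_zero], by rw [trace_smul, hy, smul_zero],
      blk_smul _ _ _⟩

theorem lie_mem : ∀ x ∈ LQ, ∀ y ∈ LQ, x * y - y * x ∈ LQ := by
  rintro _ ⟨x, y, hx, hy, rfl⟩ _ ⟨x', y', hx', hy', rfl⟩
  refine ⟨x * x' - x' * x, y * y' - y' * y, ?_, ?_, ?_⟩
  · rw [trace_sub, trace_mul_comm, sub_self]
  · rw [trace_sub, trace_mul_comm, sub_self]
  · rw [blk_mul, blk_mul, blk_sub]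

theorem mem_realSpan {x y : M2 ℝ} (hx : x.trace = 0) (hy : y.trace = 0) : blk x y ∈ realSpan LQ := by
  have hb : ∀ u v : M2 ℚ, u.trace = 0 → v.trace = 0 → toR (blk u v) ∈ realSpan LQ :=
    fun u v hu hv => Submodule.subset_span ⟨_, ⟨u, v, hu, hv, rfl⟩, rfl⟩
  have h1 := hb !![1, 0; 0, -1] 0 (by simp [trace_fin_two]) (by simp)
  have h2 := hb !![0, 1; 0, 0] 0 (by simp [trace_fin_two]) (by simp)
  have h3 := hb !![0, 0; 1, 0] 0 (by simp [trace_fin_two]) (by simp)
  have h4 := hb 0 !![1, 0; 0, -1] (by simp) (by simp [trace_fin_two])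
  have h5 := hb 0 !![0, 1; 0, 0] (by simp) (by simp [trace_fin_two])
  have h6 := hb 0 !![0, 0; 1, 0] (by simp) (by simp [trace_fin_two])
  have h := (realSpan LQ).add_mem ((realSpan LQ).add_mem ((realSpan LQ).add_mem
    ((realSpan LQ).add_mem ((realSpan LQ).add_mem ((realSpan LQ).smul_mem (x 0 0) h1)
    ((realSpan LQ).smul_mem (x 0 1) h2)) ((realSpan LQ).smul_mem (x 1 0) h3))
    ((realSpan LQ).smul_mem (y 0 0) h4)) ((realSpan LQ).smul_mem (y 0 1) h5))
    ((realSpan LQ).smul_mem (y 1 0) h6)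
  convert h using 1
  rw [trace_fin_two] at hx hy
  ext i j
  fin_cases i <;> fin_cases j <;> simp [blk, toR] <;> linarith

theorem of_mem_realSpan {X : Mat 4} (hX : X ∈ realSpan LQ) :
    ∃ x y : M2 ℝ, x.trace = 0 ∧ y.trace = 0 ∧ X = blk x y := by
  let M : Submodule ℝ (Mat 4) :=
    { carrier := {z | ∃ x y : M2 ℝ, x.trace = 0 ∧ y.trace = 0 ∧ z = blk x y}
      zero_mem' := ⟨0, 0, by simp, by simp, by rw [blk_zero]⟩
      add_mem' := by
        rintro z w ⟨x, y, hx, hy, rfl⟩ ⟨x', y', hx', hy', rfl⟩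
        exact ⟨x + x', y + y', by rw [trace_add, hx, hx', add_zero],
          by rw [trace_add, hy, hy', add_zero], blk_add _ _ _ _⟩
      smul_mem' := by
        rintro c z ⟨x, y, hx, hy, rfl⟩
        exact ⟨c • x, c • y, by rw [trace_smul, hx, smul_zero], by rw [trace_smul, hy, smul_zero],
          blk_smul _ _ _⟩ }
  have : realSpan LQ ≤ M := by
    apply Submodule.span_le.mpr
    rintro _ ⟨_, ⟨x, y, hx, hy, rfl⟩, rfl⟩
    refine ⟨toR x, toR y, ?_, ?_, ?_⟩
    · rw [trace_fin_two] at hx ⊢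
      simp only [toR, map_apply]
      exact_mod_cast hx
    · rw [trace_fin_two] at hy ⊢
      simp only [toR, map_apply]
      exact_mod_cast hy
    · exact blk_map _ (by simp) x y
  exact this hX

end Pool.Agent.Helper654_DO.ex
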