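import Pool.Agent.Helper654_DO.Ex1

/-!
# The group `SL₂ × SL₂`: exponentials
-/

set_option autoImplicit false

open Matrix Module Filter Topology

namespace Pool.Agent.Helper654_DO.ex

section

attribute [local instance] Matrix.linftyOpNormedRing Matrix.linftyOpNormedAlgebra

theorem hasDerivAt_exp_entry {N : ℕ} (X : Mat N) (i j : Fin N) (t : ℝ) :
    HasDerivAt (fun u : ℝ => (NormedSpace.exp (u • X)) i j) ((X * NormedSpace.exp (t • X)) i j) t := by
  have h := hasDerivAt_exp_smul_const' (𝕂 := ℝ) X t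
  have h2 := (LinearMap.toContinuousLinearMap
    (Matrix.entryLinearMap ℝ ℝ i j : Mat N →ₗ[ℝ] ℝ)).hasFDerivAt.comp_hasDerivAt t h
  exact h2

/-- `blk` as a ring homomorphism -/
def blkHom : (M2 ℝ × M2 ℝ) →+* Mat 4 where
  toFun p := blk p.1 p.2
  map_one' := blk_one
  map_zero' := blk_zero
  map_mul' p q := (blk_mul p.1 p.2 q.1 q.2).symm
  map_add' p q := (blk_add p.1 p.2 q.1 q.2).symm

theorem continuous_blk : Continuous (fun p : M2 ℝ × M2 ℝ => blk p.1 p.2) := by
  refine continuous_matrix fun i j => ?_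
  fin_cases i <;> fin_cases j <;> simp [blk] <;> fun_prop

theorem exp_blk (x y : M2 ℝ) :
    NormedSpace.exp (blk x y) = blk (NormedSpace.exp x) (NormedSpace.exp y) := by
  let _ : NormedAlgebra ℚ (M2 ℝ) := NormedAlgebra.restrictScalars ℚ ℝ (M2 ℝ)
  let _ : NormedAlgebra ℚ (Mat 4) := NormedAlgebra.restrictScalars ℚ ℝ (Mat 4)
  have h := NormedSpace.map_exp blkHom continuous_blk (x, y)
  exact h.symm.trans (congrArg₂ blk (Prod.fst_exp (x, y)) (Prod.snd_exp (x, y)))

end

theorem hasDerivAt_det_exp (x : M2 ℝ) (t : ℝ) :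
    HasDerivAt (fun u : ℝ => (NormedSpace.exp (u • x)).det)
      (x.trace * (NormedSpace.exp (t • x)).det) t := by
  have h := ((hasDerivAt_exp_entry x 0 0 t).mul (hasDerivAt_exp_entry x 1 1 t)).sub
    ((hasDerivAt_exp_entry x 0 1 t).mul (hasDerivAt_exp_entry x 1 0 t))
  refine (h.congr_deriv ?_).congr_of_eventuallyEq (Filter.Eventually.of_forall fun u => ?_)
  · rw [det_fin_two, trace_fin_two]
    simp only [Matrix.mul_apply, Fin.sum_univ_two]
    ring
  · exact det_fin_two _

theorem det_exp_of_trace {x : M2 ℝ} (hx : x.trace = 0) : (NormedSpace.exp x).det = 1 := by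
  have h : ∀ t : ℝ, HasDerivAt (fun u : ℝ => (NormedSpace.exp (u • x)).det) 0 t := by
    intro t
    have := hasDerivAt_det_exp x t
    rwa [hx, zero_mul] at this
  have h2 := is_const_of_deriv_eq_zero (fun t => (h t).differentiableAt) (fun t => (h t).deriv) 1 0
  simpa using h2

theorem trace_of_det_exp {x : M2 ℝ} (hx : ∀ t : ℝ, (NormedSpace.exp (t • x)).det = 1) :
    x.trace = 0 := by
  have h := hasDerivAt_det_exp x 0
  have h2 : HasDerivAt (fun u : ℝ => (NormedSpace.exp (u • x)).det) 0 0 := by
    simp only [hx]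
    exact hasDerivAt_const _ _
  have h3 := h.unique h2
  rwa [zero_smul, NormedSpace.exp_zero, det_one, mul_one] at h3

theorem lie_iff (X : Mat 4) : (∀ t : ℝ, expGL (t • X) ∈ GG) ↔ X ∈ realSpan LQ := by
  constructor
  · intro h
    have hX : X = blk (ul X) (lr X) := by
      apply eq_blk
      intro i j hij
      have h1 := hasDerivAt_exp_entry X i j 0
      have h2 : HasDerivAt (fun u : ℝ => (NormedSpace.exp (u • X)) i j) 0 0 := by
        have : (fun u : ℝ => (NormedSpace.exp (u • X)) i j) = fun _ => 0 := by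
          funext u
          obtain ⟨x, y, _, _, hu⟩ := h u
          change ((expGL (u • X) : GL (Fin 4) ℝ) : Mat 4) i j = 0
          rw [hu]
          exact blk_off x y hij
        rw [this]
        exact hasDerivAt_const _ _
      have h3 := h1.unique h2
      rwa [zero_smul, NormedSpace.exp_zero, mul_one] at h3
    have key : ∀ t : ℝ, (NormedSpace.exp (t • ul X)).det = 1 ∧ (NormedSpace.exp (t • lr X)).det = 1 := by
      intro t
      obtain ⟨x, y, hx, hy, hu⟩ := h t
      have h1 : ((expGL (t • X) : GL (Fin 4) ℝ) : Mat 4) =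
          blk (NormedSpace.exp (t • ul X)) (NormedSpace.exp (t • lr X)) := by
        change NormedSpace.exp (t • X) = _
        conv_lhs => rw [hX]
        rw [blk_smul, exp_blk]
      rw [h1] at hu
      obtain ⟨rfl, rfl⟩ := blk_injective hu
      exact ⟨hx, hy⟩
    rw [hX]
    exact mem_realSpan (trace_of_det_exp fun t => (key t).1) (trace_of_det_exp fun t => (key t).2)
  · intro hX t
    obtain ⟨x, y, hx, hy, rfl⟩ := of_mem_realSpan hX
    refine ⟨NormedSpace.exp (t • x), NormedSpace.exp (t • y), ?_, ?_, ?_⟩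
    · exact det_exp_of_trace (by rw [trace_smul, hx, smul_zero])
    · exact det_exp_of_trace (by rw [trace_smul, hy, smul_zero])
    · change NormedSpace.exp (t • blk x y) = _
      rw [blk_smul, exp_blk]

/-- the group `SL₂ × SL₂` over `ℚ` -/
noncomputable def HH : QGroup 4 where
  G := GG
  eqs := eqs
  mem_iff := mem_iff
  lieQ := LQ
  lie_mem := lie_mem
  lie_iff := lie_iff

end Pool.Agent.Helper654_DO.ex
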