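import Pool.Agent.Helper654_DO.Ex2
import Pool.Agent.Helper654_DO.DefsSS

/-!
# The group `SL₂ × SL₂`: algebra
-/

set_option autoImplicit false

open Matrix Module Filter Topology

namespace Pool.Agent.Helper654_DO.ex

/-- `(s, t) ↦ diag(s, -s, t, -t)` -/
def dgMap (K : Type*) [Field K] : (K × K) →ₗ[K] Matrix (Fin 4) (Fin 4) K where
  toFun p := blk !![p.1, 0; 0, -p.1] !![p.2, 0; 0, -p.2]
  map_add' p q := by
    ext i j
    fin_cases i <;> fin_cases j <;> simp [blk] <;> ring
  map_smul' c p := by
    ext i j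
    fin_cases i <;> fin_cases j <;> simp [blk]

theorem dgMap_eq {K : Type*} [Field K] (p : K × K) :
    dgMap K p = diagonal ![p.1, -p.1, p.2, -p.2] := by
  ext i j
  fin_cases i <;> fin_cases j <;> simp [dgMap, blk]

theorem dgMap_injective {K : Type*} [Field K] : Function.Injective (dgMap K) := by
  intro p q h
  have h1 := congrFun (congrFun h 0) 0
  have h2 := congrFun (congrFun h 2) 2
  simp only [dgMap, blk, LinearMap.coe_mk, AddHom.coe_mk] at h1 h2
  exact Prod.ext (by simpa using h1) (by simpa using h2)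

theorem split_range {K : Type*} [Field K] : IsSplit (LinearMap.range (dgMap K)) where
  comm := by
    rintro _ ⟨p, rfl⟩ _ ⟨q, rfl⟩
    rw [dgMap_eq, dgMap_eq, diagonal_mul_diagonal, diagonal_mul_diagonal]
    congr 1
    funext i
    ring
  diag := by
    rintro _ ⟨p, rfl⟩
    refine ⟨1, ![p.1, -p.1, p.2, -p.2], ?_⟩
    rw [inv_one, Units.val_one, one_mul, mul_one]
    exact dgMap_eq p

theorem finrank_range {K : Type*} [Field K] : finrank K (LinearMap.range (dgMap K)) = 2 := by
  rw [LinearMap.finrank_range_of_inj dgMap_injective]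
  simp

/-- the Lie algebra of the diagonal torus -/
noncomputable def aa : Submodule ℝ (Mat 4) := LinearMap.range (dgMap ℝ)

/-- the Lie algebra of the diagonal torus of the first factor -/
noncomputable def dd : Submodule ℝ (Mat 4) := LinearMap.range ((dgMap ℝ).comp (LinearMap.inl ℝ ℝ ℝ))

theorem dd_le : dd ≤ aa := LinearMap.range_comp_le_range _ _

theorem aa_le : aa ≤ HH.lieR := by
  rintro _ ⟨p, rfl⟩
  exact mem_realSpan (by simp [trace_fin_two]) (by simp [trace_fin_two])

theorem maxSplit : IsMaxSplit HH.lieR aa where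
  le := aa_le
  split := split_range
  max := by
    intro b hb hb' hab
    refine le_antisymm ?_ hab
    intro z hz
    obtain ⟨x, y, hx, hy, rfl⟩ := of_mem_realSpan (hb hz)
    have h1 := hb'.comm _ hz _ (hab ⟨(1, 0), rfl⟩)
    have h2 := hb'.comm _ hz _ (hab ⟨(0, 1), rfl⟩)
    rw [trace_fin_two] at hx hy
    simp only [dgMap, LinearMap.coe_mk, AddHom.coe_mk, blk_mul] at h1 h2
    have h3 := (blk_injective h1).1
    have h4 := (blk_injective h2).2
    have a1 := congrFun (congrFun h3 0) 1
    have a2 := congrFun (congrFun h3 1) 0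
    have b1 := congrFun (congrFun h4 0) 1
    have b2 := congrFun (congrFun h4 1) 0
    simp [Matrix.mul_apply, Fin.sum_univ_two] at a1 a2 b1 b2
    refine ⟨(x 0 0, y 0 0), ?_⟩
    simp only [dgMap, LinearMap.coe_mk, AddHom.coe_mk]
    congr 1
    · ext i j
      fin_cases i <;> fin_cases j <;> simp <;> linarith
    · ext i j
      fin_cases i <;> fin_cases j <;> simp <;> linarith

theorem finrank_dd : finrank ℝ dd = 1 := by
  rw [dd, LinearMap.finrank_range_of_inj]
  · simp
  · rw [LinearMap.coe_comp]
    exact dgMap_injective.comp (fun a b h => by simpa using h)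

theorem two_le_rank : 2 ≤ HH.rankQ := by
  apply le_csSup
  · refine ⟨finrank ℚ (MatQ 4), ?_⟩
    rintro _ ⟨s, _, _, rfl⟩
    exact Submodule.finrank_le s
  · refine ⟨LinearMap.range (dgMap ℚ), ?_, split_range, finrank_range⟩
    rintro _ ⟨p, rfl⟩
    exact ⟨_, _, by simp [trace_fin_two], by simp [trace_fin_two], rfl⟩

end Pool.Agent.Helper654_DO.ex
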