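import Pool.Agent.Helper654_DO.Ex3

/-!
# The group `SL₂ × SL₂`: divergent orbits of the diagonal group of the first factor
-/

set_option autoImplicit false

open Matrix Module Filter Topology

namespace Pool.Agent.Helper654_DO.ex

/-- the element `(x, y)` of the group -/
def mk (x y : M2 ℝ) (hx : x.det = 1) (hy : y.det = 1) : HH.G :=
  ⟨{ val := blk x y
     inv := blk x.adjugate y.adjugate
     val_inv := by rw [blk_mul, mul_adjugate, mul_adjugate, hx, hy, one_smul, blk_one]
     inv_val := by rw [blk_mul, adjugate_mul, adjugate_mul, hx, hy, one_smul, blk_one] },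
    x, y, hx, hy, rfl⟩

theorem mk_mul (x y x' y' : M2 ℝ) (hx : x.det = 1) (hy : y.det = 1) (hx' : x'.det = 1)
    (hy' : y'.det = 1) : mk x y hx hy * mk x' y' hx' hy' =
      mk (x * x') (y * y') (by rw [det_mul, hx, hx', one_mul]) (by rw [det_mul, hy, hy', one_mul]) := by
  apply Subtype.ext
  apply Units.ext
  exact blk_mul x y x' y'

theorem exists_mk (g : HH.G) : ∃ (x y : M2 ℝ) (hx : x.det = 1) (hy : y.det = 1), g = mk x y hx hy := by
  obtain ⟨x, y, hx, hy, hg⟩ := g.2
  refine ⟨x, y, hx, hy, ?_⟩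
  apply Subtype.ext
  apply Units.ext
  exact hg

theorem mk_mem_int (γ δ : M2 ℤ) (hγ : (intR γ).det = 1) (hδ : (intR δ).det = 1) :
    mk (intR γ) (intR δ) hγ hδ ∈ HH.intPoints := by
  refine ⟨⟨blk γ δ, ?_⟩, ⟨blk γ.adjugate δ.adjugate, ?_⟩⟩
  · exact (blk_map _ (by simp) γ δ).symm
  · change blk (intR γ).adjugate (intR δ).adjugate = intR (blk γ.adjugate δ.adjugate)
    have h : ∀ u : M2 ℤ, (intR u).adjugate = intR u.adjugate := by
      intro u
      exact (RingHom.map_adjugate (Int.castRingHom ℝ) u).symm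
    rw [h, h]
    exact (blk_map _ (by simp) _ _).symm

theorem det_intR {γ : M2 ℤ} (h : γ.det = 1) : (intR γ).det = 1 := by
  have := (RingHom.map_det (Int.castRingHom ℝ) γ).symm
  rw [h, map_one] at this
  exact this

/-- bounded unimodular matrices -/
def SC (C : ℝ) : Set (M2 ℝ) := {x | x.det = 1 ∧ ∀ i j, |x i j| ≤ C}

theorem isCompact_SC (C : ℝ) : IsCompact (SC C) := by
  have h1 : IsCompact (Set.univ.pi fun _ : Fin 2 => Set.univ.pi fun _ : Fin 2 => Set.Icc (-C) C) :=
    isCompact_univ_pi fun _ => isCompact_univ_pi fun _ => isCompact_Icc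
  have h2 : IsClosed {x : M2 ℝ | x.det = 1} :=
    isClosed_eq (Continuous.matrix_det continuous_id) continuous_const
  have h3 := h1.inter_right h2
  have h4 : SC C = (Set.univ.pi fun _ : Fin 2 => Set.univ.pi fun _ : Fin 2 => Set.Icc (-C) C) ∩
      {x : M2 ℝ | x.det = 1} := by
    apply Set.ext
    intro x
    constructor
    · rintro ⟨h, h'⟩
      exact ⟨fun i _ j _ => abs_le.mp (h' i j), h⟩
    · rintro ⟨h, h'⟩
      exact ⟨h', fun i j => abs_le.mpr (h i trivial j trivial)⟩
  rw [h4]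
  exact h3

theorem isCompact_mk (C : ℝ) (y : M2 ℝ) (hy : y.det = 1) :
    IsCompact {g : HH.G | ∃ (x : M2 ℝ) (hx : x.det = 1), (∀ i j, |x i j| ≤ C) ∧ g = mk x y hx hy} := by
  have := isCompact_iff_compactSpace.mp (isCompact_SC C)
  have hc : Continuous (fun x : SC C => mk x.1 y x.2.1 hy) := by
    refine Continuous.subtype_mk ?_ _
    rw [Units.continuous_iff]
    refine ⟨?_, ?_⟩
    · change Continuous (fun x : SC C => blk x.1 y)
      exact continuous_blk.comp (continuous_subtype_val.prodMk continuous_const)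
    · change Continuous (fun x : SC C => blk x.1.adjugate y.adjugate)
      exact continuous_blk.comp
        ((Continuous.matrix_adjugate continuous_subtype_val).prodMk continuous_const)
  have h := isCompact_range hc
  convert h using 1
  ext g
  constructor
  · rintro ⟨x, hx, hC, rfl⟩
    exact ⟨⟨x, hx, hC⟩, rfl⟩
  · rintro ⟨⟨x, hx, hC⟩, rfl⟩
    exact ⟨x, hx, hC, rfl⟩

/-- short vectors along a divergent sequence -/
theorem short_of_div (hM : S_mahler2) (f : ℝ → M2 ℝ) (hf : ∀ t, (f t).det = 1) (y : M2 ℝ)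
    (hy : y.det = 1)
    (hdiv : Tendsto (fun t => ((mk (f t) y (hf t) hy : HH.G) : HH.G ⧸ HH.intPoints)) atTop
      (cocompact (HH.G ⧸ HH.intPoints))) :
    ∀ ε : ℝ, 0 < ε → ∃ T : ℝ, ∀ t : ℝ, T ≤ t → ∃ v : Fin 2 → ℤ, v ≠ 0 ∧
      ‖f t *ᵥ (fun i => ((v i : ℤ) : ℝ))‖ < ε := by
  intro ε hε
  obtain ⟨C, hC⟩ := hM ε hε
  have hK : IsCompact ((fun g : HH.G => (g : HH.G ⧸ HH.intPoints)) ''
      {g : HH.G | ∃ (x : M2 ℝ) (hx : x.det = 1), (∀ i j, |x i j| ≤ C) ∧ g = mk x y hx hy}) :=
    (isCompact_mk C y hy).image continuous_quotient_mk'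
  have h1 := hdiv.eventually (hK.compl_mem_cocompact)
  rw [eventually_atTop] at h1
  obtain ⟨T, hT⟩ := h1
  refine ⟨T, fun t ht => ?_⟩
  by_contra hcon
  push Not at hcon
  obtain ⟨γ, hγ, hb⟩ := hC (f t) (hf t) hcon
  apply hT t ht
  refine ⟨mk (f t * intR γ) y (by rw [det_mul, hf, det_intR hγ, one_mul]) hy,
    ⟨_, _, hb, rfl⟩, ?_⟩
  change ((mk (f t * intR γ) y _ hy : HH.G) : HH.G ⧸ HH.intPoints) = _
  rw [QuotientGroup.eq]
  have h2 : mk (f t * intR γ) y (by rw [det_mul, hf, det_intR hγ, one_mul]) hy =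
      mk (f t) y (hf t) hy * mk (intR γ) (intR 1) (det_intR hγ) (det_intR (by simp)) := by
    rw [mk_mul]
    congr 1
    have : (intR 1 : M2 ℝ) = 1 := by
      simp [intR, Matrix.map_one]
    rw [this, mul_one]
  rw [h2]
  have h3 := HH.intPoints.inv_mem (mk_mem_int γ 1 (det_intR hγ) (det_intR (by simp)))
  rw [_root_.mul_inv_rev, mul_assoc, inv_mul_cancel, mul_one]
  exact h3

/-- the representation of the first factor -/
noncomputable def rep1 : HH.Rep where
  m := 2
  ρ :=
    { toFun := fun g => ul ((g : GL (Fin 4) ℝ) : Mat 4)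
      map_one' := by
        change ul ((1 : GL (Fin 4) ℝ) : Mat 4) = 1
        rw [Units.val_one, ← blk_one, ul_blk]
      map_mul' := by
        intro g h
        obtain ⟨x, y, hx, hy, rfl⟩ := exists_mk g
        obtain ⟨x', y', hx', hy', rfl⟩ := exists_mk h
        rw [mk_mul]
        change ul (blk (x * x') (y * y')) = ul (blk x y) * ul (blk x' y')
        rw [ul_blk, ul_blk, ul_blk] }
  P := fun i j => MvPolynomial.X (Sum.inl (Fin.castLE (by norm_num) i, Fin.castLE (by norm_num) j))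
  spec := by
    intro g i j
    rw [MvPolynomial.aeval_X]
    change ul ((g : GL (Fin 4) ℝ) : Mat 4) i j = _
    fin_cases i <;> fin_cases j <;> rfl

theorem rep1_mk (x y : M2 ℝ) (hx : x.det = 1) (hy : y.det = 1) : rep1.ρ (mk x y hx hy) = x :=
  ul_blk x y

/-- the diagonal matrix `diag(e^s, e^-s)` -/
noncomputable def at2 (s : ℝ) : M2 ℝ := diagonal ![Real.exp s, Real.exp (-s)]

theorem det_at2 (s : ℝ) : (at2 s).det = 1 := by
  rw [at2, det_diagonal, Fin.prod_univ_two]
  simp [← Real.exp_add]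

theorem exp_dg (s : ℝ) : NormedSpace.exp (!![s, 0; 0, -s] : M2 ℝ) = at2 s := by
  have h : (!![s, 0; 0, -s] : M2 ℝ) = diagonal ![s, -s] := by
    ext i j
    fin_cases i <;> fin_cases j <;> simp
  rw [h, Matrix.exp_diagonal, at2]
  congr 1
  funext i
  rw [Pi.coe_exp]
  fin_cases i <;> simp [Real.exp_eq_exp_ℝ]

/-- the element of `dd` with parameter `s` -/
noncomputable def el (s : ℝ) : dd := ⟨dgMap ℝ (s, 0), ⟨s, rfl⟩⟩

theorem exists_el (y : dd) : ∃ s : ℝ, y = el s := by
  obtain ⟨_, s, rfl⟩ := y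
  exact ⟨s, rfl⟩

theorem exp_el (s : ℝ) : HH.exp ⟨el s, (dd_le.trans aa_le) (el s).2⟩ =
    mk (at2 s) 1 (det_at2 s) (by simp) := by
  apply Subtype.ext
  apply Units.ext
  change NormedSpace.exp (blk !![s, 0; 0, -s] !![0, 0; 0, -0]) = blk (at2 s) 1
  rw [exp_blk, exp_dg]
  congr 1
  have : (!![(0 : ℝ), 0; 0, -0] : M2 ℝ) = 0 := by
    ext i j
    fin_cases i <;> fin_cases j <;> simp
  rw [this, NormedSpace.exp_zero]

/-- the linear parametrization of `dd` -/
noncomputable def elL : ℝ →ₗ[ℝ] dd where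
  toFun := el
  map_add' s t := by
    apply Subtype.ext
    change dgMap ℝ (s + t, 0) = dgMap ℝ (s, 0) + dgMap ℝ (t, 0)
    rw [← map_add]
    simp
  map_smul' c s := by
    apply Subtype.ext
    change dgMap ℝ (c * s, 0) = c • dgMap ℝ (s, 0)
    rw [← map_smul]
    simp

theorem el_injective : Function.Injective el := by
  intro s t h
  have h1 := dgMap_injective (congrArg Subtype.val h)
  exact congrArg Prod.fst h1

theorem tendsto_el : Tendsto el (cocompact ℝ) (cocompact dd) := by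
  have : IsClosedEmbedding elL :=
    LinearMap.isClosedEmbedding_of_injective (LinearMap.ker_eq_bot.mpr el_injective)
  exact this.tendsto_cocompact

theorem tendsto_of_el {y : ℕ → ℝ} (h : Tendsto (fun n => el (y n)) atTop (cocompact dd)) :
    Tendsto y atTop (cocompact ℝ) := by
  have hc : Continuous el := elL.continuous_of_finiteDimensional
  have h1 : comap el (cocompact dd) ≤ cocompact ℝ := comap_cocompact_le hc
  exact (tendsto_comap_iff.mpr h).mono_right h1

end Pool.Agent.Helper654_DO.ex
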