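import Pool.Agent.Helper654_DO.Ex4

/-!
# The group `SL₂ × SL₂`: every divergent orbit of the diagonal group of the first factor is obvious
-/

set_option autoImplicit false

open Matrix Module Filter Topology

namespace Pool.Agent.Helper654_DO.ex

theorem at2_mulVec (s : ℝ) (w : Fin 2 → ℝ) :
    at2 s *ᵥ w = ![Real.exp s * w 0, Real.exp (-s) * w 1] := by
  ext i
  rw [at2, mulVec_diagonal]
  fin_cases i <;> simp

theorem coords_lt {s ε : ℝ} {h : M2 ℝ} {w : Fin 2 → ℝ} (H : ‖(at2 s * h) *ᵥ w‖ < ε) :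
    |Real.exp s * (h *ᵥ w) 0| < ε ∧ |Real.exp (-s) * (h *ᵥ w) 1| < ε := by
  rw [← mulVec_mulVec, at2_mulVec] at H
  constructor
  · exact lt_of_le_of_lt (norm_le_pi_norm ![Real.exp s * (h *ᵥ w) 0, Real.exp (-s) * (h *ᵥ w) 1] 0) H
  · exact lt_of_le_of_lt (norm_le_pi_norm ![Real.exp s * (h *ᵥ w) 0, Real.exp (-s) * (h *ᵥ w) 1] 1) H

/-- contraction -/
theorem tendsto_plus {s : ℕ → ℝ} (hs : Tendsto s atTop atTop) {h : M2 ℝ} {w : Fin 2 → ℝ}
    (h0 : (h *ᵥ w) 0 = 0) : Tendsto (fun n => (at2 (s n) * h) *ᵥ w) atTop (𝓝 0) := by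
  rw [tendsto_pi_nhds]
  intro i
  have h1 : Tendsto (fun n => Real.exp (-(s n)) * (h *ᵥ w) 1) atTop (𝓝 0) := by
    have := (Real.tendsto_exp_neg_atTop_nhds_zero.comp hs).mul_const ((h *ᵥ w) 1)
    simpa using this
  fin_cases i
  · have : (fun n => ((at2 (s n) * h) *ᵥ w) 0) = fun _ => (0 : ℝ) := by
      funext n
      rw [← mulVec_mulVec, at2_mulVec, h0]
      simp
    change Tendsto (fun n => ((at2 (s n) * h) *ᵥ w) 0) atTop (𝓝 0)
    rw [this]
    exact tendsto_const_nhds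
  · change Tendsto (fun n => ((at2 (s n) * h) *ᵥ w) 1) atTop (𝓝 0)
    refine h1.congr fun n => ?_
    rw [← mulVec_mulVec, at2_mulVec]
    simp

theorem tendsto_minus {s : ℕ → ℝ} (hs : Tendsto s atTop atBot) {h : M2 ℝ} {w : Fin 2 → ℝ}
    (h0 : (h *ᵥ w) 1 = 0) : Tendsto (fun n => (at2 (s n) * h) *ᵥ w) atTop (𝓝 0) := by
  rw [tendsto_pi_nhds]
  intro i
  have h1 : Tendsto (fun n => Real.exp (s n) * (h *ᵥ w) 0) atTop (𝓝 0) := by
    have := (Real.tendsto_exp_atBot.comp hs).mul_const ((h *ᵥ w) 0)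
    simpa using this
  fin_cases i
  · change Tendsto (fun n => ((at2 (s n) * h) *ᵥ w) 0) atTop (𝓝 0)
    refine h1.congr fun n => ?_
    rw [← mulVec_mulVec, at2_mulVec]
    simp
  · have : (fun n => ((at2 (s n) * h) *ᵥ w) 1) = fun _ => (0 : ℝ) := by
      funext n
      rw [← mulVec_mulVec, at2_mulVec, h0]
      simp
    change Tendsto (fun n => ((at2 (s n) * h) *ᵥ w) 1) atTop (𝓝 0)
    rw [this]
    exact tendsto_const_nhds

theorem obvious_of_divergent (hM : S_mahler2) (hS : S_shortconst) (x : HH.G ⧸ HH.intPoints)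
    (hdiv : QGroup.Divergent HH.intPoints (dd_le.trans aa_le) x) :
    QGroup.Obvious HH.intPoints (dd_le.trans aa_le) x := by
  obtain ⟨g, rfl⟩ := QuotientGroup.mk_surjective x
  obtain ⟨h, k, hh, hk, rfl⟩ := exists_mk g
  have hdet : ∀ s : ℝ, (at2 s * h).det = 1 := fun s => by rw [det_mul, det_at2, hh, one_mul]
  have hexp : ∀ s : ℝ, HH.exp ⟨el s, (dd_le.trans aa_le) (el s).2⟩ * mk h k hh hk =
      mk (at2 s * h) k (hdet s) hk := by
    intro s
    rw [exp_el, mk_mul]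
    congr 1
    rw [one_mul]
  have hd1 : Tendsto (fun s : ℝ => ((mk (at2 s * h) k (hdet s) hk : HH.G) : HH.G ⧸ HH.intPoints))
      (cocompact ℝ) (cocompact (HH.G ⧸ HH.intPoints)) := by
    have h1 : Tendsto _ _ _ := Tendsto.comp hdiv tendsto_el
    refine h1.congr fun s => ?_
    change ((HH.exp ⟨el s, (dd_le.trans aa_le) (el s).2⟩ * mk h k hh hk : HH.G) :
      HH.G ⧸ HH.intPoints) = _
    rw [hexp]
  -- a vector contracted at plus infinity
  obtain ⟨v, hv, hv0⟩ : ∃ v : Fin 2 → ℤ, v ≠ 0 ∧ (h *ᵥ (fun i => ((v i : ℤ) : ℝ))) 0 = 0 := by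
    apply hS h hh
    intro ε hε
    obtain ⟨T, hT⟩ := short_of_div hM (fun s => at2 s * h) hdet k hk
      (hd1.mono_left atTop_le_cocompact) ε hε
    refine ⟨T, fun t ht => ?_⟩
    obtain ⟨v, hv, hv'⟩ := hT t ht
    exact ⟨v, hv, coords_lt hv'⟩
  obtain ⟨w, hw, hw0⟩ : ∃ v : Fin 2 → ℤ, v ≠ 0 ∧ (h *ᵥ (fun i => ((v i : ℤ) : ℝ))) 1 = 0 := by
    have h1 : ∀ u : Fin 2 → ℝ, ((!![0, 1; -1, 0] * h : M2 ℝ) *ᵥ u) 0 = (h *ᵥ u) 1 := by
      intro u
      rw [← mulVec_mulVec]
      simp [Matrix.mulVec, dotProduct, Fin.sum_univ_two]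
    have h2 : ∀ u : Fin 2 → ℝ, ((!![0, 1; -1, 0] * h : M2 ℝ) *ᵥ u) 1 = -(h *ᵥ u) 0 := by
      intro u
      rw [← mulVec_mulVec]
      simp [Matrix.mulVec, dotProduct, Fin.sum_univ_two]
    have h3 := hS (!![0, 1; -1, 0] * h) (by rw [det_mul, hh, det_fin_two]; simp) (by
      intro ε hε
      obtain ⟨T, hT⟩ := short_of_div hM (fun s => at2 (-s) * h) (fun s => hdet (-s)) k hk
        (hd1.comp (tendsto_neg_atTop_atBot.mono_right atBot_le_cocompact)) ε hε
      refine ⟨T, fun t ht => ?_⟩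
      obtain ⟨v, hv, hv'⟩ := hT t ht
      obtain ⟨h4, h5⟩ := coords_lt hv'
      refine ⟨v, hv, ?_, ?_⟩
      · rw [h1]
        rwa [neg_neg] at h5
      · rw [h2, mul_neg, abs_neg]
        exact h4)
    obtain ⟨w, hw, hw0⟩ := h3
    refine ⟨w, hw, ?_⟩
    rw [← h1]
    exact hw0
  refine ⟨_, rfl, 2, fun _ => rep1, ![fun i => ((v i : ℤ) : ℚ), fun i => ((w i : ℤ) : ℚ)], ?_, ?_⟩
  · intro i
    fin_cases i
    · intro h0
      apply hv
      funext j
      have := congrFun h0 j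
      change ((v j : ℤ) : ℚ) = 0 at this
      exact_mod_cast this
    · intro h0
      apply hw
      funext j
      have := congrFun h0 j
      change ((w j : ℤ) : ℚ) = 0 at this
      exact_mod_cast this
  · intro y hy
    choose s hs using fun n => exists_el (y n)
    have hy' : Tendsto s atTop (cocompact ℝ) := by
      apply tendsto_of_el
      refine hy.congr fun n => hs n
    have habs : Tendsto (fun n => |s n|) atTop atTop := by
      have := (tendsto_norm_cocompact_atTop (E := ℝ)).comp hy'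
      exact this
    by_cases hpos : ∃ᶠ n in atTop, 0 ≤ s n
    · obtain ⟨φ, hφ, hφ'⟩ := extraction_of_frequently_atTop hpos
      refine ⟨0, φ, hφ, ?_⟩
      have h1 : Tendsto (fun n => s (φ n)) atTop atTop := by
        have := habs.comp hφ.tendsto_atTop
        refine this.congr fun n => ?_
        exact abs_of_nonneg (hφ' n)
      have h2 := tendsto_plus h1 hv0
      refine h2.congr fun n => ?_
      change _ = rep1.ρ (HH.exp ⟨y (φ n), _⟩ * mk h k hh hk) *ᵥ (fun j => ((((v j : ℤ) : ℚ)) : ℝ))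
      have h3 : HH.exp ⟨y (φ n), (dd_le.trans aa_le) (y (φ n)).2⟩ * mk h k hh hk =
          mk (at2 (s (φ n)) * h) k (hdet _) hk := by
        rw [← hexp]
        congr 3
        rw [hs (φ n)]
      rw [h3, rep1_mk]
      exact congrArg (fun u : Fin 2 → ℝ => (at2 (s (φ n)) * h) *ᵥ u)
        (funext fun j => (Rat.cast_intCast (v j)).symm)
    · rw [not_frequently] at hpos
      have hneg : ∃ᶠ n in atTop, s n < 0 := by
        apply Eventually.frequently
        exact hpos.mono fun n hn => not_le.mp hn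
      obtain ⟨φ, hφ, hφ'⟩ := extraction_of_frequently_atTop hneg
      refine ⟨1, φ, hφ, ?_⟩
      have h1 : Tendsto (fun n => s (φ n)) atTop atBot := by
        have := tendsto_neg_atTop_atBot.comp (habs.comp hφ.tendsto_atTop)
        refine this.congr fun n => ?_
        change -|s (φ n)| = s (φ n)
        rw [abs_of_neg (hφ' n), neg_neg]
      have h2 := tendsto_minus h1 hw0
      refine h2.congr fun n => ?_
      change _ = rep1.ρ (HH.exp ⟨y (φ n), _⟩ * mk h k hh hk) *ᵥ (fun j => ((((w j : ℤ) : ℚ)) : ℝ))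
      have h3 : HH.exp ⟨y (φ n), (dd_le.trans aa_le) (y (φ n)).2⟩ * mk h k hh hk =
          mk (at2 (s (φ n)) * h) k (hdet _) hk := by
        rw [← hexp]
        congr 3
        rw [hs (φ n)]
      rw [h3, rep1_mk]
      exact congrArg (fun u : Fin 2 → ℝ => (at2 (s (φ n)) * h) *ᵥ u)
        (funext fun j => (Rat.cast_intCast (w j)).symm)

end Pool.Agent.Helper654_DO.ex
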