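import Pool.Agent.Helper654_DO.Stmts
import Pool.Agent.Helper654_DO.Stmts3

/-!
# The example: two commuting copies of `sl₂`
-/

set_option autoImplicit false

open Matrix Module Filter Topology

namespace Pool.Agent.Helper654_DO

namespace sl2_blocks

/-- a space spanned by an `sl₂` triple is simple -/
theorem simple_of_triple {N : ℕ} {L : Submodule ℚ (MatQ N)} {h e f : MatQ N}
    (hL : ∀ z : MatQ N, z ∈ L ↔ ∃ a b c : ℚ, z = a • h + b • e + c • f)
    (he : h * e - e * h = (2 : ℚ) • e) (hf : h * f - f * h = (-2 : ℚ) • f)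
    (hef : e * f - f * e = h) (h0 : h ≠ 0) : IsSimpleLie L := by
  have he' : h * e = (2 : ℚ) • e + e * h := by rw [← he]; abel
  have hf' : h * f = (-2 : ℚ) • f + f * h := by rw [← hf]; abel
  have hef' : e * f = h + f * e := by rw [← hef]; abel
  have mh : h ∈ L := (hL h).2 ⟨1, 0, 0, by simp⟩
  have me : e ∈ L := (hL e).2 ⟨0, 1, 0, by simp⟩
  have mf : f ∈ L := (hL f).2 ⟨0, 0, 1, by simp⟩
  refine ⟨?_, ⟨e, me, f, mf, ?_⟩, ?_⟩
  · intro x hx y hy
    obtain ⟨a, b, c, rfl⟩ := (hL x).1 hx
    obtain ⟨a', b', c', rfl⟩ := (hL y).1 hy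
    refine (hL _).2 ⟨b * c' - b' * c, 2 * (a * b' - a' * b), 2 * (c * a' - c' * a), ?_⟩
    simp only [add_mul, mul_add, smul_mul_assoc, mul_smul_comm]
    rw [he', hf', hef']
    module
  · intro hc
    apply h0
    rw [← hef, hc, sub_self]
  · intro I hI hid
    by_cases hb : I = ⊥
    · exact Or.inl hb
    right
    obtain ⟨z, hz, hz0⟩ := Submodule.exists_mem_ne_zero_of_ne_bot hb
    obtain ⟨a, b, c, rfl⟩ := (hL z).1 (hI hz)
    -- it is enough that `h` belongs to `I`
    suffices hh : h ∈ I by
      have e1 : h * h - h * h = 0 := sub_self _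
      have e2 : e * h - h * e = (-2 : ℚ) • e := by rw [he']; module
      have e3 : f * h - h * f = (2 : ℚ) • f := by rw [hf']; module
      have ie : e ∈ I := by
        have := hid e me h hh
        rw [e2] at this
        have h2 := I.smul_mem (-1 / 2 : ℚ) this
        rw [smul_smul] at h2
        norm_num at h2
        exact h2
      have if' : f ∈ I := by
        have := hid f mf h hh
        rw [e3] at this
        have h2 := I.smul_mem (1 / 2 : ℚ) this
        rw [smul_smul] at h2
        norm_num at h2
        exact h2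
      refine le_antisymm hI fun w hw => ?_
      obtain ⟨p, q, r, rfl⟩ := (hL w).1 hw
      exact I.add_mem (I.add_mem (I.smul_mem _ hh) (I.smul_mem _ ie)) (I.smul_mem _ if')
    have k1 : h * (a • h + b • e + c • f) - (a • h + b • e + c • f) * h =
        (2 * b) • e - (2 * c) • f := by
      simp only [add_mul, mul_add, smul_mul_assoc, mul_smul_comm]
      rw [he', hf']
      module
    have m1 := hid h mh _ hz
    rw [k1] at m1
    have k2 : h * ((2 * b) • e - (2 * c) • f) - ((2 * b) • e - (2 * c) • f) * h =
        (4 * b) • e + (4 * c) • f := by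
      simp only [sub_mul, mul_sub, smul_mul_assoc, mul_smul_comm]
      rw [he', hf']
      module
    have m2 := hid h mh _ m1
    rw [k2] at m2
    have mb : b • e ∈ I := by
      have := I.add_mem (I.smul_mem (1 / 4 : ℚ) m1) (I.smul_mem (1 / 8 : ℚ) m2)
      convert this using 1
      module
    have mc : c • f ∈ I := by
      have := I.add_mem (I.smul_mem (-1 / 4 : ℚ) m1) (I.smul_mem (1 / 8 : ℚ) m2)
      convert this using 1
      module
    have ma : a • h ∈ I := by
      have := I.sub_mem (I.sub_mem hz mb) mc
      convert this using 1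
      module
    have hfe : f * e - e * f = -h := by rw [hef']; abel
    by_cases hb0 : b = 0
    · by_cases hc0 : c = 0
      · have ha0 : a ≠ 0 := by
          rintro rfl
          apply hz0
          rw [hb0, hc0]; simp
        have := I.smul_mem a⁻¹ ma
        rwa [smul_smul, inv_mul_cancel₀ ha0, one_smul] at this
      · have h1 := I.smul_mem c⁻¹ mc
        rw [smul_smul, inv_mul_cancel₀ hc0, one_smul] at h1
        have := hid e me f h1
        rwa [hef] at this
    · have h1 := I.smul_mem b⁻¹ mb
      rw [smul_smul, inv_mul_cancel₀ hb0, one_smul] at h1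
      have := hid f mf e h1
      rw [hfe] at this
      simpa using I.neg_mem this

end sl2_blocks

theorem T_sl2_blocks : S_sl2_blocks := by
  intro J J' hJ hJ'
  refine ⟨?_, ?_, ?_⟩
  · intro k
    fin_cases k
    · show IsSimpleLie J
      refine sl2_blocks.simple_of_triple
        (h := !![1, 0, 0, 0; 0, -1, 0, 0; 0, 0, 0, 0; 0, 0, 0, 0])
        (e := !![0, 1, 0, 0; 0, 0, 0, 0; 0, 0, 0, 0; 0, 0, 0, 0])
        (f := !![0, 0, 0, 0; 1, 0, 0, 0; 0, 0, 0, 0; 0, 0, 0, 0]) ?_ ?_ ?_ ?_ ?_
      · intro z
        rw [hJ]
        refine exists_congr fun a => exists_congr fun b => exists_congr fun c => ?_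
        refine Eq.congr_right ?_
        ext i j
        fin_cases i <;> fin_cases j <;> simp
      · ext i j
        fin_cases i <;> fin_cases j <;> simp <;> norm_num
      · ext i j
        fin_cases i <;> fin_cases j <;> simp <;> norm_num
      · ext i j
        fin_cases i <;> fin_cases j <;> simp
      · intro h
        have := congrFun (congrFun h 0) 0
        simp at this
    · show IsSimpleLie J'
      refine sl2_blocks.simple_of_triple
        (h := !![0, 0, 0, 0; 0, 0, 0, 0; 0, 0, 1, 0; 0, 0, 0, -1])
        (e := !![0, 0, 0, 0; 0, 0, 0, 0; 0, 0, 0, 1; 0, 0, 0, 0])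
        (f := !![0, 0, 0, 0; 0, 0, 0, 0; 0, 0, 0, 0; 0, 0, 1, 0]) ?_ ?_ ?_ ?_ ?_
      · intro z
        rw [hJ']
        refine exists_congr fun a => exists_congr fun b => exists_congr fun c => ?_
        refine Eq.congr_right ?_
        ext i j
        fin_cases i <;> fin_cases j <;> simp
      · ext i j
        fin_cases i <;> fin_cases j <;> simp <;> norm_num
      · ext i j
        fin_cases i <;> fin_cases j <;> simp <;> norm_num
      · ext i j
        fin_cases i <;> fin_cases j <;> simp
      · intro h
        have := congrFun (congrFun h 2) 2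
        simp at this
  · have key : ∀ x ∈ J, ∀ y ∈ J', x * y = y * x := by
      intro x hx y hy
      obtain ⟨a, b, c, rfl⟩ := (hJ x).1 hx
      obtain ⟨a', b', c', rfl⟩ := (hJ' y).1 hy
      ext i j
      fin_cases i <;> fin_cases j <;> simp
    intro j k hjk x hx y hy
    fin_cases j <;> fin_cases k
    · exact absurd rfl hjk
    · exact key x hx y hy
    · exact (key y hy x hx).symm
    · exact absurd rfl hjk
  · apply le_antisymm
    · refine sup_le ?_ ?_
      · exact le_iSup (![J, J'] : Fin 2 → Submodule ℚ (MatQ 4)) 0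
      · exact le_iSup (![J, J'] : Fin 2 → Submodule ℚ (MatQ 4)) 1
    · refine iSup_le fun k => ?_
      fin_cases k
      · exact le_sup_left
      · exact le_sup_right

end Pool.Agent.Helper654_DO
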