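import Pool.Agent.Helper654_DO.Ex5
import Pool.Agent.Helper654_DO.T_sl2_blocks

/-!
# The group `SL₂ × SL₂`: the two simple factors
-/

set_option autoImplicit false

open Matrix Module Filter Topology

namespace Pool.Agent.Helper654_DO.ex

/-- the first factor -/
def J1 : Submodule ℚ (MatQ 4) where
  carrier := {z | ∃ x : M2 ℚ, x.trace = 0 ∧ z = blk x 0}
  zero_mem' := ⟨0, by simp, by rw [blk_zero]⟩
  add_mem' := by
    rintro z w ⟨x, hx, rfl⟩ ⟨x', hx', rfl⟩
    exact ⟨x + x', by rw [trace_add, hx, hx', add_zero], by rw [blk_add, add_zero]⟩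
  smul_mem' := by
    rintro c z ⟨x, hx, rfl⟩
    exact ⟨c • x, by rw [trace_smul, hx, smul_zero], by rw [blk_smul, smul_zero]⟩

/-- the second factor -/
def J2 : Submodule ℚ (MatQ 4) where
  carrier := {z | ∃ x : M2 ℚ, x.trace = 0 ∧ z = blk 0 x}
  zero_mem' := ⟨0, by simp, by rw [blk_zero]⟩
  add_mem' := by
    rintro z w ⟨x, hx, rfl⟩ ⟨x', hx', rfl⟩
    exact ⟨x + x', by rw [trace_add, hx, hx', add_zero], by rw [blk_add, add_zero]⟩
  smul_mem' := by
    rintro c z ⟨x, hx, rfl⟩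
    exact ⟨c • x, by rw [trace_smul, hx, smul_zero], by rw [blk_smul, smul_zero]⟩

theorem sum_eq : LQ = J1 ⊔ J2 := by
  apply le_antisymm
  · rintro _ ⟨x, y, hx, hy, rfl⟩
    have h : blk x y = blk x 0 + blk 0 y := by rw [blk_add, add_zero, zero_add]
    rw [h]
    exact Submodule.add_mem_sup ⟨x, hx, rfl⟩ ⟨y, hy, rfl⟩
  · apply sup_le
    · rintro _ ⟨x, hx, rfl⟩
      exact ⟨x, 0, hx, by simp, rfl⟩
    · rintro _ ⟨x, hx, rfl⟩
      exact ⟨0, x, by simp, hx, rfl⟩

theorem trace_zero_iff (x : M2 ℚ) (hx : x.trace = 0) : x = !![x 0 0, x 0 1; x 1 0, -x 0 0] := by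
  rw [trace_fin_two] at hx
  ext i j
  fin_cases i <;> fin_cases j <;> simp
  linarith

theorem sumOfSimple : IsSumOfSimple HH.lieQ ![J1, J2] := by
  have h := T_sl2_blocks J1 J2 (by
    intro z
    constructor
    · rintro ⟨x, hx, rfl⟩
      refine ⟨x 0 0, x 0 1, x 1 0, ?_⟩
      rw [trace_zero_iff x hx]
      ext i j
      fin_cases i <;> fin_cases j <;> simp [blk]
    · rintro ⟨a, b, c, rfl⟩
      refine ⟨!![a, b; c, -a], by simp [trace_fin_two], ?_⟩
      ext i j
      fin_cases i <;> fin_cases j <;> simp [blk]) (by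
    intro z
    constructor
    · rintro ⟨x, hx, rfl⟩
      refine ⟨x 0 0, x 0 1, x 1 0, ?_⟩
      rw [trace_zero_iff x hx]
      ext i j
      fin_cases i <;> fin_cases j <;> simp [blk]
    · rintro ⟨a, b, c, rfl⟩
      refine ⟨!![a, b; c, -a], by simp [trace_fin_two], ?_⟩
      ext i j
      fin_cases i <;> fin_cases j <;> simp [blk])
  rw [← sum_eq] at h
  exact h

end Pool.Agent.Helper654_DO.ex
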