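import Pool.Agent.Helper654_DO.Gauge

/-!
# Assembly, fourth part: the theorem, given the pieces
-/

set_option autoImplicit false

open Matrix Module Filter Topology

namespace Pool.Agent.Helper654_DO

namespace QGroup

variable {N : ℕ} {H : QGroup N}

/-- the code of a representation and a rational vector -/
def code (p : Σ r : H.Rep, (Fin r.m → ℚ)) : Code N := ⟨p.1.m, (p.1.P, p.2)⟩

theorem code_injective : Function.Injective (code : (Σ r : H.Rep, (Fin r.m → ℚ)) → Code N) := by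
  rintro ⟨⟨m, ρ, P, hP⟩, v⟩ ⟨⟨m', ρ', P', hP'⟩, v'⟩ h
  simp only [code, Sigma.mk.injEq] at h
  obtain ⟨rfl, h⟩ := h
  rw [heq_eq_eq, Prod.mk.injEq] at h
  obtain ⟨rfl, rfl⟩ := h
  have : ρ = ρ' := by
    apply MonoidHom.ext
    intro g
    ext i j
    rw [hP, hP']
  subst this
  rfl

theorem countable_reps : Countable (Σ r : H.Rep, (Fin r.m → ℚ)) := by
  have := countable_code N
  exact code_injective.countable

/-- the trivial representation of dimension zero -/
def rep0 (H : QGroup N) : H.Rep where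
  m := 0
  ρ := 1
  P := fun i => i.elim0
  spec := fun _ i => i.elim0

end QGroup

theorem rho_inv_mulVec {N : ℕ} {H : QGroup N} (r : H.Rep) (g : H.G) (w : Fin r.m → ℝ) :
    r.ρ g⁻¹ *ᵥ (r.ρ g *ᵥ w) = w := by
  rw [Matrix.mulVec_mulVec, ← map_mul, inv_mul_cancel, map_one, Matrix.one_mulVec]

theorem exists_list_lift {α β : Type} (f : α → β) (l : List (β × ℝ))
    (h : ∀ p ∈ l, ∃ x, f x = p.1) :
    ∃ l' : List (α × ℝ), l'.map (fun p => (f p.1, p.2)) = l := by
  induction l with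
  | nil => exact ⟨[], rfl⟩
  | cons p l ih =>
    obtain ⟨l', hl'⟩ := ih fun q hq => h q (List.mem_cons_of_mem _ hq)
    obtain ⟨x, hx⟩ := h p List.mem_cons_self
    exact ⟨(x, p.2) :: l', by simp [hl', hx]⟩

theorem main_of_pieces (hsim : S_simdiag) (hlie : S_realSpan_lie) (hperf : S_realSpan_perfect)
    (hnd : S_realSpan_nondeg) (hnorm : S_expGroup_normalizes) (hconj : S_conj_split)
    (hpos : S_position) (hgen : S_generation) (hcover : S_cover) (hcore : S_core)
    (hdiv : S_divergence) (hlc : S_locallyCompact) (hclosed : S_rep_closed)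
    (hfinite : S_rep_finite) (hescape : S_rep_escape) (hsubseq : S_rep_subseq)
    {N : ℕ} (H : QGroup N) (hL : IsSimpleLie H.lieQ) (Γ : Subgroup H.G)
    (hΓ : Γ.Commensurable H.intPoints) (a : Submodule ℝ (Mat N)) (ha : IsMaxSplit H.lieR a)
    (d : Submodule ℝ (Mat N)) (hda : d ≤ a) (hd0 : 0 < finrank ℝ d)
    (hd1 : finrank ℝ d < H.rankQ) :
    ∃ x : H.G ⧸ Γ, QGroup.Divergent Γ (hda.trans ha.le) x ∧
      ¬ QGroup.Obvious Γ (hda.trans ha.le) x := by
  obtain ⟨s, hs, hs', hlt⟩ := exists_split_of_lt_rankQ hd1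
  obtain ⟨v, hv, hvL, hvs, hvinj⟩ :=
    exists_position hsim hlie hnd hnorm hconj hpos hL hs hs' ha hda hd0 hlt.le
  have hvG : v ∈ H.G := expGroup_le H hv
  set vG : H.G := ⟨v, hvG⟩ with hvGdef
  -- coordinates on `d`
  set r : ℕ := finrank ℝ d with hr
  let e : (Fin r → ℝ) ≃ₗ[ℝ] d := (Module.finBasis ℝ d).equivFun.symm
  let δ : (Fin r → ℝ) →ₗ[ℝ] H.lieR :=
    LinearMap.codRestrict H.lieR
      (((cj v : Mat N ≃ₗ[ℝ] Mat N) : Mat N →ₗ[ℝ] Mat N).comp (d.subtype.comp (e : (Fin r → ℝ) →ₗ[ℝ] d)))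
      (fun y => hvL _ (e y).2)
  have hδ : ∀ y, ((δ y : H.lieR) : Mat N) = cj v (e y : Mat N) := fun y => rfl
  set d₂ : Submodule ℝ (Mat N) := d.map (cj v : Mat N →ₗ[ℝ] Mat N) with hd₂
  have hδd₂ : ∀ y, ((δ y : H.lieR) : Mat N) ∈ d₂ := fun y => ⟨_, (e y).2, rfl⟩
  have hδ0 : ∀ y, ((δ y : H.lieR) : Mat N) = 0 → y = 0 := by
    intro y hy
    rw [hδ, LinearEquiv.map_eq_zero_iff, ZeroMemClass.coe_eq_zero, LinearEquiv.map_eq_zero_iff] at hy
    exact hy
  -- the space of functionals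
  set U : Submodule ℝ (s →ₗ[ℚ] ℝ) := d₂.map (Phi s) with hU
  have hUlt : finrank ℝ U < finrank ℚ s := by
    have h1 : finrank ℝ U ≤ finrank ℝ d₂ := Submodule.finrank_map_le (Phi s) d₂
    have h2 : finrank ℝ d₂ = finrank ℝ d := LinearEquiv.finrank_map_eq (cj v) d
    omega
  -- the moves
  let IsMove : MatQ N → Prop := fun E => E ∈ H.lieQ ∧ ∃ α : s →ₗ[ℚ] ℚ,
    (∀ x : s, (x : MatQ N) * E - E * (x : MatQ N) = α x • E) ∧ realFn α ∉ U
  let ι : Type := {E : MatQ N // IsMove E}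
  have hιne : Nonempty ι := by
    by_contra hcon
    rw [not_nonempty_iff] at hcon
    have h1 := hgen hL hs hs' U hUlt ⊥ (by
      intro x hx y hy
      rw [Submodule.mem_bot] at hx hy
      rw [hx, hy]
      simp) (by
      intro E hE hα
      exact (hcon.false ⟨E, hE, hα⟩).elim)
    obtain ⟨x, hx, y, hy, hxy⟩ := hL.nonabelian
    have hx0 := h1 hx
    rw [Submodule.mem_bot] at hx0
    exact hxy (by rw [hx0]; simp)
  let EL : ι → H.lieR := fun E => ⟨toR E.1, toR_mem E.2.1⟩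
  have hnil : ∀ E : ι, IsNilpotent E.1 := by
    rintro ⟨E, hE, α, hα, hαU⟩
    have hα0 : ∃ x, α x ≠ 0 := by
      by_contra hcon
      push Not at hcon
      apply hαU
      have : realFn α = 0 := by
        ext x
        simp [realFn, hcon x]
      rw [this]
      exact U.zero_mem
    obtain ⟨x, hx⟩ := hα0
    exact isNilpotent_of_bracket hx (hα x)
  have hnilR : ∀ E : ι, IsNilpotent ((EL E : H.lieR) : Mat N) := by
    intro E
    obtain ⟨n, hn⟩ := hnil E
    exact ⟨n, by change toR E.1 ^ n = 0; rw [← toR_pow, hn, toR_zero]⟩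
  have hr0 : 0 < r := hd0
  -- the direction `X`
  let y₀ : Fin r → ℝ := fun _ => 1
  have hy₀ : y₀ ≠ 0 := by
    intro h
    have := congrFun h ⟨0, hr0⟩
    simp [y₀] at this
  let X : H.lieR := δ y₀
  have hXdiag : Diagonalizable (X : Mat N) := by
    change Diagonalizable (cj v (e y₀ : Mat N))
    exact diag_cj v (ha.split.diag _ (hda (e y₀).2))
  -- the closed sets to be avoided
  have := QGroup.countable_reps (H := H)
  have := countable_of_commensurable hΓ
  let I : Type := (Σ r : H.Rep, (Fin r.m → ℚ)) × Γ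
  have hIne : Nonempty I := ⟨(⟨QGroup.rep0 H, fun i => i.elim0⟩, 1)⟩
  obtain ⟨num, hnum⟩ := exists_surjective_nat I
  classical
  let ΩI : I → Set H.G := fun p =>
    if p.1.2 = 0 then ∅
    else QGroup.Om p.1.1 X (p.1.1.ρ (p.2 : H.G) *ᵥ (fun j => ((p.1.2 j : ℚ) : ℝ)))
  have hw0 : ∀ p : I, p.1.2 ≠ 0 →
      p.1.1.ρ (p.2 : H.G) *ᵥ (fun j => ((p.1.2 j : ℚ) : ℝ)) ≠ 0 := by
    intro p hp h0
    apply hp
    have h1 := rho_inv_mulVec p.1.1 (p.2 : H.G) (fun j => ((p.1.2 j : ℚ) : ℝ))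
    rw [h0, Matrix.mulVec_zero] at h1
    funext j
    have h2 := congrFun h1 j
    simp only [Pi.zero_apply] at h2 ⊢
    exact_mod_cast h2.symm
  have hgenR : ∀ M : Submodule ℝ (Mat N), M ≤ H.lieR → (∀ x ∈ M, ∀ y ∈ M, x * y - y * x ∈ M) →
      (∀ E ∈ Set.range EL, (E : Mat N) ∈ M) → H.lieR ≤ M := by
    intro M _ hM hE
    let MQ : Submodule ℚ (MatQ N) :=
      { carrier := {x | toR x ∈ M}
        zero_mem' := by
          change toR (0 : MatQ N) ∈ M
          rw [toR_zero]; exact M.zero_mem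
        add_mem' := by
          intro x y hx hy
          change toR (x + y) ∈ M
          rw [toR_add]; exact M.add_mem hx hy
        smul_mem' := by
          intro c x hx
          change toR (c • x) ∈ M
          rw [toR_smul]; exact M.smul_mem _ hx }
    have h1 : H.lieQ ≤ MQ := hgen hL hs hs' U hUlt MQ (by
      intro x hx y hy
      change toR (x * y - y * x) ∈ M
      rw [toR_sub, toR_mul, toR_mul]
      exact hM _ hx _ hy) (by
      intro E hE' hα
      exact hE (EL ⟨E, hE', hα⟩) ⟨_, rfl⟩)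
    apply Submodule.span_le.mpr
    rintro _ ⟨x, hx, rfl⟩
    exact h1 hx
  have hloc : LocallyCompactSpace H.G := hlc H
  -- the construction
  obtain ⟨g, hgΩ, hgcov⟩ := hcore (G := H.G) (E := Fin r → ℝ) (V := Frame N) (ι := ι)
    (fun y => H.exp (δ y)) (H.continuous_exp.comp δ.continuous_of_finiteDimensional)
    (fun E t => H.exp (t • EL E))
    (fun E => H.continuous_exp.comp (continuous_id.smul continuous_const))
    (fun E => by rw [zero_smul, H.exp_zero]) (ratPoints H) (one_mem_ratPoints H)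
    (fun E q g hg => exp_mul_mem_ratPoints (toR_mem E.2.1) (hnil E) q hg)
    gauge continuous_gauge
    (by
      rintro ⟨E, hE, α, hα, hαU⟩ g hg ε hε
      obtain ⟨n, k, B, κ, hk, hB, hexp, hneg⟩ := hcover hs' (d := d₂)
        (by
          rintro x hx _ ⟨y, hy, rfl⟩
          exact hvs x hx y hy)
        (by
          rintro _ ⟨y, hy, rfl⟩
          exact trace_lieR hperf hL (hvL y hy))
        (by
          rintro _ ⟨y, hy, rfl⟩ h
          have h1 : y = 0 := hvinj y hy h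
          rw [h1, map_zero])
        hα
        (by
          rintro y hy h
          apply hαU
          refine ⟨y, hy, ?_⟩
          ext x
          exact h x)
      exact gauge_cover hr0 δ (toR_mem hE) hk hB (fun i y t => hexp i _ (hδd₂ y) t)
        (fun y hy => hneg _ (hδd₂ y) (fun h => hy (hδ0 y h))) hg hε)
    (fun n => ΩI (num n))
    (by
      intro n
      simp only [ΩI]
      split_ifs
      · exact isClosed_empty
      · exact hclosed _ _ _)
    (by
      intro n E h h'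
      simp only [ΩI]
      split_ifs
      · intro _; simp
      · exact fun hex => hfinite _ _ _ (EL E) (hnilR E) h h' hex)
    (by
      intro n g
      simp only [ΩI]
      split_ifs with h0
      · exact ⟨[], by simp⟩
      · obtain ⟨l, hl, hl'⟩ := hescape (fun M hM => hperf hL M hM) (Set.range EL) hgenR (num n).1.1 X
          (hw0 (num n) h0) g
        obtain ⟨l', hl''⟩ := exists_list_lift EL l hl
        refine ⟨l', ?_⟩
        rw [← hl''] at hl'
        rw [List.map_map] at hl'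
        exact hl')
  refine ⟨((vG⁻¹ * g : H.G) : H.G ⧸ Γ), ?_, ?_⟩
  · -- divergence
    have h1 : Tendsto (fun y => ((H.exp (δ y) * g : H.G) : H.G ⧸ Γ)) (cocompact (Fin r → ℝ))
        (cocompact (H.G ⧸ Γ)) := by
      apply hdiv hΓ δ g
      intro ε hε
      obtain ⟨R, hR⟩ := hgcov ε hε
      refine ⟨R, fun y hy => ?_⟩
      obtain ⟨⟨k, B, hB⟩, hb⟩ := hR y hy
      exact ⟨k, Nat.lt_succ_iff.mp k.2, B, hB, hb⟩
    have h2 : Tendsto (fun y : d => e.symm y) (cocompact d) (cocompact (Fin r → ℝ)) :=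
      (LinearEquiv.toContinuousLinearEquiv e.symm).toHomeomorph.isClosedEmbedding.tendsto_cocompact
    have h3 : Tendsto (fun x : H.G ⧸ Γ => vG⁻¹ • x) (cocompact (H.G ⧸ Γ)) (cocompact (H.G ⧸ Γ)) :=
      (Homeomorph.smul vG⁻¹ : H.G ⧸ Γ ≃ₜ H.G ⧸ Γ).isClosedEmbedding.tendsto_cocompact
    have h4 := h3.comp (h1.comp h2)
    refine h4.congr fun y => ?_
    change ((vG⁻¹ * (H.exp (δ (e.symm y)) * g) : H.G) : H.G ⧸ Γ) =
      ((H.exp ⟨y, _⟩ * (vG⁻¹ * g) : H.G) : H.G ⧸ Γ)
    congr 1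
    have h5 : H.exp (δ (e.symm y)) = vG * H.exp ⟨y, (hda.trans ha.le) y.2⟩ * vG⁻¹ := by
      apply Subtype.ext
      change expGL (cj v (e (e.symm y) : Mat N)) = v * expGL (y : Mat N) * v⁻¹
      rw [LinearEquiv.apply_symm_apply, expGL_cj]
    rw [h5]
    group
  · -- not obvious
    rintro ⟨g', hg', l, ρ, w, hw, hseq⟩
    -- `g' = v⁻¹ g γ`
    rw [QuotientGroup.eq] at hg'
    obtain ⟨γ, hγ⟩ : ∃ γ : Γ, g' = vG⁻¹ * g * (γ : H.G) := by
      refine ⟨⟨(vG⁻¹ * g)⁻¹ * g', ?_⟩, (mul_inv_cancel_left _ _).symm⟩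
      have := Γ.inv_mem hg'
      simpa [_root_.mul_inv_rev] using this
    have hlim : Tendsto (fun n : ℕ => (n : ℝ) • e y₀) atTop (cocompact d) := by
      have h1 : Tendsto (fun n : ℕ => (n : ℝ) • y₀) atTop (cocompact (Fin r → ℝ)) := by
        rw [← Metric.cobounded_eq_cocompact, ← tendsto_norm_atTop_iff_cobounded]
        have h2 : (fun n : ℕ => ‖(n : ℝ) • y₀‖) = fun n : ℕ => (n : ℝ) * ‖y₀‖ := by
          funext n
          rw [norm_smul, Real.norm_natCast]
        rw [h2]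
        exact tendsto_natCast_atTop_atTop.atTop_mul_const (norm_pos_iff.mpr hy₀)
      have h3 := (LinearEquiv.toContinuousLinearEquiv e).toHomeomorph.isClosedEmbedding.tendsto_cocompact
      have h4 := h3.comp h1
      refine h4.congr fun n => ?_
      change e ((n : ℝ) • y₀) = (n : ℝ) • e y₀
      rw [map_smul]
    obtain ⟨i, φ, hφ, hlim'⟩ := hseq (fun n : ℕ => (n : ℝ) • e y₀) hlim
    obtain ⟨n, hn⟩ := hnum (⟨ρ i, w i⟩, γ)
    apply hgΩ n
    rw [hn]
    simp only [ΩI]
    rw [if_neg (hw i)]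
    apply hsubseq (ρ i) X hXdiag _ g φ hφ
    -- multiply by `ρ(v)`
    have hcont : Continuous fun z : Fin (ρ i).m → ℝ => (ρ i).ρ vG *ᵥ z :=
      Continuous.matrix_mulVec continuous_const continuous_id
    have h1 := (hcont.tendsto 0).comp hlim'
    rw [Matrix.mulVec_zero] at h1
    refine h1.congr fun k => ?_
    simp only [Function.comp]
    rw [Matrix.mulVec_mulVec, Matrix.mulVec_mulVec, ← map_mul, ← map_mul]
    congr 2
    have h5 : H.exp ((φ k : ℝ) • X) = vG * H.exp ⟨(((φ k : ℝ) • e y₀ : d) : Mat N),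
        (hda.trans ha.le) ((φ k : ℝ) • e y₀ : d).2⟩ * vG⁻¹ := by
      apply Subtype.ext
      change expGL ((φ k : ℝ) • cj v (e y₀ : Mat N)) = v * expGL ((φ k : ℝ) • (e y₀ : Mat N)) * v⁻¹
      rw [← map_smul, expGL_cj]
    rw [h5, hγ]
    group

end Pool.Agent.Helper654_DO
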