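import Pool.Agent.Helper654_DO.Final
import Pool.Agent.Helper654_DO.Stmts3

/-!
# Assembly, abstract form
-/

set_option autoImplicit false

open Matrix Module Filter Topology

namespace Pool.Agent.Helper654_DO

theorem expGroup_mono {N : ℕ} {g g' : Submodule ℝ (Mat N)} (h : g ≤ g') :
    expGroup g ≤ expGroup g' :=
  Subgroup.closure_mono (Set.image_mono h)

theorem trace_of_perfect {N : ℕ} {g : Submodule ℝ (Mat N)}
    (hperf : ∀ M : Submodule ℝ (Mat N), (∀ x ∈ g, ∀ y ∈ g, x * y - y * x ∈ M) → g ≤ M)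
    {x : Mat N} (hx : x ∈ g) : x.trace = 0 := by
  have h := hperf (LinearMap.ker (Matrix.traceLinearMap (Fin N) ℝ ℝ)) (by
    intro x _ y _
    rw [LinearMap.mem_ker, Matrix.traceLinearMap_apply, Matrix.trace_sub, Matrix.trace_mul_comm x y,
      sub_self])
  exact h hx

/-- The construction, for a conjugate of `d` in a good position with respect to a split space `s` of
rational matrices in a subalgebra `L₀`. -/
theorem main_abs (hcover : S_cover) (hcore : S_core)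
    (hdiv : S_divergence) (hlc : S_locallyCompact) (hclosed : S_rep_closed)
    (hfinite : S_rep_finite) (hescape : S_rep_escape_sub) (hsubseq : S_rep_subseq)
    {N : ℕ} (H : QGroup N) (Γ : Subgroup H.G) (hΓ : Γ.Commensurable H.intPoints)
    (L₀ : Submodule ℚ (MatQ N)) (hL₀ : L₀ ≤ H.lieQ)
    (hperf : ∀ M : Submodule ℝ (Mat N),
      (∀ x ∈ realSpan L₀, ∀ y ∈ realSpan L₀, x * y - y * x ∈ M) → realSpan L₀ ≤ M)
    (s : Submodule ℚ (MatQ N)) (hs' : IsSplit s)
    (d : Submodule ℝ (Mat N)) (hd : d ≤ H.lieR) (hdd : ∀ y ∈ d, Diagonalizable y)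
    (hd0 : 0 < finrank ℝ d)
    (v : GL (Fin N) ℝ) (hv : v ∈ expGroup (realSpan L₀)) (hvL : ∀ y ∈ d, cj v y ∈ realSpan L₀)
    (hvs : ∀ x ∈ s, ∀ y ∈ d, toR x * cj v y = cj v y * toR x)
    (hvinj : ∀ y ∈ d, (∀ x ∈ s, (toR x * cj v y).trace = 0) → y = 0)
    (hgen : ∀ M : Submodule ℚ (MatQ N), (∀ x ∈ M, ∀ y ∈ M, x * y - y * x ∈ M) →
      (∀ E ∈ L₀, ∀ α : s →ₗ[ℚ] ℚ, (∀ x : s, (x : MatQ N) * E - E * (x : MatQ N) = α x • E) →
        (∀ y ∈ d, ¬ ∀ x : s, (toR (x : MatQ N) * cj v y).trace = ((α x : ℚ) : ℝ)) → E ∈ M) →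
      L₀ ≤ M)
    (hne : L₀ ≠ ⊥) :
    ∃ x : H.G ⧸ Γ, QGroup.Divergent Γ hd x ∧ ¬ QGroup.Obvious Γ hd x := by
  have hM₀ : realSpan L₀ ≤ H.lieR := realSpan_mono hL₀
  have hvG : v ∈ H.G := expGroup_le H (expGroup_mono hM₀ hv)
  set vG : H.G := ⟨v, hvG⟩ with hvGdef
  -- coordinates on `d`
  set r : ℕ := finrank ℝ d with hr
  let e : (Fin r → ℝ) ≃ₗ[ℝ] d := (Module.finBasis ℝ d).equivFun.symm
  let δ : (Fin r → ℝ) →ₗ[ℝ] H.lieR :=
    LinearMap.codRestrict H.lieR
      (((cj v : Mat N ≃ₗ[ℝ] Mat N) : Mat N →ₗ[ℝ] Mat N).comp (d.subtype.comp (e : (Fin r → ℝ) →ₗ[ℝ] d)))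
      (fun y => hM₀ (hvL _ (e y).2))
  have hδ : ∀ y, ((δ y : H.lieR) : Mat N) = cj v (e y : Mat N) := fun y => rfl
  set d₂ : Submodule ℝ (Mat N) := d.map (cj v : Mat N →ₗ[ℝ] Mat N) with hd₂
  have hδd₂ : ∀ y, ((δ y : H.lieR) : Mat N) ∈ d₂ := fun y => ⟨_, (e y).2, rfl⟩
  have hδ0 : ∀ y, ((δ y : H.lieR) : Mat N) = 0 → y = 0 := by
    intro y hy
    rw [hδ, LinearEquiv.map_eq_zero_iff, ZeroMemClass.coe_eq_zero, LinearEquiv.map_eq_zero_iff] at hy
    exact hy
  -- the moves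
  let IsMove : MatQ N → Prop := fun E => E ∈ L₀ ∧ ∃ α : s →ₗ[ℚ] ℚ,
    (∀ x : s, (x : MatQ N) * E - E * (x : MatQ N) = α x • E) ∧
    ∀ y ∈ d, ¬ ∀ x : s, (toR (x : MatQ N) * cj v y).trace = ((α x : ℚ) : ℝ)
  let ι : Type := {E : MatQ N // IsMove E}
  have hιne : Nonempty ι := by
    by_contra hcon
    rw [not_nonempty_iff] at hcon
    have h1 := hgen ⊥ (by
      intro x hx y hy
      rw [Submodule.mem_bot] at hx hy
      rw [hx, hy]
      simp) (by
      intro E hE α h h'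
      exact (hcon.false ⟨E, hE, α, h, h'⟩).elim)
    exact hne (le_bot_iff.mp h1)
  let EL : ι → H.lieR := fun E => ⟨toR E.1, toR_mem (hL₀ E.2.1)⟩
  have hnil : ∀ E : ι, IsNilpotent E.1 := by
    rintro ⟨E, hE, α, hα, hαU⟩
    have hα0 : ∃ x, α x ≠ 0 := by
      by_contra hcon
      push Not at hcon
      apply hαU 0 d.zero_mem
      intro x
      simp [hcon x]
    obtain ⟨x, hx⟩ := hα0
    exact isNilpotent_of_bracket hx (hα x)
  have hnilR : ∀ E : ι, IsNilpotent ((EL E : H.lieR) : Mat N) := by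
    intro E
    obtain ⟨n, hn⟩ := hnil E
    exact ⟨n, by change toR E.1 ^ n = 0; rw [← toR_pow, hn, toR_zero]⟩
  have hr0 : 0 < r := hd0
  -- the direction `X`
  let y₀ : Fin r → ℝ := fun _ => 1
  have hy₀ : y₀ ≠ 0 := by
    intro h
    have := congrFun h ⟨0, hr0⟩
    simp [y₀] at this
  let X : H.lieR := δ y₀
  have hXdiag : Diagonalizable (X : Mat N) := by
    change Diagonalizable (cj v (e y₀ : Mat N))
    exact diag_cj v (hdd _ (e y₀).2)
  -- the closed sets to be avoided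
  have := QGroup.countable_reps (H := H)
  have := countable_of_commensurable hΓ
  let I : Type := (Σ r : H.Rep, (Fin r.m → ℚ)) × Γ
  have hIne : Nonempty I := ⟨(⟨QGroup.rep0 H, fun i => i.elim0⟩, 1)⟩
  obtain ⟨num, hnum⟩ := exists_surjective_nat I
  classical
  let ΩI : I → Set H.G := fun p =>
    if p.1.2 = 0 then ∅
    else QGroup.Om p.1.1 X (p.1.1.ρ (p.2 : H.G) *ᵥ (fun j => ((p.1.2 j : ℚ) : ℝ)))
  have hw0 : ∀ p : I, p.1.2 ≠ 0 →
      p.1.1.ρ (p.2 : H.G) *ᵥ (fun j => ((p.1.2 j : ℚ) : ℝ)) ≠ 0 := by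
    intro p hp h0
    apply hp
    have h1 := rho_inv_mulVec p.1.1 (p.2 : H.G) (fun j => ((p.1.2 j : ℚ) : ℝ))
    rw [h0, Matrix.mulVec_zero] at h1
    funext j
    have h2 := congrFun h1 j
    simp only [Pi.zero_apply] at h2 ⊢
    exact_mod_cast h2.symm
  have hgenR : ∀ M : Submodule ℝ (Mat N), M ≤ H.lieR → (∀ x ∈ M, ∀ y ∈ M, x * y - y * x ∈ M) →
      (∀ E ∈ Set.range EL, (E : Mat N) ∈ M) → realSpan L₀ ≤ M := by
    intro M _ hM hE
    let MQ : Submodule ℚ (MatQ N) :=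
      { carrier := {x | toR x ∈ M}
        zero_mem' := by
          change toR (0 : MatQ N) ∈ M
          rw [toR_zero]; exact M.zero_mem
        add_mem' := by
          intro x y hx hy
          change toR (x + y) ∈ M
          rw [toR_add]; exact M.add_mem hx hy
        smul_mem' := by
          intro c x hx
          change toR (c • x) ∈ M
          rw [toR_smul]; exact M.smul_mem _ hx }
    have h1 : L₀ ≤ MQ := hgen MQ (by
      intro x hx y hy
      change toR (x * y - y * x) ∈ M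
      rw [toR_sub, toR_mul, toR_mul]
      exact hM _ hx _ hy) (by
      intro E hE' α hα hα'
      exact hE (EL ⟨E, hE', α, hα, hα'⟩) ⟨_, rfl⟩)
    apply Submodule.span_le.mpr
    rintro _ ⟨x, hx, rfl⟩
    exact h1 hx
  have hloc : LocallyCompactSpace H.G := hlc H
  -- the construction
  obtain ⟨g, hgΩ, hgcov⟩ := hcore (G := H.G) (E := Fin r → ℝ) (V := Frame N) (ι := ι)
    (fun y => H.exp (δ y)) (H.continuous_exp.comp δ.continuous_of_finiteDimensional)
    (fun E t => H.exp (t • EL E))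
    (fun E => H.continuous_exp.comp (continuous_id.smul continuous_const))
    (fun E => by rw [zero_smul, H.exp_zero]) (ratPoints H) (one_mem_ratPoints H)
    (fun E q g hg => exp_mul_mem_ratPoints (toR_mem (hL₀ E.2.1)) (hnil E) q hg)
    gauge continuous_gauge
    (by
      rintro ⟨E, hE, α, hα, hαU⟩ g hg ε hε
      obtain ⟨n, k, B, κ, hk, hB, hexp, hneg⟩ := hcover hs' (d := d₂)
        (by
          rintro x hx _ ⟨y, hy, rfl⟩
          exact hvs x hx y hy)
        (by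
          rintro _ ⟨y, hy, rfl⟩
          exact trace_of_perfect hperf (hvL y hy))
        (by
          rintro _ ⟨y, hy, rfl⟩ h
          have h1 : y = 0 := hvinj y hy h
          rw [h1, map_zero])
        hα
        (by
          rintro _ ⟨y, hy, rfl⟩ h
          exact hαU y hy h)
      exact gauge_cover hr0 δ (toR_mem (hL₀ hE)) hk hB (fun i y t => hexp i _ (hδd₂ y) t)
        (fun y hy => hneg _ (hδd₂ y) (fun h => hy (hδ0 y h))) hg hε)
    (fun n => ΩI (num n))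
    (by
      intro n
      simp only [ΩI]
      split_ifs
      · exact isClosed_empty
      · exact hclosed _ _ _)
    (by
      intro n E h h'
      simp only [ΩI]
      split_ifs
      · intro _; simp
      · exact fun hex => hfinite _ _ _ (EL E) (hnilR E) h h' hex)
    (by
      intro n g
      simp only [ΩI]
      split_ifs with h0
      · exact ⟨[], by simp⟩
      · obtain ⟨l, hl, hl'⟩ := hescape (realSpan L₀) hM₀ hperf (Set.range EL) hgenR (num n).1.1 X
          (hvL _ (e y₀).2) (hw0 (num n) h0) g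
        obtain ⟨l', hl''⟩ := exists_list_lift EL l hl
        refine ⟨l', ?_⟩
        rw [← hl''] at hl'
        rw [List.map_map] at hl'
        exact hl')
  refine ⟨((vG⁻¹ * g : H.G) : H.G ⧸ Γ), ?_, ?_⟩
  · -- divergence
    have h1 : Tendsto (fun y => ((H.exp (δ y) * g : H.G) : H.G ⧸ Γ)) (cocompact (Fin r → ℝ))
        (cocompact (H.G ⧸ Γ)) := by
      apply hdiv hΓ δ g
      intro ε hε
      obtain ⟨R, hR⟩ := hgcov ε hε
      refine ⟨R, fun y hy => ?_⟩
      obtain ⟨⟨k, B, hB⟩, hb⟩ := hR y hy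
      exact ⟨k, Nat.lt_succ_iff.mp k.2, B, hB, hb⟩
    have h2 : Tendsto (fun y : d => e.symm y) (cocompact d) (cocompact (Fin r → ℝ)) :=
      (LinearEquiv.toContinuousLinearEquiv e.symm).toHomeomorph.isClosedEmbedding.tendsto_cocompact
    have h3 : Tendsto (fun x : H.G ⧸ Γ => vG⁻¹ • x) (cocompact (H.G ⧸ Γ)) (cocompact (H.G ⧸ Γ)) :=
      (Homeomorph.smul vG⁻¹ : H.G ⧸ Γ ≃ₜ H.G ⧸ Γ).isClosedEmbedding.tendsto_cocompact
    have h4 := h3.comp (h1.comp h2)
    refine h4.congr fun y => ?_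
    change ((vG⁻¹ * (H.exp (δ (e.symm y)) * g) : H.G) : H.G ⧸ Γ) =
      ((H.exp ⟨y, _⟩ * (vG⁻¹ * g) : H.G) : H.G ⧸ Γ)
    congr 1
    have h5 : H.exp (δ (e.symm y)) = vG * H.exp ⟨y, hd y.2⟩ * vG⁻¹ := by
      apply Subtype.ext
      change expGL (cj v (e (e.symm y) : Mat N)) = v * expGL (y : Mat N) * v⁻¹
      rw [LinearEquiv.apply_symm_apply, expGL_cj]
    rw [h5]
    group
  · -- not obvious
    rintro ⟨g', hg', l, ρ, w, hw, hseq⟩
    -- `g' = v⁻¹ g γ`
    rw [QuotientGroup.eq] at hg'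
    obtain ⟨γ, hγ⟩ : ∃ γ : Γ, g' = vG⁻¹ * g * (γ : H.G) := by
      refine ⟨⟨(vG⁻¹ * g)⁻¹ * g', ?_⟩, (mul_inv_cancel_left _ _).symm⟩
      have := Γ.inv_mem hg'
      simpa [_root_.mul_inv_rev] using this
    have hlim : Tendsto (fun n : ℕ => (n : ℝ) • e y₀) atTop (cocompact d) := by
      have h1 : Tendsto (fun n : ℕ => (n : ℝ) • y₀) atTop (cocompact (Fin r → ℝ)) := by
        rw [← Metric.cobounded_eq_cocompact, ← tendsto_norm_atTop_iff_cobounded]
        have h2 : (fun n : ℕ => ‖(n : ℝ) • y₀‖) = fun n : ℕ => (n : ℝ) * ‖y₀‖ := by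
          funext n
          rw [norm_smul, Real.norm_natCast]
        rw [h2]
        exact tendsto_natCast_atTop_atTop.atTop_mul_const (norm_pos_iff.mpr hy₀)
      have h3 := (LinearEquiv.toContinuousLinearEquiv e).toHomeomorph.isClosedEmbedding.tendsto_cocompact
      have h4 := h3.comp h1
      refine h4.congr fun n => ?_
      change e ((n : ℝ) • y₀) = (n : ℝ) • e y₀
      rw [map_smul]
    obtain ⟨i, φ, hφ, hlim'⟩ := hseq (fun n : ℕ => (n : ℝ) • e y₀) hlim
    obtain ⟨n, hn⟩ := hnum (⟨ρ i, w i⟩, γ)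
    apply hgΩ n
    rw [hn]
    simp only [ΩI]
    rw [if_neg (hw i)]
    apply hsubseq (ρ i) X hXdiag _ g φ hφ
    -- multiply by `ρ(v)`
    have hcont : Continuous fun z : Fin (ρ i).m → ℝ => (ρ i).ρ vG *ᵥ z :=
      Continuous.matrix_mulVec continuous_const continuous_id
    have h1 := (hcont.tendsto 0).comp hlim'
    rw [Matrix.mulVec_zero] at h1
    refine h1.congr fun k => ?_
    simp only [Function.comp]
    rw [Matrix.mulVec_mulVec, Matrix.mulVec_mulVec, ← map_mul, ← map_mul]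
    congr 2
    have h5 : H.exp ((φ k : ℝ) • X) = vG * H.exp ⟨(((φ k : ℝ) • e y₀ : d) : Mat N),
        hd ((φ k : ℝ) • e y₀ : d).2⟩ * vG⁻¹ := by
      apply Subtype.ext
      change expGL ((φ k : ℝ) • cj v (e y₀ : Mat N)) = v * expGL ((φ k : ℝ) • (e y₀ : Mat N)) * v⁻¹
      rw [← map_smul, expGL_cj]
    rw [h5, hγ]
    group

end Pool.Agent.Helper654_DO
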