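import Pool.Agent.Helper654_DO.CovLemma

/-!
# Assembly, third part: the moves and the gauges
-/

set_option autoImplicit false

open Matrix Module Filter Topology

namespace Pool.Agent.Helper654_DO

/-- integral frames -/
abbrev Frame (N : ℕ) := Σ k : Fin (N + 1), {B : Matrix (Fin N) (Fin k) ℤ // Pl (intR B) ≠ 0}

/-- the size of a frame after applying `g` -/
noncomputable def gauge {N : ℕ} {H : QGroup N} (b : Frame N) (g : H.G) : ℝ :=
  ‖Pl (((g : GL (Fin N) ℝ) : Mat N) * intR b.2.1)‖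

theorem continuous_gauge {N : ℕ} {H : QGroup N} (b : Frame N) :
    Continuous (gauge b : H.G → ℝ) := by
  unfold gauge
  refine (continuous_Pl.comp ?_).norm
  refine Continuous.matrix_mul ?_ continuous_const
  exact Units.continuous_val.comp continuous_subtype_val

/-- the elements of `G` with rational inverse -/
def ratPoints {N : ℕ} (H : QGroup N) : Set H.G :=
  {g | ∃ A : MatQ N, (((g : GL (Fin N) ℝ)⁻¹ : GL (Fin N) ℝ) : Mat N) = toR A}

theorem one_mem_ratPoints {N : ℕ} (H : QGroup N) : (1 : H.G) ∈ ratPoints H :=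
  ⟨1, by simp [toR_one]⟩

theorem exp_mul_mem_ratPoints {N : ℕ} {H : QGroup N} {E : MatQ N} (hE : toR E ∈ H.lieR)
    (hnil : IsNilpotent E) (q : ℚ) {g : H.G} (hg : g ∈ ratPoints H) :
    H.exp ((q : ℝ) • ⟨toR E, hE⟩) * g ∈ ratPoints H := by
  obtain ⟨A, hA⟩ := hg
  obtain ⟨C, hC⟩ := exp_rational hnil (-q)
  refine ⟨A * C, ?_⟩
  have h1 : (((H.exp ((q : ℝ) • ⟨toR E, hE⟩) * g : H.G) : GL (Fin N) ℝ)⁻¹ : GL (Fin N) ℝ) =
      (g : GL (Fin N) ℝ)⁻¹ * ((H.exp ((q : ℝ) • ⟨toR E, hE⟩) : H.G) : GL (Fin N) ℝ)⁻¹ := by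
    rw [Subgroup.coe_mul, _root_.mul_inv_rev]
  rw [h1, Units.val_mul, hA, toR_mul, ← hC]
  congr 1
  change NormedSpace.exp (-((q : ℝ) • toR E)) = _
  push_cast
  rw [neg_smul]

/-- the covering property of a move -/
theorem gauge_cover {N : ℕ} {H : QGroup N} {r : ℕ} (hr : 0 < r) (δ : (Fin r → ℝ) →ₗ[ℝ] H.lieR)
    {E : MatQ N} (hE : toR E ∈ H.lieR)
    {n : ℕ} {k : Fin n → ℕ} {B : ∀ i, Matrix (Fin N) (Fin (k i)) ℤ}
    {κ : Fin n → (Mat N →ₗ[ℝ] ℝ)} (hk : ∀ i, k i ≤ N) (hB : ∀ i, Pl (intR (B i)) ≠ 0)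
    (hexp : ∀ i, ∀ y : Fin r → ℝ, ∀ t : ℝ,
      Pl ((expGL (δ y : Mat N) : Mat N) * (expGL (t • toR E) : Mat N) * intR (B i)) =
        Real.exp (κ i (δ y)) • Pl (intR (B i)))
    (hneg : ∀ y : Fin r → ℝ, y ≠ 0 → ∃ i, κ i (δ y) < 0)
    {g : H.G} (hg : g ∈ ratPoints H) {ε : ℝ} (hε : 0 < ε) :
    ∃ (F : Finset (Frame N)) (R : ℝ), ∀ (t : ℝ) (y : Fin r → ℝ), R ≤ ‖y‖ →
      ∃ b ∈ F, gauge b (H.exp (δ y) * H.exp (t • ⟨toR E, hE⟩) * g) < ε := by
  classical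
  obtain ⟨A, hA⟩ := hg
  obtain ⟨M, A', hM, hA'⟩ := exists_denominator A
  -- the frames
  have hgB : ∀ i, ((g : GL (Fin N) ℝ) : Mat N) * intR (A' * B i) = (M : ℝ) • intR (B i) := by
    intro i
    rw [← intR_mul, ← hA', ← hA, ← Matrix.mul_assoc, Matrix.mul_smul, Units.mul_inv,
      Matrix.smul_mul, Matrix.one_mul]
  have hM' : (M : ℝ) ≠ 0 := by exact_mod_cast hM.ne'
  have hne : ∀ i, Pl (intR (A' * B i)) ≠ 0 := by
    intro i h0
    have h1 : Pl ((M : ℝ) • intR (B i)) = 0 := by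
      rw [← hgB i]
      funext j
      rw [Pl_mul, h0]
      simp
    rw [Pl_smul, smul_eq_zero] at h1
    rcases h1 with h1 | h1
    · exact (pow_ne_zero _ hM') h1
    · exact hB i h1
  let fr : Fin n → Frame N := fun i => ⟨⟨k i, Nat.lt_succ_of_le (hk i)⟩, ⟨A' * B i, hne i⟩⟩
  obtain ⟨η, hη, hmin⟩ := exists_uniform_neg hr
    (fun i => (κ i).comp (H.lieR.subtype.comp δ)) hneg
  -- the gauge of a frame
  have hval : ∀ (i : Fin n) (t : ℝ) (y : Fin r → ℝ),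
      gauge (fr i) (H.exp (δ y) * H.exp (t • ⟨toR E, hE⟩) * g) =
        (M : ℝ) ^ (k i) * Real.exp (κ i (δ y)) * ‖Pl (intR (B i))‖ := by
    intro i t y
    have h1 : (((H.exp (δ y) * H.exp (t • ⟨toR E, hE⟩) * g : H.G) : GL (Fin N) ℝ) : Mat N) *
        intR (A' * B i) = (M : ℝ) • ((expGL (δ y : Mat N) : Mat N) *
          (expGL (t • toR E) : Mat N) * intR (B i)) := by
      rw [Subgroup.coe_mul, Units.val_mul, Matrix.mul_assoc, hgB i, Matrix.mul_smul,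
        Subgroup.coe_mul, Units.val_mul]
      rfl
    change ‖Pl ((((H.exp (δ y) * H.exp (t • ⟨toR E, hE⟩) * g : H.G) : GL (Fin N) ℝ) : Mat N) *
        intR (A' * B i))‖ = _
    rw [h1, Pl_smul, hexp, norm_smul, norm_smul, norm_pow, Real.norm_eq_abs, Real.norm_eq_abs,
      abs_of_pos (Real.exp_pos _), Nat.abs_cast, mul_assoc]
  set C : ℝ := ∑ i, (M : ℝ) ^ (k i) * ‖Pl (intR (B i))‖ with hC
  have hC0 : 0 ≤ C := Finset.sum_nonneg fun i _ => by positivity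
  obtain ⟨R, hR⟩ : ∃ R : ℝ, ∀ x : ℝ, R ≤ x → C * Real.exp (-η * x) < ε := by
    have h1 : Tendsto (fun x : ℝ => C * Real.exp (-η * x)) atTop (𝓝 (C * 0)) := by
      apply Tendsto.const_mul
      apply Real.tendsto_exp_atBot.comp
      exact tendsto_id.const_mul_atTop_of_neg (by linarith)
    rw [mul_zero] at h1
    have h2 := h1.eventually (gt_mem_nhds hε)
    obtain ⟨R, hR⟩ := eventually_atTop.mp h2
    exact ⟨R, hR⟩
  refine ⟨Finset.univ.image fr, R, fun t y hy => ?_⟩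
  obtain ⟨i, hi⟩ := hmin y
  refine ⟨fr i, Finset.mem_image_of_mem _ (Finset.mem_univ i), ?_⟩
  rw [hval]
  have h1 : Real.exp (κ i (δ y)) ≤ Real.exp (-η * ‖y‖) := Real.exp_le_exp.mpr hi
  have h2 : (M : ℝ) ^ (k i) * ‖Pl (intR (B i))‖ ≤ C :=
    Finset.single_le_sum (f := fun i => (M : ℝ) ^ (k i) * ‖Pl (intR (B i))‖)
      (fun i _ => by positivity) (Finset.mem_univ i)
  calc (M : ℝ) ^ (k i) * Real.exp (κ i (δ y)) * ‖Pl (intR (B i))‖
      = ((M : ℝ) ^ (k i) * ‖Pl (intR (B i))‖) * Real.exp (κ i (δ y)) := by ring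
    _ ≤ C * Real.exp (-η * ‖y‖) := by
        apply mul_le_mul h2 h1 (Real.exp_pos _).le hC0
    _ < ε := hR _ hy

end Pool.Agent.Helper654_DO
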