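import Pool.Agent.Helper654_DO.PosSum

/-!
# Generation in the semisimple case, and the theorem given the pieces
-/

set_option autoImplicit false

open Matrix Module Filter Topology

namespace Pool.Agent.Helper654_DO

/-- a linear functional that records the weight of a nonzero eigenvector -/
theorem exists_weight {N : ℕ} {S : Submodule ℚ (MatQ N)} {E : MatQ N} (hE : E ≠ 0)
    (h : ∀ x ∈ S, ∃ c : ℚ, x * E - E * x = c • E) :
    ∃ α : S →ₗ[ℚ] ℚ, ∀ x : S, (x : MatQ N) * E - E * (x : MatQ N) = α x • E := by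
  obtain ⟨i, j, hij⟩ : ∃ i j, E i j ≠ 0 := by
    by_contra hcon
    push Not at hcon
    exact hE (Matrix.ext hcon)
  refine ⟨{ toFun := fun x => ((x : MatQ N) * E - E * (x : MatQ N)) i j / E i j
            map_add' := fun x y => ?_
            map_smul' := fun c x => ?_ }, fun x => ?_⟩
  · have h1 : ((x + y : S) : MatQ N) * E - E * ((x + y : S) : MatQ N) =
        ((x : MatQ N) * E - E * (x : MatQ N)) + ((y : MatQ N) * E - E * (y : MatQ N)) := by
      rw [Submodule.coe_add, add_mul, mul_add]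
      abel
    rw [h1, Matrix.add_apply, add_div]
  · have h1 : ((c • x : S) : MatQ N) * E - E * ((c • x : S) : MatQ N) =
        c • ((x : MatQ N) * E - E * (x : MatQ N)) := by
      rw [Submodule.coe_smul, smul_sub, Matrix.smul_mul, Matrix.mul_smul]
    rw [h1, Matrix.smul_apply, RingHom.id_apply, smul_eq_mul, smul_eq_mul, mul_div_assoc]
  · obtain ⟨c, hc⟩ := h x x.2
    change _ = (((x : MatQ N) * E - E * (x : MatQ N)) i j / E i j) • E
    rw [hc, Matrix.smul_apply, smul_eq_mul, mul_div_assoc, div_self hij, mul_one]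

theorem generation_sum (hgen : S_generation) {N : ℕ} {ι : Type}
    {L : Submodule ℚ (MatQ N)} {I : ι → Submodule ℚ (MatQ N)} (hL : IsSumOfSimple L I)
    {s : ι → Submodule ℚ (MatQ N)} (hs : ∀ k, s k ≤ I k) (hs' : ∀ k, IsSplit (s k))
    {d : Submodule ℝ (Mat N)} {v : GL (Fin N) ℝ}
    (hv : ∀ k, ∀ y ∈ d, (∀ j, j ≠ k → ∀ x ∈ s j, (toR x * cj v y).trace = 0) →
      y ∈ realSpan (I k))
    (hdk : ∀ k, finrank ℝ (d ⊓ realSpan (I k) : Submodule ℝ (Mat N)) < finrank ℚ (s k))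
    (M : Submodule ℚ (MatQ N)) (hM : ∀ x ∈ M, ∀ y ∈ M, x * y - y * x ∈ M)
    (hmoves : ∀ E ∈ L, ∀ α : (⨆ k, s k : Submodule ℚ (MatQ N)) →ₗ[ℚ] ℚ,
      (∀ x : (⨆ k, s k : Submodule ℚ (MatQ N)), (x : MatQ N) * E - E * (x : MatQ N) = α x • E) →
      (∀ y ∈ d, ¬ ∀ x : (⨆ k, s k : Submodule ℚ (MatQ N)),
        (toR (x : MatQ N) * cj v y).trace = ((α x : ℚ) : ℝ)) → E ∈ M) : L ≤ M := by
  rw [hL.sum]
  refine iSup_le fun k => ?_
  let Uk : Submodule ℝ (s k →ₗ[ℚ] ℝ) :=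
    (d ⊓ realSpan (I k)).map ((Phi (s k)).comp (cj v : Mat N →ₗ[ℝ] Mat N))
  refine hgen (hL.simple k) (hs k) (hs' k) Uk
    (lt_of_le_of_lt (Submodule.finrank_map_le _ _) (hdk k)) M hM ?_
  rintro E hE ⟨αk, hαk, hαU⟩
  by_cases hE0 : E = 0
  · rw [hE0]; exact M.zero_mem
  have hbr : ∀ j, j ≠ k → ∀ x ∈ s j, x * E - E * x = 0 := by
    intro j hj x hx
    rw [hL.comm j k hj x (hs j hx) E hE, sub_self]
  have hw : ∀ x ∈ ⨆ k, s k, ∃ c : ℚ, x * E - E * x = c • E := by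
    intro x hx
    induction hx using Submodule.iSup_induction' with
    | mem j x hx =>
      by_cases hj : j = k
      · subst hj
        exact ⟨αk ⟨x, hx⟩, hαk ⟨x, hx⟩⟩
      · exact ⟨0, by rw [hbr j hj x hx, zero_smul]⟩
    | zero => exact ⟨0, by simp⟩
    | add x x' _ _ h1 h2 =>
      obtain ⟨c, hc⟩ := h1
      obtain ⟨c', hc'⟩ := h2
      refine ⟨c + c', ?_⟩
      rw [add_smul, ← hc, ← hc']
      noncomm_ring
  obtain ⟨α, hα⟩ := exists_weight hE0 hw
  have hle : I k ≤ L := by rw [hL.sum]; exact le_iSup I k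
  refine hmoves E (hle hE) α hα ?_
  intro y hy hcon
  have hα0 : ∀ j, j ≠ k → ∀ x (hx : x ∈ s j), α ⟨x, Submodule.mem_iSup_of_mem j hx⟩ = 0 := by
    intro j hj x hx
    have h1 := hα ⟨x, Submodule.mem_iSup_of_mem j hx⟩
    rw [hbr j hj x hx] at h1
    rcases smul_eq_zero.mp h1.symm with h2 | h2
    · exact h2
    · exact absurd h2 hE0
  have hαk' : ∀ x : s k, α ⟨x, Submodule.mem_iSup_of_mem k x.2⟩ = αk x := by
    intro x
    have h1 := hα ⟨x, Submodule.mem_iSup_of_mem k x.2⟩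
    have h2 := hαk x
    rw [h1] at h2
    have h3 : (α ⟨x, Submodule.mem_iSup_of_mem k x.2⟩ - αk x) • E = 0 := by
      rw [sub_smul, h2, sub_self]
    rcases smul_eq_zero.mp h3 with h4 | h4
    · exact sub_eq_zero.mp h4
    · exact absurd h4 hE0
  have hyk : y ∈ realSpan (I k) := by
    apply hv k y hy
    intro j hj x hx
    have h1 := hcon ⟨x, Submodule.mem_iSup_of_mem j hx⟩
    rw [hα0 j hj x hx] at h1
    simpa using h1
  apply hαU
  refine ⟨y, ⟨hy, hyk⟩, ?_⟩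
  ext x
  have h1 := hcon ⟨x, Submodule.mem_iSup_of_mem k x.2⟩
  rw [hαk'] at h1
  exact h1

end Pool.Agent.Helper654_DO
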