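import Pool.Agent.Helper654_DO.Final2
import Pool.Agent.Helper654_DO.Aux831

/-!
# Position in the semisimple case
-/

set_option autoImplicit false

open Matrix Module Filter Topology

namespace Pool.Agent.Helper654_DO

theorem expGL_inv {N : ℕ} (X : Mat N) : (expGL X)⁻¹ = expGL (-X) := Units.ext rfl

/-- conjugation by elements of the group generated by `exp g` preserves `g`-invariant subspaces -/
theorem cj_mem_of_invariant {N : ℕ} {g M : Submodule ℝ (Mat N)}
    (hM : ∀ x ∈ g, ∀ y ∈ M, x * y - y * x ∈ M) {u : GL (Fin N) ℝ} (hu : u ∈ expGroup g)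
    {y : Mat N} (hy : y ∈ M) : cj u y ∈ M := by
  have key : ∀ y ∈ M, cj u y ∈ M ∧ cj u⁻¹ y ∈ M := by
    induction hu using Subgroup.closure_induction with
    | mem x hx =>
      intro y hy
      obtain ⟨X, hX, rfl⟩ := hx
      refine ⟨ec.conj_exp_mem M (fun y hy => hM X hX y hy) hy, ?_⟩
      rw [expGL_inv]
      exact ec.conj_exp_mem (X := -X) M (fun y hy => hM (-X) (g.neg_mem hX) y hy) hy
    | one =>
      intro y hy
      rw [inv_one, cj_one]
      exact ⟨hy, hy⟩
    | mul a b _ _ ha hb =>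
      intro y hy
      rw [_root_.mul_inv_rev, cj_mul, cj_mul]
      exact ⟨(ha _ (hb y hy).1).1, (hb _ (ha y hy).2).2⟩
    | inv a _ ha =>
      intro y hy
      rw [inv_inv]
      exact ⟨(ha y hy).2, (ha y hy).1⟩
  exact (key y hy).1

/-- elements commuting with `g` are fixed -/
theorem cj_eq_of_comm {N : ℕ} {g : Submodule ℝ (Mat N)} {u : GL (Fin N) ℝ} (hu : u ∈ expGroup g)
    {y : Mat N} (hy : ∀ x ∈ g, x * y = y * x) : cj u y = y := by
  have key : cj u y = y ∧ cj u⁻¹ y = y := by
    induction hu using Subgroup.closure_induction with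
    | mem x hx =>
      obtain ⟨X, hX, rfl⟩ := hx
      have h1 : ∀ X ∈ g, cj (expGL X) y = y := by
        intro X hX
        have h := ec.conj_exp_eq (X := X) (Y := y) (Z := 0) (W := 0)
          (by rw [hy X hX, sub_self]) (by simp) (by simp)
        rw [cj_apply, h]
        simp
      rw [expGL_inv]
      exact ⟨h1 X hX, h1 (-X) (g.neg_mem hX)⟩
    | one =>
      rw [inv_one, cj_one]
      exact ⟨rfl, rfl⟩
    | mul a b _ _ ha hb =>
      rw [_root_.mul_inv_rev, cj_mul, cj_mul]
      exact ⟨by rw [hb.1, ha.1], by rw [ha.2, hb.2]⟩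
    | inv a _ ha =>
      rw [inv_inv]
      exact ⟨ha.2, ha.1⟩
  exact key.1

theorem realSpan_iSup {N : ℕ} {ι : Type} (I : ι → Submodule ℚ (MatQ N)) :
    realSpan (⨆ k, I k) = ⨆ k, realSpan (I k) := by
  apply le_antisymm
  · apply Submodule.span_le.mpr
    rintro _ ⟨x, hx, rfl⟩
    change toR x ∈ ⨆ k, realSpan (I k)
    induction hx using Submodule.iSup_induction' with
    | mem k x hx => exact Submodule.mem_iSup_of_mem k (toR_mem hx)
    | zero => rw [toR_zero]; exact Submodule.zero_mem _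
    | add x y _ _ hx hy => rw [toR_add]; exact Submodule.add_mem _ hx hy
  · exact iSup_le fun k => realSpan_mono (le_iSup I k)

theorem realSpan_comm {N : ℕ} {I J : Submodule ℚ (MatQ N)} (h : ∀ x ∈ I, ∀ y ∈ J, x * y = y * x) :
    ∀ x ∈ realSpan I, ∀ y ∈ realSpan J, x * y = y * x := by
  intro x hx y hy
  induction hx using Submodule.span_induction with
  | mem x hx =>
    obtain ⟨x, hx, rfl⟩ := hx
    induction hy using Submodule.span_induction with
    | mem y hy =>
      obtain ⟨y, hy, rfl⟩ := hy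
      rw [← toR_mul, ← toR_mul, h x hx y hy]
    | zero => simp
    | add y y' _ _ h1 h2 => rw [mul_add, add_mul, h1, h2]
    | smul c y _ h1 => rw [Matrix.mul_smul, Matrix.smul_mul, h1]
  | zero => simp
  | add x x' _ _ h1 h2 => rw [mul_add, add_mul, h1, h2]
  | smul c x _ h1 => rw [Matrix.mul_smul, Matrix.smul_mul, h1]

/-- the sum of simple ideals is closed under brackets -/
theorem IsSumOfSimple.lie_mem {N : ℕ} {ι : Type} {L : Submodule ℚ (MatQ N)}
    {I : ι → Submodule ℚ (MatQ N)} (hL : IsSumOfSimple L I) :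
    ∀ x ∈ L, ∀ y ∈ L, x * y - y * x ∈ L := by
  intro x hx y hy
  rw [hL.sum] at hx hy ⊢
  induction hx using Submodule.iSup_induction' with
  | mem j x hx =>
    induction hy using Submodule.iSup_induction' with
    | mem k y hy =>
      by_cases hjk : j = k
      · subst hjk
        exact Submodule.mem_iSup_of_mem j ((hL.simple j).lie_mem x hx y hy)
      · rw [hL.comm j k hjk x hx y hy, sub_self]
        exact Submodule.zero_mem _
    | zero => simp
    | add y y' _ _ h1 h2 =>
      have : x * (y + y') - (y + y') * x = (x * y - y * x) + (x * y' - y' * x) := by noncomm_ring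
      rw [this]
      exact Submodule.add_mem _ h1 h2
  | zero => simp
  | add x x' _ _ h1 h2 =>
    have : (x + x') * y - y * (x + x') = (x * y - y * x) + (x' * y - y * x') := by noncomm_ring
    rw [this]
    exact Submodule.add_mem _ h1 h2

/-- the sum of simple ideals is perfect -/
theorem IsSumOfSimple.perfect (hperf : S_realSpan_perfect) {N : ℕ} {ι : Type}
    {L : Submodule ℚ (MatQ N)} {I : ι → Submodule ℚ (MatQ N)} (hL : IsSumOfSimple L I) :
    ∀ M : Submodule ℝ (Mat N),
      (∀ x ∈ realSpan L, ∀ y ∈ realSpan L, x * y - y * x ∈ M) → realSpan L ≤ M := by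
  intro M hM
  have hle : ∀ k, realSpan (I k) ≤ realSpan L := fun k =>
    realSpan_mono (by rw [hL.sum]; exact le_iSup I k)
  rw [hL.sum, realSpan_iSup]
  exact iSup_le fun k => hperf (hL.simple k) M fun x hx y hy => hM x (hle k hx) y (hle k hy)

/-- an element that combines the conjugations `w k` on the ideals -/
theorem exists_combined (hlie : S_realSpan_lie) {N : ℕ} {ι : Type} [Fintype ι]
    {L : Submodule ℚ (MatQ N)} {I : ι → Submodule ℚ (MatQ N)} (hL : IsSumOfSimple L I)
    {w : ι → GL (Fin N) ℝ} (hw : ∀ k, w k ∈ expGroup (realSpan (I k))) :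
    ∃ U ∈ expGroup (realSpan L), ∀ k, ∀ y ∈ realSpan (I k), cj U y = cj (w k) y := by
  classical
  have hle : ∀ k, realSpan (I k) ≤ realSpan L := fun k =>
    realSpan_mono (by rw [hL.sum]; exact le_iSup I k)
  have key : ∀ S : Finset ι, ∃ U ∈ expGroup (realSpan L), ∀ k, ∀ y ∈ realSpan (I k),
      cj U y = if k ∈ S then cj (w k) y else y := by
    intro S
    induction S using Finset.induction_on with
    | empty => exact ⟨1, one_mem _, fun k y _ => by simp [cj_one]⟩
    | insert j S hj ih =>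
      obtain ⟨U, hU, hU'⟩ := ih
      refine ⟨w j * U, mul_mem (expGroup_mono (hle j) (hw j)) hU, ?_⟩
      intro k y hy
      rw [cj_mul, hU' k y hy]
      by_cases hkj : k = j
      · subst hkj
        rw [if_neg hj, if_pos (Finset.mem_insert_self k S)]
      · have hfix : ∀ z ∈ realSpan (I k), cj (w j) z = z := by
          intro z hz
          apply cj_eq_of_comm (hw j)
          intro x hx
          exact realSpan_comm (hL.comm j k (Ne.symm hkj)) x hx z hz
        by_cases hk : k ∈ S
        · rw [if_pos hk, if_pos (Finset.mem_insert_of_mem hk)]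
          apply hfix
          exact cj_mem_of_invariant (hlie (hL.simple k).lie_mem) (hw k) hy
        · rw [if_neg hk, if_neg (by rw [Finset.mem_insert]; tauto)]
          exact hfix y hy
  obtain ⟨U, hU, hU'⟩ := key Finset.univ
  exact ⟨U, hU, fun k y hy => by rw [hU' k y hy, if_pos (Finset.mem_univ k)]⟩

theorem position_sum (hsim : S_simdiag) (hlie : S_realSpan_lie)
    (hconj : S_conj_split) (hpos : S_position) (hproj : S_proj) (hmax : S_maxsplit_sum)
    (hex : S_exists_maxsplit) (hndsum : S_nondeg_sum)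
    {N : ℕ} {ι : Type} [Fintype ι] {L : Submodule ℚ (MatQ N)} {I : ι → Submodule ℚ (MatQ N)}
    (hL : IsSumOfSimple L I)
    {s : ι → Submodule ℚ (MatQ N)} (hs : ∀ k, s k ≤ I k) (hs' : ∀ k, IsSplit (s k))
    (hs0 : ∀ k, s k ≠ ⊥) {d : Submodule ℝ (Mat N)} (hd : d ≤ realSpan L) (hd' : IsSplit d)
    (hdk : ∀ k, finrank ℝ d ≤
      finrank ℝ (d ⊓ realSpan (⨆ j : {j // j ≠ k}, I j) : Submodule ℝ (Mat N)) + finrank ℚ (s k)) :
    ∃ v ∈ expGroup (realSpan L), (∀ y ∈ d, cj v y ∈ realSpan L) ∧
      (∀ x ∈ ⨆ k, s k, ∀ y ∈ d, toR x * cj v y = cj v y * toR x) ∧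
      (∀ k, ∀ y ∈ d, (∀ j, j ≠ k → ∀ x ∈ s j, (toR x * cj v y).trace = 0) → y ∈ realSpan (I k)) ∧
      (∀ y ∈ d, (∀ x ∈ ⨆ k, s k, (toR x * cj v y).trace = 0) → y = 0) := by
  classical
  obtain ⟨π, hπ1, hπ2, hπ3, hπ4, hπ5, hπ6, hπ7, hπ8⟩ := hproj hL
  obtain ⟨hnd, horth⟩ := hndsum hL hs hs' hs0
  have hle : ∀ k, realSpan (I k) ≤ realSpan L := fun k =>
    realSpan_mono (by rw [hL.sum]; exact le_iSup I k)
  -- the ideals are invariant
  have hideal : ∀ k, ∀ x ∈ realSpan L, ∀ y ∈ realSpan (I k), x * y - y * x ∈ realSpan (I k) := by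
    intro k x hx y hy
    rw [hπ7 k x hx y hy]
    exact hlie (hL.simple k).lie_mem _ (hπ1 k x hx) _ hy
  have hLlie : ∀ x ∈ realSpan L, ∀ y ∈ realSpan L, x * y - y * x ∈ realSpan L := hlie hL.lie_mem
  -- maximal split spaces
  have h1 : ∀ k, ∃ a, realSpan (s k) ≤ a ∧ IsMaxSplit (realSpan (I k)) a := fun k =>
    hex (realSpan_mono (hs k)) (realSpan_split hsim (hs' k))
  choose a hsa ha using h1
  have ha' : IsMaxSplit (realSpan L) (⨆ k, a k) := hmax hL hs hs' hs0 ha
  obtain ⟨u, hu, hud⟩ := hconj hLlie hnd ha' hd hd'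
  have hud' : ∀ y ∈ d, cj u y ∈ ⨆ k, a k := hud
  have hu' : u⁻¹ ∈ expGroup (realSpan L) := inv_mem hu
  -- projections of the elements of the sum of the `a k`
  have hπa : ∀ k, ∀ z ∈ ⨆ k, a k, π k z ∈ a k := by
    intro k z hz
    induction hz using Submodule.iSup_induction' with
    | mem j z hz =>
      by_cases hjk : j = k
      · subst hjk
        rw [hπ4 j z ((ha j).le hz)]
        exact hz
      · rw [hπ5 j k hjk z ((ha j).le hz)]
        exact (a k).zero_mem
    | zero => rw [map_zero]; exact (a k).zero_mem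
    | add x y _ _ hx hy => rw [map_add]; exact (a k).add_mem hx hy
  -- the projections of the conjugate of `d`
  let D : ι → Submodule ℝ (Mat N) := fun k =>
    (d.map (cj u : Mat N →ₗ[ℝ] Mat N)).map (π k)
  have hDa : ∀ k, D k ≤ a k := by
    rintro k _ ⟨_, ⟨y, hy, rfl⟩, rfl⟩
    exact hπa k _ (hud' y hy)
  have hW : ∀ k, ∀ x ∈ realSpan L, ∀ y ∈ realSpan (⨆ j : {j // j ≠ k}, I j),
      x * y - y * x ∈ realSpan (⨆ j : {j : ι // j ≠ k}, I j.1) := by
    intro k x hx y hy
    rw [realSpan_iSup] at hy ⊢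
    induction hy using Submodule.iSup_induction' with
    | mem j y hy =>
      exact Submodule.mem_iSup_of_mem (p := fun j : {j // j ≠ k} => realSpan (I j)) j
        (hideal j.1 x hx y hy)
    | zero => simp
    | add y y' _ _ h1 h2 =>
      have : x * (y + y') - (y + y') * x = (x * y - y * x) + (x * y' - y' * x) := by noncomm_ring
      rw [this]
      exact Submodule.add_mem _ h1 h2
  have hDfin : ∀ k, finrank ℝ (D k) ≤ finrank ℚ (s k) := by
    intro k
    let f : d →ₗ[ℝ] Mat N := ((π k).comp (cj u : Mat N →ₗ[ℝ] Mat N)).comp d.subtype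
    have e1 : D k = LinearMap.range f := by
      apply le_antisymm
      · rintro _ ⟨_, ⟨y, hy, rfl⟩, rfl⟩
        exact ⟨⟨y, hy⟩, rfl⟩
      · rintro _ ⟨y, rfl⟩
        exact ⟨_, ⟨y, y.2, rfl⟩, rfl⟩
    have e2 := LinearMap.finrank_range_add_finrank_ker f
    have e3 : finrank ℝ (d ⊓ realSpan (⨆ j : {j // j ≠ k}, I j) : Submodule ℝ (Mat N)) ≤
        finrank ℝ (LinearMap.ker f) := by
      let i : (d ⊓ realSpan (⨆ j : {j // j ≠ k}, I j) : Submodule ℝ (Mat N)) →ₗ[ℝ] LinearMap.ker f :=
        LinearMap.codRestrict _ (Submodule.inclusion inf_le_left) (by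
          intro y
          rw [LinearMap.mem_ker]
          change π k (cj u (y : Mat N)) = 0
          have hy1 : (y : Mat N) ∈ realSpan (⨆ j : {j // j ≠ k}, I j) := y.2.2
          have hy2 : cj u (y : Mat N) ∈ realSpan (⨆ j : {j // j ≠ k}, I j) :=
            cj_mem_of_invariant (hW k) hu hy1
          exact (hπ6 k _ (cj_mem_of_invariant hLlie hu (hd y.2.1))).mpr hy2)
      apply LinearMap.finrank_le_finrank_of_injective (f := i)
      intro y z hyz
      have := congrArg (fun q : LinearMap.ker f => ((q : d) : Mat N)) hyz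
      exact Subtype.ext this
    have e4 := hdk k
    rw [e1]
    omega
  -- the positions in the ideals
  have h2 : ∀ k, ∃ w ∈ expGroup (realSpan (I k)), (∀ y ∈ a k, cj w y ∈ a k) ∧
      ∀ y ∈ D k, (∀ x ∈ s k, (toR x * cj w y).trace = 0) → y = 0 := by
    intro k
    rcases Nat.eq_zero_or_pos (finrank ℝ (D k)) with h0 | h0
    · refine ⟨1, one_mem _, fun y hy => by rwa [cj_one], fun y hy _ => ?_⟩
      have h3 : D k = ⊥ := Submodule.finrank_eq_zero.mp h0
      rw [h3] at hy
      exact hy
    · exact hpos (hL.simple k) (hs k) (hs' k) (ha k)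
        (fun x hx => hsa k (toR_mem hx)) (hDa k) h0 (hDfin k)
  choose w hw hwa hwi using h2
  obtain ⟨U, hU, hU'⟩ := exists_combined hlie hL hw
  -- decomposition
  have hdec : ∀ y ∈ d, cj (U * u) y = ∑ k, cj (w k) (π k (cj u y)) := by
    intro y hy
    have hz : cj u y ∈ realSpan L := cj_mem_of_invariant hLlie hu (hd hy)
    rw [cj_mul]
    conv_lhs => rw [hπ3 _ hz]
    rw [map_sum]
    exact Finset.sum_congr rfl fun k _ => hU' k _ (hπ1 k _ hz)
  have hwV : ∀ y ∈ d, ∀ k, cj (w k) (π k (cj u y)) ∈ realSpan (I k) := by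
    intro y hy k
    have hz : cj u y ∈ realSpan L := cj_mem_of_invariant hLlie hu (hd hy)
    exact cj_mem_of_invariant (hlie (hL.simple k).lie_mem) (hw k) (hπ1 k _ hz)
  have htr : ∀ y ∈ d, ∀ j, ∀ x ∈ s j,
      (toR x * cj (U * u) y).trace = (toR x * cj (w j) (π j (cj u y))).trace := by
    intro y hy j x hx
    rw [hdec y hy, Finset.mul_sum, Matrix.trace_sum, Finset.sum_eq_single j]
    · intro k _ hkj
      exact horth j k (Ne.symm hkj) _ (toR_mem (hs j hx)) _ (hwV y hy k)
    · intro h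
      exact absurd (Finset.mem_univ j) h
  have hzero : ∀ y ∈ d, ∀ j, (∀ x ∈ s j, (toR x * cj (U * u) y).trace = 0) → π j (cj u y) = 0 := by
    intro y hy j h
    apply hwi j _ ⟨_, ⟨y, hy, rfl⟩, rfl⟩
    intro x hx
    have := h x hx
    rw [htr y hy j x hx] at this
    exact this
  refine ⟨U * u, mul_mem hU hu, ?_, ?_, ?_, ?_⟩
  · intro y hy
    exact cj_mem_of_invariant hLlie (mul_mem hU hu) (hd hy)
  · intro x hx y hy
    induction hx using Submodule.iSup_induction' with
    | mem j x hx =>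
      rw [hdec y hy, Finset.mul_sum, Finset.sum_mul]
      refine Finset.sum_congr rfl fun k _ => ?_
      by_cases hjk : j = k
      · subst hjk
        exact (ha j).split.comm _ (hsa j (toR_mem hx)) _ (hwa j _ (hπa j _ (hud' y hy)))
      · exact realSpan_comm (hL.comm j k hjk) _ (toR_mem (hs j hx)) _ (hwV y hy k)
    | zero => rw [toR_zero, zero_mul, mul_zero]
    | add x x' _ _ h1 h2 => rw [toR_add, add_mul, mul_add, h1, h2]
  · intro k y hy h
    have hz : cj u y ∈ realSpan L := cj_mem_of_invariant hLlie hu (hd hy)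
    have h3 : cj u y ∈ realSpan (I k) :=
      hπ8 k _ hz fun j hj => hzero y hy j (h j hj)
    have h4 := cj_mem_of_invariant (hideal k) hu' h3
    rwa [cj_inv_cj] at h4
  · intro y hy h
    have hz : cj u y ∈ realSpan L := cj_mem_of_invariant hLlie hu (hd hy)
    have h3 : cj u y = 0 := hπ2 _ hz fun j =>
      hzero y hy j fun x hx => h x (Submodule.mem_iSup_of_mem j hx)
    exact (LinearEquiv.map_eq_zero_iff (cj u)).mp h3

end Pool.Agent.Helper654_DO
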