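import Pool.Agent.Helper654_DO.Stmts

/-!
The statements of the pieces are in `Stmts.lean`; each is proved in the file `T_<name>.lean`.
-/
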