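import Pool.Agent.Helper654_DO.Base

/-!
# The statements of the pieces of the project, with proofs in words
-/

set_option autoImplicit false
set_option linter.unusedVariables false

open Matrix Module Filter Topology

namespace Pool.Agent.Helper654_DO

/-! ## A. Linear algebra of split matrices -/

/-- A1. A matrix is diagonalizable over `K` iff a product of distinct linear factors kills it. -/
def S_diagonalizable_iff : Prop :=
  ∀ {K : Type} [Field K] {N : ℕ} {A : Matrix (Fin N) (Fin N) K},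
    Diagonalizable A ↔ ∃ S : Finset K,
      Polynomial.aeval A (∏ c ∈ S, (Polynomial.X - Polynomial.C c)) = 0

/-- A2. Simultaneous diagonalization of a split space. (For instance by
`Module.End.iSup_iInf_maxGenEigenspace_eq_top_of_forall_mapsTo` and its companions in
`Mathlib.LinearAlgebra.Eigenspace.Pi`, applied to the family of all `x : a`, or by induction on the
dimension of `a`. The eigenvalue functions are linear because the joint eigenvectors are nonzero.) -/
def S_simdiag : Prop :=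
  ∀ {K : Type} [Field K] {N : ℕ} {a : Submodule K (Matrix (Fin N) (Fin N) K)}
    (ha : IsSplit a),
    ∃ (P : GL (Fin N) K) (μ : Fin N → Module.Dual K a), ∀ x : a,
      (x : Matrix (Fin N) (Fin N) K) = (P : Matrix (Fin N) (Fin N) K) *
        diagonal (fun i => μ i x) * ((P⁻¹ : GL (Fin N) K) : Matrix (Fin N) (Fin N) K)

/-- A3. The sum of two commuting split spaces is split: a joint eigenbasis for `a` and `b`
(same tools as A2; a converse of A2 is useful: if all `x` in `a` are `P diag P⁻¹` with one `P`, then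
`a` is split). -/
def S_split_sup : Prop :=
  ∀ {K : Type} [Field K] {N : ℕ} {a b : Submodule K (Matrix (Fin N) (Fin N) K)}
    (ha : IsSplit a) (hb : IsSplit b) (hab : ∀ x ∈ a, ∀ y ∈ b, x * y = y * x),
    IsSplit (a ⊔ b)

/-- A4. Weight decomposition under the bracket with a split space. By A2 and an `x` in `a` that
separates the finitely many differences `μ i - μ j`, the component of `y` of weight `β` is
`q (ad x) y` for a polynomial `q`. -/
def S_weights : Prop :=
  ∀ {K : Type} [Field K] [CharZero K] {N : ℕ}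
    {a : Submodule K (Matrix (Fin N) (Fin N) K)} (ha : IsSplit a)
    {g : Submodule K (Matrix (Fin N) (Fin N) K)} (hg : ∀ x ∈ a, ∀ y ∈ g, x * y - y * x ∈ g)
    {y : Matrix (Fin N) (Fin N) K} (hy : y ∈ g),
    ∃ (S : Finset (Module.Dual K a)) (c : Module.Dual K a → Matrix (Fin N) (Fin N) K),
      y = ∑ β ∈ S, c β ∧ ∀ β ∈ S, c β ∈ g ∧ ∀ x : a,
        (x : Matrix (Fin N) (Fin N) K) * c β - c β * (x : Matrix (Fin N) (Fin N) K) = β x • c β

/-- A5. Regular elements: choose `X` in `a` that separates the different `μ i` of A2. -/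
def S_exists_regular : Prop :=
  ∀ {N : ℕ} {a : Submodule ℝ (Mat N)} (ha : IsSplit a),
    ∃ X ∈ a, ∀ y : Mat N, X * y = y * X → ∀ x ∈ a, x * y = y * x

/-! ## B. The rational Lie algebra and its real span -/

/-- B1. The real span is closed under brackets. -/
def S_realSpan_lie : Prop :=
  ∀ {N : ℕ} {L : Submodule ℚ (MatQ N)}
    (hL : ∀ x ∈ L, ∀ y ∈ L, x * y - y * x ∈ L),
    ∀ x ∈ realSpan L, ∀ y ∈ realSpan L, x * y - y * x ∈ realSpan L

/-- B2. A simple Lie algebra is spanned by its brackets, so this holds for the real span too. -/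
def S_realSpan_perfect : Prop :=
  ∀ {N : ℕ} {L : Submodule ℚ (MatQ N)} (hL : IsSimpleLie L)
    (M : Submodule ℝ (Mat N))
    (hM : ∀ x ∈ realSpan L, ∀ y ∈ realSpan L, x * y - y * x ∈ M),
    realSpan L ≤ M

/-- B3. The trace form is nondegenerate on the real span, if `L` contains a nonzero split space: the
radical on `L` is an ideal, and it is not `L` because `tr (s²) > 0` for `s ≠ 0` split. -/
def S_realSpan_nondeg : Prop :=
  ∀ {N : ℕ} {L : Submodule ℚ (MatQ N)} (hL : IsSimpleLie L)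
    {s : Submodule ℚ (MatQ N)} (hs : s ≤ L) (hs' : IsSplit s) (hs0 : s ≠ ⊥),
    ∀ x ∈ realSpan L, (∀ y ∈ realSpan L, (x * y).trace = 0) → x = 0

/-- B4. Every element of the real span is a combination `∑ e k • x k` of elements of `L` with real
coefficients `e k` that are linearly independent over `ℚ`. (Write `x = ∑ c i • toR (y i)` and the
`c i` in a basis of their rational span.) -/
def S_realSpan_slice : Prop :=
  ∀ {N : ℕ} {L : Submodule ℚ (MatQ N)} {x : Mat N} (hx : x ∈ realSpan L),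
    ∃ (n : ℕ) (e : Fin n → ℝ) (z : Fin n → MatQ N), LinearIndependent ℚ e ∧ (∀ k, z k ∈ L) ∧
      x = ∑ k, e k • toR (z k)

/-! ## C. Graded Jacobson-Morozov -/

/-- C1. If `A` is nilpotent and commutes with `[A, B]` then `tr (A B) = 0`. Over `ℂ` every
eigenvalue `μ` of `B A` is zero: let `B A x = μ x`, `x ≠ 0`, and `r` least with `A ^ r x = 0`. For
`r = 1` this is clear. For `r ≥ 2`, with `C = [B, A]` one has `[B, A ^ (r - 1)] = (r - 1) C A ^ (r - 2)`
and `0 = B A ^ r x = μ A ^ (r - 1) x + (r - 1) C A ^ (r - 1) x`, and `C` is nilpotent, because it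
commutes with `A`, so `tr (C ^ k) = 0` for `k ≥ 1`. -/
def S_trace_eq_zero_of_comm : Prop :=
  ∀ {N : ℕ} {A B : Mat N} (hA : IsNilpotent A)
    (h : A * (A * B - B * A) = (A * B - B * A) * A),
    (A * B).trace = 0

/-- C2. Graded Jacobson-Morozov (paper, Step 1 (b), (c)); C1 may be assumed. First `e` lies in
`(ad e)² gm`: otherwise a linear functional on `gp` vanishes on `(ad e)² gm` and not at `e`; by `h3`
it is `x ↦ tr (x z)` with `z ∈ gm` (the map `gm → gp^*` is onto since `gp → gm^*` is injective), and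
`(ad e)² z = 0` by `h3`, so `tr (e z) = 0` by C1. Choose `f₀ ∈ gm` with `(ad e)² f₀ = -2 e` and
`h = [e, f₀]`, so `[h, e] = 2 e`. With `E = ad e`, `F = ad f₀`, `H = ad h` on all matrices,
`E ^ k F = F E ^ k + k (H - (k - 1)) E ^ (k - 1)`, so `H - (k - 1)` maps `ker E ∩ im E ^ (k - 1)` to
`ker E ∩ im E ^ k`, hence `∏_{j < K} (H - j) = 0` on `ker E` for `K` large, so `H + 2` is invertible
on `ker E ∩ gm`, which contains `[h, f₀] + 2 f₀ = [h, z] + 2 z`; `f = f₀ - z`. -/
def S_jacobson_morozov : Prop :=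
  ∀ {N : ℕ} {gp gm : Submodule ℝ (Mat N)} {e : Mat N} (he : e ∈ gp)
    (hnil : IsNilpotent e)
    (h1 : ∀ y ∈ gm, e * (e * y - y * e) - (e * y - y * e) * e ∈ gp)
    (h2 : ∀ y ∈ gm, ∀ z ∈ gm, (e * y - y * e) * z - z * (e * y - y * e) ∈ gm)
    (h3 : ∀ x ∈ gp, (∀ y ∈ gm, (x * y).trace = 0) → x = 0),
    ∃ f ∈ gm, ∃ h : Mat N, e * f - f * e = h ∧ h * e - e * h = (2 : ℝ) • e ∧
      h * f - f * h = (-2 : ℝ) • f

/-- C3. In an `sl₂` triple of real matrices, `h` is diagonalizable over `ℝ` (paper, Step 1 (d)); A1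
may be assumed. Acting on `V = ℝ^N`: `e`, `f` are nilpotent; as in C2,
`e ^ k f = f e ^ k + k (h - (k - 1)) e ^ (k - 1)` gives `∏_{j < K} (h - j) = 0` on `ker e`, and similarly
`∏_{j < K} (h + j) = 0` on `ker f`. Let `V'` be the span of the eigenvectors of `h` with integral
eigenvalue (it is stable under `e`, `f`, `h`, and contains `ker e`, `ker f`). If `V' ≠ V` there are
`m ≥ 0` integral and `v ∉ V'` with `e v ∈ V'`, `(h - m) v ∈ V'`. Subtracting elements of `V'` from `v`
one gets `(h - m) v = w`, `h w = m w`. Then `x = e v` satisfies `(h - m - 2) x = e w`, so `e w = 0` and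
`h x = (m + 2) x`. The map `e : V'_m → V'_{m+2}` is onto, because `e f` is injective on `V'_{m+2}`: if
`e f u = 0` then `f u` is primitive of weight `m`, so `f ^ (m + 2) u = 0`; but for `u ≠ 0` of weight
`m + 2` the least `i` with `f ^ i u = 0` is at least `m + 3` (with `y = f ^ (i - 1) u ∈ ker f ∩ im f ^ (i - 1)`
of weight `ω`, `ω + j = 0` for some `j ≥ i - 1`). So `x = e u'` with `u' ∈ V'_m`, and `v - u' ∈ ker e ≤ V'`. -/
def S_sl2_diagonalizable : Prop :=
  ∀ {N : ℕ} {e f h : Mat N} (hef : e * f - f * e = h)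
    (hhe : h * e - e * h = (2 : ℝ) • e) (hhf : h * f - f * h = (-2 : ℝ) • f),
    Diagonalizable h

/-! ## D. Maximal split spaces -/

/-- D1. A maximal split space commutes with no nonzero nilpotent element of `g`. Apply C2 with
`gp = gm` the centralizer `z` of `a` in `g` (the form is nondegenerate on `z` by A4), and C3: then
`a + ℝ h` is split, so `h ∈ a` and `0 = [h, e] = 2 e`. -/
def S_no_nilpotent : Prop :=
  ∀ {N : ℕ} {g : Submodule ℝ (Mat N)}
    (hg : ∀ x ∈ g, ∀ y ∈ g, x * y - y * x ∈ g)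
    (hT : ∀ x ∈ g, (∀ y ∈ g, (x * y).trace = 0) → x = 0)
    {a : Submodule ℝ (Mat N)} (ha : IsMaxSplit g a) {e : Mat N} (he : e ∈ g)
    (hnil : IsNilpotent e) (hc : ∀ x ∈ a, x * e = e * x),
    e = 0

/-- D2. The `sl₂` triple of a root. Apply C2 with `gp`, `gm` the weight spaces of `g` for `β`, `-β`,
and C3; `h` commutes with `a`, so it lies in `a` by maximality. -/
def S_root_triple : Prop :=
  ∀ {N : ℕ} {g : Submodule ℝ (Mat N)}
    (hg : ∀ x ∈ g, ∀ y ∈ g, x * y - y * x ∈ g)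
    (hT : ∀ x ∈ g, (∀ y ∈ g, (x * y).trace = 0) → x = 0)
    {a : Submodule ℝ (Mat N)} (ha : IsMaxSplit g a) {β : Module.Dual ℝ a} (hβ : β ≠ 0)
    {e : Mat N} (he : e ∈ g) (he0 : e ≠ 0)
    (hw : ∀ x : a, (x : Mat N) * e - e * (x : Mat N) = β x • e),
    ∃ h ∈ a, ∃ f ∈ g, e * f - f * e = h ∧ h * e - e * h = (2 : ℝ) • e ∧
      h * f - f * h = (-2 : ℝ) • f ∧
      ∀ x : a, (x : Mat N) * f - f * (x : Mat N) = -(β x) • f

/-- D3. The reflection `w = exp(e) exp(-f) exp(e)` (paper, Step 2). For matrices `[e, y] = -b e` one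
has `exp(e) y exp(-e) = y - b e`, since the derivative of `exp(te) y exp(-te)` is `-b e`. -/
def S_reflection : Prop :=
  ∀ {N : ℕ} {e f h y : Mat N} {b : ℝ} (hef : e * f - f * e = h)
    (hhe : h * e - e * h = (2 : ℝ) • e) (hhf : h * f - f * h = (-2 : ℝ) • f)
    (hye : y * e - e * y = b • e) (hyf : y * f - f * y = -b • f),
    ((expGL e * expGL (-f) * expGL e : GL (Fin N) ℝ) : Mat N) * y *
      (((expGL e * expGL (-f) * expGL e)⁻¹ : GL (Fin N) ℝ) : Mat N) = y - b • h

/-- D4. The group generated by the exponentials of `g` normalizes `g`: `exp(tX) Y exp(-tX)` solves a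
linear differential equation in `g`, or is given by the exponential series of `ad X`. -/
def S_expGroup_normalizes : Prop :=
  ∀ {N : ℕ} {g : Submodule ℝ (Mat N)}
    (hg : ∀ x ∈ g, ∀ y ∈ g, x * y - y * x ∈ g) {u : GL (Fin N) ℝ} (hu : u ∈ expGroup g)
    {y : Mat N} (hy : y ∈ g),
    (u : Mat N) * y * ((u⁻¹ : GL (Fin N) ℝ) : Mat N) ∈ g

/-! ## E. Conjugacy of split spaces (paper, Step 3) -/

/-- E1. Step 3 (a). By duality: otherwise there is `z ∈ g` with `tr (z X) ≠ 0` orthogonal to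
`g ∩ nonnegSp lam` and to `g ∩ posSp X`; then `z ∈ posSp lam`, `z ∈ nonnegSp X`, `z` is nilpotent, its
component of degree `0` for `ad X` is nilpotent, commutes with `a` and so vanishes by D1; so
`z ∈ posSp X` and `tr (z X) = 0`. -/
def S_exists_mem_nonnegSp : Prop :=
  ∀ {N : ℕ} {g : Submodule ℝ (Mat N)}
    (hg : ∀ x ∈ g, ∀ y ∈ g, x * y - y * x ∈ g)
    (hT : ∀ x ∈ g, (∀ y ∈ g, (x * y).trace = 0) → x = 0)
    {a : Submodule ℝ (Mat N)} (ha : IsMaxSplit g a) {X : Mat N} (hX : X ∈ a)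
    (hreg : ∀ y : Mat N, X * y = y * X → ∀ x ∈ a, x * y = y * x)
    {lam : Mat N} (hlam : lam ∈ g) (hlam' : Diagonalizable lam),
    ∃ n ∈ g ⊓ posSp X, X + n ∈ nonnegSp lam

/-- E2. Step 3 (b): kill the components of `n` by increasing degree with respect to `ad X`. The
degrees are the finitely many positive eigenvalues `c 1 < c 2 < ...` of `ad X`. If `n` has only
components of degree `≥ c`, with component `n_c ∈ g` of degree `c` (A4 for the span of `X`), conjugate
by `exp z`, `z = n_c / c` up to sign: `exp(z) (X + n) exp(-z) = X + n + [z, X] + (degree > c)` and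
`[z, X] = -c z`. D4 may be assumed. -/
def S_conj_pos : Prop :=
  ∀ {N : ℕ} {g : Submodule ℝ (Mat N)}
    (hg : ∀ x ∈ g, ∀ y ∈ g, x * y - y * x ∈ g) {X : Mat N} (hX : X ∈ g)
    (hX' : Diagonalizable X) {n : Mat N} (hn : n ∈ g ⊓ posSp X),
    ∃ u ∈ expGroup g, (u : Mat N) * (X + n) * ((u⁻¹ : GL (Fin N) ℝ) : Mat N) = X

/-- E3. Step 3 (c). Let `m` be a product of distinct linear factors with `m (y₀ + n) = 0` (A1).
The component of degree `0` for `ad lam` gives `m y₀ = 0`, so `y₀` is diagonalizable, so `ad y₀` is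
diagonalizable on the component `g_c` of degree `c` of `g`. As in E2 one makes, by conjugation with
`exp z`, `z ∈ g_c`, the lowest component `k = n_c` commute with `y₀` (write `n_c = k + [y₀, z]`); then
the component of degree `c` of `m (y₀ + n) = 0` is `m'(y₀) k = 0` and `m'(y₀)` is invertible, so `k = 0`.
D4 may be assumed. -/
def S_conj_levi : Prop :=
  ∀ {N : ℕ} {g : Submodule ℝ (Mat N)}
    (hg : ∀ x ∈ g, ∀ y ∈ g, x * y - y * x ∈ g) {lam : Mat N} (hlam : lam ∈ g)
    (hlam' : Diagonalizable lam) {y₀ : Mat N} (hy₀ : y₀ ∈ g) (hc : lam * y₀ = y₀ * lam)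
    {n : Mat N} (hn : n ∈ g ⊓ posSp lam) (hY : Diagonalizable (y₀ + n)),
    ∃ u ∈ expGroup g, (u : Mat N) * (y₀ + n) * ((u⁻¹ : GL (Fin N) ℝ) : Mat N) = y₀

/-- E4. Step 3 (d): a split subspace of `g` is conjugate to a subspace of `a`. Assume A3, A4, A5, D4,
E1, E2, E3. Take `X ∈ a` and `lam ∈ s` regular (A5); `Y = X + n ∈ nonnegSp lam` (E1), conjugate to
`X` by E2, hence diagonalizable, `Y = y₀ + n'` with `y₀ ∈ g` commuting with `lam`, `n' ∈ g ⊓ posSp lam`,
and `Y` is conjugate to `y₀` by E3. So `y₀ = v X v⁻¹` commutes with `s`, `v⁻¹ s v` commutes with `a`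
and lies in `a` by maximality. -/
def S_conj_split : Prop :=
  ∀ {N : ℕ} {g : Submodule ℝ (Mat N)}
    (hg : ∀ x ∈ g, ∀ y ∈ g, x * y - y * x ∈ g)
    (hT : ∀ x ∈ g, (∀ y ∈ g, (x * y).trace = 0) → x = 0)
    {a : Submodule ℝ (Mat N)} (ha : IsMaxSplit g a)
    {s : Submodule ℝ (Mat N)} (hs : s ≤ g) (hs' : IsSplit s),
    ∃ u ∈ expGroup g, ∀ x ∈ s, (u : Mat N) * x * ((u⁻¹ : GL (Fin N) ℝ) : Mat N) ∈ a

/-! ## F. Position, covering, generation (paper, Steps 4, 5, 6) -/

/-- F1. Step 4, faithfulness: a nonzero ideal `c` of the real span is not centralized by a nonzero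
element of the real span of `s`. Write `x = ∑ e k • toR (z k)`, `z k ∈ s` (B4). Under `ad s`, `c` is the
sum of its components of rational weights `μ : s → ℚ` (for instance by A2 over `ℚ`, conjugating by the
rational matrix `P`), `x` acts on the component as `∑ e k μ (z k) = 0`, so `μ (z k) = 0` and every `z k`
centralizes `c`. If `z k ≠ 0`, then `{x ∈ L : [x, c] = 0}` is an ideal of `L` containing `z k`, so it
is `L`, `c` is centralized by `realSpan L`, and slices (B4) of elements of `c` lie in the centre of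
`L`, which is `0`. -/
def S_faithful : Prop :=
  ∀ {N : ℕ} {L : Submodule ℚ (MatQ N)} (hL : IsSimpleLie L)
    {s : Submodule ℚ (MatQ N)} (hs : s ≤ L) (hs' : IsSplit s)
    {c : Submodule ℝ (Mat N)} (hc : c ≤ realSpan L) (hc0 : c ≠ ⊥)
    (hci : ∀ x ∈ realSpan L, ∀ y ∈ c, x * y - y * x ∈ c)
    {x : Mat N} (hx : x ∈ realSpan s) (hxc : ∀ y ∈ c, x * y = y * x),
    x = 0

/-- F2. Step 4. Assume A4, B1, B3, D2, D3, D4, F1 and whatever else is needed. Let `𝒩` be the set of
the `u ∈ expGroup (realSpan L)` with `u a u⁻¹ ≤ a`, and for `u ∈ 𝒩` let `F u : d → (s →ₗ[ℚ] ℝ)` be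
`y ↦ (x ↦ tr (x u y u⁻¹))`. Take `u` with the rank of `F u` maximal, let `K` be its kernel and `U` its
range; suppose `K ≠ 0`, so `dim U < dim d ≤ dim s`. Let `β` be a root of `a` with root vector `e` and
`β|s ∉ U`, and take `h`, `f` from D2, `w` from D3, `w ∈ 𝒩`. One has `tr (x h) = β x * b` for
`x ∈ a`, with `b = tr (e f)`, `2 b = tr (h h) > 0`, and `F (w u) y = F u y - β (u y u⁻¹) b β|s`, so `β`
vanishes on `u K u⁻¹`, else the rank of `F (w u)` would be larger. Let `h'` be the Lie algebra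
generated by the root spaces of `realSpan L` with `β|s ∉ U`; it is an ideal of `realSpan L`, since the
weights with restriction in `U` are closed under differences. Let `c` be its centralizer in
`realSpan L`, an ideal, which contains `u K u⁻¹ ≠ 0`. If `0 ≠ x ∈ c` is a root vector of root `β ≠ 0`
then `β|s ∈ U`: otherwise, by nondegeneracy there is a root vector `f'` for `-β` with `tr (x f') ≠ 0`,
`f' ∈ h'`, so `[x, f'] = 0`, but `tr ([x, f'] y) = ± β y * tr (x f')`. Since `U` is a proper subspace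
there is `0 ≠ x ∈ realSpan s ≤ a` killed by `U`; `x` centralizes `c`, contradiction to F1. -/
def S_position : Prop :=
  ∀ {N : ℕ} {L : Submodule ℚ (MatQ N)} (hL : IsSimpleLie L)
    {s : Submodule ℚ (MatQ N)} (hs : s ≤ L) (hs' : IsSplit s)
    {a : Submodule ℝ (Mat N)} (ha : IsMaxSplit (realSpan L) a) (hsa : ∀ x ∈ s, toR x ∈ a)
    {d : Submodule ℝ (Mat N)} (hd : d ≤ a) (hd0 : 0 < finrank ℝ d)
    (hds : finrank ℝ d ≤ finrank ℚ s),
    ∃ u ∈ expGroup (realSpan L),
      (∀ y ∈ a, (u : Mat N) * y * ((u⁻¹ : GL (Fin N) ℝ) : Mat N) ∈ a) ∧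
      ∀ y ∈ d, (∀ x ∈ s, (toR x * ((u : Mat N) * y * ((u⁻¹ : GL (Fin N) ℝ) : Mat N))).trace = 0) →
        y = 0

/-- F3. Step 6. `M` plays the role of the Lie algebra generated by the moves. One may replace `M` by
the Lie algebra generated by the moves (`E ∈ L`, `[x, E] = α x E`, `realFn α ∉ U`). By A4 over `ℚ`, `L`
is the sum of its weight spaces for `s`. If `x ∈ L` has weight in `U` and `E` is a move then `[x, E]`
is zero or a move (`U` is a subspace). So the Lie algebra generated by the moves is an ideal of `L`. It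
is not `0`: otherwise all weights of `s` on `L` lie in `U`, and (`U` is a proper subspace) there is
`0 ≠ x ∈ realSpan s` on which all weights vanish, against F1 with `c = realSpan L`. -/
def S_generation : Prop :=
  ∀ {N : ℕ} {L : Submodule ℚ (MatQ N)} (hL : IsSimpleLie L)
    {s : Submodule ℚ (MatQ N)} (hs : s ≤ L) (hs' : IsSplit s)
    (U : Submodule ℝ (s →ₗ[ℚ] ℝ)) (hU : finrank ℝ U < finrank ℚ s)
    (M : Submodule ℚ (MatQ N)) (hM : ∀ x ∈ M, ∀ y ∈ M, x * y - y * x ∈ M)
    (hmoves : ∀ E ∈ L, (∃ α : s →ₗ[ℚ] ℚ, (∀ x : s, (x : MatQ N) * E - E * (x : MatQ N) = α x • E) ∧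
      realFn α ∉ U) → E ∈ M),
    L ≤ M

/-- F4. Step 5. Take `P`, `μ` from A2 over `ℚ`. For `y ∈ d` put `δ i (y) = (P⁻¹ y P) i i`; then
`tr (x y) = ∑ i, μ i x * δ i y` for `x ∈ s` and `∑ i, δ i y = 0`. For `λ ∈ s` with `α λ ≥ 0` and `c ∈ ℚ`
let `J = {i | c ≤ μ i λ}` (finitely many different sets `J`; take all these), `B` an integral multiple
of the matrix of the columns `i ∈ J` of `P`, `κ y = ∑ i ∈ J, δ i y`. Entries `(i, j)` of `P⁻¹ y P`,
`y ∈ d`, vanish if `μ i ≠ μ j`, entries of `P⁻¹ E P` vanish unless `μ i - μ j = α`. So `y B = B m`,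
`E B = B n` with `tr m = κ y`, `tr n = 0`, `exp(y) exp(tE) B = B exp(m) exp(tn)` and `det exp = exp tr`
(a proof of `det exp = exp tr` is in `Pool/Agent/R818/RN/CHI.lean` of the repository, lemma `det_exp`;
copy it, do not import). If all `κ ≥ 0` at `y`, summation by parts over the values of `μ i λ` gives
`tr (λ y) ≥ 0` for all `λ` with `α λ ≥ 0`; so `x ↦ tr (x y)` vanishes on `ker α` and is a multiple `c α`;
if `c ≠ 0` then `hα` fails for `c⁻¹ y`; so `c = 0` and `y = 0` by `hinj`. -/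
def S_cover : Prop :=
  ∀ {N : ℕ} {s : Submodule ℚ (MatQ N)} (hs' : IsSplit s)
    {d : Submodule ℝ (Mat N)} (hsd : ∀ x ∈ s, ∀ y ∈ d, toR x * y = y * toR x)
    (htr : ∀ y ∈ d, y.trace = 0)
    (hinj : ∀ y ∈ d, (∀ x ∈ s, (toR x * y).trace = 0) → y = 0)
    {E : MatQ N} {α : s →ₗ[ℚ] ℚ} (hE : ∀ x : s, (x : MatQ N) * E - E * (x : MatQ N) = α x • E)
    (hα : ∀ y ∈ d, ¬ ∀ x : s, (toR (x : MatQ N) * y).trace = ((α x : ℚ) : ℝ)),
    ∃ (n : ℕ) (k : Fin n → ℕ) (B : ∀ i, Matrix (Fin N) (Fin (k i)) ℤ)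
      (κ : Fin n → (Mat N →ₗ[ℝ] ℝ)), (∀ i, k i ≤ N) ∧ (∀ i, Pl (intR (B i)) ≠ 0) ∧
      (∀ i, ∀ y ∈ d, ∀ t : ℝ, Pl ((expGL y : Mat N) * (expGL (t • toR E) : Mat N) * intR (B i)) =
        Real.exp (κ i y) • Pl (intR (B i))) ∧
      ∀ y ∈ d, y ≠ 0 → ∃ i, κ i y < 0

/-! ## G. The construction (paper, Step 7), in abstract form -/

/-- G1. The abstract construction (done by helper654). -/
def S_core : Prop :=
  ∀ {G E V ι : Type} [Group G] [TopologicalSpace G] [IsTopologicalGroup G] [T2Space G]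
    [LocallyCompactSpace G] [NormedAddCommGroup E] [ProperSpace E] [Nonempty ι]
    (a : E → G) (ha : Continuous a) (u : ι → ℝ → G) (hu : ∀ i, Continuous (u i))
    (hu0 : ∀ i, u i 0 = 1) (GQ : Set G) (h1 : (1 : G) ∈ GQ)
    (hGQ : ∀ (i : ι) (q : ℚ), ∀ g ∈ GQ, u i (q : ℝ) * g ∈ GQ)
    (Nv : V → G → ℝ) (hNv : ∀ v, Continuous (Nv v))
    (hcov : ∀ i, ∀ g ∈ GQ, ∀ ε > 0, ∃ (F : Finset V) (R : ℝ), ∀ (t : ℝ) (y : E), R ≤ ‖y‖ →
      ∃ v ∈ F, Nv v (a y * u i t * g) < ε)
    (Ω : ℕ → Set G) (hΩ : ∀ n, IsClosed (Ω n))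
    (hfin : ∀ (n : ℕ) (i : ι) (h h' : G), (∃ t : ℝ, h * u i t * h' ∉ Ω n) →
      {t : ℝ | h * u i t * h' ∈ Ω n}.Finite)
    (hesc : ∀ (n : ℕ) (g : G), ∃ l : List (ι × ℝ), (l.map fun p => u p.1 p.2).prod * g ∉ Ω n),
    ∃ g : G, (∀ n, g ∉ Ω n) ∧ ∀ ε > 0, ∃ R : ℝ, ∀ y : E, R ≤ ‖y‖ → ∃ v, Nv v (a y * g) < ε

/-- G2. Criterion for divergence (paper, end of Step 7). -/
def S_divergence : Prop :=
  ∀ {N : ℕ} {H : QGroup N} {Γ : Subgroup H.G} (hΓ : Γ.Commensurable H.intPoints)
    {r : ℕ} (δ : (Fin r → ℝ) →ₗ[ℝ] H.lieR) (g : H.G)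
    (h : ∀ ε > 0, ∃ R : ℝ, ∀ y : Fin r → ℝ, R ≤ ‖y‖ → ∃ (k : ℕ) (_ : k ≤ N)
      (B : Matrix (Fin N) (Fin k) ℤ), Pl (intR B) ≠ 0 ∧
        ‖Pl ((((H.exp (δ y) * g : H.G) : GL (Fin N) ℝ) : Mat N) * intR B)‖ < ε),
    Tendsto (fun y => ((H.exp (δ y) * g : H.G) : H.G ⧸ Γ)) (cocompact (Fin r → ℝ))
      (cocompact (H.G ⧸ Γ))

/-- G3. The group `G` is locally compact. -/
def S_locallyCompact : Prop :=
  ∀ {N : ℕ} (H : QGroup N),
    LocallyCompactSpace H.G

/-! ## R. Representations (paper, Step 8) -/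

/-- R1. `{v | ρ(exp(tX)) v → 0}` is a linear subspace of a finite-dimensional space, so closed, and
`g ↦ ρ(g) w` is continuous, because its entries are polynomials in the entries of `g` and `g⁻¹`. -/
def S_rep_closed : Prop :=
  ∀ {N : ℕ} {H : QGroup N} (r : H.Rep) (X : H.lieR) (w : Fin r.m → ℝ),
    IsClosed (QGroup.Om r X w)

/-- R2. `t ↦ ρ(h exp(tE) h') w` is a polynomial in `t` with vector coefficients, because `exp(tE)`
is polynomial in `t` for `E` nilpotent. If its value at one `t` is outside the linear subspace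
`V = {v | ρ(exp(tX)) v → 0}`, compose with a linear functional vanishing on `V` and not at this value:
a nonzero polynomial. (Here `h exp(tE) h' ∈ Om r X w` iff `ρ(h exp(tE) h') w ∈ V`.) -/
def S_rep_finite : Prop :=
  ∀ {N : ℕ} {H : QGroup N} (r : H.Rep) (X : H.lieR) (w : Fin r.m → ℝ)
    (E : H.lieR) (hE : IsNilpotent (E : Mat N)) (h h' : H.G)
    (hex : ∃ t : ℝ, h * H.exp (t • E) * h' ∉ QGroup.Om r X w),
    {t : ℝ | h * H.exp (t • E) * h' ∈ QGroup.Om r X w}.Finite

/-- R3. Suppose that all these products times `g` lie in `Om r X w`. Let `W` be the span of the vectors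
`ρ(product * g) w`; it is nonzero, contained in `V = {v | ρ(exp(tX)) v → 0}` and invariant under
`ρ(exp(tE))`, `E` a move. Let `dρ : Mat N → Mat m` be the linear map `Y ↦ D P (1, 1) (Y, -Y)`, the derivative
at the identity of the polynomial map of `r.spec`. For `Y ∈ H.lieR`, `ρ(exp(tY)) = exp(t dρ(Y))` (a
differentiable one-parameter group), and `dρ (g Y g⁻¹) = ρ(g) dρ(Y) ρ(g)⁻¹`, whence
`dρ [Y, Z] = [dρ Y, dρ Z]` for `Y, Z ∈ H.lieR` by differentiating at `g = exp(tY)`. So
`{Y ∈ H.lieR | dρ(Y) W ≤ W}` is closed under brackets and contains the moves, so it is everything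
(hgen). The trace of `dρ(Y)` on `W` vanishes on brackets, so everywhere (hperf); but
`exp(t dρ(X)|W) → 0` and `det exp = exp tr = 1`: contradiction. (A proof of `det exp = exp tr` is in
`Pool/Agent/R818/RN/CHI.lean`, lemma `det_exp`; copy it, do not import.) -/
def S_rep_escape : Prop :=
  ∀ {N : ℕ} {H : QGroup N}
    (hperf : ∀ M : Submodule ℝ (Mat N), (∀ x ∈ H.lieR, ∀ y ∈ H.lieR, x * y - y * x ∈ M) →
      H.lieR ≤ M)
    (moves : Set H.lieR)
    (hgen : ∀ M : Submodule ℝ (Mat N), M ≤ H.lieR → (∀ x ∈ M, ∀ y ∈ M, x * y - y * x ∈ M) →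
      (∀ E ∈ moves, (E : Mat N) ∈ M) → H.lieR ≤ M)
    (r : H.Rep) (X : H.lieR) {w : Fin r.m → ℝ} (hw : w ≠ 0) (g : H.G),
    ∃ l : List (H.lieR × ℝ), (∀ p ∈ l, p.1 ∈ moves) ∧
      (l.map fun p => H.exp (p.2 • p.1)).prod * g ∉ QGroup.Om r X w

/-- R4. Every entry of `t ↦ ρ(exp(tX) g) w` is a finite sum `∑ c_κ exp(κ t)` with real exponents `κ`,
because the entries of `exp(±tX)` are, `X` being diagonalizable, and such sums form an algebra. If such
a sum tends to `0` along `φ k → ∞` then all its exponents (with nonzero coefficient) are negative: the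
largest one dominates; so it tends to `0` as `t → ∞`. -/
def S_rep_subseq : Prop :=
  ∀ {N : ℕ} {H : QGroup N} (r : H.Rep) (X : H.lieR)
    (hX : Diagonalizable (X : Mat N)) (w : Fin r.m → ℝ) (g : H.G) (φ : ℕ → ℕ) (hφ : StrictMono φ)
    (h : Tendsto (fun k => r.ρ (H.exp ((φ k : ℝ) • X) * g) *ᵥ w) atTop (𝓝 0)),
    g ∈ QGroup.Om r X w

end Pool.Agent.Helper654_DO
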