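import Pool.Agent.Helper654_DO.Base

/-!
# Statements for the example `SL₂ × SL₂`
-/

set_option autoImplicit false

open Matrix Module Filter Topology

namespace Pool.Agent.Helper654_DO

/-- M1 (reduction theory of `SL₂(ℤ)`, Mahler's criterion in dimension two). Let `w₁` be a nonzero
integral vector for which `‖h w₁‖` (Euclidean) is least; it is primitive, and one completes it to
`γ₀ ∈ SL₂(ℤ)`; adding a multiple of the first column to the second one gets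
`|⟨h w₁, h w₂⟩| ≤ |h w₁|² / 2`; as `det = 1`, `|h w₂|² ≤ 1 / |h w₁|² + |h w₁|² / 4`; and
`|h w₁| ≤ |h w₂|`. -/
def S_mahler2 : Prop :=
  ∀ ε : ℝ, 0 < ε → ∃ C : ℝ, ∀ h : Matrix (Fin 2) (Fin 2) ℝ, h.det = 1 →
    (∀ v : Fin 2 → ℤ, v ≠ 0 → ε ≤ ‖h *ᵥ (fun i => ((v i : ℤ) : ℝ))‖) →
    ∃ γ : Matrix (Fin 2) (Fin 2) ℤ, γ.det = 1 ∧ ∀ i j, |(h * intR γ) i j| ≤ C

/-- M2. If for all large `t` the lattice `a(t) h ℤ²`, `a(t) = diag(e^t, e^-t)`, has a short vector,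
then the first coordinate of `h v` vanishes for a nonzero `v ∈ ℤ²`. Take `ε = 1/2`. For
integral `v ≠ 0` let `A v` be the open set of the `t` for which `a(t) h v` has both coordinates less
than `ε`. If `A v` and `A w` meet then `|det (v, w)| < 2 ε² < 1`, so `v`, `w` are parallel. As
`[T, ∞)` is connected, all the vectors `v` with `A v ∩ [T, ∞) ≠ ∅` are parallel to one primitive
vector `w`, and `e^t |(h w)₀| < ε` for all `t ≥ T`. -/
def S_shortconst : Prop :=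
  ∀ h : Matrix (Fin 2) (Fin 2) ℝ, h.det = 1 →
    (∀ ε : ℝ, 0 < ε → ∃ T : ℝ, ∀ t : ℝ, T ≤ t → ∃ v : Fin 2 → ℤ, v ≠ 0 ∧
      |Real.exp t * (h *ᵥ (fun i => ((v i : ℤ) : ℝ))) 0| < ε ∧
      |Real.exp (-t) * (h *ᵥ (fun i => ((v i : ℤ) : ℝ))) 1| < ε) →
    ∃ v : Fin 2 → ℤ, v ≠ 0 ∧ (h *ᵥ (fun i => ((v i : ℤ) : ℝ))) 0 = 0

end Pool.Agent.Helper654_DO
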