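import Pool.Agent.Helper654_DO.Stmts2

set_option autoImplicit false

open Matrix Module Filter Topology

namespace Pool.Agent.Helper654_DO

namespace Mahler2

/-- sum of squares of the entries -/
def F (x : Matrix (Fin 2) (Fin 2) ℝ) : ℝ := x 0 0 ^ 2 + x 1 0 ^ 2 + x 0 1 ^ 2 + x 1 1 ^ 2

lemma entry_le (x : Matrix (Fin 2) (Fin 2) ℝ) (i j : Fin 2) : x i j ^ 2 ≤ F x := by
  unfold F
  fin_cases i <;> fin_cases j <;> simp <;> nlinarith [sq_nonneg (x 0 0), sq_nonneg (x 0 1),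
    sq_nonneg (x 1 0), sq_nonneg (x 1 1)]

lemma intR_mul (a b : Matrix (Fin 2) (Fin 2) ℤ) : intR (a * b) = intR a * intR b := by
  unfold intR
  exact Matrix.map_mul (f := Int.castRingHom ℝ)

lemma intR_apply (a : Matrix (Fin 2) (Fin 2) ℤ) (i j : Fin 2) : intR a i j = (a i j : ℝ) := rfl

lemma finite_bdd (h : Matrix (Fin 2) (Fin 2) ℝ) (hd : h.det = 1) (B : ℝ) :
    {γ : Matrix (Fin 2) (Fin 2) ℤ | F (h * intR γ) ≤ B}.Finite := by
  -- entries of γ are bounded
  set M : ℝ := (|h 0 0| + |h 0 1| + |h 1 0| + |h 1 1|) * (B + 1) with hM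
  have hbd : ∀ γ : Matrix (Fin 2) (Fin 2) ℤ, F (h * intR γ) ≤ B → ∀ i j, |((γ i j : ℤ) : ℝ)| ≤ M := by
    intro γ hγ i j
    have hB : 0 ≤ B := by
      have := entry_le (h * intR γ) 0 0
      nlinarith [sq_nonneg ((h * intR γ) 0 0)]
    have hx : ∀ i j, |(h * intR γ) i j| ≤ B + 1 := by
      intro i j
      have := (entry_le (h * intR γ) i j).trans hγ
      rw [← sq_abs] at this
      nlinarith [abs_nonneg ((h * intR γ) i j)]
    rw [Matrix.det_fin_two] at hd
    have e0 : ∀ j, ((γ 0 j : ℤ) : ℝ) = h 1 1 * (h * intR γ) 0 j - h 0 1 * (h * intR γ) 1 j := by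
      intro j
      simp only [Matrix.mul_apply, Fin.sum_univ_two, intR_apply]
      linear_combination -((γ 0 j : ℤ) : ℝ) * hd
    have e1 : ∀ j, ((γ 1 j : ℤ) : ℝ) = - h 1 0 * (h * intR γ) 0 j + h 0 0 * (h * intR γ) 1 j := by
      intro j
      simp only [Matrix.mul_apply, Fin.sum_univ_two, intR_apply]
      linear_combination -((γ 1 j : ℤ) : ℝ) * hd
    have a00 := abs_nonneg (h 0 0)
    have a01 := abs_nonneg (h 0 1)
    have a10 := abs_nonneg (h 1 0)
    have a11 := abs_nonneg (h 1 1)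
    fin_cases i
    · show |((γ 0 j : ℤ) : ℝ)| ≤ M
      rw [e0 j]
      calc |h 1 1 * (h * intR γ) 0 j - h 0 1 * (h * intR γ) 1 j|
          ≤ |h 1 1 * (h * intR γ) 0 j| + |h 0 1 * (h * intR γ) 1 j| := abs_sub _ _
        _ = |h 1 1| * |(h * intR γ) 0 j| + |h 0 1| * |(h * intR γ) 1 j| := by
            rw [abs_mul (h 1 1), abs_mul (h 0 1)]
        _ ≤ |h 1 1| * (B + 1) + |h 0 1| * (B + 1) := by
            gcongr
            · exact hx 0 j
            · exact hx 1 j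
        _ ≤ M := by rw [hM]; nlinarith
    · show |((γ 1 j : ℤ) : ℝ)| ≤ M
      rw [e1 j]
      calc |- h 1 0 * (h * intR γ) 0 j + h 0 0 * (h * intR γ) 1 j|
          ≤ |- h 1 0 * (h * intR γ) 0 j| + |h 0 0 * (h * intR γ) 1 j| := abs_add_le _ _
        _ = |h 1 0| * |(h * intR γ) 0 j| + |h 0 0| * |(h * intR γ) 1 j| := by
            rw [abs_mul (-h 1 0), abs_mul (h 0 0), abs_neg]
        _ ≤ |h 1 0| * (B + 1) + |h 0 0| * (B + 1) := by
            gcongr
            · exact hx 0 j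
            · exact hx 1 j
        _ ≤ M := by rw [hM]; nlinarith
  -- embed in a finite set
  have hfin : (Set.Icc (fun _ _ => -⌈M⌉ : Fin 2 → Fin 2 → ℤ) (fun _ _ => ⌈M⌉)).Finite :=
    Set.finite_Icc _ _
  refine (hfin.preimage (f := fun γ : Matrix (Fin 2) (Fin 2) ℤ => (fun i j => γ i j))
    (fun a _ b _ hab => by
      ext i j; exact congrFun (congrFun hab i) j)).subset ?_
  intro γ hγ
  have hb := hbd γ hγ
  refine ⟨fun i j => ?_, fun i j => ?_⟩
  · have := (abs_le.mp (hb i j)).1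
    have h2 := Int.le_ceil M
    have : (-(⌈M⌉ : ℝ)) ≤ (γ i j : ℝ) := by linarith
    exact_mod_cast this
  · have := (abs_le.mp (hb i j)).2
    have h2 := Int.le_ceil M
    have : ((γ i j : ℤ) : ℝ) ≤ (⌈M⌉ : ℝ) := by linarith
    exact_mod_cast this

end Mahler2

open Mahler2

theorem T_mahler2 : S_mahler2 := by
  intro ε hε
  refine ⟨2 / ε, ?_⟩
  intro h hd hsh
  -- the minimiser
  obtain ⟨γ, ⟨hγd, hγF⟩, hmin⟩ := Set.exists_min_image
    {γ : Matrix (Fin 2) (Fin 2) ℤ | γ.det = 1 ∧ F (h * intR γ) ≤ F (h * intR 1)}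
    (fun γ => F (h * intR γ))
    ((finite_bdd h hd (F (h * intR 1))).subset fun γ hγ => hγ.2)
    ⟨1, by simp, le_rfl⟩
  have hmin' : ∀ δ : Matrix (Fin 2) (Fin 2) ℤ, δ.det = 1 → F (h * intR γ) ≤ F (h * intR δ) := by
    intro δ hδ
    by_cases hc : F (h * intR δ) ≤ F (h * intR 1)
    · exact hmin δ ⟨hδ, hc⟩
    · push Not at hc
      exact hγF.trans hc.le
  refine ⟨γ, hγd, ?_⟩
  set x := h * intR γ with hx
  -- elementary moves
  have move : ∀ e : Matrix (Fin 2) (Fin 2) ℤ, e.det = 1 → F x ≤ F (x * intR e) := by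
    intro e he
    have := hmin' (γ * e) (by rw [Matrix.det_mul, hγd, he, one_mul])
    rwa [intR_mul, ← Matrix.mul_assoc] at this
  have m1 := move !![1, 1; 0, 1] (by simp [Matrix.det_fin_two])
  have m2 := move !![1, -1; 0, 1] (by simp [Matrix.det_fin_two])
  have m3 := move !![1, 0; 1, 1] (by simp [Matrix.det_fin_two])
  have m4 := move !![1, 0; -1, 1] (by simp [Matrix.det_fin_two])
  simp only [F, Matrix.mul_apply, Fin.sum_univ_two, intR_apply, Matrix.of_apply, Matrix.cons_val',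
    Matrix.cons_val_zero, Matrix.cons_val_one, Int.cast_one, Int.cast_zero, Int.cast_neg] at m1 m2 m3 m4
  have hxd : x 0 0 * x 1 1 - x 0 1 * x 1 0 = 1 := by
    have : x.det = 1 := by
      rw [hx, Matrix.det_mul, hd, one_mul]
      have : (intR γ).det = ((γ.det : ℤ) : ℝ) := by
        simp [Matrix.det_fin_two, intR_apply]
      rw [this, hγd]; simp
    rwa [Matrix.det_fin_two] at this
  -- columns are not short
  have hcol : ∀ j, ε ^ 2 ≤ x 0 j ^ 2 + x 1 j ^ 2 := by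
    intro j
    have hne : (fun i => γ i j) ≠ 0 := by
      intro h0
      have h00 : γ 0 j = 0 := congrFun h0 0
      have h01 : γ 1 j = 0 := congrFun h0 1
      rw [Matrix.det_fin_two] at hγd
      fin_cases j
      · simp only [Fin.zero_eta] at h00 h01
        rw [h00, h01] at hγd; simp at hγd
      · simp only [Fin.mk_one] at h00 h01
        rw [h00, h01] at hγd; simp at hγd
    have h1 := hsh (fun i => γ i j) hne
    have h2 : (h *ᵥ (fun i => ((γ i j : ℤ) : ℝ))) = fun i => x i j := by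
      funext i
      rw [hx]
      simp [Matrix.mulVec, dotProduct, Matrix.mul_apply, intR_apply]
    rw [h2] at h1
    -- the sup norm is attained
    obtain ⟨i, hi⟩ : ∃ i, ε ≤ |x i j| := by
      by_contra hcon
      push Not at hcon
      have : ‖fun i => x i j‖ < ε := (pi_norm_lt_iff hε).mpr fun i => by
        rw [Real.norm_eq_abs]; exact hcon i
      linarith
    have hsq : ε ^ 2 ≤ x i j ^ 2 := by
      rw [← sq_abs (x i j)]
      exact pow_le_pow_left₀ hε.le hi 2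
    fin_cases i
    · simp only [Fin.zero_eta] at hsq
      nlinarith [sq_nonneg (x 1 j)]
    · simp only [Fin.mk_one] at hsq
      nlinarith [sq_nonneg (x 0 j)]
  -- reduction inequalities
  set p := x 0 0 ^ 2 + x 1 0 ^ 2 with hp
  set q := x 0 1 ^ 2 + x 1 1 ^ 2 with hq
  set s := x 0 0 * x 0 1 + x 1 0 * x 1 1 with hs
  have h1 : -p ≤ 2 * s := by rw [hp, hs]; nlinarith
  have h2 : 2 * s ≤ p := by rw [hp, hs]; nlinarith
  have h3 : -q ≤ 2 * s := by rw [hq, hs]; nlinarith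
  have h4 : 2 * s ≤ q := by rw [hq, hs]; nlinarith
  have hpe : ε ^ 2 ≤ p := hcol 0
  have hqe : ε ^ 2 ≤ q := hcol 1
  have hdet : p * q - s ^ 2 = 1 := by
    have : p * q - s ^ 2 = (x 0 0 * x 1 1 - x 0 1 * x 1 0) ^ 2 := by rw [hp, hq, hs]; ring
    rw [this, hxd]; ring
  have hs2 : 4 * s ^ 2 ≤ p * q := by
    have hp0 : 0 ≤ p := (sq_nonneg ε).trans hpe
    have hq0 : 0 ≤ q := (sq_nonneg ε).trans hqe
    have ha : |2 * s| ≤ p := abs_le.mpr ⟨by linarith, h2⟩
    have hb : |2 * s| ≤ q := abs_le.mpr ⟨by linarith, h4⟩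
    have := mul_le_mul ha hb (abs_nonneg _) hp0
    rw [abs_mul_abs_self] at this
    nlinarith
  have hpq : p * q ≤ 4 / 3 := by nlinarith
  have hε2 : 0 < ε ^ 2 := by positivity
  have hpb : p ≤ (2 / ε) ^ 2 := by
    rw [div_pow, le_div_iff₀ hε2]
    nlinarith
  have hqb : q ≤ (2 / ε) ^ 2 := by
    rw [div_pow, le_div_iff₀ hε2]
    nlinarith
  intro i j
  apply abs_le_of_sq_le_sq _ (by positivity)
  fin_cases i <;> fin_cases j
  · show x 0 0 ^ 2 ≤ _
    nlinarith [sq_nonneg (x 1 0)]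
  · show x 0 1 ^ 2 ≤ _
    nlinarith [sq_nonneg (x 1 1)]
  · show x 1 0 ^ 2 ≤ _
    nlinarith [sq_nonneg (x 0 0)]
  · show x 1 1 ^ 2 ≤ _
    nlinarith [sq_nonneg (x 0 1)]

end Pool.Agent.Helper654_DO
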