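import Pool.Agent.Helper654_DO.Stmts2

set_option autoImplicit false

open Matrix Module Filter Topology

namespace Pool.Agent.Helper654_DO

namespace ShortConst

lemma toReal_mulVec (h : Matrix (Fin 2) (Fin 2) ℝ) (v : Fin 2 → ℤ) (i : Fin 2) :
    (h *ᵥ (fun i => ((v i : ℤ) : ℝ))) i = h i 0 * (v 0 : ℝ) + h i 1 * (v 1 : ℝ) := by
  simp [Matrix.mulVec, dotProduct, Fin.sum_univ_two]

/-- the open set of times -/
def A (h : Matrix (Fin 2) (Fin 2) ℝ) (v : Fin 2 → ℤ) : Set ℝ :=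
  {t | |Real.exp t * (h *ᵥ (fun i => ((v i : ℤ) : ℝ))) 0| < 1 / 2 ∧
      |Real.exp (-t) * (h *ᵥ (fun i => ((v i : ℤ) : ℝ))) 1| < 1 / 2}

lemma isOpen_A (h : Matrix (Fin 2) (Fin 2) ℝ) (v : Fin 2 → ℤ) : IsOpen (A h v) := by
  have h0 : Continuous fun t : ℝ => |Real.exp t * (h *ᵥ (fun i => ((v i : ℤ) : ℝ))) 0| := by fun_prop
  have h1 : Continuous fun t : ℝ => |Real.exp (-t) * (h *ᵥ (fun i => ((v i : ℤ) : ℝ))) 1| := by
    fun_prop
  exact IsOpen.inter (isOpen_lt h0 continuous_const) (isOpen_lt h1 continuous_const)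

lemma parallel (h : Matrix (Fin 2) (Fin 2) ℝ) (hd : h.det = 1) (v w : Fin 2 → ℤ) (t : ℝ)
    (hv : t ∈ A h v) (hw : t ∈ A h w) : v 0 * w 1 = v 1 * w 0 := by
  obtain ⟨hv0, hv1⟩ := hv
  obtain ⟨hw0, hw1⟩ := hw
  rw [Matrix.det_fin_two] at hd
  have hee : Real.exp t * Real.exp (-t) = 1 := by rw [← Real.exp_add]; simp
  set a := Real.exp t * (h *ᵥ (fun i => ((v i : ℤ) : ℝ))) 0 with ha
  set b := Real.exp (-t) * (h *ᵥ (fun i => ((v i : ℤ) : ℝ))) 1 with hb
  set c := Real.exp t * (h *ᵥ (fun i => ((w i : ℤ) : ℝ))) 0 with hc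
  set d := Real.exp (-t) * (h *ᵥ (fun i => ((w i : ℤ) : ℝ))) 1 with hd'
  have key : a * d - b * c = ((v 0 * w 1 - v 1 * w 0 : ℤ) : ℝ) := by
    rw [ha, hb, hc, hd']
    simp only [toReal_mulVec]
    push_cast
    calc _ = (Real.exp t * Real.exp (-t)) * (h 0 0 * h 1 1 - h 0 1 * h 1 0) *
          ((v 0 : ℝ) * w 1 - v 1 * w 0) := by ring
      _ = _ := by rw [hee, hd]; ring
  have hlt : |((v 0 * w 1 - v 1 * w 0 : ℤ) : ℝ)| < 1 := by
    rw [← key]
    calc |a * d - b * c| ≤ |a * d| + |b * c| := abs_sub _ _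
      _ = |a| * |d| + |b| * |c| := by rw [abs_mul a d, abs_mul b c]
      _ < 1 := by nlinarith [abs_nonneg a, abs_nonneg b, abs_nonneg c, abs_nonneg d]
  have h0 : |(v 0 * w 1 - v 1 * w 0 : ℤ)| < 1 := by exact_mod_cast hlt
  have := Int.abs_lt_one_iff.mp h0
  linarith

end ShortConst

open ShortConst

theorem T_shortconst : S_shortconst := by
  intro h hd hyp
  obtain ⟨T, hT⟩ := hyp (1 / 2) (by norm_num)
  obtain ⟨u, hu0, huT⟩ := hT T le_rfl
  -- the parallel class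
  have hsub : ∀ t, T ≤ t → ∃ v : Fin 2 → ℤ, v ≠ 0 ∧ v 0 * u 1 = v 1 * u 0 ∧ t ∈ A h v := by
    set U : Set ℝ := ⋃ v : {v : Fin 2 → ℤ // v ≠ 0 ∧ v 0 * u 1 = v 1 * u 0}, A h v.1 with hU
    set V : Set ℝ := ⋃ v : {v : Fin 2 → ℤ // v ≠ 0 ∧ ¬ v 0 * u 1 = v 1 * u 0}, A h v.1 with hV
    have hUo : IsOpen U := isOpen_iUnion fun v => isOpen_A h v.1
    have hVo : IsOpen V := isOpen_iUnion fun v => isOpen_A h v.1
    have hcov : Set.Ici T ⊆ U ∪ V := by
      intro t ht
      obtain ⟨v, hv, hvt⟩ := hT t ht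
      by_cases hp : v 0 * u 1 = v 1 * u 0
      · exact Or.inl (Set.mem_iUnion.mpr ⟨⟨v, hv, hp⟩, hvt⟩)
      · exact Or.inr (Set.mem_iUnion.mpr ⟨⟨v, hv, hp⟩, hvt⟩)
    have hdisj : Disjoint U V := by
      rw [Set.disjoint_left]
      intro t htU htV
      obtain ⟨⟨v, hv, hpv⟩, hvt⟩ := Set.mem_iUnion.mp htU
      obtain ⟨⟨w, hw, hpw⟩, hwt⟩ := Set.mem_iUnion.mp htV
      have hvw := parallel h hd v w t hvt hwt
      apply hpw
      -- v ∥ u, v ∥ w, v ≠ 0
      rcases eq_or_ne (v 0) 0 with h0 | h0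
      · have h1 : v 1 ≠ 0 := by
          intro h1; apply hv; funext i; fin_cases i
          · exact h0
          · exact h1
        rw [h0, zero_mul] at hpv hvw
        have hu0' : u 0 = 0 := by
          rcases mul_eq_zero.mp hpv.symm with h | h
          · exact absurd h h1
          · exact h
        have hw0' : w 0 = 0 := by
          rcases mul_eq_zero.mp hvw.symm with h | h
          · exact absurd h h1
          · exact h
        rw [hu0', hw0']; simp
      · have : v 0 * (w 0 * u 1 - w 1 * u 0) = 0 := by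
          calc v 0 * (w 0 * u 1 - w 1 * u 0) = w 0 * (v 0 * u 1) - u 0 * (v 0 * w 1) := by ring
            _ = 0 := by rw [hpv, hvw]; ring
        rcases mul_eq_zero.mp this with h | h
        · exact absurd h h0
        · linarith
    have hTU : (Set.Ici T ∩ U).Nonempty :=
      ⟨T, Set.mem_Ici.mpr le_rfl, Set.mem_iUnion.mpr ⟨⟨u, hu0, by ring⟩, huT⟩⟩
    have hconn : IsPreconnected (Set.Ici T) := isPreconnected_Ici
    have hss : Set.Ici T ⊆ U := hconn.subset_left_of_subset_union hUo hVo hdisj hcov hTU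
    intro t ht
    obtain ⟨⟨v, hv, hpv⟩, hvt⟩ := Set.mem_iUnion.mp (hss ht)
    exact ⟨v, hv, hpv, hvt⟩
  refine ⟨u, hu0, ?_⟩
  -- index with u i ≠ 0
  obtain ⟨i, hi⟩ : ∃ i, u i ≠ 0 := by
    by_contra hne
    push Not at hne
    exact hu0 (funext hne)
  have hbound : ∀ t, T ≤ t →
      |(h *ᵥ (fun i => ((u i : ℤ) : ℝ))) 0| ≤ |(u i : ℝ)| * Real.exp (-t) := by
    intro t ht
    obtain ⟨v, hv, hpv, hvt⟩ := hsub t ht
    -- u i • v = v i • u
    have hpar : ∀ j, u i * v j = v i * u j := by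
      intro j
      fin_cases i <;> fin_cases j <;> simp at hpv ⊢ <;> linarith
    have hvi : v i ≠ 0 := by
      intro h0
      apply hv
      funext j
      have := hpar j
      rw [h0, zero_mul] at this
      rcases mul_eq_zero.mp this with h | h
      · exact absurd h hi
      · exact h
    have hvi1 : (1 : ℝ) ≤ |(v i : ℝ)| := by
      have : (1 : ℤ) ≤ |v i| := Int.one_le_abs hvi
      exact_mod_cast this
    have heq : (u i : ℝ) * (h *ᵥ (fun i => ((v i : ℤ) : ℝ))) 0 =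
        (v i : ℝ) * (h *ᵥ (fun i => ((u i : ℤ) : ℝ))) 0 := by
      have h0 : (u i : ℝ) * v 0 = v i * u 0 := by exact_mod_cast hpar 0
      have h1 : (u i : ℝ) * v 1 = v i * u 1 := by exact_mod_cast hpar 1
      simp only [toReal_mulVec]
      linear_combination h 0 0 * h0 + h 0 1 * h1
    have hlt := hvt.1
    rw [abs_mul, abs_of_pos (Real.exp_pos t)] at hlt
    have hee : Real.exp t * Real.exp (-t) = 1 := by rw [← Real.exp_add]; simp
    have hv0 : |(h *ᵥ (fun i => ((v i : ℤ) : ℝ))) 0| ≤ Real.exp (-t) := by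
      have he : 0 < Real.exp (-t) := Real.exp_pos _
      calc |(h *ᵥ (fun i => ((v i : ℤ) : ℝ))) 0|
          = (Real.exp t * |(h *ᵥ (fun i => ((v i : ℤ) : ℝ))) 0|) * Real.exp (-t) := by
            rw [mul_right_comm, hee, one_mul]
        _ ≤ 1 * Real.exp (-t) := by
            apply mul_le_mul_of_nonneg_right _ he.le
            linarith
        _ = _ := one_mul _
    calc |(h *ᵥ (fun i => ((u i : ℤ) : ℝ))) 0|
        ≤ |(v i : ℝ)| * |(h *ᵥ (fun i => ((u i : ℤ) : ℝ))) 0| :=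
          le_mul_of_one_le_left (abs_nonneg _) hvi1
      _ = |(u i : ℝ)| * |(h *ᵥ (fun i => ((v i : ℤ) : ℝ))) 0| := by
          rw [← abs_mul, ← abs_mul, heq]
      _ ≤ _ := mul_le_mul_of_nonneg_left hv0 (abs_nonneg _)
  have hlim : Tendsto (fun t : ℝ => |(u i : ℝ)| * Real.exp (-t)) atTop (𝓝 0) := by
    have := (Real.tendsto_exp_neg_atTop_nhds_zero).const_mul |(u i : ℝ)|
    simpa using this
  have hle : |(h *ᵥ (fun i => ((u i : ℤ) : ℝ))) 0| ≤ 0 := by
    refine ge_of_tendsto hlim ?_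
    filter_upwards [eventually_ge_atTop T] with t ht
    exact hbound t ht
  exact abs_eq_zero.mp (le_antisymm hle (abs_nonneg _))

end Pool.Agent.Helper654_DO
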